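import Pool.Agent.Lib.MP_8e2345_co.B4.Sem

set_option autoImplicit false

/-!
# The check of the glueings in parts
-/

namespace Pool.Agent.Lib.MP_8e2345_co.B4

theorem chk_of (D : Dat) (ka a n : ℕ) (h : ∀ kb j, 1 ≤ kb → kb ≤ D.K → j ≤ ka → j ≤ kb →
    ka + kb - j - j ≤ D.K → chk1 D ka a n kb j = true) : chk D ka a n = true := by
  unfold chk
  rw [allB_iff]
  intro kb hkb
  by_cases h1 : D.K + 1 ≤ kb
  · rw [Bool.or_eq_true]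
    exact Or.inl (Nat.ble_eq_true_of_le h1)
  · rw [Bool.or_eq_true]
    refine Or.inr ?_
    rw [allB_iff]
    intro j hj
    have hk : 1 ≤ kb := by
      simp only [List.mem_cons, List.not_mem_nil, or_false] at hkb
      omega
    by_cases h2 : ka + 1 ≤ j
    · have e : Nat.ble (Nat.add ka 1) j = true := Nat.ble_eq_true_of_le h2
      simp only [e, Bool.true_or, Bool.or_true]
    by_cases h3 : kb + 1 ≤ j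
    · have e : Nat.ble (Nat.add kb 1) j = true := Nat.ble_eq_true_of_le h3
      simp only [e, Bool.true_or, Bool.or_true]
    by_cases h4 : D.K + 1 ≤ ka + kb - j - j
    · have e : Nat.ble (Nat.add D.K 1) (Nat.sub (Nat.sub (Nat.add ka kb) j) j) = true := Nat.ble_eq_true_of_le h4
      simp only [e, Bool.true_or, Bool.or_true]
    · rw [h kb j hk (by omega) (by omega) (by omega) (by omega)]
      exact Bool.or_true _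

theorem chk4_of (D : Dat) (hK : D.K = 4) (a n : ℕ)
    (h11 : chk1 D 4 a n 1 1 = true) (h21 : chk1 D 4 a n 2 1 = true) (h22 : chk1 D 4 a n 2 2 = true)
    (h32 : chk1 D 4 a n 3 2 = true) (h33 : chk1 D 4 a n 3 3 = true) (h42 : chk1 D 4 a n 4 2 = true)
    (h43 : chk1 D 4 a n 4 3 = true) (h44 : chk1 D 4 a n 4 4 = true) :
    chk D 4 a n = true := by
  refine chk_of D 4 a n fun kb j h1 h2 h3 h4 h5 => ?_
  rw [hK] at h2 h5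
  have h : kb = 1 ∧ j = 1 ∨ kb = 2 ∧ j = 1 ∨ kb = 2 ∧ j = 2 ∨ kb = 3 ∧ j = 2 ∨ kb = 3 ∧ j = 3 ∨ kb = 4 ∧ j = 2 ∨ kb = 4 ∧ j = 3 ∨ kb = 4 ∧ j = 4 := by
    omega
  rcases h with ⟨rfl, rfl⟩ | ⟨rfl, rfl⟩ | ⟨rfl, rfl⟩ | ⟨rfl, rfl⟩ | ⟨rfl, rfl⟩ | ⟨rfl, rfl⟩ | ⟨rfl, rfl⟩ | ⟨rfl, rfl⟩
  · exact h11
  · exact h21
  · exact h22
  · exact h32
  · exact h33
  · exact h42
  · exact h43
  · exact h44

theorem chk3_of (D : Dat) (hK : D.K = 4) (a n : ℕ)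
    (h10 : chk1 D 3 a n 1 0 = true) (h11 : chk1 D 3 a n 1 1 = true) (h21 : chk1 D 3 a n 2 1 = true)
    (h22 : chk1 D 3 a n 2 2 = true) (h31 : chk1 D 3 a n 3 1 = true) (h32 : chk1 D 3 a n 3 2 = true)
    (h33 : chk1 D 3 a n 3 3 = true) (h42 : chk1 D 3 a n 4 2 = true) (h43 : chk1 D 3 a n 4 3 = true) :
    chk D 3 a n = true := by
  refine chk_of D 3 a n fun kb j h1 h2 h3 h4 h5 => ?_
  rw [hK] at h2 h5
  have h : kb = 1 ∧ j = 0 ∨ kb = 1 ∧ j = 1 ∨ kb = 2 ∧ j = 1 ∨ kb = 2 ∧ j = 2 ∨ kb = 3 ∧ j = 1 ∨ kb = 3 ∧ j = 2 ∨ kb = 3 ∧ j = 3 ∨ kb = 4 ∧ j = 2 ∨ kb = 4 ∧ j = 3 := by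
    omega
  rcases h with ⟨rfl, rfl⟩ | ⟨rfl, rfl⟩ | ⟨rfl, rfl⟩ | ⟨rfl, rfl⟩ | ⟨rfl, rfl⟩ | ⟨rfl, rfl⟩ | ⟨rfl, rfl⟩ | ⟨rfl, rfl⟩ | ⟨rfl, rfl⟩
  · exact h10
  · exact h11
  · exact h21
  · exact h22
  · exact h31
  · exact h32
  · exact h33
  · exact h42
  · exact h43

theorem chk2_of (D : Dat) (hK : D.K = 4) (a n : ℕ)
    (h10 : chk1 D 2 a n 1 0 = true) (h11 : chk1 D 2 a n 1 1 = true) (h20 : chk1 D 2 a n 2 0 = true)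
    (h21 : chk1 D 2 a n 2 1 = true) (h22 : chk1 D 2 a n 2 2 = true) (h31 : chk1 D 2 a n 3 1 = true)
    (h32 : chk1 D 2 a n 3 2 = true) (h41 : chk1 D 2 a n 4 1 = true) (h42 : chk1 D 2 a n 4 2 = true) :
    chk D 2 a n = true := by
  refine chk_of D 2 a n fun kb j h1 h2 h3 h4 h5 => ?_
  rw [hK] at h2 h5
  have h : kb = 1 ∧ j = 0 ∨ kb = 1 ∧ j = 1 ∨ kb = 2 ∧ j = 0 ∨ kb = 2 ∧ j = 1 ∨ kb = 2 ∧ j = 2 ∨ kb = 3 ∧ j = 1 ∨ kb = 3 ∧ j = 2 ∨ kb = 4 ∧ j = 1 ∨ kb = 4 ∧ j = 2 := by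
    omega
  rcases h with ⟨rfl, rfl⟩ | ⟨rfl, rfl⟩ | ⟨rfl, rfl⟩ | ⟨rfl, rfl⟩ | ⟨rfl, rfl⟩ | ⟨rfl, rfl⟩ | ⟨rfl, rfl⟩ | ⟨rfl, rfl⟩ | ⟨rfl, rfl⟩
  · exact h10
  · exact h11
  · exact h20
  · exact h21
  · exact h22
  · exact h31
  · exact h32
  · exact h41
  · exact h42

theorem chk1_of (D : Dat) (hK : D.K = 4) (a n : ℕ)
    (h10 : chk1 D 1 a n 1 0 = true) (h11 : chk1 D 1 a n 1 1 = true) (h20 : chk1 D 1 a n 2 0 = true)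
    (h21 : chk1 D 1 a n 2 1 = true) (h30 : chk1 D 1 a n 3 0 = true) (h31 : chk1 D 1 a n 3 1 = true)
    (h41 : chk1 D 1 a n 4 1 = true) :
    chk D 1 a n = true := by
  refine chk_of D 1 a n fun kb j h1 h2 h3 h4 h5 => ?_
  rw [hK] at h2 h5
  have h : kb = 1 ∧ j = 0 ∨ kb = 1 ∧ j = 1 ∨ kb = 2 ∧ j = 0 ∨ kb = 2 ∧ j = 1 ∨ kb = 3 ∧ j = 0 ∨ kb = 3 ∧ j = 1 ∨ kb = 4 ∧ j = 1 := by
    omega
  rcases h with ⟨rfl, rfl⟩ | ⟨rfl, rfl⟩ | ⟨rfl, rfl⟩ | ⟨rfl, rfl⟩ | ⟨rfl, rfl⟩ | ⟨rfl, rfl⟩ | ⟨rfl, rfl⟩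
  · exact h10
  · exact h11
  · exact h20
  · exact h21
  · exact h30
  · exact h31
  · exact h41

end Pool.Agent.Lib.MP_8e2345_co.B4
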