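import Pool.Agent.Lib.MP_8e2345_co.B4.Dat4
import Pool.Agent.Lib.MP_8e2345_co.B4.Spl

set_option autoImplicit false
set_option maxRecDepth 100000

namespace Pool.Agent.Lib.MP_8e2345_co.B4

theorem chkD_1 : chkD D4 1 tabL1 = true := by decide +kernel
theorem chkD_2 : chkD D4 2 tabL2 = true := by decide +kernel
theorem chkD_3 : chkD D4 3 tabL3 = true := by decide +kernel
theorem chkD_4 : chkD D4 4 tabL4 = true := by decide +kernel

theorem chkK_1 : chkK D4 1 = true := by decide +kernel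
theorem chkK_2 : chkK D4 2 = true := by decide +kernel
theorem chkK_3 : chkK D4 3 = true := by decide +kernel
theorem chkK_4 : chkK D4 4 = true := by decide +kernel

theorem chkE : Nat.beq (cov (fun c => RE (dec c)) (D4.trie 2) 1) 0 = true := by decide +kernel

theorem chk_1_0_10 : chk1 D4 1 0 1 1 0 = true := by decide +kernel
theorem chk_1_0_11 : chk1 D4 1 0 1 1 1 = true := by decide +kernel
theorem chk_1_0_20 : chk1 D4 1 0 1 2 0 = true := by decide +kernel
theorem chk_1_0_21 : chk1 D4 1 0 1 2 1 = true := by decide +kernel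
theorem chk_1_0_30 : chk1 D4 1 0 1 3 0 = true := by decide +kernel
theorem chk_1_0_31 : chk1 D4 1 0 1 3 1 = true := by decide +kernel
theorem chk_1_0_41 : chk1 D4 1 0 1 4 1 = true := by decide +kernel

theorem chk_1_0 : chk D4 1 0 1 = true :=
  chk1_of D4 rfl 0 1 chk_1_0_10 chk_1_0_11 chk_1_0_20 chk_1_0_21 chk_1_0_30 chk_1_0_31 chk_1_0_41

theorem chk_2_0_10 : chk1 D4 2 0 2 1 0 = true := by decide +kernel
theorem chk_2_0_11 : chk1 D4 2 0 2 1 1 = true := by decide +kernel
theorem chk_2_0_20 : chk1 D4 2 0 2 2 0 = true := by decide +kernel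
theorem chk_2_0_21 : chk1 D4 2 0 2 2 1 = true := by decide +kernel
theorem chk_2_0_22 : chk1 D4 2 0 2 2 2 = true := by decide +kernel
theorem chk_2_0_31 : chk1 D4 2 0 2 3 1 = true := by decide +kernel
theorem chk_2_0_32 : chk1 D4 2 0 2 3 2 = true := by decide +kernel
theorem chk_2_0_41 : chk1 D4 2 0 2 4 1 = true := by decide +kernel
theorem chk_2_0_42 : chk1 D4 2 0 2 4 2 = true := by decide +kernel

theorem chk_2_0 : chk D4 2 0 2 = true :=
  chk2_of D4 rfl 0 2 chk_2_0_10 chk_2_0_11 chk_2_0_20 chk_2_0_21 chk_2_0_22 chk_2_0_31 chk_2_0_32 chk_2_0_41 chk_2_0_42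

theorem chk_3_0_10 : chk1 D4 3 0 21 1 0 = true := by decide +kernel
theorem chk_3_0_11 : chk1 D4 3 0 21 1 1 = true := by decide +kernel
theorem chk_3_0_21 : chk1 D4 3 0 21 2 1 = true := by decide +kernel
theorem chk_3_0_22 : chk1 D4 3 0 21 2 2 = true := by decide +kernel
theorem chk_3_0_31 : chk1 D4 3 0 21 3 1 = true := by decide +kernel
theorem chk_3_0_32 : chk1 D4 3 0 21 3 2 = true := by decide +kernel
theorem chk_3_0_33 : chk1 D4 3 0 21 3 3 = true := by decide +kernel
theorem chk_3_0_42 : chk1 D4 3 0 21 4 2 = true := by decide +kernel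
theorem chk_3_0_43 : chk1 D4 3 0 21 4 3 = true := by decide +kernel

theorem chk_3_0 : chk D4 3 0 21 = true :=
  chk3_of D4 rfl 0 21 chk_3_0_10 chk_3_0_11 chk_3_0_21 chk_3_0_22 chk_3_0_31 chk_3_0_32 chk_3_0_33 chk_3_0_42 chk_3_0_43

end Pool.Agent.Lib.MP_8e2345_co.B4
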