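import Pool.Agent.Lib.MP_8e2345_co.B4.C4

set_option autoImplicit false
set_option maxRecDepth 100000

namespace Pool.Agent.Lib.MP_8e2345_co.B4

theorem chk_4_724_11 : chk1 D4 4 724 181 1 1 = true := by decide +kernel
theorem chk_4_724_21 : chk1 D4 4 724 181 2 1 = true := by decide +kernel
theorem chk_4_724_22 : chk1 D4 4 724 181 2 2 = true := by decide +kernel
theorem chk_4_724_32 : chk1 D4 4 724 181 3 2 = true := by decide +kernel
theorem chk_4_724_33 : chk1 D4 4 724 181 3 3 = true := by decide +kernel
theorem chk_4_724_42 : chk1 D4 4 724 181 4 2 = true := by decide +kernel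
theorem chk_4_724_43 : chk1 D4 4 724 181 4 3 = true := by decide +kernel
theorem chk_4_724_44 : chk1 D4 4 724 181 4 4 = true := by decide +kernel

theorem chk_4_724 : chk D4 4 724 181 = true :=
  chk4_of D4 rfl 724 181 chk_4_724_11 chk_4_724_21 chk_4_724_22 chk_4_724_32 chk_4_724_33 chk_4_724_42 chk_4_724_43 chk_4_724_44

end Pool.Agent.Lib.MP_8e2345_co.B4
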