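import Mathlib.Data.Nat.Bitwise

set_option autoImplicit false

/-!
# Types of discs and the check of their closure

A type of discs with `k` corners is a list of facts, and a fact is coded by a number. The types with `k` corners are
numbered, and a set of types is a natural number: the type `l` is in the set if the bit `l` is set. In the check, the
bit `i * P + l` stands for the pair of the type `a + i` of a disc `A` and the type `l` of a disc `B`.
-/

namespace Pool.Agent.Lib.MP_8e2345_co.B4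

noncomputable section

/-- Facts about a disc `H` of `G` with corners `c 0, c 1, ...`: `adj i j`: `c i, c j` are adjacent in `H`;
`d2 i j`, `d3 i j`: they are at distance at most `2`, `3` in `G`; `tri i t`: some triangle of `H` is at distance at most
`t` from `c i`; `two i j t`: two distinct triangles of `H` are at distances `a, b` from `c i, c j`, `a + b ≤ t`;
`chy i j`: if `c i, c j` are adjacent in `G` but not in `H`, they have a common neighbour in `H`; `pth i j r t`: in this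
case, a common neighbour such that `c r` is at distance at most `t` from one of the three vertices; `col p`: `H` has a
colouring in which `c i` has the colour `p / 3 ^ i % 3`. -/
inductive Fact
  | adj (i j : ℕ)
  | d2 (i j : ℕ)
  | d3 (i j : ℕ)
  | chy (i j : ℕ)
  | tri (i t : ℕ)
  | two (i j t : ℕ)
  | pth (i j r t : ℕ)
  | col (p : ℕ)
  | non

/-- Evaluate `n` first. -/
def force {α : Type} (n : ℕ) (k : ℕ → α) : α := @Nat.rec (fun _ => α) (k 0) (fun m _ => k m) (Nat.add n 1)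

theorem force_eq {α : Type} (n : ℕ) (k : ℕ → α) : force n k = k n := rfl

/-- `if b then x else y` -/
def ifB {α : Type} (b : Bool) (x y : α) : α := @Bool.rec (fun _ => α) y x b

/-- Both. -/
def andB (x y : Bool) : Bool := @Bool.rec (fun _ => Bool) false y x

def pi (i j : ℕ) : ℕ :=
  ifB (Nat.ble i j) (Nat.add (Nat.div (Nat.mul j (Nat.sub j 1)) 2) i) (Nat.add (Nat.div (Nat.mul i (Nat.sub i 1)) 2) j)
def tj (i j : ℕ) : ℕ :=
  ifB (Nat.ble i j) (Nat.add (Nat.div (Nat.mul j (Nat.add j 1)) 2) i) (Nat.add (Nat.div (Nat.mul i (Nat.add i 1)) 2) j)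

def cAdj (i j : ℕ) : ℕ := pi i j
def cD2 (i j : ℕ) : ℕ := Nat.add 10 (pi i j)
def cD3 (i j : ℕ) : ℕ := Nat.add 20 (pi i j)
def cChy (i j : ℕ) : ℕ := Nat.add 30 (pi i j)
def cTri (i t : ℕ) : ℕ := Nat.add (Nat.add 40 (Nat.mul 4 i)) t
def cTwo (i j t : ℕ) : ℕ := Nat.add (Nat.add 60 (Nat.mul 4 (tj i j))) t
def cPth (i j r t : ℕ) : ℕ := Nat.add (Nat.add (Nat.add 120 (Nat.mul 20 (pi i j))) (Nat.mul 4 r)) t
def cCol (p : ℕ) : ℕ := Nat.add 320 p

/-- The facts by their codes. -/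
def decL : List Fact :=
  [.adj 0 1, .adj 0 2, .adj 1 2, .adj 0 3, .adj 1 3, .adj 2 3, .adj 0 4, .adj 1 4, .adj 2 4, .adj 3 4, .d2 0 1,
   .d2 0 2, .d2 1 2, .d2 0 3, .d2 1 3, .d2 2 3, .d2 0 4, .d2 1 4, .d2 2 4, .d2 3 4, .d3 0 1, .d3 0 2, .d3 1 2,
   .d3 0 3, .d3 1 3, .d3 2 3, .d3 0 4, .d3 1 4, .d3 2 4, .d3 3 4, .chy 0 1, .chy 0 2, .chy 1 2, .chy 0 3,
   .chy 1 3, .chy 2 3, .chy 0 4, .chy 1 4, .chy 2 4, .chy 3 4, .tri 0 0, .tri 0 1, .tri 0 2, .tri 0 3, .tri 1 0,
   .tri 1 1, .tri 1 2, .tri 1 3, .tri 2 0, .tri 2 1, .tri 2 2, .tri 2 3, .tri 3 0, .tri 3 1, .tri 3 2, .tri 3 3,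
   .tri 4 0, .tri 4 1, .tri 4 2, .tri 4 3, .two 0 0 0, .two 0 0 1, .two 0 0 2, .two 0 0 3, .two 0 1 0, .two 0 1 1,
   .two 0 1 2, .two 0 1 3, .two 1 1 0, .two 1 1 1, .two 1 1 2, .two 1 1 3, .two 0 2 0, .two 0 2 1, .two 0 2 2,
   .two 0 2 3, .two 1 2 0, .two 1 2 1, .two 1 2 2, .two 1 2 3, .two 2 2 0, .two 2 2 1, .two 2 2 2, .two 2 2 3,
   .two 0 3 0, .two 0 3 1, .two 0 3 2, .two 0 3 3, .two 1 3 0, .two 1 3 1, .two 1 3 2, .two 1 3 3, .two 2 3 0,
   .two 2 3 1, .two 2 3 2, .two 2 3 3, .two 3 3 0, .two 3 3 1, .two 3 3 2, .two 3 3 3, .two 0 4 0, .two 0 4 1,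
   .two 0 4 2, .two 0 4 3, .two 1 4 0, .two 1 4 1, .two 1 4 2, .two 1 4 3, .two 2 4 0, .two 2 4 1, .two 2 4 2,
   .two 2 4 3, .two 3 4 0, .two 3 4 1, .two 3 4 2, .two 3 4 3, .two 4 4 0, .two 4 4 1, .two 4 4 2, .two 4 4 3,
   .pth 0 1 0 0, .pth 0 1 0 1, .pth 0 1 0 2, .pth 0 1 0 3, .pth 0 1 1 0, .pth 0 1 1 1, .pth 0 1 1 2, .pth 0 1 1 3,
   .pth 0 1 2 0, .pth 0 1 2 1, .pth 0 1 2 2, .pth 0 1 2 3, .pth 0 1 3 0, .pth 0 1 3 1, .pth 0 1 3 2, .pth 0 1 3 3,
   .pth 0 1 4 0, .pth 0 1 4 1, .pth 0 1 4 2, .pth 0 1 4 3, .pth 0 2 0 0, .pth 0 2 0 1, .pth 0 2 0 2, .pth 0 2 0 3,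
   .pth 0 2 1 0, .pth 0 2 1 1, .pth 0 2 1 2, .pth 0 2 1 3, .pth 0 2 2 0, .pth 0 2 2 1, .pth 0 2 2 2, .pth 0 2 2 3,
   .pth 0 2 3 0, .pth 0 2 3 1, .pth 0 2 3 2, .pth 0 2 3 3, .pth 0 2 4 0, .pth 0 2 4 1, .pth 0 2 4 2, .pth 0 2 4 3,
   .pth 1 2 0 0, .pth 1 2 0 1, .pth 1 2 0 2, .pth 1 2 0 3, .pth 1 2 1 0, .pth 1 2 1 1, .pth 1 2 1 2, .pth 1 2 1 3,
   .pth 1 2 2 0, .pth 1 2 2 1, .pth 1 2 2 2, .pth 1 2 2 3, .pth 1 2 3 0, .pth 1 2 3 1, .pth 1 2 3 2, .pth 1 2 3 3,
   .pth 1 2 4 0, .pth 1 2 4 1, .pth 1 2 4 2, .pth 1 2 4 3, .pth 0 3 0 0, .pth 0 3 0 1, .pth 0 3 0 2, .pth 0 3 0 3,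
   .pth 0 3 1 0, .pth 0 3 1 1, .pth 0 3 1 2, .pth 0 3 1 3, .pth 0 3 2 0, .pth 0 3 2 1, .pth 0 3 2 2, .pth 0 3 2 3,
   .pth 0 3 3 0, .pth 0 3 3 1, .pth 0 3 3 2, .pth 0 3 3 3, .pth 0 3 4 0, .pth 0 3 4 1, .pth 0 3 4 2, .pth 0 3 4 3,
   .pth 1 3 0 0, .pth 1 3 0 1, .pth 1 3 0 2, .pth 1 3 0 3, .pth 1 3 1 0, .pth 1 3 1 1, .pth 1 3 1 2, .pth 1 3 1 3,
   .pth 1 3 2 0, .pth 1 3 2 1, .pth 1 3 2 2, .pth 1 3 2 3, .pth 1 3 3 0, .pth 1 3 3 1, .pth 1 3 3 2, .pth 1 3 3 3,
   .pth 1 3 4 0, .pth 1 3 4 1, .pth 1 3 4 2, .pth 1 3 4 3, .pth 2 3 0 0, .pth 2 3 0 1, .pth 2 3 0 2, .pth 2 3 0 3,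
   .pth 2 3 1 0, .pth 2 3 1 1, .pth 2 3 1 2, .pth 2 3 1 3, .pth 2 3 2 0, .pth 2 3 2 1, .pth 2 3 2 2, .pth 2 3 2 3,
   .pth 2 3 3 0, .pth 2 3 3 1, .pth 2 3 3 2, .pth 2 3 3 3, .pth 2 3 4 0, .pth 2 3 4 1, .pth 2 3 4 2, .pth 2 3 4 3,
   .pth 0 4 0 0, .pth 0 4 0 1, .pth 0 4 0 2, .pth 0 4 0 3, .pth 0 4 1 0, .pth 0 4 1 1, .pth 0 4 1 2, .pth 0 4 1 3,
   .pth 0 4 2 0, .pth 0 4 2 1, .pth 0 4 2 2, .pth 0 4 2 3, .pth 0 4 3 0, .pth 0 4 3 1, .pth 0 4 3 2, .pth 0 4 3 3,
   .pth 0 4 4 0, .pth 0 4 4 1, .pth 0 4 4 2, .pth 0 4 4 3, .pth 1 4 0 0, .pth 1 4 0 1, .pth 1 4 0 2, .pth 1 4 0 3,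
   .pth 1 4 1 0, .pth 1 4 1 1, .pth 1 4 1 2, .pth 1 4 1 3, .pth 1 4 2 0, .pth 1 4 2 1, .pth 1 4 2 2, .pth 1 4 2 3,
   .pth 1 4 3 0, .pth 1 4 3 1, .pth 1 4 3 2, .pth 1 4 3 3, .pth 1 4 4 0, .pth 1 4 4 1, .pth 1 4 4 2, .pth 1 4 4 3,
   .pth 2 4 0 0, .pth 2 4 0 1, .pth 2 4 0 2, .pth 2 4 0 3, .pth 2 4 1 0, .pth 2 4 1 1, .pth 2 4 1 2, .pth 2 4 1 3,
   .pth 2 4 2 0, .pth 2 4 2 1, .pth 2 4 2 2, .pth 2 4 2 3, .pth 2 4 3 0, .pth 2 4 3 1, .pth 2 4 3 2, .pth 2 4 3 3,
   .pth 2 4 4 0, .pth 2 4 4 1, .pth 2 4 4 2, .pth 2 4 4 3, .pth 3 4 0 0, .pth 3 4 0 1, .pth 3 4 0 2, .pth 3 4 0 3,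
   .pth 3 4 1 0, .pth 3 4 1 1, .pth 3 4 1 2, .pth 3 4 1 3, .pth 3 4 2 0, .pth 3 4 2 1, .pth 3 4 2 2, .pth 3 4 2 3,
   .pth 3 4 3 0, .pth 3 4 3 1, .pth 3 4 3 2, .pth 3 4 3 3, .pth 3 4 4 0, .pth 3 4 4 1, .pth 3 4 4 2, .pth 3 4 4 3,
   .col 0, .col 1, .col 2, .col 3, .col 4, .col 5, .col 6, .col 7, .col 8, .col 9, .col 10, .col 11, .col 12,
   .col 13, .col 14, .col 15, .col 16, .col 17, .col 18, .col 19, .col 20, .col 21, .col 22, .col 23, .col 24,
   .col 25, .col 26, .col 27, .col 28, .col 29, .col 30, .col 31, .col 32, .col 33, .col 34, .col 35, .col 36,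
   .col 37, .col 38, .col 39, .col 40, .col 41, .col 42, .col 43, .col 44, .col 45, .col 46, .col 47, .col 48,
   .col 49, .col 50, .col 51, .col 52, .col 53, .col 54, .col 55, .col 56, .col 57, .col 58, .col 59, .col 60,
   .col 61, .col 62, .col 63, .col 64, .col 65, .col 66, .col 67, .col 68, .col 69, .col 70, .col 71, .col 72,
   .col 73, .col 74, .col 75, .col 76, .col 77, .col 78, .col 79, .col 80, .col 81, .col 82, .col 83, .col 84,
   .col 85, .col 86, .col 87, .col 88, .col 89, .col 90, .col 91, .col 92, .col 93, .col 94, .col 95, .col 96,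
   .col 97, .col 98, .col 99, .col 100, .col 101, .col 102, .col 103, .col 104, .col 105, .col 106, .col 107,
   .col 108, .col 109, .col 110, .col 111, .col 112, .col 113, .col 114, .col 115, .col 116, .col 117, .col 118,
   .col 119, .col 120, .col 121, .col 122, .col 123, .col 124, .col 125, .col 126, .col 127, .col 128, .col 129,
   .col 130, .col 131, .col 132, .col 133, .col 134, .col 135, .col 136, .col 137, .col 138, .col 139, .col 140,
   .col 141, .col 142, .col 143, .col 144, .col 145, .col 146, .col 147, .col 148, .col 149, .col 150, .col 151,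
   .col 152, .col 153, .col 154, .col 155, .col 156, .col 157, .col 158, .col 159, .col 160, .col 161, .col 162,
   .col 163, .col 164, .col 165, .col 166, .col 167, .col 168, .col 169, .col 170, .col 171, .col 172, .col 173,
   .col 174, .col 175, .col 176, .col 177, .col 178, .col 179, .col 180, .col 181, .col 182, .col 183, .col 184,
   .col 185, .col 186, .col 187, .col 188, .col 189, .col 190, .col 191, .col 192, .col 193, .col 194, .col 195,
   .col 196, .col 197, .col 198, .col 199, .col 200, .col 201, .col 202, .col 203, .col 204, .col 205, .col 206,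
   .col 207, .col 208, .col 209, .col 210, .col 211, .col 212, .col 213, .col 214, .col 215, .col 216, .col 217,
   .col 218, .col 219, .col 220, .col 221, .col 222, .col 223, .col 224, .col 225, .col 226, .col 227, .col 228,
   .col 229, .col 230, .col 231, .col 232, .col 233, .col 234, .col 235, .col 236, .col 237, .col 238, .col 239,
   .col 240, .col 241, .col 242]

def dec (f : ℕ) : Fact := decL.getD f Fact.non

/-- Types as paths of a tree. -/
inductive Trie
  | nil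
  | done
  | node (f : ℕ) (y n : Trie)

/-- The paths of a tree. -/
def Trie.paths : Trie → List (List ℕ)
  | .nil => []
  | .done => [[]]
  | .node f y n => (y.paths.map fun l => f :: l) ++ n.paths

/-- The lanes of `todo` in which no path of the tree consists of facts that hold. -/
def cov (R : ℕ → ℕ) (T : Trie) : ℕ → ℕ :=
  @Trie.rec (fun _ => ℕ → ℕ) (fun todo => todo) (fun _ => 0)
    (fun f _ _ cy cn todo => ifB (Nat.beq todo 0) 0 <| ifB (Nat.beq (Nat.land todo (R f)) 0) (cn todo) <|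
      cn (Nat.lor (Nat.xor todo (Nat.land todo (R f))) (cy (Nat.land todo (R f))))) T

/-- Union of lane sets over a list. -/
def orL (l : List ℕ) (f : ℕ → ℕ) : ℕ := @List.rec ℕ (fun _ => ℕ) 0 (fun p _ r => Nat.lor (f p) r) l

/-- Union over a list of pairs. -/
def orP (l : List (ℕ × ℕ)) (f : ℕ → ℕ → ℕ) : ℕ :=
  @List.rec (ℕ × ℕ) (fun _ => ℕ) 0 (fun p _ r => Nat.lor (f p.1 p.2) r) l

/-- Conjunction over a list. -/
def allB {α : Type} (l : List α) (f : α → Bool) : Bool :=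
  @List.rec α (fun _ => Bool) true (fun p _ r => andB (f p) r) l

/-- The intersection of `x` and `k`. -/
def lz (x : ℕ) (k : ℕ) : ℕ := ifB (Nat.beq x 0) 0 (Nat.land x k)

/-- `0, ..., n - 1` for `n ≤ 9` -/
def idx (n : ℕ) : List ℕ :=
  ifB (Nat.beq n 4) [0, 1, 2, 3] <| ifB (Nat.beq n 3) [0, 1, 2] <| ifB (Nat.beq n 2) [0, 1] <|
  ifB (Nat.beq n 1) [0] <| ifB (Nat.beq n 5) [0, 1, 2, 3, 4] <| ifB (Nat.beq n 6) [0, 1, 2, 3, 4, 5] <|
  ifB (Nat.beq n 7) [0, 1, 2, 3, 4, 5, 6] <| ifB (Nat.beq n 8) [0, 1, 2, 3, 4, 5, 6, 7] <|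
  ifB (Nat.beq n 9) [0, 1, 2, 3, 4, 5, 6, 7, 8] []

/-- The data: for every number of corners the tree of the types, their number, the table of the facts. -/
structure Dat where
  K : ℕ
  P : ℕ
  trie : ℕ → Trie
  num : ℕ → ℕ
  tab : ℕ → ℕ → ℕ

/-- The value of `f` in a table. -/
def look (l : List (ℕ × ℕ)) (f : ℕ) : ℕ :=
  @List.rec (ℕ × ℕ) (fun _ => ℕ) 0 (fun p _ r => ifB (Nat.beq p.1 f) p.2 r) l

/-- All types with `k` corners. -/
def ones (D : Dat) (k : ℕ) : ℕ := Nat.sub (Nat.pow 2 (D.num k)) 1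

/-- The corners `i` and `x` are at distance at most `t`. -/
def sD (D : Dat) (k t i x : ℕ) : ℕ :=
  ifB (Nat.beq i x) (ones D k) <| ifB (Nat.beq t 0) 0 <|
  Nat.lor (D.tab k (cAdj i x)) (Nat.lor (ifB (Nat.ble 2 t) (D.tab k (cD2 i x)) 0)
    (ifB (Nat.ble 3 t) (D.tab k (cD3 i x)) 0))

/-- From `e s p` (a property of the corner `p` at level `s`) to the corner `u` at level `t`. -/
def sX (D : Dat) (k : ℕ) (e : ℕ → ℕ → ℕ) (t u : ℕ) : ℕ :=
  orL (idx k) fun p => orL (idx (Nat.add t 1)) fun s => lz (e s p) (force (Nat.sub t s) fun b => sD D k b p u)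

/-- A triangle at distance at most `t` from `u`. -/
def sT (D : Dat) (k t u : ℕ) : ℕ := sX D k (fun s p => D.tab k (cTri p s)) t u

/-- Two triangles, the second one extended to `x`. -/
def sM1 (D : Dat) (k t p x : ℕ) : ℕ := sX D k (fun s q => D.tab k (cTwo p q s)) t x
/-- Two triangles with distances of sum at most `t` from `i` and `x`. -/
def sM (D : Dat) (k t i x : ℕ) : ℕ := sX D k (fun s p => sM1 D k s p x) t i

/-- A path from `i` to `x` of length two at distance at most `t` from `u`. -/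
def sN (D : Dat) (k t i x u : ℕ) : ℕ :=
  sX D k (fun s p => ifB (Nat.beq p i) (ifB (Nat.beq s 0) (D.tab k (cChy i x)) 0) <|
    ifB (Nat.beq p x) (ifB (Nat.beq s 0) (D.tab k (cChy i x)) 0) (D.tab k (cPth i x p s))) t u

/-- `1 + 2 ^ P + ... + 2 ^ (P * (n - 1))` -/
def rep (P n : ℕ) : ℕ := Nat.div (Nat.sub (Nat.pow 2 (Nat.mul P n)) 1) (Nat.sub (Nat.pow 2 P) 1)

/-- The number of the corner `u` of the union as a corner of `B`. -/
def ib (ka j u : ℕ) : ℕ := ifB (Nat.ble ka u) (Nat.sub (Nat.add j u) ka) (Nat.sub (Nat.sub ka 1) u)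

/-- The shared corners and their pairs. -/
def shL (ka j : ℕ) : List ℕ := (idx ka).filter (Nat.ble (Nat.sub ka j))
def prL (ka j : ℕ) : List (ℕ × ℕ) := (shL ka j).flatMap fun i => (shL ka j).filterMap fun x =>
  ifB (Nat.ble x i) none (some (i, x))

/-- Apply `k` to the sorted pair. -/
def so (i x : ℕ) (k : ℕ → ℕ → ℕ) : ℕ := ifB (Nat.ble i x) (k i x) (k x i)

/- Glueing along `j` corners of discs `A` with `ka` corners and the types `a`, ..., `a + n - 1` and `B` with `kb`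
corners. The corners of the union are numbered: `0, ..., ka - 1` are the corners of `A`, the last `j` of them are shared,
and `ka, ..., ka + kb - j - 1` are the other corners of `B`. -/

/-- The pairs with a type of `B` in `T`. -/
def spB (D : Dat) (n T : ℕ) : ℕ := Nat.mul (Nat.mod T (Nat.pow 2 D.P)) (rep D.P n)

/-- The pairs with a type of `A` in `T`. -/
def spA (D : Dat) (a n kb T : ℕ) : ℕ :=
  Nat.mul (Nat.land (Nat.mul (Nat.land (Nat.shiftRight T a) (Nat.sub (Nat.pow 2 n) 1)) (rep (Nat.sub D.P 1) n))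
    (rep D.P n)) (ones D kb)

/-- The facts of one disc (`X = true`: of `A`), in terms of the corners of the union. -/
def isX (ka j : ℕ) (X : Bool) (u : ℕ) : Bool := ifB X (Nat.ble (Nat.add u 1) ka) (Nat.ble (Nat.sub ka j) u)
def oD (D : Dat) (ka a n kb j : ℕ) (X : Bool) (t u v : ℕ) : ℕ :=
  ifB X (spA D a n kb (sD D ka t u v)) <| force (ib ka j u) fun p => force (ib ka j v) fun q => spB D n (sD D kb t p q)
def oT (D : Dat) (ka a n kb j : ℕ) (X : Bool) (t u : ℕ) : ℕ :=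
  ifB X (spA D a n kb (sT D ka t u)) <| force (ib ka j u) fun p => spB D n (sT D kb t p)
def oM (D : Dat) (ka a n kb j : ℕ) (X : Bool) (t u v : ℕ) : ℕ :=
  ifB X (spA D a n kb (sM D ka t u v)) <| force (ib ka j u) fun p => force (ib ka j v) fun q => spB D n (sM D kb t p q)
def oN (D : Dat) (ka a n kb j : ℕ) (X : Bool) (t i x u : ℕ) : ℕ :=
  ifB X (spA D a n kb (sN D ka t i x u)) <| force (ib ka j i) fun p => force (ib ka j x) fun q =>
    force (ib ka j u) fun r => spB D n (sN D kb t p q r)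

/-- Distance in one of the discs. -/
def dd (D : Dat) (ka a n kb j t u v : ℕ) : ℕ :=
  Nat.lor (ifB (andB (isX ka j true u) (isX ka j true v)) (oD D ka a n kb j true t u v) 0)
    (ifB (andB (isX ka j false u) (isX ka j false v)) (oD D ka a n kb j false t u v) 0)

/-- The corners `u` and `v` of the union are at distance at most `1`, `2`, `3`, or `t`. -/
def v1 (D : Dat) (ka a n kb j u v : ℕ) : ℕ := dd D ka a n kb j 1 u v
def v2 (D : Dat) (ka a n kb j u v : ℕ) : ℕ :=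
  Nat.lor (dd D ka a n kb j 2 u v) (orL (shL ka j) fun w => ifB (Nat.beq w u) 0 <| ifB (Nat.beq w v) 0 <|
    Nat.land (so u w (v1 D ka a n kb j)) (so w v (v1 D ka a n kb j)))
def v3 (D : Dat) (ka a n kb j u v : ℕ) : ℕ :=
  Nat.lor (dd D ka a n kb j 3 u v) (orL (shL ka j) fun w => ifB (Nat.beq w u) 0 <| ifB (Nat.beq w v) 0 <|
    Nat.lor (Nat.land (so u w (v1 D ka a n kb j)) (so w v (v2 D ka a n kb j)))
      (Nat.land (so u w (v2 D ka a n kb j)) (so w v (v1 D ka a n kb j))))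
def V (D : Dat) (ka a n kb j t u v : ℕ) : ℕ :=
  ifB (Nat.beq u v) (spB D n (ones D kb)) <|
  ifB (Nat.beq t 1) (so u v (v1 D ka a n kb j)) <|
  ifB (Nat.beq t 2) (so u v (v2 D ka a n kb j)) <|
  ifB (Nat.beq t 3) (so u v (v3 D ka a n kb j)) 0

/-- A property `e s q` of corners `q` of one disc at level `s`, extended to the corners `u` of the union. -/
def up (D : Dat) (ka a n kb j : ℕ) (X : Bool) (e : ℕ → ℕ → ℕ) (t u : ℕ) : ℕ :=
  Nat.lor (ifB (isX ka j X u) (e t u) 0) (orL (shL ka j) fun q => ifB (Nat.beq q u) 0 <|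
    orL (idx t) fun s => lz (e s q) (force (Nat.sub t s) fun m => V D ka a n kb j m q u))

/-- A triangle of one disc. -/
def fT (D : Dat) (ka a n kb j : ℕ) (X : Bool) (t u : ℕ) : ℕ := up D ka a n kb j X (oT D ka a n kb j X) t u
/-- A path of one disc from `i` to `x`. -/
def fP (D : Dat) (ka a n kb j : ℕ) (X : Bool) (i x t u : ℕ) : ℕ :=
  up D ka a n kb j X (fun s q => oN D ka a n kb j X s i x q) t u
/-- Two triangles of one disc, the first one near the corner `p` of the disc. -/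
def fE (D : Dat) (ka a n kb j : ℕ) (X : Bool) (p t u : ℕ) : ℕ :=
  up D ka a n kb j X (fun s q => oM D ka a n kb j X s p q) t u
/-- Two triangles of one disc, near `u` and `v`. -/
def fM (D : Dat) (ka a n kb j : ℕ) (X : Bool) (t u v : ℕ) : ℕ :=
  up D ka a n kb j X (fun s q => fE D ka a n kb j X q s v) t u
/-- A new triangle with the edge of the shared corners `i`, `x` in one disc and the other edges in the other one. -/
def fC (D : Dat) (ka a n kb j i x t u : ℕ) : ℕ :=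
  Nat.lor (lz (oD D ka a n kb j true 1 i x) (fP D ka a n kb j false i x t u))
    (lz (oD D ka a n kb j false 1 i x) (fP D ka a n kb j true i x t u))
def fCs (D : Dat) (ka a n kb j t u : ℕ) : ℕ := orP (prL ka j) fun i x => fC D ka a n kb j i x t u

/-- Two new triangles of different pairs. -/
def cc (D : Dat) (ka a n kb j : ℕ) (l : List (ℕ × ℕ)) : ℕ :=
  @List.rec (ℕ × ℕ) (fun _ => ℕ) 0 (fun p l r => Nat.lor r (orP l fun i x => orL (shL ka j) fun u =>
    orL [0, 1, 2, 3] fun t => lz (fC D ka a n kb j p.1 p.2 t u) (force (Nat.sub 3 t) fun s => fC D ka a n kb j i x s u))) l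

/-- The contradictions at a pair of shared corners. -/
def cf1 (D : Dat) (ka a n kb j i x : ℕ) : ℕ :=
  Nat.lor (Nat.land (oD D ka a n kb j true 1 i x) (oD D ka a n kb j false 1 i x)) <|
  orL [0, 1, 2] fun t => force (Nat.sub 3 t) fun s =>
    lz (Nat.lor (oM D ka a n kb j true t i x) (oM D ka a n kb j false t i x)) (V D ka a n kb j s i x)

/-- The contradictions at a corner. -/
def cf2 (D : Dat) (ka a n kb j t s u : ℕ) : ℕ :=
  Nat.lor (lz (fT D ka a n kb j true t u) (fT D ka a n kb j false s u))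
    (lz (fCs D ka a n kb j s u) (Nat.lor (fT D ka a n kb j true t u) (fT D ka a n kb j false t u)))

/-- The lanes with a contradiction. -/
def conf (D : Dat) (ka a n kb j : ℕ) : ℕ :=
  Nat.lor (orP (prL ka j) fun i x => cf1 D ka a n kb j i x) <|
  Nat.lor (orL (idx (Nat.sub (Nat.add ka kb) j)) fun u => orL [0, 1, 2, 3] fun t => force (Nat.sub 3 t) fun s =>
      cf2 D ka a n kb j t s u) <|
  cc D ka a n kb j (prL ka j)

def rTwo1 (D : Dat) (ka a n kb j x y t s : ℕ) : ℕ :=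
  Nat.lor (lz (fT D ka a n kb j true t x) (Nat.lor (fT D ka a n kb j false s y) (fCs D ka a n kb j s y))) <|
  Nat.lor (lz (fT D ka a n kb j false t x) (Nat.lor (fT D ka a n kb j true s y) (fCs D ka a n kb j s y))) <|
  lz (fCs D ka a n kb j t x) (Nat.lor (fT D ka a n kb j true s y) (fT D ka a n kb j false s y))

def rTwo (D : Dat) (ka a n kb j x y t : ℕ) : ℕ :=
  Nat.lor (orL (idx (Nat.add t 1)) fun m => force (Nat.sub t m) fun s => rTwo1 D ka a n kb j x y m s) <|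
  Nat.lor (fM D ka a n kb j true t x y) (fM D ka a n kb j false t x y)

def rChy1 (D : Dat) (ka a n kb j i x : ℕ) (X : Bool) : ℕ :=
  ifB (andB (isX ka j X i) (isX ka j X x)) (oN D ka a n kb j X 0 i x i) 0
def rPth1 (D : Dat) (ka a n kb j i x t u : ℕ) (X : Bool) : ℕ :=
  ifB (andB (isX ka j X i) (isX ka j X x)) (fP D ka a n kb j X i x t u) 0

def rChy (D : Dat) (ka a n kb j i x : ℕ) : ℕ :=
  Nat.lor (V D ka a n kb j 1 i x) <|
  Nat.lor (rChy1 D ka a n kb j i x true) <|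
  Nat.lor (rChy1 D ka a n kb j i x false) <|
  orL (shL ka j) fun c => ifB (Nat.beq c i) 0 <| ifB (Nat.beq c x) 0 <|
    lz (V D ka a n kb j 1 i c) (V D ka a n kb j 1 c x)

def rPth (D : Dat) (ka a n kb j i x t u : ℕ) : ℕ :=
  Nat.lor (V D ka a n kb j 1 i x) <|
  Nat.lor (rPth1 D ka a n kb j i x t u true) <|
  Nat.lor (rPth1 D ka a n kb j i x t u false) <|
  orL (shL ka j) fun c => ifB (Nat.beq c i) 0 <| ifB (Nat.beq c x) 0 <|
    lz (V D ka a n kb j 1 i c) <| lz (V D ka a n kb j 1 c x) <|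
      Nat.lor (V D ka a n kb j t i u) (Nat.lor (V D ka a n kb j t x u) (V D ka a n kb j t c u))

/-- The digit `i` of `p` to the base `3`. -/
def dig (p i : ℕ) : ℕ := Nat.mod (Nat.div p (Nat.pow 3 i)) 3

/-- The code of a list of colours up to permutation of the colours. -/
def cn (l : List ℕ) : ℕ :=
  force (l.headD 0) fun c0 => force ((l.filter fun x => !(Nat.beq x c0)).headD (Nat.mod (Nat.add c0 1) 3)) fun c1 =>
    @List.rec ℕ (fun _ => ℕ) 0 (fun x _ r => Nat.add (ifB (Nat.beq x c0) 0 (ifB (Nat.beq x c1) 1 2)) (Nat.mul 3 r)) l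

/-- The colour of the corner `u` of the union, if the result has the colours `p` and the other shared corners the
colours `s`. -/
def qc (ka j : ℕ) (rt : List ℕ) (p s u : ℕ) : ℕ :=
  ifB (rt.any (Nat.beq u)) (dig p (rt.idxOf u)) (dig s (Nat.sub u (Nat.sub ka j)))

/-- The corner `t` of `B` as a corner of the union. -/
def bi (ka j t : ℕ) : ℕ := ifB (Nat.ble j t) (Nat.sub (Nat.add ka t) j) (Nat.sub (Nat.sub ka 1) t)

/-- The pairs of colour patterns of `A` and `B` which give the pattern `p` of the union. -/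
def colPairs (ka kb j : ℕ) (rt : List ℕ) (p : ℕ) : List (ℕ × ℕ) :=
  ((List.range (Nat.pow 3 j)).filter fun s => (idx j).all fun i =>
      !(rt.any (Nat.beq (Nat.add (Nat.sub ka j) i))) || Nat.beq (dig s i) 0).map fun s =>
    (cCol (cn ((idx ka).map fun i => qc ka j rt p s i)), cCol (cn ((idx kb).map fun t => qc ka j rt p s (bi ka j t))))

def rCol (D : Dat) (ka a n kb j : ℕ) (rt : List ℕ) (p : ℕ) : ℕ :=
  orP (colPairs ka kb j rt p) fun x y => force x fun x => force y fun y =>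
    lz (spA D a n kb (D.tab ka x)) (spB D n (D.tab kb y))

def rt1 (rt : List ℕ) (i : ℕ) (k : ℕ → ℕ) : ℕ := ifB (Nat.ble (Nat.add i 1) rt.length) (force (rt.getD i 0) k) 0

/-- The lanes in which a fact holds in the union with the corners `rt`. -/
def RF (D : Dat) (ka a n kb j : ℕ) (rt : List ℕ) : Fact → ℕ
  | Fact.adj i x => rt1 rt i fun i => rt1 rt x fun x => V D ka a n kb j 1 i x
  | Fact.d2 i x => rt1 rt i fun i => rt1 rt x fun x => V D ka a n kb j 2 i x
  | Fact.d3 i x => rt1 rt i fun i => rt1 rt x fun x => V D ka a n kb j 3 i x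
  | Fact.chy i x => rt1 rt i fun i => rt1 rt x fun x => rChy D ka a n kb j i x
  | Fact.tri i t => rt1 rt i fun u =>
      Nat.lor (fT D ka a n kb j true t u) (Nat.lor (fT D ka a n kb j false t u) (fCs D ka a n kb j t u))
  | Fact.two i x t => rt1 rt i fun i => rt1 rt x fun x => rTwo D ka a n kb j i x t
  | Fact.pth i x r t => rt1 rt i fun i => rt1 rt x fun x => rt1 rt r fun u => rPth D ka a n kb j i x t u
  | Fact.col p => rCol D ka a n kb j rt p
  | Fact.non => 0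

/-- The corners of the union. -/
def rtOf (ka kb j : ℕ) (e f : Bool) : List ℕ :=
  idx (Nat.sub ka j) ++ ((bif e then [Nat.sub ka j] else []) ++ ((idx (Nat.sub kb j)).map (Nat.add ka) ++
    (bif f then [Nat.sub ka 1] else [])))

def chk2 (D : Dat) (ka a n kb j todo : ℕ) (e f : Bool) : Bool :=
  (Nat.beq j 0 && (e || f)) || (Nat.beq j 1 && (e && f)) ||
    (force (rtOf ka kb j e f).length fun kr => Nat.beq kr 0 || Nat.ble (Nat.add D.K 1) kr ||
      Nat.beq (cov (fun c => RF D ka a n kb j (rtOf ka kb j e f) (dec c)) (D.trie kr) todo) 0)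

def chk1 (D : Dat) (ka a n kb j : ℕ) : Bool :=
  force (Nat.xor (spB D n (ones D kb)) (Nat.land (spB D n (ones D kb)) (conf D ka a n kb j))) fun todo =>
    allB [false, true] fun e => allB [false, true] fun f => chk2 D ka a n kb j todo e f

/-- The check of the glueings for the types `a`, ..., `a + n - 1` with `ka` corners. -/
def chk (D : Dat) (ka a n : ℕ) : Bool :=
  allB [1, 2, 3, 4, 5] fun kb => Nat.ble (Nat.add D.K 1) kb || allB [0, 1, 2, 3, 4, 5] fun j =>
    Nat.ble (Nat.add ka 1) j || Nat.ble (Nat.add kb 1) j || Nat.ble (Nat.add D.K 1) (Nat.sub (Nat.sub (Nat.add ka kb) j) j) ||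
      chk1 D ka a n kb j

/-- The types with `k` corners for which a fact holds after the change from the corners to the corners `rt`. -/
def RR (D : Dat) (k : ℕ) (rt : List ℕ) : Fact → ℕ
  | Fact.adj i x => rt1 rt i fun i => rt1 rt x fun x => D.tab k (cAdj i x)
  | Fact.d2 i x => rt1 rt i fun i => rt1 rt x fun x => sD D k 2 i x
  | Fact.d3 i x => rt1 rt i fun i => rt1 rt x fun x => sD D k 3 i x
  | Fact.chy i x => rt1 rt i fun i => rt1 rt x fun x => Nat.lor (D.tab k (cAdj i x)) (sN D k 0 i x i)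
  | Fact.tri i t => rt1 rt i fun u => sT D k t u
  | Fact.two i x t => rt1 rt i fun i => rt1 rt x fun x => sM D k t i x
  | Fact.pth i x r t => rt1 rt i fun i => rt1 rt x fun x => rt1 rt r fun u =>
      Nat.lor (D.tab k (cAdj i x)) (sN D k t i x u)
  | Fact.col p => orP (colPairs k k k rt p) fun x _ => force x fun x => D.tab k x
  | Fact.non => 0

/-- The check of the change of the corners to the corners `rt`. -/
def chkR (D : Dat) (k : ℕ) (rt : List ℕ) : Bool :=
  Nat.beq (cov (fun c => RR D k rt (dec c)) (D.trie rt.length) (ones D k)) 0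

/-- All changes of the corners: turns and nonempty sublists. -/
def chkK (D : Dat) (k : ℕ) : Bool :=
  ((idx k).sublists.all fun rt => rt.isEmpty || chkR D k rt) && chkR D k ((idx k).drop 1 ++ [0])

/-- The facts of a single edge with the corners `0`, `1`. -/
def RE : Fact → ℕ
  | Fact.adj i x => ifB (andB (Nat.beq i 0) (Nat.beq x 1)) 1 0
  | Fact.col p => ifB (Nat.beq (dig p 0) (dig p 1)) 0 1
  | _ => 0

/-- The number of paths. -/
def Trie.cnt (T : Trie) : ℕ := @Trie.rec (fun _ => ℕ) 0 1 (fun _ _ _ cy cn => Nat.add cy cn) T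

/-- The table of the facts of the paths, in one number: the fact `f` of the path `r` is the bit `f * P + r`. -/
def Trie.pk (P : ℕ) (T : Trie) : ℕ → ℕ :=
  @Trie.rec (fun _ => ℕ → ℕ) (fun _ => 0) (fun _ => 0)
    (fun f y _ py pn a => Nat.lor (Nat.shiftLeft (Nat.sub (Nat.pow 2 y.cnt) 1) (Nat.add a (Nat.mul f P)))
      (Nat.lor (py a) (pn (Nat.add a y.cnt)))) T

/-- The same for a table. -/
def pkL (P : ℕ) (l : List (ℕ × ℕ)) : ℕ :=
  @List.rec (ℕ × ℕ) (fun _ => ℕ) 0 (fun p _ r => Nat.lor (Nat.shiftLeft p.2 (Nat.mul p.1 P)) r) l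

/-- The check of the data for `k` corners. -/
def chkD (D : Dat) (k : ℕ) (l : List (ℕ × ℕ)) : Bool :=
  Nat.beq (D.trie k).cnt (D.num k) && Nat.ble (Nat.add (D.num k) 1) D.P && Nat.ble 1 (D.num k) &&
    Nat.beq ((D.trie k).pk D.P 0) (pkL D.P l) &&
    Nat.beq (ones D k) (orL (List.range (Nat.pow 3 k)) fun p => D.tab k (cCol p))

end

end Pool.Agent.Lib.MP_8e2345_co.B4
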