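import Pool.Agent.Lib.MP_8e2345_co.B4.Sem

set_option autoImplicit false

namespace Pool.Agent.Lib.MP_8e2345_co.B4

/-! ## Numbers in blocks of `P` bits -/

private theorem spr_lt {P n : ℕ} {c : ℕ → ℕ} (hc : ∀ i, i < n → c i < 2 ^ P) :
    ∑ i ∈ Finset.range n, c i * 2 ^ (P * i) < 2 ^ (P * n) := by
  induction n with
  | zero => simp
  | succ n ih =>
    rw [Finset.sum_range_succ]
    have h1 := ih fun i hi => hc i (by omega)
    have h2 : c n + 1 ≤ 2 ^ P := hc n (by omega)
    have h3 : (2 : ℕ) ^ (P * (n + 1)) = 2 ^ P * 2 ^ (P * n) := by rw [← pow_add]; congr 1; ring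
    rw [h3]
    calc _ < 2 ^ (P * n) + c n * 2 ^ (P * n) := by omega
      _ = (c n + 1) * 2 ^ (P * n) := by ring
      _ ≤ 2 ^ P * 2 ^ (P * n) := Nat.mul_le_mul_right _ h2

private theorem spr_testBit {P n : ℕ} {c : ℕ → ℕ} (hP : 0 < P) (hc : ∀ i, i < n → c i < 2 ^ P) (m : ℕ) :
    (∑ i ∈ Finset.range n, c i * 2 ^ (P * i)).testBit m = (decide (m / P < n) && (c (m / P)).testBit (m % P)) := by
  induction n with
  | zero => simp
  | succ n ih =>
    have h1 : ∀ i, i < n → c i < 2 ^ P := fun i hi => hc i (by omega)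
    rw [Finset.sum_range_succ, add_comm, mul_comm (c n), Nat.testBit_two_pow_mul_add _ (spr_lt h1)]
    have hm := Nat.div_add_mod m P
    have hr := Nat.mod_lt m hP
    split
    · rename_i hlt
      have hq : m / P < n := Nat.div_lt_of_lt_mul hlt
      rw [ih h1]
      have : m / P < n + 1 := by omega
      simp [hq, this]
    · rename_i hge
      have hge : P * n ≤ m := by omega
      have hq : n ≤ m / P := (Nat.le_div_iff_mul_le hP).2 (by rw [mul_comm]; exact hge)
      rcases hq.eq_or_lt with he | hlt
      · have h2 : m - P * n = m % P := by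
          rw [he]; omega
        have h3 : m / P < n + 1 := by omega
        rw [h2]
        simp [← he]
      · have h3 : ¬ m / P < n + 1 := by omega
        have h4 : P * (n + 1) ≤ m := by
          calc P * (n + 1) ≤ P * (m / P) := Nat.mul_le_mul_left _ (by omega)
            _ ≤ m := by omega
        have h5 : P ≤ m - P * n := by
          have : P * (n + 1) = P * n + P := by ring
          omega
        have h6 : (c n).testBit (m - P * n) = false :=
          Nat.testBit_lt_two_pow (lt_of_lt_of_le (hc n (by omega)) (Nat.pow_le_pow_right (by norm_num) h5))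
        rw [h6]
        simp [h3]

private theorem rep_eq {P : ℕ} (hP : 0 < P) (n : ℕ) : rep P n = ∑ i ∈ Finset.range n, 1 * 2 ^ (P * i) := by
  have h1 : 2 ≤ 2 ^ P := by
    calc 2 = 2 ^ 1 := by norm_num
      _ ≤ 2 ^ P := Nat.pow_le_pow_right (by norm_num) hP
  have h2 := Nat.geomSum_eq h1 n
  show (2 ^ (P * n) - 1) / (2 ^ P - 1) = _
  rw [pow_mul, ← h2]
  refine Finset.sum_congr rfl fun i _ => ?_
  rw [pow_mul, one_mul]

private theorem mul_rep {P : ℕ} (hP : 0 < P) (x n : ℕ) : x * rep P n = ∑ i ∈ Finset.range n, x * 2 ^ (P * i) := by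
  rw [rep_eq hP, Finset.mul_sum]
  refine Finset.sum_congr rfl fun i _ => ?_
  rw [one_mul]

private theorem blk {P i b : ℕ} (hb : b < P) : (i * P + b) / P = i ∧ (i * P + b) % P = b := by
  have hP : 0 < P := by omega
  constructor
  · rw [mul_comm, Nat.mul_add_div hP, Nat.div_eq_of_lt hb, add_zero]
  · rw [mul_comm, Nat.mul_add_mod, Nat.mod_eq_of_lt hb]

theorem testBit_spB {D : Dat} {n T i b : ℕ} (hi : i < n) (hb : b < D.P) :
    (spB D n T).testBit (i * D.P + b) = T.testBit b := by
  have hP : 0 < D.P := by omega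
  show ((T % 2 ^ D.P) * rep D.P n).testBit (i * D.P + b) = T.testBit b
  rw [mul_rep hP, spr_testBit hP fun i _ => Nat.mod_lt _ (by positivity)]
  obtain ⟨h1, h2⟩ := blk (i := i) hb
  rw [h1, h2, Nat.testBit_mod_two_pow]
  simp [hi, hb]

theorem testBit_spA {D : Dat} {a n kb T i b : ℕ} (hi : i < n) (hn : n + 1 ≤ D.P) (hb : b < D.P)
    (hk : D.num kb ≤ D.P) (h : (spA D a n kb T).testBit (i * D.P + b) = true) : T.testBit (a + i) = true := by
  have hP : 0 < D.P := by omega
  have hP1 : 0 < D.P - 1 := by omega
  set y := (T >>> a) &&& (2 ^ n - 1) with hy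
  have hyn : y < 2 ^ n := by
    rw [hy, Nat.and_two_pow_sub_one_eq_mod]; exact Nat.mod_lt _ (by positivity)
  have hyP : y < 2 ^ (D.P - 1) := lt_of_lt_of_le hyn (Nat.pow_le_pow_right (by norm_num) (by omega))
  have e : spA D a n kb T = ((y * rep (D.P - 1) n) &&& rep D.P n) * (2 ^ D.num kb - 1) := rfl
  have e2 : (y * rep (D.P - 1) n) &&& rep D.P n =
      ∑ i ∈ Finset.range n, (if y.testBit i = true then 1 else 0) * 2 ^ (D.P * i) := by
    have hc : ∀ i, i < n → (if y.testBit i = true then 1 else 0) < 2 ^ D.P := fun i _ => by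
      split
      · exact Nat.one_lt_two_pow (by omega)
      · positivity
    refine Nat.eq_of_testBit_eq fun m => ?_
    rw [Nat.testBit_and, spr_testBit hP hc, rep_eq hP, spr_testBit hP fun i _ => Nat.one_lt_two_pow (by omega)]
    by_cases hq : m / D.P < n
    · by_cases hr : m % D.P = 0
      · have hm : m = (m / D.P) * (D.P - 1) + m / D.P := by
          have h1 := Nat.div_add_mod m D.P
          rw [hr, add_zero] at h1
          have h2 : D.P = (D.P - 1) + 1 := by omega
          calc m = D.P * (m / D.P) := h1.symm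
            _ = ((D.P - 1) + 1) * (m / D.P) := by rw [← h2]
            _ = _ := by ring
        have h3 : (y * rep (D.P - 1) n).testBit m = y.testBit (m / D.P) := by
          rw [mul_rep hP1, spr_testBit hP1 fun i _ => hyP]
          obtain ⟨h4, h5⟩ := blk (P := D.P - 1) (i := m / D.P) (b := m / D.P) (by omega)
          rw [← hm] at h4 h5
          rw [h4, h5]
          simp [hq]
        rw [h3, hr]
        by_cases h6 : y.testBit (m / D.P) = true
        · simp [hq, h6]
        · simp [hq, h6]
      · have h1 : (1 : ℕ).testBit (m % D.P) = false :=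
          Nat.testBit_lt_two_pow (Nat.one_lt_two_pow hr)
        have h2 : (if y.testBit (m / D.P) = true then 1 else 0).testBit (m % D.P) = false := by
          split
          · exact h1
          · simp
        rw [h1, h2]
        simp
    · simp [hq]
  rw [e, e2, Finset.sum_mul] at h
  have e3 : ∀ i, (if y.testBit i = true then 1 else 0) * 2 ^ (D.P * i) * (2 ^ D.num kb - 1) =
      (if y.testBit i = true then 2 ^ D.num kb - 1 else 0) * 2 ^ (D.P * i) := fun i => by
    split
    · ring
    · simp
  rw [Finset.sum_congr rfl fun i _ => e3 i] at h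
  have hc : ∀ i, i < n → (if y.testBit i = true then 2 ^ D.num kb - 1 else 0) < 2 ^ D.P := fun i _ => by
    split
    · have h1 : (2 : ℕ) ^ D.num kb ≤ 2 ^ D.P := Nat.pow_le_pow_right (by norm_num) hk
      have h2 : 0 < (2 : ℕ) ^ D.num kb := by positivity
      omega
    · positivity
  rw [spr_testBit hP hc] at h
  obtain ⟨h1, h2⟩ := blk (i := i) hb
  rw [h1, h2] at h
  have h3 : y.testBit i = true := by
    by_contra hne
    simp [hne] at h
  rw [hy, Nat.testBit_and, Nat.testBit_shiftRight] at h3
  simp only [Bool.and_eq_true] at h3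
  exact h3.1

end Pool.Agent.Lib.MP_8e2345_co.B4
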