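import Pool.Agent.Lib.MP_8e2345_co.B4.Sem
import Pool.Agent.Lib.MP_8e2345_co.B4.Spread

set_option autoImplicit false

namespace Pool.Agent.Lib.MP_8e2345_co.B4

open scoped Classical

variable {V : Type} {D : Dat} {G H A B : SimpleGraph V}

theorem dig_eq (p i : ℕ) : dig p i = p / 3 ^ i % 3 := rfl

theorem dig_lt (p i : ℕ) : dig p i < 3 := Nat.mod_lt _ (by norm_num)

theorem beq_ne {x y : ℕ} (h : x ≠ y) : Nat.beq x y = false := by
  rw [Bool.eq_false_iff]
  intro h'
  exact h (Nat.eq_of_beq_eq_true h')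

/-- The normalised colour. -/
def ph (c0 c1 x : ℕ) : ℕ := ifB (Nat.beq x c0) 0 (ifB (Nat.beq x c1) 1 2)

/-- The code of a list of normalised colours. -/
def cnr (c0 c1 : ℕ) (l : List ℕ) : ℕ :=
  @List.rec ℕ (fun _ => ℕ) 0 (fun x _ r => Nat.add (ph c0 c1 x) (Nat.mul 3 r)) l

theorem ph_lt (c0 c1 x : ℕ) : ph c0 c1 x < 3 := by
  unfold ph
  cases Nat.beq x c0 <;> cases Nat.beq x c1 <;> simp

theorem cnr_cons (c0 c1 x : ℕ) (l : List ℕ) : cnr c0 c1 (x :: l) = ph c0 c1 x + 3 * cnr c0 c1 l := rfl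

theorem dig_cnr (c0 c1 : ℕ) : ∀ (l : List ℕ) (i : ℕ), i < l.length →
    dig (cnr c0 c1 l) i = ph c0 c1 (l.getD i 0)
  | [], i, h => by simp at h
  | x :: l, 0, _ => by
    have := ph_lt c0 c1 x
    rw [cnr_cons, dig_eq, pow_zero, Nat.div_one]
    simp only [List.getD_cons_zero]
    omega
  | x :: l, i + 1, h => by
    have h1 := ph_lt c0 c1 x
    have ih := dig_cnr c0 c1 l i (by simpa using h)
    rw [cnr_cons, List.getD_cons_succ, ← ih, dig_eq, dig_eq, pow_succ', ← Nat.div_div_eq_div_mul]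
    congr 2
    omega

theorem cn_eq (l : List ℕ) : cn l = cnr (l.headD 0)
    ((l.filter fun x => !(Nat.beq x (l.headD 0))).headD (Nat.mod (Nat.add (l.headD 0) 1) 3)) l := rfl

/-- The code determines the colours up to a permutation. -/
theorem exists_perm (l : List ℕ) (hl : ∀ x ∈ l, x < 3) : ∃ σ : ℕ → ℕ, (∀ x, σ x < 3) ∧
    (∀ x y, x < 3 → y < 3 → σ x = σ y → x = y) ∧ ∀ i < l.length, σ (dig (cn l) i) = l.getD i 0 := by
  rw [cn_eq]
  generalize hc0 : l.headD 0 = c0
  generalize hc1 : (l.filter fun x => !(Nat.beq x c0)).headD (Nat.mod (Nat.add c0 1) 3) = c1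
  have h0 : c0 < 3 := by
    cases l with
    | nil => simp at hc0; omega
    | cons x l => simp at hc0; exact hc0 ▸ hl x (by simp)
  have h1 : c1 < 3 ∧ c1 ≠ c0 := by
    generalize hm : (l.filter fun x => !(Nat.beq x c0)) = m at hc1
    cases m with
    | nil =>
      have e : c1 = (c0 + 1) % 3 := hc1.symm
      omega
    | cons x m =>
      have e : x = c1 := by simpa using hc1
      have hx : x ∈ l.filter fun x => !(Nat.beq x c0) := by rw [hm]; simp
      rw [List.mem_filter] at hx
      subst e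
      refine ⟨hl x hx.1, fun h => ?_⟩
      subst h
      have := hx.2
      simp at this
  refine ⟨fun x => if x = 0 then c0 else if x = 1 then c1 else 3 - c0 - c1, ?_, ?_, ?_⟩
  · intro x
    simp only
    split_ifs <;> omega
  · intro x y hx hy hxy
    simp only at hxy
    split_ifs at hxy <;> omega
  · intro i hi
    rw [dig_cnr _ _ l i hi]
    have hx : l.getD i 0 < 3 := by
      rw [List.getD_eq_getElem _ _ hi]
      exact hl _ (List.getElem_mem hi)
    generalize l.getD i 0 = x at hx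
    rcases eq_or_ne x c0 with e | e
    · subst e
      simp [ph]
    · rcases eq_or_ne x c1 with e' | e'
      · subst e'
        have q : Nat.beq x c0 = false := beq_ne e
        simp [ph, q]
      · have q : Nat.beq x c0 = false := beq_ne e
        have q' : Nat.beq x c1 = false := beq_ne e'
        simp only [ph, q, q', ifB_false]
        norm_num
        omega

theorem ColQ.perm {k : ℕ} {c : ℕ → V} {l : List ℕ} (hk : l.length = k) (hl : ∀ x ∈ l, x < 3)
    (h : ColQ H k c (dig (cn l))) : ColQ H k c (fun i => l.getD i 0) := by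
  obtain ⟨σ, h1, h2, h3⟩ := exists_perm l hl
  obtain ⟨g, g1, g2, g3⟩ := h
  refine ⟨fun v => σ (g v), fun v => h1 _, fun u v huv h4 => g2 u v huv (h2 _ _ (g1 u) (g1 v) h4), ?_⟩
  intro i hi
  simp only
  rw [g3 i hi]
  exact h3 i (by omega)

theorem qc_lt (ka j : ℕ) (rt : List ℕ) (p s u : ℕ) : qc ka j rt p s u < 3 := by
  unfold qc
  cases rt.any (Nat.beq u)
  · exact dig_lt _ _
  · exact dig_lt _ _

theorem any_iff {rt : List ℕ} {u : ℕ} : rt.any (Nat.beq u) = true ↔ u ∈ rt := by
  rw [List.any_eq_true]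
  constructor
  · rintro ⟨x, hx, h⟩
    rw [Nat.beq_eq] at h
    exact h ▸ hx
  · intro h
    exact ⟨u, h, by simp⟩

theorem qc_rt {ka j : ℕ} {rt : List ℕ} {p s t : ℕ} (hrt : rt.Nodup) (ht : t < rt.length) :
    qc ka j rt p s (rt.getD t 0) = dig p t := by
  have h1 : rt.getD t 0 = rt[t] := List.getD_eq_getElem _ _ ht
  have h2 : rt.any (Nat.beq (rt.getD t 0)) = true := by
    rw [any_iff, h1]
    exact List.getElem_mem ht
  unfold qc
  rw [h2, ifB_true, h1, hrt.idxOf_getElem]

/-- The colour list of one side. -/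
theorem side_col {k : ℕ} {c : ℕ → V} (hk : k ≤ 5) {f : ℕ → ℕ} (hf : ∀ u, f u < 3)
    (h : ColQ H k c (dig (cn ((idx k).map f)))) : ColQ H k c f := by
  have e : idx k = List.range k := idx_eq (by omega)
  have h1 := ColQ.perm (l := (idx k).map f) (by rw [e]; simp)
    (by intro x hx; rw [List.mem_map] at hx; obtain ⟨u, _, rfl⟩ := hx; exact hf u) h
  obtain ⟨g, g1, g2, g3⟩ := h1
  refine ⟨g, g1, g2, fun i hi => ?_⟩
  rw [g3 i hi]
  simp only
  rw [e, List.getD_eq_getElem _ _ (by simpa using hi)]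
  simp

theorem mem_colPairs {ka kb j p : ℕ} {rt : List ℕ} {x : ℕ × ℕ} (h : x ∈ colPairs ka kb j rt p) :
    ∃ s, x = (cCol (cn ((idx ka).map fun i => qc ka j rt p s i)),
      cCol (cn ((idx kb).map fun t => qc ka j rt p s (bi ka j t)))) := by
  unfold colPairs at h
  rw [List.mem_map] at h
  obtain ⟨s, _, h⟩ := h
  exact ⟨s, h.symm⟩

theorem bi_lt {ka j t : ℕ} (h : t < j) : bi ka j t = ka - 1 - t := by
  unfold bi
  rw [ifB_eq, if_neg]
  · rfl
  · rw [Nat.ble_eq]; omega

theorem bi_ge {ka j t : ℕ} (h : j ≤ t) : bi ka j t = ka + t - j := by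
  unfold bi
  rw [ifB_eq, if_pos]
  · rfl
  · rw [Nat.ble_eq]; omega

/-- The colours of a glueing. -/
theorem rCol_sound {ka a n kb j i b p : ℕ} {w : ℕ → V} {rt : List ℕ}
    (inj : ∀ u v, u < ka + kb - j → v < ka + kb - j → w u = w v → u = v)
    (ka5 : ka ≤ 5) (kb5 : kb ≤ 5) (jka : j ≤ ka) (jkb : j ≤ kb) (hi : i < n) (hn : n + 1 ≤ D.P) (hb : b < D.num kb)
    (hk : D.num kb ≤ D.P) (hsA : ∀ u < ka, w u ∈ A.support) (hsB : ∀ t < kb, w (bi ka j t) ∈ B.support)
    (share : ∀ v ∈ A.support, v ∈ B.support → ∃ u, ka - j ≤ u ∧ u < ka ∧ w u = v)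
    (hrt : rt.Nodup) (hrt1 : ∀ u ∈ rt, u < ka + kb - j) (hrt2 : ∀ u < ka + kb - j, u ∉ rt → ka - j ≤ u ∧ u < ka)
    (tA : ∀ q, (D.tab ka (cCol q)).testBit (a + i) = true → ColQ A ka w (dig q))
    (tB : ∀ q, (D.tab kb (cCol q)).testBit b = true → ColQ B kb (fun t => w (bi ka j t)) (dig q))
    (h : (rCol D ka a n kb j rt p).testBit (i * D.P + b) = true) :
    ColQ (A ⊔ B) rt.length (fun t => w (rt.getD t 0)) (dig p) := by
  unfold rCol at h
  obtain ⟨x, hx, h⟩ := testBit_orP h
  obtain ⟨s, rfl⟩ := mem_colPairs hx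
  simp only [force_simp] at h
  obtain ⟨h1, h2⟩ := testBit_lz h
  have hbP : b < D.P := by omega
  have h3 := testBit_spA hi hn hbP hk h1
  rw [testBit_spB hi hbP] at h2
  obtain ⟨gA, a1, a2, a3⟩ := side_col ka5 (fun u => qc_lt ka j rt p s u) (tA _ h3)
  obtain ⟨gB, b1, b2, b3⟩ := side_col (f := fun t => qc ka j rt p s (bi ka j t)) kb5
    (fun u => qc_lt ka j rt p s _) (tB _ h2)
  have agree : ∀ v ∈ A.support, v ∈ B.support → gA v = gB v := by
    intro v hA hB
    obtain ⟨u, u1, u2, rfl⟩ := share v hA hB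
    rw [a3 u u2]
    have e : bi ka j (ka - 1 - u) = u := by
      rw [bi_lt (by omega)]; omega
    have := b3 (ka - 1 - u) (by omega)
    simp only [e] at this
    exact this.symm
  refine ⟨fun v => if v ∈ A.support then gA v else gB v, ?_, ?_, ?_⟩
  · intro v
    simp only
    split_ifs
    · exact a1 v
    · exact b1 v
  · intro u v huv
    rw [SimpleGraph.sup_adj] at huv
    rcases huv with huv | huv
    · have hu : u ∈ A.support := ⟨v, huv⟩
      have hv : v ∈ A.support := ⟨u, huv.symm⟩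
      simp only [if_pos hu, if_pos hv]
      exact a2 u v huv
    · have hu : u ∈ B.support := ⟨v, huv⟩
      have hv : v ∈ B.support := ⟨u, huv.symm⟩
      have e : ∀ z ∈ B.support, (if z ∈ A.support then gA z else gB z) = gB z := by
        intro z hz
        split_ifs with hA
        · exact agree z hA hz
        · rfl
      simp only [e u hu, e v hv]
      exact b2 u v huv
  · intro t ht
    have hu : rt.getD t 0 ∈ rt := by
      rw [List.getD_eq_getElem _ _ ht]
      exact List.getElem_mem ht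
    have hlt := hrt1 _ hu
    have hq := qc_rt (ka := ka) (j := j) (p := p) (s := s) hrt ht
    simp only
    generalize rt.getD t 0 = u at hu hlt hq ⊢
    by_cases hA : u < ka
    · simp only [if_pos (hsA u hA)]
      rw [a3 u hA, hq]
    · have e : bi ka j (j + u - ka) = u := by
        rw [bi_ge (by omega)]; omega
      have hnA : w u ∉ A.support := by
        intro hA'
        have hB' : w u ∈ B.support := by
          have := hsB (j + u - ka) (by omega)
          rwa [e] at this
        obtain ⟨u', u1, u2, u3⟩ := share _ hA' hB'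
        have := inj u' u (by omega) hlt u3
        omega
      simp only [if_neg hnA]
      have := b3 (j + u - ka) (by omega)
      simp only [e] at this
      rw [this, hq]

/-- The colours after a change of the corners. -/
theorem rrCol_sound {k r p : ℕ} {c : ℕ → V} {rt : List ℕ} (hk : k ≤ 5) (hrt : rt.Nodup) (hrt1 : ∀ u ∈ rt, u < k)
    (t : ∀ q, (D.tab k (cCol q)).testBit r = true → ColQ H k c (dig q))
    (h : (RR D k rt (Fact.col p)).testBit r = true) :
    ColQ H rt.length (fun t => c (rt.getD t 0)) (dig p) := by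
  have h' : (orP (colPairs k k k rt p) fun x _ => force x fun x => D.tab k x).testBit r = true := h
  obtain ⟨x, hx, h1⟩ := testBit_orP h'
  obtain ⟨s, rfl⟩ := mem_colPairs hx
  simp only [force_simp] at h1
  obtain ⟨g, g1, g2, g3⟩ := side_col hk (fun u => qc_lt k k rt p s u) (t _ h1)
  refine ⟨g, g1, g2, fun i hi => ?_⟩
  have hu : rt.getD i 0 ∈ rt := by
    rw [List.getD_eq_getElem _ _ hi]
    exact List.getElem_mem hi
  simp only
  rw [g3 _ (hrt1 _ hu), qc_rt hrt hi]

end Pool.Agent.Lib.MP_8e2345_co.B4
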