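import Pool.Agent.Lib.MP_8e2345_co.B4.Chk

set_option autoImplicit false

/-!
# The data for discs with at most four corners
-/

namespace Pool.Agent.Lib.MP_8e2345_co.B4

def trie1 : Trie := .node 320 .done .nil

def trie2 : Trie := .node 323 (.node 320 .done (.node 0 .done .nil)) .nil

def t3_0 : Trie := .node 332 (.node 20 (.node 21 (.node 22 (.node 41 (.node 45 (.node 50 .done .nil) (.node 46 (.node 49 .done .nil) .nil)) (.node 42 (.node 45 (.node 49 .done .nil) .nil) .nil)) .nil) .nil) (.node 320 .done .nil)) (.node 320 (.node 10 (.node 11 (.node 22 (.node 30 (.node 31 (.node 40 (.node 45 .done (.node 49 .done .nil)) .nil) .nil) .nil) .nil) .nil) .nil) (.node 2 .done .nil))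
def t3_1 : Trie := .node 332 (.node 320 (.node 10 (.node 12 (.node 21 (.node 30 (.node 32 (.node 44 (.node 41 .done (.node 49 .done .nil)) .nil) .nil) .nil) .nil) .nil) .nil) (.node 1 .done .nil)) (.node 1 (.node 2 (.node 10 (.node 30 (.node 128 .done .nil) .nil) .nil) .nil) .nil)
def t3_2 : Trie := .node 329 t3_0 (.node 332 (.node 320 (.node 11 (.node 12 (.node 20 (.node 31 (.node 32 (.node 48 (.node 41 .done (.node 45 .done .nil)) .nil) .nil) .nil) .nil) .nil) .nil) (.node 0 .done .nil)) (.node 0 (.node 2 (.node 11 (.node 31 (.node 144 .done .nil) .nil) .nil) .nil) .nil))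
def t3_3 : Trie := .node 329 (.node 10 (.node 11 (.node 30 (.node 31 (.node 320 (.node 332 (.node 12 (.node 32 .done .nil) .nil) .nil) (.node 2 (.node 44 (.node 48 .done .nil) .nil) .nil)) .nil) .nil) .nil) .nil) (.node 332 (.node 0 (.node 11 (.node 12 (.node 31 (.node 32 (.node 40 (.node 44 .done .nil) .nil) .nil) .nil) .nil) .nil) .nil) .nil)
def trie3 : Trie := .node 341 (.node 323 t3_2 (.node 329 t3_1 (.node 0 (.node 1 (.node 332 (.node 12 (.node 32 (.node 160 .done .nil) .nil) .nil) (.node 2 (.node 40 (.node 44 (.node 48 .done .nil) .nil) .nil) .nil)) .nil) .nil))) (.node 323 t3_3 (.node 329 (.node 332 (.node 1 (.node 10 (.node 12 (.node 30 (.node 32 (.node 40 (.node 48 .done .nil) .nil) .nil) .nil) .nil) .nil) .nil) .nil) .nil))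

def t4_4 : Trie := .node 41 (.node 50 (.node 75 (.node 47 .done (.node 55 .done .nil)) .nil) (.node 46 .done (.node 54 .done .nil))) (.node 45 (.node 50 .done (.node 51 (.node 54 (.node 91 .done .nil) .nil) .nil)) (.node 46 (.node 49 .done (.node 51 (.node 53 (.node 91 .done .nil) .nil) .nil)) (.node 49 (.node 54 .done .nil) (.node 50 (.node 53 .done .nil) .nil))))
def t4_5 : Trie := .node 41 (.node 74 (.node 54 (.node 95 (.node 67 .done (.node 79 (.node 87 .done .nil) .nil)) .nil) (.node 55 (.node 67 (.node 79 .done .nil) .nil) .nil)) .nil) (.node 53 (.node 91 (.node 94 (.node 42 (.node 75 .done .nil) (.node 43 (.node 79 .done .nil) .nil)) .nil) .nil) .nil)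
def t4_6 : Trie := .node 53 (.node 42 (.node 45 (.node 90 (.node 50 (.node 95 (.node 67 .done (.node 79 (.node 87 .done .nil) .nil)) .nil) (.node 51 (.node 67 (.node 87 .done .nil) .nil) .nil)) .nil) .nil) (.node 41 (.node 46 (.node 51 (.node 67 (.node 91 .done .nil) .nil) .nil) (.node 47 (.node 50 (.node 75 (.node 95 .done .nil) .nil) .nil) .nil)) .nil)) (.node 41 (.node 45 (.node 50 (.node 54 .done .nil) .nil) .nil) .nil)
def t4_7 : Trie := .node 42 (.node 47 (.node 49 (.node 75 .done .nil) (.node 51 (.node 55 .done .nil) .nil)) (.node 45 .done (.node 49 (.node 55 (.node 75 .done .nil) .nil) (.node 53 .done .nil)))) (.node 43 (.node 46 (.node 51 (.node 55 .done .nil) (.node 53 (.node 91 .done .nil) .nil)) (.node 47 (.node 50 (.node 55 .done .nil) (.node 51 (.node 54 .done .nil) .nil)) (.node 45 (.node 54 (.node 91 .done .nil) .nil) .nil))) t4_4)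
def t4_8 : Trie := .node 49 (.node 74 (.node 54 (.node 87 (.node 67 (.node 95 .done .nil) (.node 79 .done .nil)) .nil) (.node 55 (.node 67 (.node 79 .done .nil) .nil) .nil)) .nil) (.node 53 (.node 86 (.node 91 (.node 50 (.node 75 .done .nil) (.node 51 (.node 67 .done .nil) .nil)) .nil) .nil) .nil)
def t4_9 : Trie := .node 53 (.node 42 (.node 87 (.node 45 (.node 50 (.node 90 (.node 67 (.node 95 .done .nil) (.node 79 .done .nil)) .nil) .nil) (.node 47 (.node 49 (.node 75 .done .nil) .nil) .nil)) .nil) (.node 43 (.node 79 (.node 45 (.node 50 (.node 90 (.node 95 .done .nil) .nil) .nil) (.node 46 (.node 49 (.node 91 .done .nil) .nil) .nil)) .nil) .nil)) (.node 42 (.node 45 (.node 49 (.node 54 .done .nil) .nil) .nil) .nil)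
def t4_10 : Trie := .node 25 (.node 41 (.node 46 t4_8 (.node 45 (.node 50 (.node 55 (.node 75 (.node 79 .done .nil) .nil) .nil) (.node 51 (.node 54 (.node 87 (.node 91 .done .nil) .nil) .nil) .nil)) (.node 47 (.node 50 (.node 53 (.node 75 (.node 86 (.node 95 .done .nil) .nil) .nil) .nil) .nil) .nil))) t4_9) .nil
def t4_11 : Trie := .node 53 (.node 90 (.node 50 (.node 79 (.node 67 (.node 95 .done .nil) (.node 87 .done .nil)) .nil) (.node 51 (.node 67 (.node 87 .done .nil) .nil) .nil)) .nil) (.node 49 (.node 75 (.node 78 (.node 54 (.node 91 .done .nil) (.node 55 (.node 67 .done .nil) .nil)) .nil) .nil) .nil)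
def t4_12 : Trie := .node 49 (.node 41 (.node 54 (.node 74 (.node 46 (.node 79 (.node 67 (.node 95 .done .nil) (.node 87 .done .nil)) .nil) (.node 47 (.node 87 (.node 95 .done .nil) .nil) .nil)) .nil) .nil) (.node 53 (.node 42 (.node 47 (.node 75 (.node 87 .done .nil) .nil) .nil) (.node 43 (.node 46 (.node 79 (.node 91 .done .nil) .nil) .nil) .nil)) .nil)) (.node 41 (.node 46 (.node 50 (.node 53 .done .nil) .nil) .nil) .nil)
def t4_13 : Trie := .node 23 (.node 25 (.node 45 (.node 42 t4_11 (.node 41 (.node 50 (.node 55 (.node 75 (.node 79 .done .nil) .nil) .nil) (.node 51 (.node 54 (.node 87 (.node 91 .done .nil) .nil) .nil) .nil)) (.node 43 (.node 49 (.node 54 (.node 78 (.node 91 (.node 95 .done .nil) .nil) .nil) .nil) .nil) .nil))) t4_12) .nil) .nil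
def t4_14 : Trie := .node 49 (.node 74 (.node 46 (.node 67 (.node 79 (.node 87 .done .nil) (.node 95 .done .nil)) .nil) (.node 47 (.node 87 (.node 95 .done .nil) .nil) .nil)) .nil) (.node 45 (.node 66 (.node 91 (.node 50 (.node 75 .done .nil) (.node 51 (.node 87 .done .nil) .nil)) .nil) .nil) .nil)
def t4_15 : Trie := .node 45 (.node 42 (.node 67 (.node 50 (.node 53 (.node 90 (.node 79 (.node 87 .done .nil) (.node 95 .done .nil)) .nil) .nil) (.node 49 (.node 55 (.node 75 .done .nil) .nil) .nil)) .nil) (.node 43 (.node 95 (.node 49 (.node 54 (.node 91 .done .nil) .nil) (.node 50 (.node 53 (.node 79 (.node 90 .done .nil) .nil) .nil) .nil)) .nil) .nil)) (.node 42 (.node 46 (.node 49 (.node 53 .done .nil) .nil) .nil) .nil)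
def t4_16 : Trie := .node 22 (.node 23 (.node 25 (.node 41 (.node 54 t4_14 (.node 50 (.node 75 (.node 45 (.node 55 (.node 66 (.node 79 .done .nil) .nil) .nil) (.node 47 (.node 53 (.node 95 .done .nil) .nil) .nil)) .nil) (.node 46 (.node 51 (.node 53 (.node 67 (.node 91 .done .nil) .nil) .nil) .nil) .nil))) t4_15) .nil) .nil) (.node 320 .done .nil)
def t4_17 : Trie := .node 41 (.node 51 (.node 24 (.node 174 .done .nil) (.node 54 (.node 67 (.node 87 .done .nil) .nil) .nil)) (.node 21 (.node 190 .done .nil) (.node 50 (.node 67 (.node 75 .done .nil) .nil) .nil))) (.node 95 (.node 43 (.node 49 (.node 54 (.node 79 .done .nil) .nil) .nil) (.node 50 (.node 53 (.node 91 .done .nil) .nil) .nil)) .nil)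
def t4_18 : Trie := .node 45 (.node 55 (.node 21 (.node 190 .done .nil) (.node 50 (.node 67 (.node 79 .done .nil) .nil) .nil)) (.node 24 (.node 174 .done .nil) (.node 54 (.node 67 (.node 91 .done .nil) .nil) .nil))) (.node 95 (.node 47 (.node 50 (.node 53 (.node 87 .done .nil) .nil) .nil) (.node 49 (.node 54 (.node 75 .done .nil) .nil) .nil)) .nil)
def t4_19 : Trie := .node 54 (.node 49 (.node 75 (.node 78 (.node 91 (.node 67 .done (.node 95 .done .nil)) .nil) .nil) .nil) (.node 24 .done .nil)) (.node 50 (.node 53 (.node 67 (.node 79 (.node 87 (.node 90 .done .nil) .nil) .nil) .nil) .nil) .nil)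
def t4_20 : Trie := .node 21 (.node 42 (.node 54 .done .nil) (.node 43 (.node 53 .done .nil) .nil)) (.node 46 (.node 79 (.node 23 (.node 43 (.node 53 (.node 91 .done .nil) .nil) .nil) (.node 41 (.node 54 (.node 74 (.node 87 (.node 95 .done .nil) .nil) .nil) .nil) .nil)) .nil) .nil)
def t4_21 : Trie := .node 42 t4_19 (.node 41 (.node 55 (.node 23 (.node 50 (.node 75 (.node 79 .done .nil) .nil) .nil) (.node 24 .done .nil)) (.node 49 (.node 53 (.node 74 (.node 78 (.node 86 (.node 90 .done .nil) .nil) .nil) .nil) .nil) .nil)) .nil)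
def t4_22 : Trie := .node 33 (.node 42 t4_18 (.node 46 t4_17 (.node 21 (.node 162 (.node 47 (.node 50 (.node 53 .done .nil) .nil) (.node 49 (.node 54 .done .nil) .nil)) .nil) (.node 24 (.node 186 (.node 43 (.node 49 (.node 54 .done .nil) .nil) (.node 50 (.node 53 .done .nil) .nil)) .nil) .nil)))) .nil
def t4_23 : Trie := .node 50 (.node 53 (.node 75 (.node 86 (.node 91 (.node 67 .done (.node 95 .done .nil)) .nil) .nil) .nil) (.node 21 .done .nil)) (.node 49 (.node 54 (.node 67 (.node 74 (.node 79 (.node 87 .done .nil) .nil) .nil) .nil) .nil) .nil)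
def t4_24 : Trie := .node 24 (.node 46 (.node 50 .done .nil) (.node 47 (.node 49 .done .nil) .nil)) (.node 42 (.node 87 (.node 22 (.node 47 (.node 49 (.node 75 .done .nil) .nil) .nil) (.node 45 (.node 50 (.node 79 (.node 90 (.node 95 .done .nil) .nil) .nil) .nil) .nil)) .nil) .nil)
def t4_25 : Trie := .node 46 t4_23 (.node 45 (.node 51 (.node 21 .done (.node 22 (.node 54 (.node 87 (.node 91 .done .nil) .nil) .nil) .nil)) (.node 49 (.node 53 (.node 74 (.node 78 (.node 86 (.node 90 .done .nil) .nil) .nil) .nil) .nil) .nil)) .nil)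
def t4_26 : Trie := .node 13 (.node 33 (.node 41 t4_25 (.node 53 t4_24 (.node 21 (.node 42 (.node 45 (.node 50 (.node 55 .done .nil) .nil) .nil) .nil) (.node 24 (.node 43 (.node 46 (.node 49 (.node 54 .done .nil) .nil) .nil) .nil) .nil)))) .nil) (.node 41 (.node 45 (.node 49 (.node 53 (.node 74 (.node 78 (.node 86 (.node 90 (.node 21 .done (.node 24 .done .nil)) .nil) .nil) .nil) .nil) .nil) .nil) .nil) .nil)
def t4_27 : Trie := .node 12 (.node 32 (.node 13 t4_22 (.node 45 t4_21 (.node 49 t4_20 (.node 21 (.node 42 (.node 47 (.node 50 (.node 53 .done .nil) .nil) .nil) .nil) (.node 24 (.node 41 (.node 46 (.node 51 (.node 54 .done .nil) .nil) .nil) .nil) .nil))))) .nil) t4_26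
def t4_28 : Trie := .node 12 (.node 13 (.node 25 (.node 32 (.node 33 (.node 21 (.node 40 (.node 50 (.node 53 (.node 190 .done .nil) .nil) .nil) .nil) (.node 24 (.node 44 (.node 49 (.node 54 (.node 174 .done .nil) .nil) .nil) .nil) .nil)) .nil) .nil) .nil) .nil) .nil
def t4_29 : Trie := .node 32 (.node 41 (.node 46 (.node 49 (.node 54 (.node 74 (.node 79 (.node 87 .done .nil) .nil) .nil) .nil) (.node 50 (.node 53 (.node 75 (.node 86 (.node 91 .done .nil) .nil) .nil) .nil) .nil)) .nil) (.node 42 (.node 45 (.node 49 (.node 54 (.node 75 (.node 78 (.node 91 .done .nil) .nil) .nil) .nil) (.node 50 (.node 53 (.node 79 (.node 87 (.node 90 .done .nil) .nil) .nil) .nil) .nil)) .nil) .nil)) .nil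
def t4_30 : Trie := .node 33 (.node 41 (.node 46 (.node 49 (.node 54 (.node 74 (.node 79 (.node 87 .done .nil) .nil) .nil) .nil) (.node 50 (.node 53 (.node 75 (.node 86 (.node 91 .done .nil) .nil) .nil) .nil) .nil)) .nil) (.node 42 (.node 45 (.node 49 (.node 54 (.node 75 (.node 78 (.node 91 .done .nil) .nil) .nil) .nil) (.node 50 (.node 53 (.node 79 (.node 87 (.node 90 .done .nil) .nil) .nil) .nil) .nil)) .nil) .nil)) .nil
def t4_31 : Trie := .node 320 (.node 20 (.node 25 t4_27 (.node 12 (.node 13 (.node 32 (.node 33 (.node 21 (.node 42 (.node 45 (.node 48 (.node 162 .done .nil) .nil) .nil) .nil) (.node 24 (.node 41 (.node 46 (.node 52 (.node 186 .done .nil) .nil) .nil) .nil) .nil)) .nil) .nil) .nil) .nil)) t4_28) (.node 20 (.node 25 (.node 12 (.node 23 t4_29 .nil) (.node 13 (.node 22 t4_30 .nil) .nil)) .nil) .nil)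
def t4_32 : Trie := .node 43 (.node 49 (.node 46 (.node 55 (.node 79 .done .nil) .nil) (.node 47 (.node 54 (.node 95 .done .nil) .nil) .nil)) .nil) (.node 45 (.node 50 (.node 55 (.node 79 .done .nil) .nil) (.node 51 (.node 54 (.node 91 .done .nil) .nil) .nil)) (.node 53 (.node 46 (.node 51 (.node 91 .done .nil) .nil) (.node 47 (.node 50 (.node 95 .done .nil) .nil) .nil)) .nil))
def t4_33 : Trie := .node 41 (.node 45 (.node 23 (.node 21 (.node 130 .done .nil) (.node 74 (.node 78 (.node 87 (.node 91 (.node 95 .done .nil) .nil) .nil) .nil) .nil)) (.node 66 (.node 74 (.node 91 (.node 95 .done .nil) .nil) .nil) .nil)) .nil) (.node 40 (.node 73 (.node 86 .done .nil) .nil) .nil)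
def t4_34 : Trie := .node 45 (.node 67 (.node 50 (.node 55 (.node 74 (.node 79 (.node 87 .done .nil) .nil) .nil) .nil) (.node 51 (.node 54 (.node 75 (.node 86 (.node 91 .done .nil) .nil) .nil) .nil) .nil)) .nil) (.node 53 (.node 85 (.node 50 (.node 74 .done .nil) (.node 51 (.node 66 (.node 75 .done .nil) .nil) .nil)) .nil) .nil)
def t4_35 : Trie := .node 33 (.node 42 (.node 46 (.node 51 (.node 55 .done .nil) (.node 53 (.node 87 (.node 91 .done .nil) .nil) .nil)) (.node 47 (.node 50 (.node 55 .done .nil) (.node 51 (.node 54 .done .nil) .nil)) (.node 45 (.node 54 (.node 67 (.node 91 .done .nil) .nil) .nil) .nil))) (.node 21 (.node 43 (.node 49 (.node 46 .done (.node 54 .done .nil)) .nil) (.node 50 (.node 45 .done (.node 53 .done .nil)) .nil)) t4_32)) .nil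
def t4_36 : Trie := .node 13 t4_35 (.node 49 (.node 54 t4_33 (.node 42 (.node 46 (.node 53 (.node 75 (.node 79 (.node 87 (.node 91 (.node 21 .done (.node 94 .done .nil)) .nil) .nil) .nil) .nil) .nil) .nil) (.node 40 (.node 55 (.node 66 (.node 73 .done .nil) .nil) .nil) .nil))) (.node 40 t4_34 (.node 42 (.node 45 (.node 50 (.node 53 (.node 67 (.node 79 (.node 90 (.node 95 .done .nil) .nil) .nil) .nil) .nil) .nil) .nil) .nil)))
def t4_37 : Trie := .node 41 (.node 53 (.node 20 (.node 21 (.node 190 .done .nil) (.node 67 (.node 74 (.node 79 (.node 91 (.node 94 .done .nil) .nil) .nil) .nil) .nil)) (.node 74 (.node 79 (.node 86 (.node 91 .done .nil) .nil) .nil) .nil)) .nil) (.node 40 (.node 66 (.node 73 .done .nil) .nil) .nil)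
def t4_38 : Trie := .node 45 (.node 65 (.node 50 (.node 74 .done .nil) (.node 51 (.node 75 (.node 86 .done .nil) .nil) .nil)) .nil) (.node 53 (.node 87 (.node 46 (.node 51 (.node 66 (.node 75 (.node 91 .done .nil) .nil) .nil) .nil) (.node 47 (.node 50 (.node 67 (.node 74 (.node 95 .done .nil) .nil) .nil) .nil) .nil)) .nil) .nil)
def t4_39 : Trie := .node 33 (.node 49 (.node 46 t4_37 (.node 42 (.node 45 (.node 54 (.node 67 (.node 75 (.node 91 (.node 95 (.node 21 .done (.node 78 .done .nil)) .nil) .nil) .nil) .nil) .nil) .nil) (.node 40 (.node 47 (.node 73 (.node 86 .done .nil) .nil) .nil) .nil))) (.node 40 t4_38 (.node 42 (.node 45 (.node 50 (.node 53 (.node 79 (.node 87 (.node 90 (.node 95 .done .nil) .nil) .nil) .nil) .nil) .nil) .nil) .nil))) .nil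
def t4_40 : Trie := .node 10 (.node 13 (.node 30 (.node 33 (.node 42 (.node 49 (.node 75 (.node 91 (.node 45 (.node 54 (.node 67 (.node 95 .done .nil) .nil) .nil) (.node 46 (.node 53 (.node 79 (.node 87 (.node 94 .done .nil) .nil) .nil) .nil) .nil)) .nil) .nil) .nil) (.node 21 (.node 40 (.node 45 (.node 50 (.node 130 .done .nil) .nil) .nil) .nil) .nil)) .nil) .nil) .nil) .nil
def t4_41 : Trie := .node 10 (.node 13 (.node 25 (.node 30 (.node 33 (.node 42 (.node 49 (.node 75 (.node 91 (.node 45 (.node 54 (.node 67 (.node 78 (.node 95 .done .nil) .nil) .nil) .nil) (.node 46 (.node 53 (.node 79 (.node 87 .done .nil) .nil) .nil) .nil)) .nil) .nil) .nil) (.node 21 (.node 40 (.node 50 (.node 53 (.node 190 .done .nil) .nil) .nil) .nil) .nil)) .nil) .nil) .nil) .nil) .nil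
def t4_42 : Trie := .node 356 (.node 20 (.node 22 (.node 23 (.node 25 t4_7 (.node 49 (.node 46 t4_5 (.node 42 (.node 75 (.node 45 (.node 55 (.node 67 .done .nil) .nil) (.node 47 (.node 53 (.node 87 (.node 94 .done .nil) .nil) .nil) .nil)) .nil) (.node 43 (.node 45 (.node 54 (.node 91 (.node 95 .done .nil) .nil) .nil) .nil) .nil))) t4_6)) t4_10) t4_13) t4_16) t4_31
def t4_43 : Trie := .node 50 (.node 41 (.node 75 (.node 47 .done (.node 54 (.node 87 .done .nil) .nil)) .nil) (.node 43 (.node 45 (.node 55 (.node 79 .done .nil) .nil) (.node 47 (.node 54 .done .nil) .nil)) (.node 24 (.node 45 (.node 55 .done .nil) .nil) .nil))) .nil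
def t4_44 : Trie := .node 45 (.node 55 (.node 24 .done (.node 51 (.node 67 .done .nil) .nil)) .nil) (.node 47 (.node 49 (.node 75 .done .nil) (.node 51 (.node 54 .done .nil) .nil)) (.node 49 (.node 54 (.node 75 (.node 95 .done .nil) .nil) .nil) .nil))
def t4_45 : Trie := .node 41 (.node 53 (.node 25 (.node 24 (.node 186 .done .nil) (.node 66 (.node 75 (.node 79 (.node 90 (.node 95 .done .nil) .nil) .nil) .nil) .nil)) (.node 75 (.node 79 (.node 86 (.node 90 .done .nil) .nil) .nil) .nil)) .nil) (.node 52 (.node 89 (.node 94 .done .nil) .nil) .nil)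
def t4_46 : Trie := .node 41 (.node 87 (.node 46 (.node 51 (.node 67 (.node 90 (.node 95 .done .nil) .nil) .nil) .nil) (.node 47 (.node 50 (.node 75 (.node 91 (.node 94 .done .nil) .nil) .nil) .nil) .nil)) .nil) (.node 49 (.node 93 (.node 46 (.node 90 .done .nil) (.node 47 (.node 86 (.node 91 .done .nil) .nil) .nil)) .nil) .nil)
def t4_47 : Trie := .node 45 (.node 50 t4_45 (.node 42 (.node 49 (.node 54 (.node 67 (.node 75 (.node 91 (.node 95 (.node 24 .done (.node 78 .done .nil)) .nil) .nil) .nil) .nil) .nil) .nil) (.node 51 (.node 52 (.node 86 (.node 89 .done .nil) .nil) .nil) .nil))) (.node 52 t4_46 (.node 41 (.node 46 (.node 49 (.node 54 (.node 67 (.node 74 (.node 79 (.node 87 .done .nil) .nil) .nil) .nil) .nil) .nil) .nil) .nil))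
def t4_48 : Trie := .node 49 (.node 53 (.node 23 (.node 24 (.node 226 .done .nil) (.node 67 (.node 75 (.node 78 (.node 87 (.node 90 .done .nil) .nil) .nil) .nil) .nil)) (.node 67 (.node 75 (.node 90 (.node 94 .done .nil) .nil) .nil) .nil)) .nil) (.node 52 (.node 86 (.node 89 .done .nil) .nil) .nil)
def t4_49 : Trie := .node 41 (.node 85 (.node 46 (.node 90 .done .nil) (.node 47 (.node 91 (.node 94 .done .nil) .nil) .nil)) .nil) (.node 49 (.node 95 (.node 42 (.node 47 (.node 75 (.node 86 (.node 91 .done .nil) .nil) .nil) .nil) (.node 43 (.node 46 (.node 79 (.node 87 (.node 90 .done .nil) .nil) .nil) .nil) .nil)) .nil) .nil)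
def t4_50 : Trie := .node 35 (.node 45 (.node 42 t4_48 (.node 41 (.node 50 (.node 54 (.node 75 (.node 79 (.node 87 (.node 91 (.node 24 .done (.node 66 .done .nil)) .nil) .nil) .nil) .nil) .nil) .nil) (.node 43 (.node 52 (.node 89 (.node 94 .done .nil) .nil) .nil) .nil))) (.node 52 t4_49 (.node 41 (.node 46 (.node 49 (.node 54 (.node 67 (.node 74 (.node 79 (.node 95 .done .nil) .nil) .nil) .nil) .nil) .nil) .nil) .nil))) .nil
def t4_51 : Trie := .node 13 (.node 15 (.node 33 (.node 35 (.node 41 (.node 24 (.node 46 (.node 52 (.node 186 .done .nil) .nil) .nil) (.node 45 (.node 50 (.node 54 (.node 75 (.node 79 (.node 87 (.node 91 .done .nil) .nil) .nil) .nil) .nil) .nil) .nil)) (.node 42 (.node 45 (.node 49 (.node 54 (.node 67 (.node 75 (.node 78 (.node 91 (.node 95 .done .nil) .nil) .nil) .nil) .nil) .nil) .nil) .nil) .nil)) .nil) .nil) .nil) .nil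
def t4_52 : Trie := .node 13 (.node 15 (.node 22 (.node 33 (.node 35 (.node 45 (.node 54 (.node 75 (.node 91 (.node 41 (.node 50 (.node 66 (.node 79 (.node 87 .done .nil) .nil) .nil) .nil) (.node 42 (.node 49 (.node 67 (.node 95 .done .nil) .nil) .nil) .nil)) .nil) .nil) .nil) (.node 24 (.node 46 (.node 49 (.node 52 (.node 226 .done .nil) .nil) .nil) .nil) .nil)) .nil) .nil) .nil) .nil) .nil
def t4_53 : Trie := .node 20 (.node 22 (.node 13 (.node 33 (.node 15 (.node 35 (.node 42 t4_44 (.node 46 (.node 24 (.node 41 .done (.node 49 .done .nil)) (.node 43 (.node 49 (.node 79 .done .nil) (.node 51 (.node 54 .done .nil) .nil)) (.node 41 (.node 51 (.node 67 .done .nil) .nil) .nil))) t4_43)) .nil) t4_47) .nil) (.node 15 t4_50 .nil)) t4_51) t4_52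
def t4_54 : Trie := .node 13 (.node 20 (.node 21 (.node 22 (.node 24 (.node 25 (.node 33 (.node 41 (.node 53 (.node 186 (.node 190 (.node 45 (.node 50 .done .nil) (.node 46 (.node 49 .done .nil) .nil)) .nil) .nil) .nil) .nil) .nil) .nil) .nil) .nil) .nil) .nil) .nil
def t4_55 : Trie := .node 359 t4_42 (.node 356 (.node 320 (.node 22 (.node 25 (.node 10 (.node 30 t4_36 .nil) (.node 13 t4_39 .nil)) t4_40) t4_41) (.node 22 (.node 24 (.node 25 (.node 45 (.node 49 (.node 54 .done .nil) (.node 50 (.node 53 .done .nil) .nil)) (.node 46 (.node 49 (.node 53 .done .nil) .nil) .nil)) .nil) .nil) .nil)) .nil)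
def t4_56 : Trie := .node 54 (.node 41 (.node 51 (.node 21 .done (.node 47 (.node 87 .done .nil) .nil)) .nil) (.node 43 (.node 45 (.node 91 .done .nil) (.node 47 (.node 50 .done .nil) .nil)) (.node 45 (.node 50 (.node 79 (.node 91 .done .nil) .nil) .nil) .nil))) .nil
def t4_57 : Trie := .node 46 (.node 41 (.node 51 (.node 21 .done (.node 55 (.node 67 .done .nil) .nil)) .nil) (.node 43 (.node 50 (.node 55 .done .nil) (.node 53 (.node 91 .done .nil) .nil)) (.node 50 (.node 53 (.node 91 (.node 95 .done .nil) .nil) .nil) .nil))) t4_56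
def t4_58 : Trie := .node 45 (.node 49 (.node 25 (.node 21 (.node 162 .done .nil) (.node 66 (.node 74 (.node 87 (.node 91 (.node 95 .done .nil) .nil) .nil) .nil) .nil)) (.node 74 (.node 78 (.node 87 (.node 91 .done .nil) .nil) .nil) .nil)) .nil) (.node 48 (.node 73 (.node 94 .done .nil) .nil) .nil)
def t4_59 : Trie := .node 42 (.node 74 (.node 45 (.node 55 (.node 67 (.node 79 (.node 95 .done .nil) .nil) .nil) .nil) (.node 53 (.node 93 .done .nil) .nil)) .nil) (.node 43 (.node 75 (.node 45 (.node 54 (.node 79 (.node 91 (.node 94 .done .nil) .nil) .nil) .nil) (.node 53 (.node 78 (.node 93 .done .nil) .nil) .nil)) .nil) .nil)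
def t4_60 : Trie := .node 41 (.node 54 t4_58 (.node 46 (.node 50 (.node 53 (.node 67 (.node 75 (.node 91 (.node 95 (.node 21 .done (.node 86 .done .nil)) .nil) .nil) .nil) .nil) .nil) .nil) (.node 48 (.node 55 (.node 73 (.node 78 .done .nil) .nil) .nil) .nil))) (.node 48 t4_59 (.node 42 (.node 45 (.node 50 (.node 53 (.node 67 (.node 79 (.node 87 (.node 90 .done .nil) .nil) .nil) .nil) .nil) .nil) .nil) .nil))
def t4_61 : Trie := .node 49 (.node 53 (.node 22 (.node 21 (.node 222 .done .nil) (.node 67 (.node 74 (.node 79 (.node 86 (.node 91 .done .nil) .nil) .nil) .nil) .nil)) (.node 67 (.node 74 (.node 91 (.node 94 .done .nil) .nil) .nil) .nil)) .nil) (.node 48 (.node 73 (.node 78 .done .nil) .nil) .nil)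
def t4_62 : Trie := .node 42 (.node 74 (.node 45 (.node 77 .done .nil) (.node 47 (.node 53 (.node 79 (.node 87 (.node 95 .done .nil) .nil) .nil) .nil) .nil)) .nil) (.node 43 (.node 75 (.node 45 (.node 77 (.node 94 .done .nil) .nil) (.node 46 (.node 53 (.node 78 (.node 91 (.node 95 .done .nil) .nil) .nil) .nil) .nil)) .nil) .nil)
def t4_63 : Trie := .node 35 (.node 41 (.node 46 t4_61 (.node 45 (.node 50 (.node 54 (.node 75 (.node 79 (.node 87 (.node 91 (.node 21 .done (.node 66 .done .nil)) .nil) .nil) .nil) .nil) .nil) .nil) (.node 47 (.node 48 (.node 73 (.node 94 .done .nil) .nil) .nil) .nil))) (.node 48 t4_62 (.node 42 (.node 45 (.node 50 (.node 53 (.node 67 (.node 87 (.node 90 (.node 95 .done .nil) .nil) .nil) .nil) .nil) .nil) .nil) .nil))) .nil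
def t4_64 : Trie := .node 12 (.node 15 (.node 32 (.node 35 (.node 41 (.node 50 (.node 75 (.node 91 (.node 45 (.node 54 (.node 79 (.node 87 .done .nil) .nil) .nil) (.node 46 (.node 53 (.node 67 (.node 86 (.node 95 .done .nil) .nil) .nil) .nil) .nil)) .nil) .nil) .nil) (.node 21 (.node 42 (.node 45 (.node 48 (.node 162 .done .nil) .nil) .nil) .nil) .nil)) .nil) .nil) .nil) .nil
def t4_65 : Trie := .node 12 (.node 15 (.node 23 (.node 32 (.node 35 (.node 41 (.node 50 (.node 75 (.node 91 (.node 45 (.node 54 (.node 66 (.node 79 (.node 87 .done .nil) .nil) .nil) .nil) (.node 46 (.node 53 (.node 67 (.node 95 .done .nil) .nil) .nil) .nil)) .nil) .nil) .nil) (.node 21 (.node 42 (.node 48 (.node 53 (.node 222 .done .nil) .nil) .nil) .nil) .nil)) .nil) .nil) .nil) .nil) .nil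
def t4_66 : Trie := .node 20 (.node 23 (.node 12 (.node 32 (.node 15 (.node 35 (.node 42 (.node 21 (.node 45 .done (.node 53 .done .nil)) (.node 47 (.node 50 (.node 55 .done .nil) (.node 53 (.node 87 .done .nil) .nil)) (.node 45 (.node 55 (.node 67 .done .nil) .nil) .nil))) t4_57) .nil) t4_60) .nil) (.node 15 t4_63 .nil)) t4_64) t4_65
def t4_67 : Trie := .node 15 (.node 20 (.node 21 (.node 22 (.node 23 (.node 24 (.node 35 (.node 49 (.node 53 (.node 222 (.node 226 (.node 41 (.node 46 .done .nil) (.node 42 (.node 45 .done .nil) .nil)) .nil) .nil) .nil) .nil) .nil) .nil) .nil) .nil) .nil) .nil) .nil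
def t4_68 : Trie := .node 356 (.node 359 (.node 347 (.node 320 t4_66 (.node 20 (.node 23 (.node 24 (.node 41 (.node 45 (.node 54 .done .nil) (.node 46 (.node 53 .done .nil) .nil)) (.node 42 (.node 45 (.node 53 .done .nil) .nil) .nil)) .nil) .nil) .nil)) t4_67) .nil) .nil
def t4_69 : Trie := .node 41 (.node 75 (.node 46 (.node 67 .done .nil) (.node 55 .done .nil)) .nil) (.node 43 (.node 46 (.node 55 .done .nil) (.node 47 (.node 53 (.node 95 .done .nil) .nil) .nil)) (.node 24 (.node 47 (.node 53 .done .nil) .nil) .nil))
def t4_70 : Trie := .node 46 (.node 49 (.node 75 (.node 79 .done .nil) .nil) (.node 51 (.node 55 .done .nil) .nil)) (.node 47 (.node 53 (.node 24 .done (.node 51 (.node 87 .done .nil) .nil)) .nil) (.node 49 (.node 55 (.node 75 .done .nil) .nil) .nil))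
def t4_71 : Trie := .node 41 (.node 45 (.node 22 (.node 24 (.node 134 .done .nil) (.node 75 (.node 79 (.node 86 (.node 90 (.node 95 .done .nil) .nil) .nil) .nil) .nil)) (.node 66 (.node 75 (.node 90 (.node 95 .done .nil) .nil) .nil) .nil)) .nil) (.node 44 (.node 78 (.node 89 .done .nil) .nil) .nil)
def t4_72 : Trie := .node 41 (.node 67 (.node 50 (.node 55 (.node 75 (.node 78 (.node 91 .done .nil) .nil) .nil) .nil) (.node 51 (.node 54 (.node 79 (.node 87 (.node 90 .done .nil) .nil) .nil) .nil) .nil)) .nil) (.node 49 (.node 77 (.node 54 (.node 90 .done .nil) (.node 55 (.node 66 (.node 91 .done .nil) .nil) .nil)) .nil) .nil)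
def t4_73 : Trie := .node 53 (.node 50 t4_71 (.node 42 (.node 46 (.node 49 (.node 75 (.node 79 (.node 87 (.node 91 (.node 24 .done (.node 94 .done .nil)) .nil) .nil) .nil) .nil) .nil) .nil) (.node 44 (.node 51 (.node 66 (.node 89 .done .nil) .nil) .nil) .nil))) (.node 44 t4_72 (.node 41 (.node 46 (.node 49 (.node 54 (.node 67 (.node 74 (.node 87 (.node 95 .done .nil) .nil) .nil) .nil) .nil) .nil) .nil) .nil))
def t4_74 : Trie := .node 45 (.node 49 (.node 20 (.node 24 (.node 174 .done .nil) (.node 67 (.node 75 (.node 87 (.node 90 (.node 94 .done .nil) .nil) .nil) .nil) .nil)) (.node 75 (.node 78 (.node 87 (.node 90 .done .nil) .nil) .nil) .nil)) .nil) (.node 44 (.node 66 (.node 89 .done .nil) .nil) .nil)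
def t4_75 : Trie := .node 41 (.node 65 (.node 54 (.node 90 .done .nil) (.node 55 (.node 78 (.node 91 .done .nil) .nil) .nil)) .nil) (.node 49 (.node 79 (.node 42 (.node 55 (.node 66 (.node 75 (.node 91 .done .nil) .nil) .nil) .nil) (.node 43 (.node 54 (.node 67 (.node 90 (.node 95 .done .nil) .nil) .nil) .nil) .nil)) .nil) .nil)
def t4_76 : Trie := .node 32 (.node 53 (.node 42 t4_74 (.node 41 (.node 46 (.node 50 (.node 67 (.node 75 (.node 91 (.node 95 (.node 24 .done (.node 86 .done .nil)) .nil) .nil) .nil) .nil) .nil) .nil) (.node 43 (.node 44 (.node 78 (.node 89 .done .nil) .nil) .nil) .nil))) (.node 44 t4_75 (.node 41 (.node 46 (.node 49 (.node 54 (.node 74 (.node 79 (.node 87 (.node 95 .done .nil) .nil) .nil) .nil) .nil) .nil) .nil) .nil))) .nil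
def t4_77 : Trie := .node 10 (.node 12 (.node 30 (.node 32 (.node 41 (.node 24 (.node 44 (.node 54 (.node 134 .done .nil) .nil) .nil) (.node 46 (.node 50 (.node 53 (.node 67 (.node 75 (.node 91 (.node 95 .done .nil) .nil) .nil) .nil) .nil) .nil) .nil)) (.node 42 (.node 46 (.node 49 (.node 53 (.node 75 (.node 79 (.node 87 (.node 91 (.node 94 .done .nil) .nil) .nil) .nil) .nil) .nil) .nil) .nil) .nil)) .nil) .nil) .nil) .nil
def t4_78 : Trie := .node 10 (.node 12 (.node 25 (.node 30 (.node 32 (.node 46 (.node 53 (.node 75 (.node 91 (.node 41 (.node 50 (.node 67 (.node 86 (.node 95 .done .nil) .nil) .nil) .nil) (.node 42 (.node 49 (.node 79 (.node 87 .done .nil) .nil) .nil) .nil)) .nil) .nil) .nil) (.node 24 (.node 44 (.node 49 (.node 54 (.node 174 .done .nil) .nil) .nil) .nil) .nil)) .nil) .nil) .nil) .nil) .nil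
def t4_79 : Trie := .node 23 (.node 25 (.node 10 (.node 30 (.node 12 (.node 32 (.node 42 t4_70 (.node 50 t4_69 (.node 54 (.node 24 (.node 41 .done (.node 49 .done .nil)) (.node 43 (.node 46 (.node 51 .done .nil) (.node 49 (.node 95 .done .nil) .nil)) (.node 41 (.node 51 (.node 87 .done .nil) .nil) .nil))) .nil))) .nil) t4_73) .nil) (.node 12 t4_76 .nil)) t4_77) t4_78
def t4_80 : Trie := .node 10 (.node 21 (.node 22 (.node 23 (.node 24 (.node 25 (.node 30 (.node 41 (.node 45 (.node 130 (.node 134 (.node 49 (.node 54 .done .nil) (.node 50 (.node 53 .done .nil) .nil)) .nil) .nil) .nil) .nil) .nil) .nil) .nil) .nil) .nil) .nil) .nil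
def t4_81 : Trie := .node 359 (.node 12 (.node 20 (.node 21 (.node 23 (.node 24 (.node 25 (.node 32 (.node 45 (.node 49 (.node 162 (.node 174 (.node 41 (.node 54 .done .nil) (.node 42 (.node 53 .done .nil) .nil)) .nil) .nil) .nil) .nil) .nil) .nil) .nil) .nil) .nil) .nil) .nil) .nil
def t4_82 : Trie := .node 347 (.node 356 (.node 329 (.node 359 (.node 320 t4_79 (.node 21 (.node 23 (.node 25 (.node 41 (.node 49 (.node 54 .done .nil) (.node 50 (.node 53 .done .nil) .nil)) (.node 42 (.node 49 (.node 53 .done .nil) .nil) .nil)) .nil) .nil) .nil)) t4_80) t4_81) .nil) .nil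
def t4_83 : Trie := .node 21 (.node 41 (.node 47 .done .nil) (.node 42 (.node 46 (.node 55 .done .nil) .nil) .nil)) (.node 54 (.node 41 (.node 46 (.node 87 (.node 163 .done .nil) .nil) .nil) (.node 42 (.node 45 (.node 79 (.node 187 .done .nil) .nil) .nil) .nil)) (.node 47 (.node 53 .done .nil) .nil))
def t4_84 : Trie := .node 10 (.node 30 (.node 42 (.node 49 (.node 54 .done .nil) (.node 50 (.node 53 .done .nil) .nil)) (.node 23 (.node 40 (.node 51 .done .nil) .nil) (.node 43 (.node 49 (.node 53 .done .nil) .nil) .nil))) .nil) (.node 20 (.node 23 (.node 24 (.node 44 (.node 49 (.node 54 (.node 174 .done .nil) .nil) .nil) .nil) .nil) .nil) .nil)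
def t4_85 : Trie := .node 13 (.node 33 (.node 46 (.node 49 (.node 54 .done .nil) (.node 50 (.node 53 .done .nil) .nil)) (.node 22 (.node 44 (.node 55 .done .nil) .nil) (.node 47 (.node 49 (.node 53 .done .nil) .nil) .nil))) .nil) (.node 42 (.node 46 (.node 49 (.node 54 .done .nil) (.node 50 (.node 53 .done .nil) .nil)) .nil) (.node 43 (.node 47 (.node 49 (.node 53 (.node 131 (.node 135 .done .nil) .nil) .nil) .nil) .nil) .nil))
def t4_86 : Trie := .node 12 (.node 32 (.node 13 (.node 33 (.node 50 t4_83 (.node 54 (.node 24 (.node 42 (.node 46 (.node 51 .done .nil) .nil) (.node 43 (.node 45 .done .nil) .nil)) (.node 43 (.node 49 .done .nil) .nil)) .nil)) .nil) t4_84) .nil) (.node 10 (.node 30 t4_85 .nil) (.node 13 (.node 20 (.node 21 (.node 22 (.node 33 (.node 40 (.node 50 (.node 53 (.node 190 .done .nil) .nil) .nil) .nil) .nil) .nil) .nil) .nil) .nil))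
def t4_87 : Trie := .node 22 (.node 21 (.node 41 .done (.node 50 (.node 55 .done .nil) .nil)) (.node 50 (.node 53 (.node 78 (.node 89 (.node 95 .done .nil) .nil) .nil) .nil) .nil)) (.node 41 (.node 49 (.node 53 (.node 74 (.node 77 (.node 86 (.node 89 .done .nil) .nil) .nil) .nil) .nil) .nil) .nil)
def t4_88 : Trie := .node 30 (.node 13 (.node 33 (.node 44 t4_87 (.node 12 (.node 32 (.node 42 (.node 46 (.node 49 (.node 53 (.node 75 (.node 79 (.node 87 (.node 91 .done .nil) .nil) .nil) .nil) .nil) .nil) .nil) .nil) .nil) .nil)) .nil) (.node 21 (.node 22 (.node 41 (.node 44 (.node 49 (.node 53 (.node 67 (.node 74 (.node 77 (.node 86 (.node 89 .done .nil) .nil) .nil) .nil) .nil) .nil) .nil) .nil) .nil) .nil) .nil)) .nil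
def t4_89 : Trie := .node 24 (.node 40 (.node 46 (.node 49 (.node 73 (.node 79 (.node 86 .done .nil) .nil) .nil) (.node 50 (.node 53 (.node 66 (.node 74 (.node 87 (.node 91 (.node 95 .done .nil) .nil) .nil) .nil) .nil) .nil) .nil)) .nil) .nil) .nil
def t4_90 : Trie := .node 12 (.node 13 (.node 20 (.node 25 (.node 32 (.node 33 (.node 21 (.node 42 (.node 44 (.node 49 (.node 54 (.node 66 (.node 75 (.node 79 (.node 90 (.node 95 .done .nil) .nil) .nil) .nil) .nil) .nil) (.node 53 (.node 78 (.node 87 (.node 89 .done .nil) .nil) .nil) .nil)) .nil) .nil) t4_89) .nil) .nil) .nil) .nil) .nil) .nil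
def t4_91 : Trie := .node 23 (.node 24 (.node 45 .done (.node 51 (.node 54 .done .nil) .nil)) (.node 49 (.node 54 (.node 73 (.node 86 (.node 95 .done .nil) .nil) .nil) .nil) .nil)) (.node 45 (.node 49 (.node 53 (.node 73 (.node 78 (.node 85 (.node 90 .done .nil) .nil) .nil) .nil) .nil) .nil) .nil)
def t4_92 : Trie := .node 30 (.node 12 (.node 32 (.node 40 t4_91 (.node 13 (.node 33 (.node 42 (.node 46 (.node 49 (.node 53 (.node 75 (.node 79 (.node 87 (.node 91 .done .nil) .nil) .nil) .nil) .nil) .nil) .nil) .nil) .nil) .nil)) .nil) (.node 23 (.node 24 (.node 40 (.node 45 (.node 49 (.node 53 (.node 67 (.node 73 (.node 78 (.node 85 (.node 90 .done .nil) .nil) .nil) .nil) .nil) .nil) .nil) .nil) .nil) .nil) .nil)) .nil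
def t4_93 : Trie := .node 356 (.node 359 (.node 25 t4_86 (.node 10 (.node 12 (.node 13 (.node 30 (.node 32 (.node 33 .done .nil) .nil) .nil) .nil) .nil) .nil)) (.node 10 (.node 25 t4_88 .nil) .nil)) (.node 359 t4_90 (.node 11 (.node 13 (.node 25 (.node 31 (.node 33 (.node 40 (.node 49 .done (.node 53 .done .nil)) .nil) .nil) .nil) .nil) .nil) .nil))
def t4_94 : Trie := .node 320 (.node 323 t4_93 (.node 359 (.node 356 (.node 10 (.node 25 t4_92 .nil) .nil) (.node 12 (.node 14 (.node 25 (.node 32 (.node 34 (.node 44 (.node 49 .done (.node 53 .done .nil)) .nil) .nil) .nil) .nil) .nil) .nil)) .nil)) (.node 5 .done .nil)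
def t4_95 : Trie := .node 347 (.node 5 (.node 20 (.node 23 (.node 24 (.node 41 (.node 45 (.node 54 .done .nil) (.node 46 (.node 53 .done .nil) .nil)) (.node 42 (.node 45 (.node 53 .done .nil) .nil) .nil)) .nil) .nil) .nil) .nil) .nil
def t4_96 : Trie := .node 323 (.node 329 (.node 347 t4_55 (.node 356 (.node 359 (.node 320 t4_53 (.node 20 (.node 21 (.node 22 (.node 41 (.node 45 (.node 50 .done .nil) (.node 46 (.node 49 .done .nil) .nil)) (.node 42 (.node 45 (.node 49 .done .nil) .nil) .nil)) .nil) .nil) .nil)) t4_54) .nil)) t4_68) t4_82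
def t4_97 : Trie := .node 21 (.node 47 (.node 50 (.node 54 .done .nil) .nil) (.node 49 (.node 55 .done .nil) .nil)) (.node 46 (.node 49 (.node 54 (.node 79 (.node 191 .done .nil) .nil) .nil) (.node 50 (.node 53 (.node 87 (.node 175 .done .nil) .nil) .nil) .nil)) (.node 45 (.node 55 .done .nil) .nil))
def t4_98 : Trie := .node 15 (.node 35 (.node 41 (.node 45 (.node 55 .done .nil) (.node 46 (.node 54 .done .nil) .nil)) (.node 23 (.node 47 (.node 52 .done .nil) .nil) (.node 42 (.node 45 (.node 54 .done .nil) .nil) .nil))) .nil) (.node 21 (.node 23 (.node 25 (.node 42 (.node 45 (.node 48 (.node 162 .done .nil) .nil) .nil) .nil) .nil) .nil) .nil)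
def t4_99 : Trie := .node 41 (.node 45 (.node 51 (.node 55 (.node 223 (.node 227 .done .nil) .nil) .nil) .nil) (.node 46 (.node 50 (.node 54 .done .nil) .nil) .nil)) (.node 42 (.node 45 (.node 50 (.node 54 .done .nil) .nil) .nil) .nil)
def t4_100 : Trie := .node 15 (.node 35 (.node 13 (.node 33 (.node 41 (.node 45 (.node 51 .done .nil) (.node 46 (.node 50 .done .nil) .nil)) (.node 22 (.node 43 (.node 48 .done .nil) .nil) (.node 42 (.node 45 (.node 50 .done .nil) .nil) .nil))) .nil) t4_99) .nil) (.node 13 (.node 22 (.node 24 (.node 25 (.node 33 (.node 41 (.node 46 (.node 52 (.node 186 .done .nil) .nil) .nil) .nil) .nil) .nil) .nil) .nil) .nil)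
def t4_101 : Trie := .node 22 (.node 24 (.node 43 (.node 46 .done .nil) (.node 53 .done .nil)) (.node 41 (.node 46 (.node 67 (.node 73 (.node 78 .done .nil) .nil) .nil) .nil) .nil)) (.node 41 (.node 45 (.node 53 (.node 73 (.node 77 (.node 86 (.node 90 .done .nil) .nil) .nil) .nil) .nil) .nil) .nil)
def t4_102 : Trie := .node 35 (.node 13 (.node 33 (.node 48 t4_101 (.node 12 (.node 32 (.node 41 (.node 45 (.node 50 (.node 54 (.node 75 (.node 79 (.node 87 (.node 91 .done .nil) .nil) .nil) .nil) .nil) .nil) .nil) .nil) .nil) .nil)) .nil) (.node 22 (.node 24 (.node 41 (.node 45 (.node 48 (.node 53 (.node 73 (.node 77 (.node 86 (.node 90 (.node 95 .done .nil) .nil) .nil) .nil) .nil) .nil) .nil) .nil) .nil) .nil) .nil)) .nil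
def t4_103 : Trie := .node 24 (.node 48 (.node 54 (.node 41 (.node 73 (.node 78 (.node 87 .done .nil) .nil) .nil) (.node 42 (.node 45 (.node 67 (.node 74 (.node 79 (.node 91 (.node 94 .done .nil) .nil) .nil) .nil) .nil) .nil) .nil)) .nil) .nil) .nil
def t4_104 : Trie := .node 12 (.node 13 (.node 20 (.node 25 (.node 32 (.node 33 (.node 21 (.node 50 (.node 52 (.node 41 (.node 46 (.node 67 (.node 75 (.node 87 (.node 90 (.node 94 .done .nil) .nil) .nil) .nil) .nil) .nil) (.node 45 (.node 79 (.node 86 (.node 89 .done .nil) .nil) .nil) .nil)) .nil) .nil) t4_103) .nil) .nil) .nil) .nil) .nil) .nil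
def t4_105 : Trie := .node 347 (.node 20 (.node 12 (.node 32 (.node 13 (.node 33 (.node 42 t4_97 (.node 46 (.node 24 (.node 43 (.node 50 (.node 54 .done .nil) .nil) (.node 51 (.node 53 .done .nil) .nil)) (.node 41 (.node 51 .done .nil) .nil)) .nil)) .nil) t4_98) .nil) t4_100) (.node 12 (.node 13 (.node 15 (.node 32 (.node 33 (.node 35 .done .nil) .nil) .nil) .nil) .nil) .nil)) (.node 15 (.node 20 t4_102 .nil) .nil)
def t4_106 : Trie := .node 23 (.node 21 (.node 42 (.node 47 .done .nil) (.node 49 .done .nil)) (.node 42 (.node 45 (.node 67 (.node 86 (.node 89 .done .nil) .nil) .nil) .nil) .nil)) (.node 41 (.node 45 (.node 49 (.node 74 (.node 78 (.node 85 (.node 89 .done .nil) .nil) .nil) .nil) .nil) .nil) .nil)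
def t4_107 : Trie := .node 35 (.node 12 (.node 32 (.node 52 t4_106 (.node 13 (.node 33 (.node 41 (.node 45 (.node 50 (.node 54 (.node 75 (.node 79 (.node 87 (.node 91 .done .nil) .nil) .nil) .nil) .nil) .nil) .nil) .nil) .nil) .nil)) .nil) (.node 21 (.node 23 (.node 41 (.node 45 (.node 49 (.node 52 (.node 74 (.node 78 (.node 85 (.node 89 (.node 95 .done .nil) .nil) .nil) .nil) .nil) .nil) .nil) .nil) .nil) .nil) .nil)) .nil
def t4_108 : Trie := .node 33 (.node 41 (.node 46 (.node 49 (.node 54 (.node 74 (.node 79 (.node 87 .done .nil) .nil) .nil) .nil) (.node 50 (.node 53 (.node 75 (.node 86 (.node 91 .done .nil) .nil) .nil) .nil) .nil)) .nil) (.node 42 (.node 45 (.node 49 (.node 54 (.node 75 (.node 78 (.node 91 .done .nil) .nil) .nil) .nil) (.node 50 (.node 53 (.node 79 (.node 87 (.node 90 .done .nil) .nil) .nil) .nil) .nil)) .nil) .nil)) .nil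
def t4_109 : Trie := .node 329 (.node 356 t4_105 (.node 347 t4_104 (.node 13 (.node 14 (.node 20 (.node 33 (.node 34 (.node 52 (.node 41 .done (.node 45 .done .nil)) .nil) .nil) .nil) .nil) .nil) .nil))) (.node 347 (.node 356 (.node 15 (.node 20 t4_107 .nil) .nil) (.node 11 (.node 12 (.node 20 (.node 31 (.node 32 (.node 48 (.node 41 .done (.node 45 .done .nil)) .nil) .nil) .nil) .nil) .nil) .nil)) .nil)
def t4_110 : Trie := .node 32 (.node 13 (.node 33 (.node 25 (.node 42 (.node 46 (.node 50 (.node 55 .done .nil) (.node 51 (.node 54 .done .nil) .nil)) .nil) (.node 43 (.node 49 (.node 54 .done .nil) .nil) (.node 47 (.node 50 (.node 53 .done .nil) .nil) .nil))) (.node 40 (.node 44 .done .nil) .nil)) .nil) (.node 23 (.node 25 (.node 44 (.node 49 (.node 54 (.node 174 .done .nil) .nil) .nil) .nil) .nil) .nil)) .nil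
def t4_111 : Trie := .node 395 t4_109 (.node 329 (.node 347 (.node 356 (.node 12 (.node 13 (.node 20 (.node 25 (.node 32 t4_108 .nil) .nil) .nil) .nil) .nil) (.node 12 (.node 13 (.node 20 (.node 25 (.node 32 (.node 33 (.node 41 (.node 45 (.node 49 (.node 53 (.node 74 (.node 78 (.node 86 (.node 90 .done .nil) .nil) .nil) .nil) .nil) .nil) .nil) .nil) .nil) .nil) .nil) .nil) .nil) .nil)) .nil) .nil)
def t4_112 : Trie := .node 395 (.node 0 (.node 22 (.node 24 (.node 25 (.node 45 (.node 49 (.node 54 .done .nil) (.node 50 (.node 53 .done .nil) .nil)) (.node 46 (.node 49 (.node 53 .done .nil) .nil) .nil)) .nil) .nil) .nil) .nil) (.node 0 (.node 11 (.node 13 (.node 22 (.node 24 (.node 25 (.node 31 (.node 33 (.node 40 (.node 49 .done (.node 53 .done .nil)) .nil) .nil) .nil) .nil) .nil) .nil) .nil) .nil) .nil)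
def t4_113 : Trie := .node 32 (.node 13 (.node 33 (.node 20 (.node 42 (.node 45 (.node 55 .done .nil) (.node 47 (.node 50 (.node 54 .done .nil) .nil) .nil)) (.node 46 (.node 41 (.node 51 .done .nil) (.node 43 (.node 50 (.node 54 .done .nil) .nil) .nil)) .nil)) (.node 48 (.node 52 .done .nil) .nil)) .nil) (.node 20 (.node 23 (.node 42 (.node 45 (.node 48 (.node 162 .done .nil) .nil) .nil) .nil) .nil) .nil)) .nil
def t4_114 : Trie := .node 395 (.node 0 (.node 21 (.node 23 (.node 25 (.node 41 (.node 49 (.node 54 .done .nil) (.node 50 (.node 53 .done .nil) .nil)) (.node 42 (.node 49 (.node 53 .done .nil) .nil) .nil)) .nil) .nil) .nil) .nil) (.node 0 (.node 12 (.node 14 (.node 21 (.node 23 (.node 25 (.node 32 (.node 34 (.node 44 (.node 49 .done (.node 53 .done .nil)) .nil) .nil) .nil) .nil) .nil) .nil) .nil) .nil) .nil)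
def t4_115 : Trie := .node 347 (.node 5 (.node 21 (.node 24 (.node 12 t4_113 (.node 13 (.node 20 (.node 22 (.node 33 (.node 41 (.node 46 (.node 52 (.node 186 .done .nil) .nil) .nil) .nil) .nil) .nil) .nil) .nil)) .nil) .nil) .nil) (.node 5 (.node 13 (.node 14 (.node 20 (.node 21 (.node 22 (.node 33 (.node 34 (.node 52 (.node 41 .done (.node 45 .done .nil)) .nil) .nil) .nil) .nil) .nil) .nil) .nil) .nil) .nil)
def t4_116 : Trie := .node 329 t4_115 (.node 359 t4_114 (.node 347 (.node 5 (.node 11 (.node 12 (.node 20 (.node 23 (.node 24 (.node 31 (.node 32 (.node 48 (.node 41 .done (.node 45 .done .nil)) .nil) .nil) .nil) .nil) .nil) .nil) .nil) .nil) .nil) (.node 0 (.node 5 .done .nil) .nil)))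
def t4_117 : Trie := .node 323 (.node 359 (.node 320 t4_111 (.node 0 (.node 21 (.node 24 (.node 12 t4_110 (.node 13 (.node 22 (.node 25 (.node 33 (.node 40 (.node 50 (.node 53 (.node 190 .done .nil) .nil) .nil) .nil) .nil) .nil) .nil) .nil)) .nil) (.node 395 .done .nil)) .nil)) t4_112) t4_116
def t4_118 : Trie := .node 41 (.node 51 (.node 24 (.node 226 .done .nil) (.node 46 (.node 67 (.node 87 .done .nil) .nil) .nil)) (.node 21 (.node 130 .done .nil) (.node 50 (.node 75 (.node 87 .done .nil) .nil) .nil))) (.node 79 (.node 43 (.node 46 (.node 49 (.node 95 .done .nil) .nil) .nil) (.node 45 (.node 50 (.node 91 .done .nil) .nil) .nil)) .nil)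
def t4_119 : Trie := .node 53 (.node 47 (.node 21 (.node 130 .done .nil) (.node 50 (.node 87 (.node 95 .done .nil) .nil) .nil)) (.node 24 (.node 226 .done .nil) (.node 46 (.node 87 (.node 91 .done .nil) .nil) .nil))) (.node 79 (.node 45 (.node 50 (.node 55 (.node 67 .done .nil) .nil) .nil) (.node 46 (.node 49 (.node 75 .done .nil) .nil) .nil)) .nil)
def t4_120 : Trie := .node 50 (.node 45 (.node 66 (.node 75 (.node 91 (.node 79 .done (.node 87 .done .nil)) .nil) .nil) .nil) (.node 21 .done .nil)) (.node 46 (.node 49 (.node 67 (.node 74 (.node 87 (.node 95 .done .nil) .nil) .nil) .nil) .nil) .nil)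
def t4_121 : Trie := .node 24 (.node 49 (.node 55 .done .nil) (.node 50 (.node 54 .done .nil) .nil)) (.node 42 (.node 67 (.node 25 (.node 49 (.node 55 (.node 75 .done .nil) .nil) .nil) (.node 50 (.node 53 (.node 79 (.node 90 (.node 95 .done .nil) .nil) .nil) .nil) .nil)) .nil) .nil)
def t4_122 : Trie := .node 54 t4_120 (.node 53 (.node 51 (.node 21 .done (.node 25 (.node 46 (.node 67 (.node 91 .done .nil) .nil) .nil) .nil)) (.node 45 (.node 49 (.node 66 (.node 74 (.node 90 (.node 94 .done .nil) .nil) .nil) .nil) .nil) .nil)) .nil)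
def t4_123 : Trie := .node 35 (.node 42 t4_119 (.node 54 t4_118 (.node 21 (.node 222 (.node 45 (.node 50 (.node 55 .done .nil) .nil) (.node 46 (.node 49 .done .nil) .nil)) .nil) (.node 24 (.node 134 (.node 43 (.node 46 (.node 49 .done .nil) .nil) (.node 45 (.node 50 .done .nil) .nil)) .nil) .nil)))) .nil
def t4_124 : Trie := .node 42 (.node 53 (.node 75 (.node 91 (.node 94 (.node 79 .done (.node 87 .done .nil)) .nil) .nil) .nil) (.node 21 .done .nil)) (.node 41 (.node 54 (.node 67 (.node 74 (.node 79 (.node 95 .done .nil) .nil) .nil) .nil) .nil) .nil)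
def t4_125 : Trie := .node 24 (.node 41 (.node 47 .done .nil) (.node 42 (.node 46 .done .nil) .nil)) (.node 50 (.node 95 (.node 20 (.node 41 (.node 47 (.node 75 .done .nil) .nil) .nil) (.node 42 (.node 45 (.node 67 (.node 87 (.node 90 .done .nil) .nil) .nil) .nil) .nil)) .nil) .nil)
def t4_126 : Trie := .node 46 t4_124 (.node 45 (.node 43 (.node 20 (.node 54 (.node 91 (.node 95 .done .nil) .nil) .nil) (.node 21 .done .nil)) (.node 41 (.node 53 (.node 66 (.node 74 (.node 90 (.node 94 .done .nil) .nil) .nil) .nil) .nil) .nil)) .nil)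
def t4_127 : Trie := .node 15 (.node 35 (.node 49 t4_126 (.node 53 t4_125 (.node 21 (.node 42 (.node 45 (.node 50 (.node 55 .done .nil) .nil) .nil) .nil) (.node 24 (.node 41 (.node 46 (.node 51 (.node 54 .done .nil) .nil) .nil) .nil) .nil)))) .nil) (.node 41 (.node 45 (.node 49 (.node 53 (.node 66 (.node 74 (.node 90 (.node 94 (.node 21 .done (.node 24 .done .nil)) .nil) .nil) .nil) .nil) .nil) .nil) .nil) .nil)
def t4_128 : Trie := .node 10 (.node 30 (.node 15 t4_123 (.node 41 t4_122 (.node 45 t4_121 (.node 21 (.node 42 (.node 47 (.node 50 (.node 53 .done .nil) .nil) .nil) .nil) (.node 24 (.node 43 (.node 46 (.node 49 (.node 54 .done .nil) .nil) .nil) .nil) .nil))))) .nil) t4_127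
def t4_129 : Trie := .node 10 (.node 15 (.node 23 (.node 30 (.node 35 (.node 21 (.node 42 (.node 48 (.node 53 (.node 222 .done .nil) .nil) .nil) .nil) (.node 24 (.node 41 (.node 44 (.node 54 (.node 134 .done .nil) .nil) .nil) .nil) .nil)) .nil) .nil) .nil) .nil) .nil
def t4_130 : Trie := .node 30 (.node 41 (.node 54 (.node 45 (.node 50 (.node 66 (.node 75 (.node 91 .done .nil) .nil) .nil) .nil) (.node 46 (.node 49 (.node 67 (.node 74 (.node 95 .done .nil) .nil) .nil) .nil) .nil)) .nil) (.node 42 (.node 53 (.node 45 (.node 50 (.node 67 (.node 90 (.node 95 .done .nil) .nil) .nil) .nil) (.node 46 (.node 49 (.node 75 (.node 91 (.node 94 .done .nil) .nil) .nil) .nil) .nil)) .nil) .nil)) .nil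
def t4_131 : Trie := .node 35 (.node 41 (.node 54 (.node 45 (.node 50 (.node 66 (.node 75 (.node 91 .done .nil) .nil) .nil) .nil) (.node 46 (.node 49 (.node 67 (.node 74 (.node 95 .done .nil) .nil) .nil) .nil) .nil)) .nil) (.node 42 (.node 53 (.node 45 (.node 50 (.node 67 (.node 90 (.node 95 .done .nil) .nil) .nil) .nil) (.node 46 (.node 49 (.node 75 (.node 91 (.node 94 .done .nil) .nil) .nil) .nil) .nil)) .nil) .nil)) .nil
def t4_132 : Trie := .node 356 (.node 383 (.node 320 (.node 22 (.node 23 t4_128 (.node 10 (.node 15 (.node 30 (.node 35 (.node 21 (.node 40 (.node 45 (.node 50 (.node 130 .done .nil) .nil) .nil) .nil) (.node 24 (.node 46 (.node 49 (.node 52 (.node 226 .done .nil) .nil) .nil) .nil) .nil)) .nil) .nil) .nil) .nil)) t4_129) (.node 22 (.node 23 (.node 10 (.node 25 t4_130 .nil) (.node 15 (.node 20 t4_131 .nil) .nil)) .nil) .nil)) .nil) .nil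
def t4_133 : Trie := .node 50 (.node 45 (.node 21 (.node 55 .done .nil) (.node 53 (.node 67 (.node 90 (.node 95 .done .nil) .nil) .nil) .nil)) (.node 41 (.node 53 (.node 75 (.node 95 .done .nil) .nil) .nil) .nil)) (.node 24 (.node 41 (.node 51 (.node 54 .done .nil) .nil) (.node 42 (.node 46 (.node 53 .done .nil) .nil) .nil)) .nil)
def t4_134 : Trie := .node 42 (.node 45 (.node 67 (.node 49 (.node 75 .done .nil) (.node 53 (.node 90 (.node 95 .done .nil) .nil) .nil)) .nil) (.node 21 (.node 47 (.node 53 .done .nil) .nil) .nil)) (.node 24 (.node 43 (.node 46 (.node 49 .done .nil) .nil) (.node 45 (.node 50 (.node 54 .done .nil) .nil) .nil)) .nil)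
def t4_135 : Trie := .node 359 (.node 395 (.node 329 (.node 347 t4_132 .nil) (.node 0 (.node 15 (.node 22 (.node 23 (.node 35 (.node 49 (.node 42 (.node 46 (.node 21 .done (.node 53 (.node 75 (.node 91 (.node 94 .done .nil) .nil) .nil) .nil)) .nil) (.node 54 (.node 95 (.node 41 (.node 67 (.node 74 .done .nil) .nil) (.node 45 (.node 91 .done .nil) .nil)) .nil) .nil)) t4_133) .nil) .nil) .nil) .nil) .nil)) .nil) .nil
def t4_136 : Trie := .node 323 t4_135 (.node 329 (.node 347 (.node 383 (.node 5 (.node 10 (.node 22 (.node 23 (.node 30 (.node 41 (.node 46 (.node 67 (.node 49 (.node 74 (.node 95 .done .nil) .nil) (.node 53 (.node 91 .done .nil) .nil)) .nil) (.node 50 (.node 54 (.node 21 .done (.node 45 (.node 66 (.node 75 (.node 91 .done .nil) .nil) .nil) .nil)) .nil) .nil)) t4_134) .nil) .nil) .nil) .nil) .nil) .nil) .nil) .nil)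
def t4_137 : Trie := .node 24 (.node 42 (.node 51 (.node 54 .done .nil) .nil) (.node 43 (.node 53 .done .nil) .nil)) (.node 50 (.node 41 (.node 54 (.node 67 (.node 223 .done .nil) .nil) .nil) (.node 42 (.node 53 (.node 95 (.node 135 .done .nil) .nil) .nil) .nil)) (.node 43 (.node 49 .done .nil) .nil))
def t4_138 : Trie := .node 13 (.node 33 (.node 45 (.node 49 (.node 55 .done .nil) (.node 50 (.node 54 .done .nil) .nil)) (.node 25 (.node 47 (.node 52 .done .nil) .nil) (.node 46 (.node 49 (.node 54 .done .nil) .nil) .nil))) .nil) (.node 21 (.node 23 (.node 25 (.node 40 (.node 45 (.node 50 (.node 130 .done .nil) .nil) .nil) .nil) .nil) .nil) .nil)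
def t4_139 : Trie := .node 15 (.node 35 (.node 42 (.node 45 (.node 50 .done .nil) (.node 46 (.node 49 .done .nil) .nil)) (.node 20 (.node 40 (.node 51 .done .nil) .nil) (.node 43 (.node 45 (.node 49 .done .nil) .nil) .nil))) .nil) (.node 42 (.node 54 (.node 45 (.node 50 .done .nil) (.node 46 (.node 49 .done .nil) .nil)) .nil) (.node 43 (.node 45 (.node 49 (.node 55 (.node 187 (.node 191 .done .nil) .nil) .nil) .nil) .nil) .nil))
def t4_140 : Trie := .node 10 (.node 30 (.node 15 (.node 35 (.node 46 t4_137 (.node 50 (.node 21 (.node 41 (.node 55 .done .nil) (.node 42 (.node 47 (.node 54 .done .nil) .nil) .nil)) (.node 45 (.node 55 .done .nil) .nil)) .nil)) .nil) t4_138) .nil) (.node 13 (.node 33 t4_139 .nil) (.node 15 (.node 20 (.node 23 (.node 24 (.node 35 (.node 46 (.node 49 (.node 52 (.node 226 .done .nil) .nil) .nil) .nil) .nil) .nil) .nil) .nil) .nil))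
def t4_141 : Trie := .node 25 (.node 21 (.node 41 .done (.node 47 (.node 50 .done .nil) .nil)) (.node 45 (.node 50 (.node 79 (.node 89 (.node 94 .done .nil) .nil) .nil) .nil) .nil)) (.node 41 (.node 45 (.node 49 (.node 66 (.node 74 (.node 89 (.node 93 .done .nil) .nil) .nil) .nil) .nil) .nil) .nil)
def t4_142 : Trie := .node 33 (.node 10 (.node 30 (.node 52 t4_141 (.node 15 (.node 35 (.node 42 (.node 45 (.node 49 (.node 54 (.node 67 (.node 75 (.node 91 (.node 95 .done .nil) .nil) .nil) .nil) .nil) .nil) .nil) .nil) .nil) .nil)) .nil) (.node 21 (.node 25 (.node 41 (.node 45 (.node 49 (.node 52 (.node 66 (.node 74 (.node 87 (.node 89 (.node 93 .done .nil) .nil) .nil) .nil) .nil) .nil) .nil) .nil) .nil) .nil) .nil)) .nil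
def t4_143 : Trie := .node 20 (.node 24 (.node 46 (.node 51 .done .nil) (.node 53 .done .nil)) (.node 46 (.node 49 (.node 66 (.node 73 (.node 79 .done .nil) .nil) .nil) .nil) .nil)) (.node 45 (.node 49 (.node 53 (.node 65 (.node 73 (.node 90 (.node 94 .done .nil) .nil) .nil) .nil) .nil) .nil) .nil)
def t4_144 : Trie := .node 33 (.node 15 (.node 35 (.node 40 t4_143 (.node 10 (.node 30 (.node 42 (.node 45 (.node 49 (.node 54 (.node 67 (.node 75 (.node 91 (.node 95 .done .nil) .nil) .nil) .nil) .nil) .nil) .nil) .nil) .nil) .nil)) .nil) (.node 20 (.node 24 (.node 40 (.node 45 (.node 49 (.node 53 (.node 65 (.node 73 (.node 87 (.node 90 (.node 94 .done .nil) .nil) .nil) .nil) .nil) .nil) .nil) .nil) .nil) .nil) .nil)) .nil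
def t4_145 : Trie := .node 24 (.node 40 (.node 54 (.node 45 (.node 50 (.node 67 (.node 74 (.node 79 (.node 86 (.node 91 .done .nil) .nil) .nil) .nil) .nil) .nil) (.node 49 (.node 66 (.node 73 (.node 95 .done .nil) .nil) .nil) .nil)) .nil) .nil) .nil
def t4_146 : Trie := .node 10 (.node 15 (.node 22 (.node 23 (.node 30 (.node 35 (.node 21 (.node 42 (.node 52 (.node 45 (.node 67 (.node 89 (.node 94 .done .nil) .nil) .nil) (.node 46 (.node 49 (.node 75 (.node 79 (.node 86 (.node 90 (.node 95 .done .nil) .nil) .nil) .nil) .nil) .nil) .nil)) .nil) .nil) t4_145) .nil) .nil) .nil) .nil) .nil) .nil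
def t4_147 : Trie := .node 347 (.node 359 t4_146 (.node 10 (.node 11 (.node 22 (.node 30 (.node 31 (.node 40 (.node 45 .done (.node 49 .done .nil)) .nil) .nil) .nil) .nil) .nil) .nil)) (.node 359 (.node 14 (.node 15 (.node 22 (.node 34 (.node 35 (.node 52 (.node 45 .done (.node 49 .done .nil)) .nil) .nil) .nil) .nil) .nil) .nil) .nil)
def t4_148 : Trie := .node 42 (.node 45 (.node 21 (.node 55 .done .nil) (.node 53 (.node 79 (.node 87 (.node 90 .done .nil) .nil) .nil) .nil)) (.node 49 (.node 53 (.node 75 (.node 87 .done .nil) .nil) .nil) .nil)) (.node 24 (.node 43 (.node 49 (.node 54 .done .nil) .nil) (.node 46 (.node 50 (.node 53 .done .nil) .nil) .nil)) .nil)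
def t4_149 : Trie := .node 2 (.node 13 (.node 20 (.node 25 (.node 33 (.node 41 (.node 46 (.node 50 (.node 21 .done (.node 53 (.node 75 (.node 86 (.node 91 .done .nil) .nil) .nil) .nil)) .nil) (.node 54 (.node 87 (.node 45 (.node 91 .done .nil) (.node 49 (.node 74 (.node 79 .done .nil) .nil) .nil)) .nil) .nil)) t4_148) .nil) .nil) .nil) .nil) .nil
def t4_150 : Trie := .node 35 (.node 20 (.node 13 (.node 33 (.node 41 (.node 46 (.node 50 .done .nil) .nil) (.node 42 (.node 45 .done .nil) (.node 43 (.node 48 .done .nil) .nil))) .nil) (.node 41 (.node 45 (.node 55 (.node 223 .done .nil) .nil) (.node 46 (.node 50 (.node 54 .done .nil) .nil) .nil)) (.node 42 (.node 45 (.node 54 .done .nil) .nil) .nil))) (.node 13 (.node 33 (.node 44 (.node 48 .done .nil) .nil) .nil) .nil)) .nil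
def t4_151 : Trie := .node 356 (.node 2 (.node 24 (.node 15 t4_150 (.node 13 (.node 20 (.node 25 (.node 33 (.node 41 (.node 46 (.node 52 (.node 186 .done .nil) .nil) .nil) .nil) .nil) .nil) .nil) .nil)) .nil) .nil) (.node 2 (.node 13 (.node 14 (.node 20 (.node 25 (.node 33 (.node 34 (.node 52 (.node 41 .done (.node 45 .done .nil)) .nil) .nil) .nil) .nil) .nil) .nil) .nil) .nil)
def t4_152 : Trie := .node 33 (.node 22 (.node 15 (.node 35 (.node 40 (.node 51 .done .nil) (.node 42 (.node 46 (.node 49 .done .nil) .nil) (.node 45 (.node 50 .done .nil) .nil))) .nil) (.node 45 (.node 49 (.node 55 (.node 191 .done .nil) .nil) (.node 50 (.node 54 .done .nil) .nil)) (.node 42 (.node 46 (.node 49 (.node 54 .done .nil) .nil) .nil) .nil))) (.node 15 (.node 35 (.node 40 (.node 44 .done .nil) .nil) .nil) .nil)) .nil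
def t4_153 : Trie := .node 332 (.node 0 (.node 24 (.node 13 t4_152 (.node 15 (.node 22 (.node 23 (.node 35 (.node 46 (.node 49 (.node 52 (.node 226 .done .nil) .nil) .nil) .nil) .nil) .nil) .nil) .nil)) .nil) .nil) (.node 0 (.node 14 (.node 15 (.node 22 (.node 23 (.node 34 (.node 35 (.node 52 (.node 45 .done (.node 49 .done .nil)) .nil) .nil) .nil) .nil) .nil) .nil) .nil) .nil)
def t4_154 : Trie := .node 359 t4_153 (.node 356 (.node 383 (.node 2 (.node 20 (.node 23 (.node 24 (.node 41 (.node 45 (.node 54 .done .nil) (.node 46 (.node 53 .done .nil) .nil)) (.node 42 (.node 45 (.node 53 .done .nil) .nil) .nil)) .nil) .nil) .nil) .nil) .nil) (.node 0 (.node 2 (.node 11 (.node 31 (.node 144 .done .nil) .nil) .nil) .nil) .nil))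
def t4_155 : Trie := .node 30 (.node 25 (.node 13 (.node 33 (.node 44 (.node 55 .done .nil) (.node 46 (.node 50 (.node 53 .done .nil) .nil) (.node 49 (.node 54 .done .nil) .nil))) .nil) (.node 42 (.node 46 (.node 50 (.node 53 .done .nil) .nil) (.node 49 (.node 54 .done .nil) .nil)) (.node 43 (.node 49 (.node 53 (.node 135 .done .nil) .nil) .nil) .nil))) (.node 13 (.node 33 (.node 44 (.node 48 .done .nil) .nil) .nil) .nil)) .nil
def t4_156 : Trie := .node 383 (.node 356 (.node 2 (.node 21 (.node 10 t4_155 (.node 13 (.node 20 (.node 25 (.node 33 (.node 40 (.node 50 (.node 53 (.node 190 .done .nil) .nil) .nil) .nil) .nil) .nil) .nil) .nil)) .nil) .nil) (.node 2 (.node 11 (.node 13 (.node 20 (.node 25 (.node 31 (.node 33 (.node 40 (.node 49 .done (.node 53 .done .nil)) .nil) .nil) .nil) .nil) .nil) .nil) .nil) .nil)) .nil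
def t4_157 : Trie := .node 329 (.node 383 (.node 356 (.node 320 (.node 332 (.node 347 (.node 359 (.node 22 t4_140 (.node 10 (.node 13 (.node 15 (.node 30 (.node 33 (.node 35 .done .nil) .nil) .nil) .nil) .nil) .nil)) (.node 13 (.node 22 t4_142 .nil) .nil)) (.node 359 (.node 13 (.node 22 t4_144 .nil) .nil) .nil)) t4_147) (.node 2 .done .nil)) t4_149) t4_151) t4_154
def t4_158 : Trie := .node 33 (.node 22 (.node 10 (.node 30 (.node 45 (.node 50 (.node 54 .done .nil) .nil) (.node 46 (.node 49 .done .nil) (.node 47 (.node 52 .done .nil) .nil))) .nil) (.node 42 (.node 45 (.node 50 (.node 54 .done .nil) .nil) (.node 46 (.node 49 .done .nil) .nil)) (.node 43 (.node 45 (.node 49 (.node 187 .done .nil) .nil) .nil) .nil))) (.node 10 (.node 30 (.node 48 (.node 52 .done .nil) .nil) .nil) .nil)) .nil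
def t4_159 : Trie := .node 332 (.node 5 (.node 21 (.node 13 t4_158 (.node 10 (.node 22 (.node 23 (.node 30 (.node 40 (.node 45 (.node 50 (.node 130 .done .nil) .nil) .nil) .nil) .nil) .nil) .nil) .nil)) .nil) .nil) (.node 5 (.node 10 (.node 11 (.node 22 (.node 23 (.node 30 (.node 31 (.node 40 (.node 45 .done (.node 49 .done .nil)) .nil) .nil) .nil) .nil) .nil) .nil) .nil) .nil)
def t4_160 : Trie := .node 347 t4_159 (.node 356 (.node 395 (.node 2 (.node 21 (.node 23 (.node 25 (.node 41 (.node 49 (.node 54 .done .nil) (.node 50 (.node 53 .done .nil) .nil)) (.node 42 (.node 49 (.node 53 .done .nil) .nil) .nil)) .nil) .nil) .nil) .nil) .nil) (.node 2 (.node 5 (.node 14 (.node 34 (.node 208 .done .nil) .nil) .nil) .nil) .nil))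
def t4_161 : Trie := .node 332 (.node 5 (.node 13 (.node 21 (.node 22 (.node 24 (.node 33 (.node 42 (.node 46 (.node 49 .done .nil) .nil) (.node 45 (.node 50 (.node 54 .done .nil) .nil) .nil)) .nil) .nil) .nil) .nil) .nil) .nil) (.node 2 (.node 5 (.node 11 (.node 14 (.node 23 (.node 31 (.node 34 (.node 144 (.node 208 .done .nil) .nil) .nil) .nil) .nil) .nil) .nil) .nil) .nil)
def t4_162 : Trie := .node 395 (.node 2 (.node 11 (.node 23 (.node 25 (.node 31 (.node 144 (.node 41 (.node 49 (.node 54 .done .nil) (.node 50 (.node 53 .done .nil) .nil)) (.node 42 (.node 49 (.node 53 .done .nil) .nil) .nil)) .nil) .nil) .nil) .nil) .nil) .nil) t4_161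
def t4_163 : Trie := .node 329 t4_160 (.node 2 (.node 5 (.node 14 (.node 20 (.node 23 (.node 34 (.node 208 (.node 41 (.node 45 (.node 54 .done .nil) (.node 46 (.node 53 .done .nil) .nil)) (.node 42 (.node 45 (.node 53 .done .nil) .nil) .nil)) .nil) .nil) .nil) .nil) .nil) .nil) .nil)
def t4_164 : Trie := .node 383 t4_163 (.node 0 t4_162 (.node 329 (.node 2 (.node 5 (.node 13 (.node 14 (.node 20 (.node 21 (.node 33 (.node 34 (.node 52 (.node 208 (.node 41 .done (.node 45 .done .nil)) .nil) .nil) .nil) .nil) .nil) .nil) .nil) .nil) .nil) .nil) .nil))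
def t4_165 : Trie := .node 332 (.node 383 (.node 395 t4_96 (.node 329 (.node 347 t4_94 (.node 5 (.node 20 (.node 21 (.node 22 (.node 41 (.node 45 (.node 50 .done .nil) (.node 46 (.node 49 .done .nil) .nil)) (.node 42 (.node 45 (.node 49 .done .nil) .nil) .nil)) .nil) .nil) .nil) .nil)) t4_95)) t4_117) t4_136
def t4_166 : Trie := .node 21 (.node 46 (.node 50 (.node 55 .done .nil) .nil) (.node 47 (.node 49 .done .nil) .nil)) (.node 54 (.node 45 (.node 50 (.node 67 (.node 227 .done .nil) .nil) .nil) (.node 46 (.node 49 (.node 95 (.node 131 .done .nil) .nil) .nil) .nil)) (.node 47 (.node 53 .done .nil) .nil))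
def t4_167 : Trie := .node 12 (.node 32 (.node 41 (.node 50 (.node 54 .done .nil) (.node 51 (.node 53 .done .nil) .nil)) (.node 25 (.node 43 (.node 48 .done .nil) .nil) (.node 42 (.node 50 (.node 53 .done .nil) .nil) .nil))) .nil) (.node 22 (.node 24 (.node 25 (.node 41 (.node 44 (.node 54 (.node 134 .done .nil) .nil) .nil) .nil) .nil) .nil) .nil)
def t4_168 : Trie := .node 41 (.node 46 (.node 50 (.node 54 .done .nil) .nil) (.node 47 (.node 51 (.node 53 (.node 163 (.node 175 .done .nil) .nil) .nil) .nil) .nil)) (.node 42 (.node 46 (.node 50 (.node 53 .done .nil) .nil) .nil) .nil)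
def t4_169 : Trie := .node 12 (.node 32 (.node 15 (.node 35 (.node 41 (.node 46 (.node 54 .done .nil) (.node 47 (.node 53 .done .nil) .nil)) (.node 20 (.node 44 (.node 55 .done .nil) .nil) (.node 42 (.node 46 (.node 53 .done .nil) .nil) .nil))) .nil) t4_168) .nil) (.node 15 (.node 20 (.node 21 (.node 22 (.node 35 (.node 42 (.node 48 (.node 53 (.node 222 .done .nil) .nil) .nil) .nil) .nil) .nil) .nil) .nil) .nil)
def t4_170 : Trie := .node 20 (.node 21 (.node 42 (.node 55 .done .nil) (.node 49 .done .nil)) (.node 42 (.node 53 (.node 66 (.node 87 (.node 89 .done .nil) .nil) .nil) .nil) .nil)) (.node 41 (.node 49 (.node 53 (.node 65 (.node 74 (.node 89 (.node 94 .done .nil) .nil) .nil) .nil) .nil) .nil) .nil)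
def t4_171 : Trie := .node 32 (.node 15 (.node 35 (.node 44 t4_170 (.node 10 (.node 30 (.node 41 (.node 46 (.node 50 (.node 53 (.node 67 (.node 75 (.node 91 (.node 95 .done .nil) .nil) .nil) .nil) .nil) .nil) .nil) .nil) .nil) .nil)) .nil) (.node 20 (.node 21 (.node 41 (.node 44 (.node 49 (.node 53 (.node 65 (.node 74 (.node 79 (.node 89 (.node 94 .done .nil) .nil) .nil) .nil) .nil) .nil) .nil) .nil) .nil) .nil) .nil)) .nil
def t4_172 : Trie := .node 24 (.node 46 (.node 48 (.node 41 (.node 67 (.node 73 (.node 94 .done .nil) .nil) .nil) (.node 42 (.node 53 (.node 74 (.node 78 (.node 87 (.node 91 (.node 95 .done .nil) .nil) .nil) .nil) .nil) .nil) .nil)) .nil) .nil) .nil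
def t4_173 : Trie := .node 10 (.node 15 (.node 22 (.node 23 (.node 30 (.node 35 (.node 21 (.node 44 (.node 50 (.node 41 (.node 54 (.node 67 (.node 75 (.node 78 (.node 87 (.node 90 .done .nil) .nil) .nil) .nil) .nil) .nil) (.node 53 (.node 66 (.node 89 (.node 95 .done .nil) .nil) .nil) .nil)) .nil) .nil) t4_172) .nil) .nil) .nil) .nil) .nil) .nil
def t4_174 : Trie := .node 329 (.node 23 (.node 10 (.node 30 (.node 15 (.node 35 (.node 42 t4_166 (.node 54 (.node 24 (.node 43 (.node 46 (.node 50 .done .nil) .nil) (.node 45 (.node 51 .done .nil) .nil)) (.node 41 (.node 51 .done .nil) .nil)) .nil)) .nil) t4_167) .nil) t4_169) (.node 10 (.node 12 (.node 15 (.node 30 (.node 32 (.node 35 .done .nil) .nil) .nil) .nil) .nil) .nil)) (.node 12 (.node 23 t4_171 .nil) .nil)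
def t4_175 : Trie := .node 25 (.node 24 (.node 43 (.node 54 .done .nil) (.node 45 .done .nil)) (.node 41 (.node 54 (.node 73 (.node 87 (.node 94 .done .nil) .nil) .nil) .nil) .nil)) (.node 41 (.node 45 (.node 53 (.node 66 (.node 73 (.node 90 (.node 93 .done .nil) .nil) .nil) .nil) .nil) .nil) .nil)
def t4_176 : Trie := .node 32 (.node 10 (.node 30 (.node 48 t4_175 (.node 15 (.node 35 (.node 41 (.node 46 (.node 50 (.node 53 (.node 67 (.node 75 (.node 91 (.node 95 .done .nil) .nil) .nil) .nil) .nil) .nil) .nil) .nil) .nil) .nil)) .nil) (.node 24 (.node 25 (.node 41 (.node 45 (.node 48 (.node 53 (.node 66 (.node 73 (.node 79 (.node 90 (.node 93 .done .nil) .nil) .nil) .nil) .nil) .nil) .nil) .nil) .nil) .nil) .nil)) .nil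
def t4_177 : Trie := .node 46 (.node 41 (.node 24 (.node 51 .done .nil) (.node 49 (.node 74 (.node 79 (.node 87 .done .nil) .nil) .nil) .nil)) (.node 49 (.node 53 (.node 79 (.node 91 .done .nil) .nil) .nil) .nil)) (.node 21 (.node 42 (.node 49 (.node 54 .done .nil) .nil) (.node 47 (.node 50 (.node 53 .done .nil) .nil) .nil)) .nil)
def t4_178 : Trie := .node 320 (.node 323 (.node 332 t4_174 (.node 329 t4_173 (.node 11 (.node 15 (.node 23 (.node 31 (.node 35 (.node 48 (.node 41 .done (.node 53 .done .nil)) .nil) .nil) .nil) .nil) .nil) .nil))) (.node 329 (.node 332 (.node 12 (.node 23 t4_176 .nil) .nil) (.node 10 (.node 14 (.node 23 (.node 30 (.node 34 (.node 44 (.node 41 .done (.node 53 .done .nil)) .nil) .nil) .nil) .nil) .nil) .nil)) .nil)) (.node 3 .done .nil)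
def t4_179 : Trie := .node 30 (.node 25 (.node 12 (.node 32 (.node 40 (.node 51 .done .nil) (.node 42 (.node 49 (.node 54 .done .nil) .nil) (.node 50 (.node 53 .done .nil) .nil))) .nil) (.node 46 (.node 42 (.node 49 (.node 54 .done .nil) .nil) (.node 50 (.node 53 .done .nil) .nil)) (.node 47 (.node 49 (.node 53 (.node 131 .done .nil) .nil) .nil) .nil))) (.node 12 (.node 32 (.node 40 (.node 52 .done .nil) .nil) .nil) .nil)) .nil
def t4_180 : Trie := .node 356 (.node 3 (.node 24 (.node 10 t4_179 (.node 12 (.node 20 (.node 25 (.node 32 (.node 44 (.node 49 (.node 54 (.node 174 .done .nil) .nil) .nil) .nil) .nil) .nil) .nil) .nil)) .nil) .nil) (.node 3 (.node 12 (.node 14 (.node 20 (.node 25 (.node 32 (.node 34 (.node 44 (.node 49 .done (.node 53 .done .nil)) .nil) .nil) .nil) .nil) .nil) .nil) .nil) .nil)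
def t4_181 : Trie := .node 32 (.node 23 (.node 10 (.node 30 (.node 41 (.node 50 (.node 54 .done .nil) .nil) (.node 42 (.node 53 .done .nil) (.node 43 (.node 48 .done .nil) .nil))) .nil) (.node 41 (.node 46 (.node 50 (.node 54 .done .nil) .nil) (.node 47 (.node 53 (.node 163 .done .nil) .nil) .nil)) (.node 42 (.node 46 (.node 53 .done .nil) .nil) .nil))) (.node 10 (.node 30 (.node 48 (.node 52 .done .nil) .nil) .nil) .nil)) .nil
def t4_182 : Trie := .node 332 (.node 5 (.node 24 (.node 12 t4_181 (.node 10 (.node 22 (.node 23 (.node 30 (.node 41 (.node 44 (.node 54 (.node 134 .done .nil) .nil) .nil) .nil) .nil) .nil) .nil) .nil)) .nil) .nil) (.node 5 (.node 10 (.node 14 (.node 22 (.node 23 (.node 30 (.node 34 (.node 44 (.node 41 .done (.node 53 .done .nil)) .nil) .nil) .nil) .nil) .nil) .nil) .nil) .nil)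
def t4_183 : Trie := .node 395 (.node 356 t4_178 (.node 3 (.node 12 (.node 20 (.node 25 (.node 32 (.node 45 (.node 42 (.node 54 (.node 24 .done (.node 49 (.node 75 (.node 78 (.node 91 .done .nil) .nil) .nil) .nil)) .nil) (.node 50 (.node 79 (.node 41 (.node 75 .done .nil) (.node 53 (.node 87 (.node 90 .done .nil) .nil) .nil)) .nil) .nil)) t4_177) .nil) .nil) .nil) .nil) .nil)) t4_180
def t4_184 : Trie := .node 23 (.node 41 (.node 54 (.node 45 (.node 50 (.node 66 (.node 75 (.node 91 .done .nil) .nil) .nil) .nil) (.node 46 (.node 49 (.node 67 (.node 74 (.node 95 .done .nil) .nil) .nil) .nil) .nil)) .nil) (.node 42 (.node 53 (.node 45 (.node 50 (.node 67 (.node 90 (.node 95 .done .nil) .nil) .nil) .nil) (.node 46 (.node 49 (.node 75 (.node 91 (.node 94 .done .nil) .nil) .nil) .nil) .nil)) .nil) .nil)) .nil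
def t4_185 : Trie := .node 3 (.node 21 (.node 24 (.node 22 (.node 42 (.node 54 (.node 46 (.node 51 .done .nil) (.node 47 (.node 50 .done .nil) .nil)) .nil) (.node 43 (.node 46 (.node 49 .done .nil) .nil) (.node 45 (.node 50 (.node 55 .done .nil) .nil) .nil))) (.node 40 (.node 52 .done .nil) .nil)) .nil) .nil) .nil
def t4_186 : Trie := .node 35 (.node 320 (.node 323 (.node 329 (.node 332 (.node 22 t4_184 .nil) (.node 22 (.node 23 (.node 41 (.node 45 (.node 49 (.node 53 (.node 66 (.node 74 (.node 90 (.node 94 .done .nil) .nil) .nil) .nil) .nil) .nil) .nil) .nil) .nil) .nil)) .nil) .nil) t4_185) .nil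
def t4_187 : Trie := .node 10 (.node 30 (.node 15 t4_186 (.node 3 (.node 21 (.node 22 (.node 24 (.node 25 (.node 40 (.node 45 (.node 50 (.node 130 .done .nil) .nil) .nil) .nil) .nil) .nil) .nil) .nil) .nil)) .nil) (.node 3 (.node 15 (.node 20 (.node 21 (.node 22 (.node 24 (.node 35 (.node 46 (.node 49 (.node 52 (.node 226 .done .nil) .nil) .nil) .nil) .nil) .nil) .nil) .nil) .nil) .nil) .nil)
def t4_188 : Trie := .node 395 (.node 359 t4_187 (.node 3 (.node 10 (.node 11 (.node 22 (.node 24 (.node 25 (.node 30 (.node 31 (.node 40 (.node 45 .done (.node 49 .done .nil)) .nil) .nil) .nil) .nil) .nil) .nil) .nil) .nil) .nil)) .nil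
def t4_189 : Trie := .node 359 t4_183 (.node 329 t4_182 (.node 356 (.node 395 (.node 3 (.node 22 (.node 24 (.node 25 (.node 45 (.node 49 (.node 54 .done .nil) (.node 50 (.node 53 .done .nil) .nil)) (.node 46 (.node 49 (.node 53 .done .nil) .nil) .nil)) .nil) .nil) .nil) .nil) .nil) (.node 3 (.node 5 (.node 11 (.node 31 (.node 152 .done .nil) .nil) .nil) .nil) .nil)))
def t4_190 : Trie := .node 30 (.node 15 (.node 35 (.node 23 (.node 42 (.node 46 (.node 50 (.node 55 .done .nil) .nil) (.node 47 (.node 53 .done .nil) .nil)) (.node 54 (.node 41 (.node 51 .done .nil) (.node 43 (.node 46 (.node 50 .done .nil) .nil) .nil)) .nil)) (.node 44 (.node 48 .done .nil) .nil)) .nil) (.node 23 (.node 25 (.node 41 (.node 44 (.node 54 (.node 134 .done .nil) .nil) .nil) .nil) .nil) .nil)) .nil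
def t4_191 : Trie := .node 386 (.node 3 (.node 20 (.node 21 (.node 22 (.node 41 (.node 45 (.node 50 .done .nil) (.node 46 (.node 49 .done .nil) .nil)) (.node 42 (.node 45 (.node 49 .done .nil) .nil) .nil)) .nil) .nil) .nil) .nil) (.node 3 (.node 14 (.node 15 (.node 20 (.node 21 (.node 22 (.node 34 (.node 35 (.node 52 (.node 45 .done (.node 49 .done .nil)) .nil) .nil) .nil) .nil) .nil) .nil) .nil) .nil) .nil)
def t4_192 : Trie := .node 329 (.node 2 (.node 21 (.node 24 (.node 10 t4_190 (.node 15 (.node 20 (.node 23 (.node 35 (.node 42 (.node 48 (.node 53 (.node 222 .done .nil) .nil) .nil) .nil) .nil) .nil) .nil) .nil)) .nil) .nil) .nil) (.node 2 (.node 11 (.node 15 (.node 20 (.node 23 (.node 24 (.node 31 (.node 35 (.node 48 (.node 41 .done (.node 53 .done .nil)) .nil) .nil) .nil) .nil) .nil) .nil) .nil) .nil) .nil)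
def t4_193 : Trie := .node 323 t4_192 (.node 359 t4_191 (.node 329 (.node 2 (.node 10 (.node 14 (.node 21 (.node 23 (.node 25 (.node 30 (.node 34 (.node 44 (.node 41 .done (.node 53 .done .nil)) .nil) .nil) .nil) .nil) .nil) .nil) .nil) .nil) .nil) (.node 2 (.node 3 .done .nil) .nil)))
def t4_194 : Trie := .node 329 (.node 2 (.node 10 (.node 14 (.node 21 (.node 23 (.node 30 (.node 34 (.node 44 (.node 208 (.node 41 .done (.node 53 .done .nil)) .nil) .nil) .nil) .nil) .nil) .nil) .nil) .nil) .nil) (.node 2 (.node 3 (.node 11 (.node 14 (.node 20 (.node 31 (.node 34 (.node 152 (.node 208 .done .nil) .nil) .nil) .nil) .nil) .nil) .nil) .nil) .nil)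
def t4_195 : Trie := .node 5 (.node 386 (.node 3 (.node 11 (.node 20 (.node 22 (.node 31 (.node 152 (.node 41 (.node 45 (.node 50 .done .nil) (.node 46 (.node 49 .done .nil) .nil)) (.node 42 (.node 45 (.node 49 .done .nil) .nil) .nil)) .nil) .nil) .nil) .nil) .nil) .nil) t4_194) .nil
def t4_196 : Trie := .node 356 (.node 395 t4_193 (.node 2 (.node 3 (.node 10 (.node 21 (.node 24 (.node 25 (.node 30 (.node 42 (.node 49 (.node 54 .done .nil) .nil) (.node 46 (.node 50 (.node 53 .done .nil) .nil) .nil)) .nil) .nil) .nil) .nil) .nil) .nil) .nil)) t4_195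
def t4_197 : Trie := .node 32 (.node 23 (.node 15 (.node 35 (.node 41 (.node 54 .done .nil) (.node 42 (.node 46 (.node 53 .done .nil) .nil) (.node 44 (.node 55 .done .nil) .nil))) .nil) (.node 41 (.node 50 (.node 54 .done .nil) (.node 51 (.node 53 (.node 175 .done .nil) .nil) .nil)) (.node 42 (.node 46 (.node 50 (.node 53 .done .nil) .nil) .nil) .nil))) (.node 15 (.node 35 (.node 40 (.node 44 .done .nil) .nil) .nil) .nil)) .nil
def t4_198 : Trie := .node 35 (.node 20 (.node 12 (.node 32 (.node 41 (.node 46 .done .nil) (.node 42 (.node 45 (.node 54 .done .nil) .nil) (.node 47 (.node 52 .done .nil) .nil))) .nil) (.node 41 (.node 45 (.node 51 (.node 227 .done .nil) .nil) (.node 46 (.node 50 .done .nil) .nil)) (.node 42 (.node 45 (.node 50 (.node 54 .done .nil) .nil) .nil) .nil))) (.node 12 (.node 32 (.node 40 (.node 52 .done .nil) .nil) .nil) .nil)) .nil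
def t4_199 : Trie := .node 356 (.node 3 (.node 21 (.node 15 t4_198 (.node 12 (.node 20 (.node 25 (.node 32 (.node 42 (.node 45 (.node 48 (.node 162 .done .nil) .nil) .nil) .nil) .nil) .nil) .nil) .nil)) .nil) .nil) (.node 3 (.node 11 (.node 12 (.node 20 (.node 25 (.node 31 (.node 32 (.node 48 (.node 41 .done (.node 45 .done .nil)) .nil) .nil) .nil) .nil) .nil) .nil) .nil) .nil)
def t4_200 : Trie := .node 332 (.node 0 (.node 21 (.node 12 t4_197 (.node 15 (.node 22 (.node 23 (.node 35 (.node 42 (.node 48 (.node 53 (.node 222 .done .nil) .nil) .nil) .nil) .nil) .nil) .nil) .nil)) .nil) .nil) (.node 0 (.node 11 (.node 15 (.node 22 (.node 23 (.node 31 (.node 35 (.node 48 (.node 41 .done (.node 53 .done .nil)) .nil) .nil) .nil) .nil) .nil) .nil) .nil) .nil)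
def t4_201 : Trie := .node 21 (.node 332 (.node 5 (.node 23 (.node 24 (.node 41 (.node 50 (.node 54 .done .nil) .nil) (.node 42 (.node 46 (.node 53 .done .nil) .nil) .nil)) .nil) .nil) .nil) (.node 359 (.node 3 (.node 14 (.node 25 (.node 34 (.node 44 (.node 200 (.node 49 .done (.node 53 .done .nil)) .nil) .nil) .nil) .nil) .nil) .nil) .nil)) .nil
def t4_202 : Trie := .node 12 (.node 32 (.node 0 t4_201 (.node 347 (.node 3 (.node 5 (.node 11 (.node 20 (.node 24 (.node 31 (.node 48 (.node 152 (.node 41 .done (.node 45 .done .nil)) .nil) .nil) .nil) .nil) .nil) .nil) .nil) .nil) .nil)) .nil) (.node 0 (.node 3 (.node 5 (.node 11 (.node 14 (.node 22 (.node 31 (.node 34 (.node 152 (.node 200 .done .nil) .nil) .nil) .nil) .nil) .nil) .nil) .nil) .nil) .nil)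
def t4_203 : Trie := .node 323 (.node 2 (.node 11 (.node 23 (.node 24 (.node 31 (.node 48 (.node 144 (.node 41 .done (.node 53 .done .nil)) .nil) .nil) .nil) .nil) .nil) .nil) .nil) (.node 359 (.node 3 (.node 14 (.node 21 (.node 22 (.node 34 (.node 52 (.node 200 (.node 45 .done (.node 49 .done .nil)) .nil) .nil) .nil) .nil) .nil) .nil) .nil) .nil)
def t4_204 : Trie := .node 356 (.node 10 (.node 13 (.node 15 (.node 30 (.node 33 (.node 35 (.node 320 (.node 332 (.node 347 (.node 359 (.node 12 (.node 32 .done .nil) .nil) .nil) .nil) .nil) (.node 2 (.node 21 (.node 24 (.node 44 (.node 48 .done .nil) .nil) .nil) .nil) .nil)) .nil) .nil) .nil) .nil) .nil) .nil) .nil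
def t4_205 : Trie := .node 10 (.node 12 (.node 21 (.node 24 (.node 30 (.node 32 (.node 52 (.node 329 (.node 332 (.node 5 (.node 13 (.node 33 (.node 48 .done .nil) .nil) .nil) .nil) .nil) (.node 356 (.node 359 (.node 3 (.node 15 (.node 35 (.node 40 .done .nil) .nil) .nil) .nil) .nil) .nil)) .nil) .nil) .nil) .nil) .nil) .nil) .nil
def t4_206 : Trie := .node 329 t4_204 (.node 332 (.node 359 (.node 0 (.node 12 (.node 13 (.node 15 (.node 21 (.node 24 (.node 32 (.node 33 (.node 35 (.node 40 (.node 44 .done .nil) .nil) .nil) .nil) .nil) .nil) .nil) .nil) .nil) .nil) .nil) .nil) .nil)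
def t4_207 : Trie := .node 15 (.node 35 (.node 0 t4_203 (.node 356 (.node 2 (.node 3 (.node 20 (.node 21 (.node 24 (.node 41 (.node 46 (.node 50 .done .nil) .nil) (.node 42 (.node 45 (.node 54 .done .nil) .nil) .nil)) .nil) .nil) .nil) .nil) .nil) .nil)) .nil) (.node 0 (.node 2 (.node 3 (.node 11 (.node 14 (.node 25 (.node 31 (.node 34 (.node 144 (.node 200 .done .nil) .nil) .nil) .nil) .nil) .nil) .nil) .nil) .nil) .nil)
def t4_208 : Trie := .node 395 (.node 359 (.node 323 t4_200 (.node 347 t4_199 (.node 0 (.node 3 (.node 14 (.node 34 (.node 200 .done .nil) .nil) .nil) .nil) .nil))) (.node 0 (.node 3 (.node 14 (.node 22 (.node 25 (.node 34 (.node 200 (.node 45 (.node 49 (.node 54 .done .nil) (.node 50 (.node 53 .done .nil) .nil)) (.node 46 (.node 49 (.node 53 .done .nil) .nil) .nil)) .nil) .nil) .nil) .nil) .nil) .nil) .nil)) t4_202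
def t4_209 : Trie := .node 386 t4_208 (.node 395 t4_207 (.node 323 t4_206 (.node 347 t4_205 (.node 0 (.node 2 (.node 3 (.node 5 (.node 11 (.node 14 (.node 31 (.node 34 (.node 144 (.node 152 (.node 200 (.node 208 .done .nil) .nil) .nil) .nil) .nil) .nil) .nil) .nil) .nil) .nil) .nil) .nil))))
def t4_210 : Trie := .node 383 (.node 347 (.node 386 t4_189 (.node 356 t4_188 (.node 3 (.node 5 (.node 10 (.node 11 (.node 22 (.node 24 (.node 30 (.node 31 (.node 40 (.node 152 (.node 45 .done (.node 49 .done .nil)) .nil) .nil) .nil) .nil) .nil) .nil) .nil) .nil) .nil) .nil))) t4_196) t4_209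
def t4_211 : Trie := .node 21 (.node 22 (.node 42 (.node 48 .done .nil) .nil) (.node 23 (.node 40 (.node 50 .done .nil) .nil) .nil)) (.node 22 (.node 43 (.node 48 (.node 53 (.node 223 .done .nil) .nil) .nil) .nil) (.node 23 (.node 40 (.node 45 (.node 51 (.node 131 .done .nil) .nil) .nil) .nil) .nil))
def t4_212 : Trie := .node 32 (.node 46 (.node 50 (.node 54 (.node 13 (.node 33 .done .nil) (.node 42 .done .nil)) (.node 43 (.node 53 (.node 135 .done .nil) .nil) .nil)) (.node 51 (.node 53 (.node 13 (.node 33 .done .nil) (.node 42 (.node 175 .done .nil) .nil)) .nil) .nil)) (.node 13 (.node 33 (.node 44 (.node 49 .done (.node 55 .done .nil)) .nil) .nil) .nil)) .nil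
def t4_213 : Trie := .node 35 (.node 12 (.node 32 (.node 44 (.node 41 .done (.node 55 .done .nil)) (.node 46 (.node 42 (.node 54 .done .nil) (.node 43 (.node 53 .done .nil) .nil)) .nil)) .nil) (.node 13 (.node 33 (.node 52 (.node 47 .done (.node 49 .done .nil)) (.node 54 (.node 45 (.node 51 .done .nil) (.node 46 (.node 50 .done .nil) .nil)) .nil)) .nil) t4_211)) .nil
def t4_214 : Trie := .node 32 (.node 15 (.node 35 (.node 52 (.node 41 .done (.node 47 .done .nil)) (.node 54 (.node 42 (.node 46 .done .nil) (.node 43 (.node 45 .done .nil) .nil)) .nil)) .nil) (.node 20 (.node 40 (.node 21 (.node 50 .done .nil) (.node 51 (.node 53 (.node 191 .done .nil) .nil) .nil)) .nil) (.node 25 (.node 48 (.node 21 (.node 42 .done .nil) (.node 43 (.node 45 (.node 163 .done .nil) .nil) .nil)) .nil) .nil))) .nil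
def t4_215 : Trie := .node 13 (.node 33 (.node 12 t4_214 (.node 15 (.node 35 (.node 54 (.node 42 (.node 45 (.node 51 (.node 227 .done .nil) .nil) (.node 46 (.node 50 .done .nil) .nil)) (.node 43 (.node 45 (.node 50 (.node 187 .done .nil) .nil) .nil) .nil)) .nil) .nil) .nil)) .nil) (.node 12 (.node 15 (.node 20 (.node 23 (.node 32 (.node 35 .done .nil) .nil) .nil) .nil) .nil) .nil)
def t4_216 : Trie := .node 25 (.node 45 (.node 10 (.node 30 .done .nil) (.node 20 (.node 24 (.node 40 (.node 65 (.node 72 .done .nil) .nil) .nil) .nil) (.node 21 (.node 187 (.node 190 .done .nil) .nil) .nil))) (.node 54 (.node 10 (.node 30 .done .nil) (.node 21 (.node 42 .done .nil) .nil)) .nil)) (.node 10 (.node 30 (.node 45 (.node 52 (.node 79 (.node 89 (.node 92 .done .nil) .nil) .nil) .nil) .nil) .nil) .nil)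
def t4_217 : Trie := .node 22 (.node 53 (.node 13 (.node 33 .done .nil) (.node 21 (.node 130 (.node 135 .done .nil) .nil) (.node 23 (.node 24 (.node 40 (.node 72 (.node 85 .done .nil) .nil) .nil) .nil) .nil))) (.node 46 (.node 13 (.node 33 .done .nil) (.node 21 (.node 42 .done .nil) .nil)) .nil)) (.node 13 (.node 33 (.node 44 (.node 53 (.node 76 (.node 89 (.node 95 .done .nil) .nil) .nil) .nil) .nil) .nil) .nil)
def t4_218 : Trie := .node 395 (.node 10 (.node 30 (.node 15 t4_213 (.node 12 t4_212 (.node 13 (.node 22 (.node 25 (.node 33 .done .nil) .nil) .nil) .nil))) .nil) t4_215) (.node 12 (.node 13 (.node 32 (.node 33 (.node 48 t4_216 (.node 10 (.node 15 (.node 30 (.node 35 (.node 45 (.node 49 (.node 54 .done .nil) .nil) (.node 47 (.node 52 .done .nil) .nil)) .nil) .nil) .nil) .nil)) .nil) .nil) .nil) .nil)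
def t4_219 : Trie := .node 347 (.node 386 t4_218 (.node 395 (.node 10 (.node 15 (.node 30 (.node 35 (.node 48 t4_217 (.node 12 (.node 13 (.node 32 (.node 33 (.node 44 (.node 55 .done .nil) (.node 46 (.node 49 (.node 53 .done .nil) .nil) .nil)) .nil) .nil) .nil) .nil)) .nil) .nil) .nil) .nil) (.node 10 (.node 13 (.node 14 (.node 30 (.node 33 (.node 34 .done .nil) .nil) .nil) .nil) .nil) .nil))) .nil
def t4_220 : Trie := .node 24 (.node 35 (.node 10 (.node 21 (.node 30 (.node 48 (.node 42 .done (.node 53 .done .nil)) (.node 23 (.node 40 (.node 50 .done .nil) .nil) .nil)) .nil) .nil) (.node 13 (.node 33 (.node 54 (.node 42 (.node 46 (.node 50 .done .nil) .nil) (.node 43 (.node 45 .done .nil) .nil)) .nil) .nil) (.node 20 (.node 23 (.node 44 (.node 48 .done .nil) .nil) .nil) .nil))) .nil) .nil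
def t4_221 : Trie := .node 347 (.node 10 (.node 13 (.node 14 (.node 22 (.node 25 (.node 30 (.node 33 (.node 34 (.node 45 (.node 49 (.node 54 .done .nil) (.node 50 (.node 53 .done .nil) .nil)) (.node 46 (.node 49 (.node 53 .done .nil) .nil) .nil)) .nil) .nil) .nil) .nil) .nil) .nil) .nil) .nil) .nil
def t4_222 : Trie := .node 359 (.node 332 t4_219 (.node 10 (.node 13 (.node 15 (.node 22 (.node 30 (.node 33 (.node 35 (.node 52 (.node 14 (.node 34 (.node 45 .done (.node 49 .done .nil)) .nil) (.node 386 (.node 395 (.node 24 (.node 46 (.node 49 (.node 226 .done .nil) .nil) .nil) .nil) .nil) .nil)) .nil) .nil) .nil) .nil) .nil) .nil) .nil) .nil)) .nil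
def t4_223 : Trie := .node 23 (.node 45 (.node 12 (.node 32 .done .nil) (.node 21 (.node 222 (.node 227 .done .nil) .nil) (.node 22 (.node 24 (.node 48 (.node 72 (.node 77 .done .nil) .nil) .nil) .nil) .nil))) (.node 54 (.node 12 (.node 32 .done .nil) (.node 21 (.node 50 .done .nil) .nil)) .nil)) (.node 12 (.node 32 (.node 45 (.node 52 (.node 67 (.node 84 (.node 89 .done .nil) .nil) .nil) .nil) .nil) .nil) .nil)
def t4_224 : Trie := .node 10 (.node 15 (.node 22 (.node 23 (.node 24 (.node 30 (.node 35 (.node 40 (.node 45 (.node 48 (.node 53 (.node 72 (.node 77 (.node 85 (.node 90 .done .nil) .nil) .nil) .nil) .nil) .nil) .nil) .nil) .nil) .nil) .nil) .nil) .nil) .nil) .nil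
def t4_225 : Trie := .node 347 (.node 359 (.node 332 (.node 386 (.node 10 (.node 15 (.node 30 (.node 35 (.node 40 t4_223 (.node 12 (.node 13 (.node 32 (.node 33 (.node 41 (.node 45 (.node 54 .done .nil) .nil) (.node 47 (.node 52 .done .nil) .nil)) .nil) .nil) .nil) .nil)) .nil) .nil) .nil) .nil) .nil) t4_224) .nil) .nil
def t4_226 : Trie := .node 320 t4_222 (.node 395 (.node 2 (.node 15 t4_220 (.node 10 (.node 13 (.node 21 (.node 25 (.node 30 (.node 33 .done .nil) .nil) .nil) .nil) .nil) .nil)) .nil) (.node 332 t4_221 (.node 2 (.node 10 (.node 13 (.node 14 (.node 21 (.node 25 (.node 30 (.node 33 (.node 34 .done .nil) .nil) .nil) .nil) .nil) .nil) .nil) .nil) .nil)))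
def t4_227 : Trie := .node 20 (.node 53 (.node 15 (.node 35 .done .nil) (.node 21 (.node 162 (.node 175 .done .nil) .nil) (.node 24 (.node 25 (.node 48 (.node 72 (.node 93 .done .nil) .nil) .nil) .nil) .nil))) (.node 46 (.node 15 (.node 35 .done .nil) (.node 21 (.node 50 .done .nil) .nil)) .nil)) (.node 15 (.node 35 (.node 44 (.node 53 (.node 64 (.node 87 (.node 89 .done .nil) .nil) .nil) .nil) .nil) .nil) .nil)
def t4_228 : Trie := .node 395 (.node 341 (.node 12 (.node 13 (.node 32 (.node 33 (.node 40 t4_227 (.node 10 (.node 15 (.node 30 (.node 35 (.node 41 (.node 46 (.node 53 .done .nil) .nil) (.node 44 (.node 55 .done .nil) .nil)) .nil) .nil) .nil) .nil)) .nil) .nil) .nil) .nil) (.node 12 (.node 14 (.node 15 (.node 32 (.node 34 (.node 35 .done .nil) .nil) .nil) .nil) .nil) .nil)) .nil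
def t4_229 : Trie := .node 332 (.node 347 (.node 359 (.node 386 t4_228 (.node 10 (.node 12 (.node 13 (.node 14 (.node 15 (.node 30 (.node 32 (.node 33 (.node 34 (.node 35 .done .nil) .nil) .nil) .nil) .nil) .nil) .nil) .nil) .nil) .nil)) .nil) .nil) .nil
def t4_230 : Trie := .node 341 t4_226 (.node 395 (.node 320 t4_225 (.node 2 (.node 10 (.node 15 (.node 21 (.node 23 (.node 24 (.node 30 (.node 35 (.node 40 (.node 45 (.node 222 .done .nil) (.node 50 (.node 54 .done .nil) .nil)) .nil) .nil) .nil) .nil) .nil) .nil) .nil) .nil) .nil)) .nil)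
def t4_231 : Trie := .node 12 (.node 13 (.node 15 (.node 20 (.node 32 (.node 33 (.node 35 (.node 52 (.node 14 (.node 34 (.node 41 .done (.node 45 .done .nil)) .nil) (.node 341 (.node 383 (.node 24 (.node 41 (.node 46 (.node 186 .done .nil) .nil) .nil) .nil) .nil) .nil)) .nil) .nil) .nil) .nil) .nil) .nil) .nil) .nil
def t4_232 : Trie := .node 320 (.node 332 (.node 359 (.node 386 (.node 395 t4_231 (.node 341 (.node 347 (.node 12 (.node 13 (.node 20 (.node 24 (.node 25 (.node 32 (.node 33 (.node 40 (.node 45 (.node 48 (.node 53 (.node 65 (.node 72 (.node 90 (.node 93 .done .nil) .nil) .nil) .nil) .nil) .nil) .nil) .nil) .nil) .nil) .nil) .nil) .nil) .nil) .nil) .nil) .nil)) .nil) .nil) .nil) .nil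
def t4_233 : Trie := .node 24 (.node 33 (.node 12 (.node 21 (.node 32 (.node 40 (.node 50 .done (.node 53 .done .nil)) (.node 25 (.node 42 (.node 48 .done .nil) .nil) .nil)) .nil) .nil) (.node 15 (.node 35 (.node 54 (.node 42 (.node 46 (.node 50 .done .nil) .nil) (.node 45 (.node 51 .done .nil) .nil)) .nil) .nil) (.node 22 (.node 25 (.node 40 (.node 44 .done .nil) .nil) .nil) .nil))) .nil) .nil
def t4_234 : Trie := .node 356 (.node 12 (.node 14 (.node 15 (.node 20 (.node 23 (.node 32 (.node 34 (.node 35 (.node 41 (.node 45 (.node 54 .done .nil) (.node 46 (.node 53 .done .nil) .nil)) (.node 42 (.node 45 (.node 53 .done .nil) .nil) .nil)) .nil) .nil) .nil) .nil) .nil) .nil) .nil) .nil) .nil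
def t4_235 : Trie := .node 341 (.node 0 (.node 13 t4_233 (.node 12 (.node 15 (.node 21 (.node 23 (.node 32 (.node 35 .done .nil) .nil) .nil) .nil) .nil) .nil)) .nil) (.node 347 t4_234 (.node 0 (.node 12 (.node 14 (.node 15 (.node 21 (.node 23 (.node 32 (.node 34 (.node 35 .done .nil) .nil) .nil) .nil) .nil) .nil) .nil) .nil) .nil))
def t4_236 : Trie := .node 395 t4_235 (.node 341 (.node 0 (.node 12 (.node 13 (.node 21 (.node 24 (.node 25 (.node 32 (.node 33 (.node 48 (.node 42 (.node 54 .done .nil) (.node 45 (.node 190 .done .nil) .nil)) .nil) .nil) .nil) .nil) .nil) .nil) .nil) .nil) .nil) .nil)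
def t4_237 : Trie := .node 0 (.node 2 (.node 11 (.node 24 (.node 31 (.node 144 (.node 13 (.node 33 (.node 15 (.node 35 (.node 42 (.node 46 (.node 50 (.node 54 .done .nil) .nil) .nil) .nil) .nil) (.node 25 (.node 40 (.node 44 .done .nil) .nil) .nil)) .nil) (.node 15 (.node 23 (.node 35 (.node 44 (.node 48 .done .nil) .nil) .nil) .nil) .nil)) .nil) .nil) .nil) .nil) .nil) .nil
def t4_238 : Trie := .node 395 (.node 0 (.node 2 (.node 11 (.node 14 (.node 15 (.node 23 (.node 31 (.node 34 (.node 35 (.node 44 (.node 48 (.node 144 .done .nil) .nil) .nil) .nil) .nil) .nil) .nil) .nil) .nil) .nil) .nil) .nil) .nil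
def t4_239 : Trie := .node 359 (.node 386 t4_236 (.node 0 (.node 13 (.node 14 (.node 33 (.node 34 (.node 40 (.node 44 (.node 341 .done (.node 12 (.node 15 (.node 21 (.node 32 (.node 35 .done .nil) .nil) .nil) .nil) .nil)) .nil) .nil) .nil) .nil) .nil) .nil) .nil)) .nil
def t4_240 : Trie := .node 356 (.node 383 t4_230 (.node 320 t4_229 (.node 2 (.node 14 (.node 15 (.node 34 (.node 35 (.node 44 (.node 48 (.node 395 .done (.node 10 (.node 13 (.node 21 (.node 30 (.node 33 .done .nil) .nil) .nil) .nil) .nil)) .nil) .nil) .nil) .nil) .nil) .nil) .nil))) t4_232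
def t4_241 : Trie := .node 24 (.node 32 (.node 13 (.node 21 (.node 33 (.node 48 (.node 42 .done (.node 45 .done .nil)) (.node 20 (.node 40 (.node 50 .done .nil) .nil) .nil)) .nil) .nil) (.node 10 (.node 30 (.node 46 (.node 42 (.node 50 (.node 54 .done .nil) .nil) (.node 43 (.node 53 .done .nil) .nil)) .nil) .nil) (.node 20 (.node 23 (.node 48 (.node 52 .done .nil) .nil) .nil) .nil))) .nil) .nil
def t4_242 : Trie := .node 5 (.node 12 t4_241 (.node 10 (.node 13 (.node 21 (.node 22 (.node 30 (.node 33 .done .nil) .nil) .nil) .nil) .nil) .nil)) (.node 320 (.node 359 (.node 395 (.node 10 (.node 12 (.node 13 (.node 24 (.node 25 (.node 30 (.node 32 (.node 33 (.node 44 (.node 49 (.node 54 (.node 174 .done .nil) .nil) .nil) .nil) .nil) .nil) .nil) .nil) .nil) .nil) .nil) .nil) .nil) .nil) .nil)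
def t4_243 : Trie := .node 24 (.node 30 (.node 15 (.node 21 (.node 35 (.node 40 (.node 45 .done (.node 50 .done .nil)) (.node 22 (.node 42 (.node 48 .done .nil) .nil) .nil)) .nil) .nil) (.node 12 (.node 32 (.node 46 (.node 42 (.node 50 (.node 54 .done .nil) .nil) (.node 51 (.node 53 .done .nil) .nil)) .nil) .nil) (.node 22 (.node 25 (.node 40 (.node 52 .done .nil) .nil) .nil) .nil))) .nil) .nil
def t4_244 : Trie := .node 3 (.node 5 (.node 11 (.node 24 (.node 31 (.node 152 (.node 10 (.node 30 (.node 12 (.node 32 (.node 42 (.node 46 (.node 50 (.node 54 .done .nil) .nil) .nil) .nil) .nil) (.node 22 (.node 40 (.node 52 .done .nil) .nil) .nil)) .nil) (.node 12 (.node 20 (.node 32 (.node 48 (.node 52 .done .nil) .nil) .nil) .nil) .nil)) .nil) .nil) .nil) .nil) .nil) .nil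
def t4_245 : Trie := .node 341 (.node 332 t4_242 (.node 320 (.node 356 (.node 359 (.node 395 (.node 10 (.node 12 (.node 15 (.node 23 (.node 24 (.node 30 (.node 32 (.node 35 (.node 41 (.node 44 (.node 54 (.node 134 .done .nil) .nil) .nil) .nil) .nil) .nil) .nil) .nil) .nil) .nil) .nil) .nil) .nil) .nil) .nil) .nil)) .nil
def t4_246 : Trie := .node 395 (.node 3 (.node 10 (.node 15 (.node 21 (.node 22 (.node 24 (.node 30 (.node 35 (.node 48 (.node 42 (.node 46 .done .nil) (.node 53 (.node 130 .done .nil) .nil)) .nil) .nil) .nil) .nil) .nil) .nil) .nil) .nil) .nil) (.node 3 (.node 10 (.node 14 (.node 30 (.node 34 (.node 40 (.node 52 .done .nil) .nil) .nil) .nil) .nil) .nil) .nil)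
def t4_247 : Trie := .node 5 (.node 10 (.node 14 (.node 22 (.node 30 (.node 34 (.node 329 (.node 332 (.node 341 (.node 13 (.node 21 (.node 33 .done .nil) .nil) .nil) .nil) .nil) (.node 3 (.node 11 (.node 31 (.node 40 (.node 52 (.node 152 .done .nil) .nil) .nil) .nil) .nil) .nil)) .nil) .nil) .nil) .nil) .nil) .nil
def t4_248 : Trie := .node 359 (.node 356 t4_246 (.node 320 (.node 329 (.node 332 (.node 341 (.node 10 (.node 12 (.node 13 (.node 14 (.node 25 (.node 30 (.node 32 (.node 33 (.node 34 (.node 44 (.node 49 .done (.node 53 .done .nil)) .nil) .nil) .nil) .nil) .nil) .nil) .nil) .nil) .nil) .nil) .nil) .nil) .nil) .nil)) t4_247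
def t4_249 : Trie := .node 341 (.node 5 (.node 12 (.node 13 (.node 20 (.node 21 (.node 24 (.node 32 (.node 33 (.node 40 (.node 46 (.node 50 .done .nil) (.node 53 (.node 162 .done .nil) .nil)) .nil) .nil) .nil) .nil) .nil) .nil) .nil) .nil) .nil) (.node 5 (.node 12 (.node 14 (.node 32 (.node 34 (.node 48 (.node 52 .done .nil) .nil) .nil) .nil) .nil) .nil) .nil)
def t4_250 : Trie := .node 3 (.node 12 (.node 14 (.node 20 (.node 32 (.node 34 (.node 356 (.node 359 (.node 395 (.node 15 (.node 21 (.node 35 .done .nil) .nil) .nil) .nil) .nil) (.node 5 (.node 11 (.node 31 (.node 48 (.node 52 (.node 152 .done .nil) .nil) .nil) .nil) .nil) .nil)) .nil) .nil) .nil) .nil) .nil) .nil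
def t4_251 : Trie := .node 10 (.node 12 (.node 14 (.node 21 (.node 30 (.node 32 (.node 34 (.node 52 (.node 329 (.node 332 (.node 5 (.node 13 (.node 33 (.node 48 .done .nil) .nil) .nil) .nil) .nil) (.node 356 (.node 359 (.node 3 (.node 15 (.node 35 (.node 40 .done .nil) .nil) .nil) .nil) .nil) .nil)) .nil) .nil) .nil) .nil) .nil) .nil) .nil) .nil
def t4_252 : Trie := .node 386 (.node 329 (.node 332 t4_249 (.node 320 (.node 356 (.node 359 (.node 395 (.node 10 (.node 12 (.node 14 (.node 15 (.node 23 (.node 30 (.node 32 (.node 34 (.node 35 (.node 44 (.node 41 .done (.node 53 .done .nil)) .nil) .nil) .nil) .nil) .nil) .nil) .nil) .nil) .nil) .nil) .nil) .nil) .nil) .nil)) t4_250) t4_251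
def t4_253 : Trie := .node 0 (.node 5 (.node 24 (.node 12 (.node 32 (.node 13 (.node 33 (.node 40 (.node 50 .done .nil) (.node 42 (.node 48 .done .nil) .nil)) .nil) (.node 23 (.node 48 (.node 52 .done .nil) .nil) .nil)) .nil) (.node 13 (.node 22 (.node 33 (.node 40 (.node 44 .done .nil) .nil) .nil) .nil) .nil)) .nil) .nil) .nil
def t4_254 : Trie := .node 2 (.node 3 (.node 24 (.node 10 (.node 30 (.node 15 (.node 35 (.node 40 (.node 50 .done .nil) (.node 42 (.node 48 .done .nil) .nil)) .nil) (.node 25 (.node 40 (.node 52 .done .nil) .nil) .nil)) .nil) (.node 15 (.node 20 (.node 35 (.node 44 (.node 48 .done .nil) .nil) .nil) .nil) .nil)) .nil) .nil) .nil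
def t4_255 : Trie := .node 14 (.node 34 (.node 329 (.node 341 (.node 383 (.node 2 (.node 5 (.node 10 (.node 13 (.node 30 (.node 33 (.node 208 .done .nil) .nil) .nil) .nil) .nil) .nil) .nil) .nil) .nil) (.node 359 (.node 386 (.node 395 (.node 0 (.node 3 (.node 12 (.node 15 (.node 32 (.node 35 (.node 200 .done .nil) .nil) .nil) .nil) .nil) .nil) .nil) .nil) .nil) .nil)) .nil) .nil
def t4_256 : Trie := .node 356 (.node 383 (.node 395 t4_254 (.node 2 (.node 3 (.node 10 (.node 14 (.node 25 (.node 30 (.node 34 (.node 40 (.node 52 .done .nil) .nil) .nil) .nil) .nil) .nil) .nil) .nil) .nil)) (.node 395 (.node 2 (.node 3 (.node 14 (.node 15 (.node 20 (.node 34 (.node 35 (.node 44 (.node 48 .done .nil) .nil) .nil) .nil) .nil) .nil) .nil) .nil) .nil) .nil)) t4_255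
def t4_257 : Trie := .node 2 (.node 44 (.node 144 (.node 341 (.node 5 (.node 13 (.node 33 (.node 40 (.node 208 .done .nil) .nil) .nil) .nil) .nil) (.node 395 (.node 3 (.node 15 (.node 35 (.node 48 (.node 200 .done .nil) .nil) .nil) .nil) .nil) .nil)) .nil) .nil) (.node 386 (.node 3 (.node 5 (.node 12 (.node 32 (.node 48 (.node 52 (.node 152 (.node 200 .done .nil) .nil) .nil) .nil) .nil) .nil) .nil) .nil) .nil)
def t4_258 : Trie := .node 332 (.node 341 (.node 386 t4_253 (.node 0 (.node 5 (.node 13 (.node 14 (.node 22 (.node 33 (.node 34 (.node 40 (.node 44 .done .nil) .nil) .nil) .nil) .nil) .nil) .nil) .nil) .nil)) (.node 386 (.node 0 (.node 5 (.node 12 (.node 14 (.node 23 (.node 32 (.node 34 (.node 48 (.node 52 .done .nil) .nil) .nil) .nil) .nil) .nil) .nil) .nil) .nil) .nil)) t4_256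
def t4_259 : Trie := .node 21 t4_258 (.node 11 (.node 14 (.node 31 (.node 34 (.node 0 t4_257 (.node 383 (.node 2 (.node 3 (.node 5 (.node 10 (.node 30 (.node 40 (.node 52 (.node 152 (.node 208 .done .nil) .nil) .nil) .nil) .nil) .nil) .nil) .nil) .nil) .nil)) .nil) .nil) .nil) .nil)
def t4_260 : Trie := .node 329 t4_240 (.node 332 t4_239 (.node 341 (.node 395 t4_237 (.node 0 (.node 2 (.node 11 (.node 13 (.node 14 (.node 25 (.node 31 (.node 33 (.node 34 (.node 40 (.node 44 (.node 144 .done .nil) .nil) .nil) .nil) .nil) .nil) .nil) .nil) .nil) .nil) .nil) .nil)) t4_238))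
def t4_261 : Trie := .node 341 (.node 386 t4_165 (.node 323 (.node 395 t4_157 (.node 329 t4_156 (.node 0 (.node 2 (.node 11 (.node 13 (.node 24 (.node 25 (.node 31 (.node 33 (.node 40 (.node 144 (.node 49 .done (.node 53 .done .nil)) .nil) .nil) .nil) .nil) .nil) .nil) .nil) .nil) .nil) .nil))) t4_164)) t4_210
def t4_262 : Trie := .node 42 (.node 13 (.node 33 (.node 50 (.node 55 .done .nil) (.node 51 (.node 54 .done .nil) .nil)) .nil) (.node 15 (.node 35 (.node 50 (.node 55 .done .nil) .nil) .nil) .nil)) (.node 15 (.node 35 (.node 43 (.node 50 (.node 54 .done .nil) .nil) .nil) .nil) (.node 23 (.node 24 (.node 25 (.node 52 .done .nil) .nil) .nil) .nil))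
def t4_263 : Trie := .node 33 (.node 40 (.node 21 (.node 50 (.node 22 .done (.node 25 .done .nil)) .nil) (.node 51 (.node 22 (.node 53 (.node 191 .done .nil) .nil) (.node 25 (.node 45 (.node 131 .done .nil) .nil) .nil)) .nil)) (.node 42 (.node 15 (.node 35 (.node 54 (.node 46 (.node 51 .done .nil) (.node 47 (.node 50 .done .nil) .nil)) .nil) .nil) (.node 21 (.node 22 (.node 25 (.node 48 .done .nil) .nil) .nil) .nil)) .nil)) .nil
def t4_264 : Trie := .node 48 (.node 20 (.node 21 (.node 42 .done .nil) (.node 43 (.node 53 (.node 223 .done .nil) .nil) .nil)) (.node 23 (.node 21 (.node 42 .done .nil) (.node 43 (.node 45 (.node 163 .done .nil) .nil) .nil)) .nil)) (.node 50 (.node 13 (.node 33 (.node 54 (.node 42 (.node 47 .done .nil) (.node 43 (.node 46 .done .nil) .nil)) .nil) .nil) (.node 20 (.node 21 (.node 23 (.node 40 .done .nil) .nil) .nil) .nil)) .nil)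
def t4_265 : Trie := .node 35 (.node 12 (.node 32 t4_264 .nil) (.node 13 (.node 33 (.node 52 (.node 20 (.node 24 (.node 46 .done .nil) (.node 47 (.node 49 (.node 227 .done .nil) .nil) .nil)) (.node 22 (.node 24 (.node 46 .done .nil) (.node 41 (.node 47 (.node 187 .done .nil) .nil) .nil)) .nil)) (.node 20 (.node 22 (.node 24 (.node 44 (.node 54 .done .nil) .nil) .nil) .nil) .nil)) .nil) .nil)) .nil
def t4_266 : Trie := .node 30 (.node 12 (.node 32 (.node 46 t4_262 (.node 44 (.node 23 (.node 24 (.node 54 .done .nil) (.node 49 (.node 55 (.node 175 .done .nil) .nil) .nil)) (.node 25 (.node 24 (.node 54 .done .nil) (.node 41 (.node 55 (.node 135 .done .nil) .nil) .nil)) .nil)) .nil)) .nil) (.node 13 t4_263 (.node 15 (.node 22 (.node 23 (.node 35 .done .nil) .nil) .nil) .nil))) .nil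
def t4_267 : Trie := .node 35 (.node 46 (.node 42 (.node 49 (.node 75 (.node 79 .done .nil) .nil) (.node 51 (.node 54 .done .nil) .nil)) (.node 50 (.node 41 (.node 67 (.node 75 .done .nil) .nil) (.node 43 (.node 54 .done .nil) .nil)) .nil)) (.node 54 (.node 75 (.node 41 (.node 50 (.node 87 .done .nil) .nil) (.node 42 (.node 49 (.node 95 .done .nil) .nil) .nil)) .nil) .nil)) .nil
def t4_268 : Trie := .node 15 (.node 35 (.node 46 (.node 52 (.node 90 (.node 41 (.node 67 (.node 85 (.node 94 .done .nil) .nil) .nil) (.node 42 (.node 49 (.node 75 (.node 79 (.node 86 (.node 95 .done .nil) .nil) .nil) .nil) .nil) .nil)) .nil) .nil) .nil) .nil) .nil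
def t4_269 : Trie := .node 13 (.node 15 (.node 33 (.node 35 (.node 44 (.node 54 (.node 90 (.node 41 (.node 50 (.node 67 (.node 75 (.node 78 (.node 87 .done .nil) .nil) .nil) .nil) .nil) (.node 49 (.node 66 (.node 77 (.node 95 .done .nil) .nil) .nil) .nil)) .nil) .nil) .nil) .nil) .nil) .nil) .nil
def t4_270 : Trie := .node 12 (.node 13 (.node 15 (.node 32 (.node 33 (.node 35 (.node 44 (.node 54 (.node 90 (.node 41 (.node 65 (.node 78 (.node 87 .done .nil) .nil) .nil) (.node 42 (.node 49 (.node 66 (.node 75 (.node 79 (.node 95 .done .nil) .nil) .nil) .nil) .nil) .nil)) .nil) .nil) .nil) .nil) .nil) .nil) .nil) .nil) .nil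
def t4_271 : Trie := .node 10 (.node 30 (.node 12 (.node 32 (.node 13 (.node 33 (.node 15 t4_267 (.node 46 (.node 52 (.node 90 (.node 41 (.node 50 (.node 67 (.node 75 (.node 87 (.node 94 .done .nil) .nil) .nil) .nil) .nil) (.node 49 (.node 79 (.node 86 (.node 93 .done .nil) .nil) .nil) .nil)) .nil) .nil) .nil)) .nil) t4_268) .nil) t4_269) .nil) t4_270
def t4_272 : Trie := .node 10 (.node 12 (.node 23 (.node 25 (.node 30 (.node 32 (.node 52 (.node 24 (.node 46 (.node 42 (.node 50 .done (.node 174 .done .nil)) (.node 50 (.node 134 .done .nil) .nil)) .nil) (.node 44 (.node 75 (.node 88 (.node 41 (.node 78 (.node 85 .done .nil) .nil) (.node 49 (.node 66 (.node 93 .done .nil) .nil) .nil)) .nil) .nil) .nil)) .nil) .nil) .nil) .nil) .nil) .nil) .nil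
def t4_273 : Trie := .node 323 (.node 377 (.node 10 (.node 13 (.node 22 (.node 25 (.node 30 (.node 33 (.node 48 (.node 21 (.node 42 (.node 46 (.node 54 .done (.node 190 .done .nil)) (.node 54 (.node 130 .done .nil) .nil)) .nil) (.node 40 (.node 72 (.node 91 (.node 45 (.node 77 (.node 86 .done .nil) .nil) (.node 53 (.node 66 (.node 93 .done .nil) .nil) .nil)) .nil) .nil) .nil)) .nil) .nil) .nil) .nil) .nil) .nil) .nil) .nil) .nil
def t4_274 : Trie := .node 10 (.node 12 (.node 13 (.node 21 (.node 24 (.node 25 (.node 30 (.node 32 (.node 33 (.node 44 (.node 49 (.node 54 (.node 174 .done .nil) .nil) .nil) .nil) .nil) .nil) .nil) .nil) .nil) .nil) .nil) .nil) .nil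
def t4_275 : Trie := .node 359 (.node 323 (.node 377 (.node 10 t4_266 (.node 15 t4_265 (.node 12 (.node 13 (.node 20 (.node 25 (.node 32 (.node 33 .done .nil) .nil) .nil) .nil) .nil) .nil))) t4_271) (.node 377 t4_272 (.node 10 (.node 12 (.node 21 (.node 30 (.node 32 (.node 44 (.node 41 .done (.node 49 .done .nil)) .nil) .nil) .nil) .nil) .nil) .nil))) t4_273
def t4_276 : Trie := .node 10 (.node 12 (.node 13 (.node 21 (.node 24 (.node 25 (.node 30 (.node 32 (.node 33 (.node 41 (.node 45 (.node 49 (.node 53 (.node 174 (.node 190 .done .nil) .nil) .nil) .nil) .nil) .nil) .nil) .nil) .nil) .nil) .nil) .nil) .nil) .nil) .nil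
def t4_277 : Trie := .node 323 (.node 359 (.node 377 (.node 356 (.node 10 (.node 12 (.node 13 (.node 15 (.node 30 (.node 32 (.node 33 (.node 35 (.node 50 (.node 54 (.node 42 (.node 47 .done .nil) (.node 43 (.node 46 .done .nil) .nil)) .nil) .nil) .nil) .nil) .nil) .nil) .nil) .nil) .nil) .nil) t4_276) .nil) .nil) .nil
def t4_278 : Trie := .node 30 (.node 12 (.node 24 (.node 32 (.node 44 (.node 41 .done (.node 54 .done .nil)) (.node 23 (.node 46 (.node 52 .done .nil) .nil) .nil)) .nil) .nil) (.node 13 (.node 21 (.node 33 (.node 40 (.node 45 .done (.node 50 .done .nil)) (.node 22 (.node 42 (.node 48 .done .nil) .nil) .nil)) .nil) .nil) (.node 22 (.node 23 (.node 48 (.node 52 .done .nil) .nil) .nil) .nil))) .nil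
def t4_279 : Trie := .node 377 (.node 5 (.node 10 t4_278 (.node 12 (.node 13 (.node 20 (.node 21 (.node 24 (.node 32 (.node 33 .done .nil) .nil) .nil) .nil) .nil) .nil) .nil)) .nil) (.node 5 (.node 10 (.node 12 (.node 21 (.node 24 (.node 30 (.node 32 (.node 44 (.node 41 .done (.node 49 .done .nil)) .nil) .nil) .nil) .nil) .nil) .nil) .nil) .nil)
def t4_280 : Trie := .node 13 (.node 15 (.node 20 (.node 22 (.node 33 (.node 35 (.node 44 (.node 24 (.node 54 (.node 42 (.node 50 .done (.node 226 .done .nil)) (.node 50 (.node 186 .done .nil) .nil)) .nil) (.node 52 (.node 75 (.node 88 (.node 41 (.node 65 (.node 94 .done .nil) .nil) (.node 49 (.node 77 (.node 86 .done .nil) .nil) .nil)) .nil) .nil) .nil)) .nil) .nil) .nil) .nil) .nil) .nil) .nil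
def t4_281 : Trie := .node 395 (.node 377 t4_280 (.node 13 (.node 15 (.node 21 (.node 33 (.node 35 (.node 52 (.node 41 .done (.node 49 .done .nil)) .nil) .nil) .nil) .nil) .nil) .nil)) (.node 10 (.node 12 (.node 13 (.node 15 (.node 21 (.node 30 (.node 32 (.node 33 (.node 35 (.node 41 (.node 52 .done .nil) .nil) .nil) .nil) .nil) .nil) .nil) .nil) .nil) .nil) .nil)
def t4_282 : Trie := .node 320 (.node 323 (.node 356 t4_281 (.node 395 (.node 12 (.node 13 (.node 15 (.node 20 (.node 21 (.node 24 (.node 32 (.node 33 (.node 35 (.node 41 (.node 46 (.node 52 (.node 186 .done .nil) .nil) .nil) .nil) .nil) .nil) .nil) .nil) .nil) .nil) .nil) .nil) .nil) .nil)) .nil) (.node 356 (.node 395 (.node 1 .done .nil) .nil) .nil)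
def t4_283 : Trie := .node 377 (.node 395 (.node 15 (.node 35 (.node 46 (.node 50 (.node 42 (.node 55 .done .nil) (.node 43 (.node 54 .done .nil) .nil)) .nil) .nil) .nil) .nil) .nil) (.node 14 (.node 34 (.node 133 (.node 185 (.node 201 (.node 15 (.node 35 (.node 43 (.node 46 (.node 50 (.node 54 .done .nil) .nil) .nil) .nil) .nil) (.node 25 (.node 41 (.node 44 (.node 53 .done .nil) .nil) .nil) .nil)) .nil) .nil) .nil) .nil) .nil)
def t4_284 : Trie := .node 10 (.node 13 (.node 30 (.node 33 (.node 12 (.node 32 t4_283 .nil) (.node 14 (.node 15 (.node 22 (.node 34 (.node 35 (.node 41 (.node 45 (.node 52 (.node 133 (.node 185 (.node 201 .done .nil) .nil) .nil) .nil) .nil) .nil) .nil) .nil) .nil) .nil) .nil)) .nil) .nil) .nil) .nil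
def t4_285 : Trie := .node 10 (.node 12 (.node 13 (.node 14 (.node 21 (.node 25 (.node 30 (.node 32 (.node 33 (.node 34 (.node 41 (.node 44 (.node 53 (.node 133 (.node 185 (.node 190 (.node 201 .done .nil) .nil) .nil) .nil) .nil) .nil) .nil) .nil) .nil) .nil) .nil) .nil) .nil) .nil) .nil) .nil) .nil
def t4_286 : Trie := .node 5 (.node 10 (.node 12 (.node 13 (.node 14 (.node 21 (.node 30 (.node 32 (.node 33 (.node 34 (.node 41 (.node 44 (.node 53 (.node 133 (.node 185 (.node 201 .done .nil) .nil) .nil) .nil) .nil) .nil) .nil) .nil) .nil) .nil) .nil) .nil) .nil) .nil) .nil) .nil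
def t4_287 : Trie := .node 347 (.node 320 (.node 395 (.node 356 t4_275 (.node 359 (.node 323 (.node 377 (.node 12 (.node 13 (.node 20 (.node 21 (.node 24 (.node 25 (.node 32 (.node 33 (.node 162 (.node 174 .done .nil) (.node 186 (.node 190 .done .nil) .nil)) .nil) .nil) .nil) .nil) .nil) .nil) .nil) .nil) .nil) t4_274) .nil)) t4_277) t4_279) (.node 359 t4_282 (.node 1 (.node 5 (.node 13 (.node 33 (.node 188 .done .nil) .nil) .nil) .nil) .nil))
def t4_288 : Trie := .node 33 (.node 10 (.node 21 (.node 30 (.node 40 (.node 50 .done (.node 53 .done .nil)) (.node 25 (.node 42 (.node 48 .done .nil) .nil) .nil)) .nil) .nil) (.node 15 (.node 24 (.node 35 (.node 52 (.node 41 .done (.node 46 .done .nil)) (.node 20 (.node 44 (.node 54 .done .nil) .nil) .nil)) .nil) .nil) (.node 20 (.node 25 (.node 44 (.node 48 .done .nil) .nil) .nil) .nil))) .nil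
def t4_289 : Trie := .node 10 (.node 13 (.node 15 (.node 21 (.node 22 (.node 24 (.node 30 (.node 33 (.node 35 (.node 41 (.node 45 (.node 49 (.node 53 (.node 130 (.node 226 .done .nil) .nil) .nil) .nil) .nil) .nil) .nil) .nil) .nil) .nil) .nil) .nil) .nil) .nil) .nil
def t4_290 : Trie := .node 2 (.node 13 t4_288 (.node 10 (.node 15 (.node 21 (.node 23 (.node 24 (.node 30 (.node 35 .done .nil) .nil) .nil) .nil) .nil) .nil) .nil)) (.node 320 (.node 347 (.node 359 (.node 386 (.node 10 (.node 15 (.node 21 (.node 22 (.node 23 (.node 24 (.node 30 (.node 35 (.node 130 (.node 134 .done .nil) (.node 222 (.node 226 .done .nil) .nil)) .nil) .nil) .nil) .nil) .nil) .nil) .nil) .nil) t4_289) .nil) .nil) .nil)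
def t4_291 : Trie := .node 347 (.node 386 (.node 22 (.node 23 (.node 24 (.node 52 (.node 42 (.node 46 .done .nil) (.node 130 (.node 134 .done .nil) .nil)) .nil) .nil) .nil) .nil) .nil) (.node 2 (.node 14 (.node 34 (.node 208 (.node 13 (.node 33 (.node 42 .done .nil) .nil) (.node 23 (.node 52 .done .nil) .nil)) .nil) .nil) .nil) .nil)
def t4_292 : Trie := .node 5 (.node 21 (.node 10 (.node 30 (.node 48 t4_291 (.node 2 (.node 13 (.node 14 (.node 33 (.node 34 (.node 40 (.node 50 (.node 208 .done .nil) .nil) .nil) .nil) .nil) .nil) .nil) .nil)) .nil) (.node 2 (.node 13 (.node 14 (.node 20 (.node 33 (.node 34 (.node 44 (.node 48 (.node 208 .done .nil) .nil) .nil) .nil) .nil) .nil) .nil) .nil) .nil)) .nil) .nil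
def t4_293 : Trie := .node 10 (.node 13 (.node 14 (.node 15 (.node 21 (.node 30 (.node 33 (.node 34 (.node 35 (.node 41 (.node 45 (.node 52 (.node 133 (.node 185 (.node 201 (.node 320 (.node 359 (.node 22 (.node 130 .done .nil) .nil) .nil) (.node 2 .done .nil)) .nil) .nil) .nil) .nil) .nil) .nil) .nil) .nil) .nil) .nil) .nil) .nil) .nil) .nil) .nil
def t4_294 : Trie := .node 395 (.node 10 (.node 30 (.node 320 (.node 347 (.node 359 (.node 386 (.node 12 (.node 15 (.node 21 (.node 23 (.node 24 (.node 32 (.node 35 (.node 41 (.node 44 (.node 54 (.node 134 .done .nil) .nil) .nil) .nil) .nil) .nil) .nil) .nil) .nil) .nil) .nil) .nil) .nil) .nil) (.node 1 (.node 2 (.node 128 .done .nil) .nil) .nil)) .nil) .nil) .nil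
def t4_295 : Trie := .node 323 (.node 395 (.node 13 (.node 15 (.node 21 (.node 24 (.node 33 (.node 35 (.node 52 (.node 2 (.node 41 .done (.node 49 .done .nil)) (.node 320 (.node 359 (.node 386 (.node 10 (.node 22 (.node 30 (.node 46 (.node 49 (.node 226 .done .nil) .nil) .nil) .nil) .nil) .nil) .nil) .nil) .nil)) .nil) .nil) .nil) .nil) .nil) .nil) .nil) t4_293) t4_294
def t4_296 : Trie := .node 356 t4_295 (.node 1 (.node 2 (.node 5 (.node 10 (.node 13 (.node 14 (.node 30 (.node 33 (.node 34 (.node 128 (.node 133 (.node 185 (.node 188 (.node 201 (.node 208 .done .nil) .nil) .nil) .nil) .nil) .nil) .nil) .nil) .nil) .nil) .nil) .nil) .nil) .nil) .nil)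
def t4_297 : Trie := .node 386 t4_287 (.node 347 (.node 320 (.node 359 (.node 356 (.node 323 t4_284 (.node 395 (.node 10 (.node 12 (.node 13 (.node 15 (.node 21 (.node 30 (.node 32 (.node 33 (.node 35 (.node 41 (.node 44 .done .nil) .nil) .nil) .nil) .nil) .nil) .nil) .nil) .nil) .nil) .nil) .nil)) t4_285) .nil) t4_286) .nil)
def t4_298 : Trie := .node 386 (.node 395 (.node 12 (.node 15 (.node 20 (.node 23 (.node 32 (.node 35 (.node 40 (.node 21 (.node 50 (.node 46 (.node 54 .done (.node 222 .done .nil)) (.node 54 (.node 162 .done .nil) .nil)) .nil) (.node 48 (.node 72 (.node 91 (.node 45 (.node 65 (.node 94 .done .nil) .nil) (.node 53 (.node 78 (.node 85 .done .nil) .nil) .nil)) .nil) .nil) .nil)) .nil) .nil) .nil) .nil) .nil) .nil) .nil) .nil) .nil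
def t4_299 : Trie := .node 332 t4_297 (.node 377 (.node 323 (.node 395 (.node 356 t4_290 (.node 2 (.node 13 (.node 20 (.node 21 (.node 24 (.node 25 (.node 33 (.node 44 (.node 48 (.node 42 (.node 54 .done .nil) (.node 186 (.node 190 .done .nil) .nil)) .nil) .nil) .nil) .nil) .nil) .nil) .nil) .nil) .nil)) .nil) t4_292) t4_296)
def t4_300 : Trie := .node 12 (.node 13 (.node 20 (.node 21 (.node 24 (.node 32 (.node 33 (.node 41 (.node 45 (.node 49 (.node 53 (.node 162 (.node 186 .done .nil) .nil) .nil) .nil) .nil) .nil) .nil) .nil) .nil) .nil) .nil) .nil) .nil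
def t4_301 : Trie := .node 12 (.node 21 (.node 32 (.node 48 (.node 42 .done (.node 53 .done .nil)) (.node 23 (.node 40 (.node 50 .done .nil) .nil) .nil)) .nil) .nil) (.node 13 (.node 24 (.node 33 (.node 52 (.node 46 .done (.node 49 .done .nil)) (.node 22 (.node 44 (.node 54 .done .nil) .nil) .nil)) .nil) .nil) (.node 22 (.node 23 (.node 40 (.node 44 .done .nil) .nil) .nil) .nil))
def t4_302 : Trie := .node 35 (.node 0 t4_301 (.node 320 (.node 329 (.node 347 (.node 356 (.node 10 (.node 12 (.node 13 (.node 30 (.node 32 (.node 33 (.node 42 (.node 46 (.node 50 (.node 55 .done .nil) (.node 51 (.node 54 .done .nil) .nil)) .nil) .nil) .nil) .nil) .nil) .nil) .nil) .nil) t4_300) .nil) .nil) .nil)) .nil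
def t4_303 : Trie := .node 386 (.node 332 (.node 15 t4_302 (.node 0 (.node 12 (.node 13 (.node 21 (.node 24 (.node 25 (.node 32 (.node 33 .done .nil) .nil) .nil) .nil) .nil) .nil) .nil) .nil)) (.node 0 (.node 15 (.node 21 (.node 22 (.node 23 (.node 24 (.node 35 (.node 40 (.node 44 (.node 50 (.node 54 .done .nil) (.node 222 (.node 226 .done .nil) .nil)) .nil) .nil) .nil) .nil) .nil) .nil) .nil) .nil) .nil)) .nil
def t4_304 : Trie := .node 359 t4_303 (.node 0 (.node 2 (.node 11 (.node 24 (.node 31 (.node 144 (.node 13 (.node 33 (.node 15 (.node 35 (.node 44 (.node 54 .done .nil) (.node 46 (.node 52 .done .nil) .nil)) .nil) (.node 25 (.node 44 (.node 48 .done .nil) .nil) .nil)) .nil) (.node 15 (.node 23 (.node 35 (.node 40 (.node 44 .done .nil) .nil) .nil) .nil) .nil)) .nil) .nil) .nil) .nil) .nil) .nil)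
def t4_305 : Trie := .node 359 (.node 386 (.node 12 (.node 32 (.node 320 (.node 329 (.node 347 (.node 356 (.node 10 (.node 13 (.node 15 (.node 21 (.node 30 (.node 33 (.node 35 (.node 44 (.node 49 .done .nil) .nil) .nil) .nil) .nil) .nil) .nil) .nil) .nil) .nil) .nil) .nil) (.node 0 (.node 1 (.node 160 .done .nil) .nil) .nil)) .nil) .nil) .nil) .nil
def t4_306 : Trie := .node 377 t4_304 (.node 0 (.node 13 (.node 15 (.node 24 (.node 33 (.node 35 (.node 52 (.node 332 (.node 359 (.node 386 (.node 21 (.node 41 .done (.node 49 .done .nil)) .nil) .nil) .nil) (.node 2 (.node 11 (.node 31 (.node 144 (.node 41 .done (.node 49 .done .nil)) .nil) .nil) .nil) .nil)) .nil) .nil) .nil) .nil) .nil) .nil) .nil)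
def t4_307 : Trie := .node 13 (.node 33 (.node 332 (.node 386 (.node 12 (.node 24 (.node 32 (.node 377 (.node 21 .done .nil) (.node 1 (.node 160 (.node 188 .done .nil) .nil) .nil)) .nil) .nil) .nil) .nil) (.node 2 (.node 14 (.node 34 (.node 44 (.node 48 (.node 208 (.node 377 (.node 11 (.node 31 (.node 144 .done .nil) .nil) .nil) (.node 1 (.node 40 (.node 188 .done .nil) .nil) .nil)) .nil) .nil) .nil) .nil) .nil) .nil)) .nil) .nil
def t4_308 : Trie := .node 10 (.node 15 (.node 21 (.node 23 (.node 24 (.node 30 (.node 35 (.node 41 (.node 45 (.node 49 (.node 53 (.node 134 (.node 222 .done .nil) .nil) .nil) .nil) .nil) .nil) .nil) .nil) .nil) .nil) .nil) .nil) .nil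
def t4_309 : Trie := .node 10 (.node 24 (.node 30 (.node 44 (.node 49 .done (.node 54 .done .nil)) (.node 25 (.node 46 (.node 52 .done .nil) .nil) .nil)) .nil) .nil) (.node 15 (.node 21 (.node 35 (.node 48 (.node 42 .done (.node 45 .done .nil)) (.node 20 (.node 40 (.node 50 .done .nil) .nil) .nil)) .nil) .nil) (.node 20 (.node 25 (.node 40 (.node 52 .done .nil) .nil) .nil) .nil))
def t4_310 : Trie := .node 32 (.node 3 t4_309 (.node 320 (.node 323 (.node 329 (.node 332 (.node 10 (.node 13 (.node 15 (.node 30 (.node 33 (.node 35 (.node 42 (.node 54 (.node 46 (.node 51 .done .nil) (.node 47 (.node 50 .done .nil) .nil)) .nil) .nil) .nil) .nil) .nil) .nil) .nil) .nil) t4_308) .nil) .nil) .nil)) .nil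
def t4_311 : Trie := .node 15 (.node 32 (.node 34 (.node 35 (.node 173 (.node 209 (.node 225 (.node 10 (.node 30 (.node 13 (.node 33 (.node 42 (.node 46 (.node 51 (.node 54 .done .nil) .nil) .nil) .nil) .nil) (.node 23 (.node 44 (.node 49 (.node 53 .done .nil) .nil) .nil) .nil)) .nil) (.node 13 (.node 20 (.node 33 (.node 45 (.node 49 (.node 52 .done .nil) .nil) .nil) .nil) .nil) .nil)) .nil) .nil) .nil) .nil) .nil) .nil) .nil
def t4_312 : Trie := .node 329 (.node 323 (.node 332 (.node 12 (.node 14 t4_311 .nil) .nil) .nil) (.node 10 (.node 12 (.node 14 (.node 15 (.node 21 (.node 23 (.node 30 (.node 32 (.node 34 (.node 35 (.node 44 (.node 49 (.node 53 (.node 173 (.node 209 (.node 222 (.node 225 .done .nil) .nil) .nil) .nil) .nil) .nil) .nil) .nil) .nil) .nil) .nil) .nil) .nil) .nil) .nil) .nil) .nil)) .nil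
def t4_313 : Trie := .node 377 (.node 12 t4_310 (.node 3 (.node 10 (.node 15 (.node 21 (.node 22 (.node 24 (.node 30 (.node 35 .done .nil) .nil) .nil) .nil) .nil) .nil) .nil) .nil)) (.node 3 (.node 10 (.node 12 (.node 21 (.node 24 (.node 30 (.node 32 (.node 44 (.node 41 .done (.node 49 .done .nil)) .nil) .nil) .nil) .nil) .nil) .nil) .nil) .nil)
def t4_314 : Trie := .node 383 t4_313 (.node 320 t4_312 (.node 3 (.node 10 (.node 12 (.node 14 (.node 15 (.node 21 (.node 30 (.node 32 (.node 34 (.node 35 (.node 44 (.node 49 (.node 53 (.node 173 (.node 209 (.node 225 .done .nil) .nil) .nil) .nil) .nil) .nil) .nil) .nil) .nil) .nil) .nil) .nil) .nil) .nil) .nil) .nil))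
def t4_315 : Trie := .node 329 (.node 13 (.node 21 (.node 33 (.node 49 (.node 52 (.node 356 (.node 383 (.node 10 (.node 30 .done .nil) .nil) .nil) (.node 14 (.node 20 (.node 34 (.node 45 (.node 162 (.node 173 (.node 209 (.node 225 .done .nil) .nil) .nil) .nil) .nil) .nil) .nil) .nil)) .nil) .nil) .nil) .nil) .nil) .nil
def t4_316 : Trie := .node 377 (.node 0 (.node 3 (.node 14 (.node 21 (.node 34 (.node 200 (.node 40 (.node 50 .done .nil) (.node 42 (.node 48 .done .nil) .nil)) .nil) .nil) .nil) .nil) .nil) .nil) (.node 0 (.node 1 (.node 3 (.node 14 (.node 34 (.node 160 (.node 173 (.node 200 (.node 209 (.node 220 (.node 225 .done .nil) .nil) .nil) .nil) .nil) .nil) .nil) .nil) .nil) .nil) .nil)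
def t4_317 : Trie := .node 32 (.node 323 (.node 332 (.node 320 t4_315 (.node 0 (.node 13 (.node 14 (.node 21 (.node 33 (.node 34 (.node 45 (.node 49 (.node 52 (.node 173 (.node 209 (.node 225 .done .nil) .nil) .nil) .nil) .nil) .nil) .nil) .nil) .nil) .nil) .nil) .nil)) .nil) t4_316) .nil
def t4_318 : Trie := .node 35 (.node 12 t4_317 (.node 3 (.node 356 (.node 383 (.node 1 (.node 220 .done .nil) .nil) .nil) (.node 377 (.node 0 (.node 14 (.node 21 (.node 22 (.node 34 (.node 40 (.node 44 (.node 200 .done .nil) .nil) .nil) .nil) .nil) .nil) .nil) .nil) .nil)) .nil)) .nil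
def t4_319 : Trie := .node 356 t4_314 (.node 377 (.node 383 (.node 3 (.node 12 (.node 20 (.node 21 (.node 24 (.node 25 (.node 32 (.node 40 (.node 52 (.node 46 (.node 50 .done .nil) (.node 162 (.node 174 .done .nil) .nil)) .nil) .nil) .nil) .nil) .nil) .nil) .nil) .nil) .nil) .nil) .nil)
def t4_320 : Trie := .node 3 (.node 5 (.node 11 (.node 24 (.node 31 (.node 152 (.node 10 (.node 30 (.node 12 (.node 32 (.node 44 (.node 54 .done .nil) (.node 46 (.node 52 .done .nil) .nil)) .nil) (.node 22 (.node 48 (.node 52 .done .nil) .nil) .nil)) .nil) (.node 12 (.node 20 (.node 32 (.node 40 (.node 52 .done .nil) .nil) .nil) .nil) .nil)) .nil) .nil) .nil) .nil) .nil) .nil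
def t4_321 : Trie := .node 347 (.node 377 t4_320 (.node 3 (.node 5 (.node 10 (.node 11 (.node 12 (.node 24 (.node 30 (.node 31 (.node 32 (.node 44 (.node 152 (.node 41 .done (.node 49 .done .nil)) .nil) .nil) .nil) .nil) .nil) .nil) .nil) .nil) .nil) .nil) .nil)) (.node 1 (.node 3 (.node 5 (.node 40 (.node 48 (.node 52 .done .nil) .nil) .nil) .nil) .nil) .nil)
def t4_322 : Trie := .node 383 t4_321 (.node 0 (.node 3 (.node 5 (.node 12 (.node 14 (.node 32 (.node 34 (.node 40 (.node 52 (.node 200 (.node 377 (.node 11 (.node 31 (.node 152 .done .nil) .nil) .nil) (.node 1 (.node 48 (.node 160 .done .nil) .nil) .nil)) .nil) .nil) .nil) .nil) .nil) .nil) .nil) .nil) .nil) .nil)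
def t4_323 : Trie := .node 10 (.node 30 (.node 356 (.node 395 (.node 15 (.node 24 (.node 35 (.node 377 (.node 21 .done .nil) (.node 1 (.node 128 (.node 220 .done .nil) .nil) .nil)) .nil) .nil) .nil) .nil) (.node 5 (.node 14 (.node 34 (.node 48 (.node 52 (.node 208 (.node 377 (.node 11 (.node 31 (.node 152 .done .nil) .nil) .nil) (.node 1 (.node 40 (.node 128 .done .nil) .nil) .nil)) .nil) .nil) .nil) .nil) .nil) .nil)) .nil) .nil
def t4_324 : Trie := .node 383 (.node 2 (.node 3 t4_323 .nil) .nil) (.node 395 (.node 0 (.node 2 (.node 3 (.node 14 (.node 15 (.node 34 (.node 35 (.node 40 (.node 44 (.node 200 (.node 377 (.node 11 (.node 31 (.node 144 .done .nil) .nil) .nil) (.node 1 (.node 48 (.node 220 .done .nil) .nil) .nil)) .nil) .nil) .nil) .nil) .nil) .nil) .nil) .nil) .nil) .nil) .nil)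
def t4_325 : Trie := .node 383 (.node 329 t4_299 (.node 320 (.node 323 (.node 332 (.node 347 (.node 356 (.node 359 (.node 377 t4_298 .nil) .nil) .nil) .nil) .nil) .nil) .nil)) (.node 395 (.node 323 t4_306 (.node 332 t4_305 (.node 0 (.node 1 (.node 2 (.node 40 (.node 44 (.node 48 .done .nil) .nil) .nil) .nil) .nil) .nil))) (.node 0 (.node 5 t4_307 .nil) .nil))
def t4_326 : Trie := .node 341 t4_325 (.node 386 (.node 359 (.node 395 (.node 347 t4_319 (.node 15 t4_318 (.node 377 (.node 0 (.node 3 (.node 12 (.node 14 (.node 21 (.node 25 (.node 32 (.node 34 (.node 40 (.node 52 (.node 200 .done .nil) .nil) .nil) .nil) .nil) .nil) .nil) .nil) .nil) .nil) .nil) .nil))) .nil) t4_322) t4_324)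
def t4_327 : Trie := .node 13 (.node 33 (.node 40 (.node 45 .done (.node 51 .done .nil)) (.node 42 (.node 46 (.node 50 .done .nil) (.node 47 (.node 49 .done .nil) .nil)) .nil)) .nil) (.node 22 (.node 44 (.node 24 (.node 54 .done .nil) (.node 41 (.node 55 (.node 135 .done .nil) .nil) .nil)) .nil) (.node 23 (.node 52 (.node 24 (.node 46 .done .nil) (.node 47 (.node 49 (.node 227 .done .nil) .nil) .nil)) .nil) .nil))
def t4_328 : Trie := .node 33 (.node 42 (.node 49 (.node 55 (.node 12 (.node 32 .done .nil) (.node 46 (.node 191 .done .nil) .nil)) (.node 47 (.node 54 (.node 131 .done .nil) .nil) .nil)) (.node 50 (.node 54 (.node 12 (.node 32 .done .nil) (.node 46 .done .nil)) .nil) .nil)) (.node 12 (.node 32 (.node 40 (.node 51 .done (.node 53 .done .nil)) .nil) .nil) .nil)) .nil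
def t4_329 : Trie := .node 33 (.node 15 (.node 35 (.node 48 (.node 43 .done (.node 45 .done .nil)) (.node 50 (.node 41 (.node 47 .done .nil) (.node 42 (.node 46 .done .nil) .nil)) .nil)) .nil) (.node 20 (.node 44 (.node 24 (.node 54 .done .nil) (.node 49 (.node 55 (.node 175 .done .nil) .nil) .nil)) .nil) (.node 25 (.node 52 (.node 24 (.node 46 .done .nil) (.node 41 (.node 47 (.node 187 .done .nil) .nil) .nil)) .nil) .nil))) .nil
def t4_330 : Trie := .node 12 (.node 32 (.node 13 t4_329 (.node 15 (.node 35 (.node 50 (.node 41 (.node 46 (.node 55 (.node 223 .done .nil) .nil) (.node 47 (.node 54 (.node 163 .done .nil) .nil) .nil)) (.node 42 (.node 46 (.node 54 .done .nil) .nil) .nil)) .nil) .nil) .nil)) .nil) (.node 13 (.node 15 (.node 20 (.node 22 (.node 33 (.node 35 .done .nil) .nil) .nil) .nil) .nil) .nil)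
def t4_331 : Trie := .node 22 (.node 41 (.node 13 (.node 33 .done .nil) (.node 21 (.node 23 (.node 52 (.node 85 (.node 88 .done .nil) .nil) .nil) .nil) (.node 24 (.node 223 (.node 226 .done .nil) .nil) .nil))) (.node 50 (.node 13 (.node 33 .done .nil) (.node 24 (.node 54 .done .nil) .nil)) .nil)) (.node 13 (.node 33 (.node 41 (.node 48 (.node 67 (.node 73 (.node 76 .done .nil) .nil) .nil) .nil) .nil) .nil) .nil)
def t4_332 : Trie := .node 10 (.node 30 (.node 15 (.node 35 (.node 12 (.node 32 (.node 48 (.node 43 .done (.node 53 .done .nil)) (.node 50 (.node 41 (.node 55 .done .nil) (.node 42 (.node 54 .done .nil) .nil)) .nil)) .nil) t4_327) .nil) (.node 13 t4_328 (.node 12 (.node 23 (.node 25 (.node 32 .done .nil) .nil) .nil) .nil))) .nil) t4_330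
def t4_333 : Trie := .node 20 (.node 49 (.node 15 (.node 35 .done .nil) (.node 21 (.node 25 (.node 52 (.node 88 (.node 93 .done .nil) .nil) .nil) .nil) (.node 24 (.node 186 (.node 191 .done .nil) .nil) .nil))) (.node 42 (.node 15 (.node 35 .done .nil) (.node 24 (.node 54 .done .nil) .nil)) .nil)) (.node 15 (.node 35 (.node 40 (.node 49 (.node 64 (.node 73 (.node 79 .done .nil) .nil) .nil) .nil) .nil) .nil) .nil)
def t4_334 : Trie := .node 386 (.node 12 (.node 13 (.node 32 (.node 33 (.node 44 t4_333 (.node 10 (.node 15 (.node 30 (.node 35 (.node 40 (.node 51 .done .nil) (.node 42 (.node 45 (.node 49 .done .nil) .nil) .nil)) .nil) .nil) .nil) .nil)) .nil) .nil) .nil) .nil) (.node 11 (.node 13 (.node 15 (.node 31 (.node 33 (.node 35 .done .nil) .nil) .nil) .nil) .nil) .nil)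
def t4_335 : Trie := .node 10 (.node 13 (.node 15 (.node 22 (.node 30 (.node 33 (.node 35 (.node 40 (.node 11 (.node 31 (.node 45 .done (.node 49 .done .nil)) .nil) (.node 383 (.node 386 (.node 21 (.node 45 (.node 50 (.node 130 .done .nil) .nil) .nil) .nil) .nil) .nil)) .nil) .nil) .nil) .nil) .nil) .nil) .nil) .nil
def t4_336 : Trie := .node 21 (.node 30 (.node 15 (.node 24 (.node 35 (.node 44 (.node 41 .done (.node 54 .done .nil)) (.node 23 (.node 46 (.node 52 .done .nil) .nil) .nil)) .nil) .nil) (.node 13 (.node 33 (.node 42 (.node 46 (.node 50 (.node 54 .done .nil) .nil) (.node 49 (.node 55 .done .nil) .nil)) .nil) .nil) (.node 23 (.node 25 (.node 44 (.node 48 .done .nil) .nil) .nil) .nil))) .nil) .nil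
def t4_337 : Trie := .node 359 (.node 11 (.node 13 (.node 15 (.node 20 (.node 22 (.node 31 (.node 33 (.node 35 (.node 41 (.node 45 (.node 50 .done .nil) (.node 46 (.node 49 .done .nil) .nil)) (.node 42 (.node 45 (.node 49 .done .nil) .nil) .nil)) .nil) .nil) .nil) .nil) .nil) .nil) .nil) .nil) .nil
def t4_338 : Trie := .node 383 (.node 2 (.node 10 t4_336 (.node 13 (.node 15 (.node 20 (.node 24 (.node 33 (.node 35 .done .nil) .nil) .nil) .nil) .nil) .nil)) .nil) (.node 332 t4_337 (.node 2 (.node 11 (.node 13 (.node 15 (.node 20 (.node 24 (.node 31 (.node 33 (.node 35 .done .nil) .nil) .nil) .nil) .nil) .nil) .nil) .nil) .nil))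
def t4_339 : Trie := .node 23 (.node 49 (.node 12 (.node 32 .done .nil) (.node 21 (.node 22 (.node 44 (.node 77 (.node 88 .done .nil) .nil) .nil) .nil) (.node 24 (.node 131 (.node 134 .done .nil) .nil) .nil))) (.node 42 (.node 12 (.node 32 .done .nil) (.node 24 (.node 46 .done .nil) .nil)) .nil)) (.node 12 (.node 32 (.node 40 (.node 49 (.node 73 (.node 84 (.node 95 .done .nil) .nil) .nil) .nil) .nil) .nil) .nil)
def t4_340 : Trie := .node 10 (.node 15 (.node 21 (.node 22 (.node 23 (.node 30 (.node 35 (.node 41 (.node 44 (.node 49 (.node 52 (.node 74 (.node 77 (.node 85 (.node 88 .done .nil) .nil) .nil) .nil) .nil) .nil) .nil) .nil) .nil) .nil) .nil) .nil) .nil) .nil) .nil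
def t4_341 : Trie := .node 347 (.node 359 (.node 332 (.node 386 (.node 10 (.node 15 (.node 30 (.node 35 (.node 52 t4_339 (.node 12 (.node 13 (.node 32 (.node 33 (.node 40 (.node 51 .done .nil) (.node 42 (.node 49 (.node 53 .done .nil) .nil) .nil)) .nil) .nil) .nil) .nil)) .nil) .nil) .nil) .nil) .nil) t4_340) .nil) .nil
def t4_342 : Trie := .node 320 (.node 347 (.node 332 (.node 359 (.node 383 (.node 386 t4_332 (.node 10 (.node 15 (.node 30 (.node 35 (.node 44 t4_331 (.node 12 (.node 13 (.node 32 (.node 33 (.node 41 (.node 45 (.node 50 .done .nil) .nil) (.node 43 (.node 48 .done .nil) .nil)) .nil) .nil) .nil) .nil)) .nil) .nil) .nil) .nil)) t4_334) .nil) t4_335) .nil) t4_338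
def t4_343 : Trie := .node 25 (.node 41 (.node 10 (.node 30 .done .nil) (.node 20 (.node 21 (.node 44 (.node 65 (.node 88 .done .nil) .nil) .nil) .nil) (.node 24 (.node 163 (.node 174 .done .nil) .nil) .nil))) (.node 50 (.node 10 (.node 30 .done .nil) (.node 24 (.node 46 .done .nil) .nil)) .nil)) (.node 10 (.node 30 (.node 41 (.node 48 (.node 73 (.node 87 (.node 92 .done .nil) .nil) .nil) .nil) .nil) .nil) .nil)
def t4_344 : Trie := .node 386 (.node 341 (.node 12 (.node 13 (.node 32 (.node 33 (.node 52 t4_343 (.node 10 (.node 15 (.node 30 (.node 35 (.node 41 (.node 50 (.node 53 .done .nil) .nil) (.node 43 (.node 48 .done .nil) .nil)) .nil) .nil) .nil) .nil)) .nil) .nil) .nil) .nil) (.node 10 (.node 11 (.node 12 (.node 30 (.node 31 (.node 32 .done .nil) .nil) .nil) .nil) .nil) .nil)) .nil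
def t4_345 : Trie := .node 332 (.node 347 (.node 359 (.node 383 t4_344 (.node 10 (.node 11 (.node 12 (.node 13 (.node 15 (.node 30 (.node 31 (.node 32 (.node 33 (.node 35 .done .nil) .nil) .nil) .nil) .nil) .nil) .nil) .nil) .nil) .nil)) .nil) .nil) .nil
def t4_346 : Trie := .node 341 t4_342 (.node 383 (.node 320 t4_341 (.node 2 (.node 10 (.node 15 (.node 21 (.node 23 (.node 24 (.node 30 (.node 35 (.node 52 (.node 42 (.node 46 .done .nil) (.node 49 (.node 134 .done .nil) .nil)) .nil) .nil) .nil) .nil) .nil) .nil) .nil) .nil) .nil)) .nil)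
def t4_347 : Trie := .node 10 (.node 12 (.node 13 (.node 25 (.node 30 (.node 32 (.node 33 (.node 40 (.node 11 (.node 31 (.node 49 .done (.node 53 .done .nil)) .nil) (.node 341 (.node 395 (.node 21 (.node 50 (.node 53 (.node 190 .done .nil) .nil) .nil) .nil) .nil) .nil)) .nil) .nil) .nil) .nil) .nil) .nil) .nil) .nil
def t4_348 : Trie := .node 320 (.node 332 (.node 347 (.node 386 (.node 383 t4_347 (.node 341 (.node 359 (.node 12 (.node 13 (.node 20 (.node 21 (.node 25 (.node 32 (.node 33 (.node 41 (.node 44 (.node 49 (.node 52 (.node 65 (.node 74 (.node 88 (.node 93 .done .nil) .nil) .nil) .nil) .nil) .nil) .nil) .nil) .nil) .nil) .nil) .nil) .nil) .nil) .nil) .nil) .nil)) .nil) .nil) .nil) .nil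
def t4_349 : Trie := .node 21 (.node 33 (.node 12 (.node 24 (.node 32 (.node 52 (.node 41 .done (.node 46 .done .nil)) (.node 20 (.node 44 (.node 54 .done .nil) .nil) .nil)) .nil) .nil) (.node 10 (.node 30 (.node 42 (.node 46 (.node 50 (.node 54 .done .nil) .nil) (.node 47 (.node 49 .done .nil) .nil)) .nil) .nil) (.node 20 (.node 22 (.node 48 (.node 52 .done .nil) .nil) .nil) .nil))) .nil) .nil
def t4_350 : Trie := .node 359 (.node 10 (.node 11 (.node 12 (.node 23 (.node 25 (.node 30 (.node 31 (.node 32 (.node 41 (.node 49 (.node 54 .done .nil) (.node 50 (.node 53 .done .nil) .nil)) (.node 42 (.node 49 (.node 53 .done .nil) .nil) .nil)) .nil) .nil) .nil) .nil) .nil) .nil) .nil) .nil) .nil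
def t4_351 : Trie := .node 341 (.node 5 (.node 13 t4_349 (.node 10 (.node 12 (.node 23 (.node 24 (.node 30 (.node 32 .done .nil) .nil) .nil) .nil) .nil) .nil)) .nil) (.node 356 t4_350 (.node 5 (.node 10 (.node 11 (.node 12 (.node 23 (.node 24 (.node 30 (.node 31 (.node 32 .done .nil) .nil) .nil) .nil) .nil) .nil) .nil) .nil) .nil))
def t4_352 : Trie := .node 383 t4_351 (.node 341 (.node 5 (.node 12 (.node 13 (.node 20 (.node 21 (.node 24 (.node 32 (.node 33 (.node 44 (.node 42 (.node 54 .done .nil) (.node 49 (.node 186 .done .nil) .nil)) .nil) .nil) .nil) .nil) .nil) .nil) .nil) .nil) .nil) .nil)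
def t4_353 : Trie := .node 2 (.node 5 (.node 14 (.node 21 (.node 34 (.node 208 (.node 10 (.node 30 (.node 13 (.node 33 (.node 42 (.node 46 (.node 50 (.node 54 .done .nil) .nil) .nil) .nil) .nil) (.node 23 (.node 44 (.node 48 .done .nil) .nil) .nil)) .nil) (.node 13 (.node 20 (.node 33 (.node 48 (.node 52 .done .nil) .nil) .nil) .nil) .nil)) .nil) .nil) .nil) .nil) .nil) .nil
def t4_354 : Trie := .node 383 (.node 2 (.node 5 (.node 10 (.node 11 (.node 14 (.node 23 (.node 30 (.node 31 (.node 34 (.node 44 (.node 48 (.node 208 .done .nil) .nil) .nil) .nil) .nil) .nil) .nil) .nil) .nil) .nil) .nil) .nil) .nil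
def t4_355 : Trie := .node 347 (.node 386 t4_352 (.node 5 (.node 11 (.node 13 (.node 31 (.node 33 (.node 48 (.node 52 (.node 341 .done (.node 10 (.node 12 (.node 24 (.node 30 (.node 32 .done .nil) .nil) .nil) .nil) .nil)) .nil) .nil) .nil) .nil) .nil) .nil) .nil)) .nil
def t4_356 : Trie := .node 356 (.node 395 t4_346 (.node 320 t4_345 (.node 2 (.node 10 (.node 11 (.node 30 (.node 31 (.node 44 (.node 48 (.node 383 .done (.node 13 (.node 15 (.node 24 (.node 33 (.node 35 .done .nil) .nil) .nil) .nil) .nil)) .nil) .nil) .nil) .nil) .nil) .nil) .nil))) t4_348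
def t4_357 : Trie := .node 21 (.node 32 (.node 13 (.node 24 (.node 33 (.node 44 (.node 49 .done (.node 54 .done .nil)) (.node 25 (.node 46 (.node 52 .done .nil) .nil) .nil)) .nil) .nil) (.node 15 (.node 35 (.node 50 (.node 41 (.node 55 .done .nil) (.node 42 (.node 46 (.node 54 .done .nil) .nil) .nil)) .nil) .nil) (.node 23 (.node 25 (.node 40 (.node 44 .done .nil) .nil) .nil) .nil))) .nil) .nil
def t4_358 : Trie := .node 0 (.node 12 t4_357 (.node 13 (.node 15 (.node 22 (.node 24 (.node 33 (.node 35 .done .nil) .nil) .nil) .nil) .nil) .nil)) (.node 320 (.node 347 (.node 383 (.node 12 (.node 13 (.node 15 (.node 20 (.node 21 (.node 32 (.node 33 (.node 35 (.node 42 (.node 45 (.node 48 (.node 162 .done .nil) .nil) .nil) .nil) .nil) .nil) .nil) .nil) .nil) .nil) .nil) .nil) .nil) .nil) .nil)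
def t4_359 : Trie := .node 21 (.node 35 (.node 10 (.node 24 (.node 30 (.node 52 (.node 46 .done (.node 49 .done .nil)) (.node 22 (.node 44 (.node 54 .done .nil) .nil) .nil)) .nil) .nil) (.node 12 (.node 32 (.node 50 (.node 41 (.node 47 .done .nil) (.node 42 (.node 46 (.node 54 .done .nil) .nil) .nil)) .nil) .nil) (.node 20 (.node 22 (.node 40 (.node 52 .done .nil) .nil) .nil) .nil))) .nil) .nil
def t4_360 : Trie := .node 0 (.node 3 (.node 14 (.node 21 (.node 34 (.node 200 (.node 12 (.node 32 (.node 15 (.node 35 (.node 42 (.node 46 (.node 50 (.node 54 .done .nil) .nil) .nil) .nil) .nil) (.node 25 (.node 40 (.node 44 .done .nil) .nil) .nil)) .nil) (.node 15 (.node 22 (.node 35 (.node 40 (.node 52 .done .nil) .nil) .nil) .nil) .nil)) .nil) .nil) .nil) .nil) .nil) .nil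
def t4_361 : Trie := .node 341 (.node 332 t4_358 (.node 320 (.node 347 (.node 356 (.node 383 (.node 10 (.node 12 (.node 15 (.node 21 (.node 23 (.node 30 (.node 32 (.node 35 (.node 42 (.node 48 (.node 53 (.node 222 .done .nil) .nil) .nil) .nil) .nil) .nil) .nil) .nil) .nil) .nil) .nil) .nil) .nil) .nil) .nil) .nil)) .nil
def t4_362 : Trie := .node 341 (.node 0 (.node 12 (.node 13 (.node 21 (.node 24 (.node 25 (.node 32 (.node 33 (.node 52 (.node 41 (.node 174 .done .nil) (.node 46 (.node 50 .done .nil) .nil)) .nil) .nil) .nil) .nil) .nil) .nil) .nil) .nil) .nil) (.node 0 (.node 11 (.node 12 (.node 31 (.node 32 (.node 40 (.node 44 .done .nil) .nil) .nil) .nil) .nil) .nil) .nil)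
def t4_363 : Trie := .node 3 (.node 11 (.node 12 (.node 25 (.node 31 (.node 32 (.node 347 (.node 356 (.node 383 (.node 10 (.node 24 (.node 30 .done .nil) .nil) .nil) .nil) .nil) (.node 0 (.node 14 (.node 34 (.node 40 (.node 44 (.node 200 .done .nil) .nil) .nil) .nil) .nil) .nil)) .nil) .nil) .nil) .nil) .nil) .nil
def t4_364 : Trie := .node 323 (.node 332 t4_362 (.node 320 (.node 347 (.node 356 (.node 383 (.node 10 (.node 11 (.node 12 (.node 15 (.node 23 (.node 30 (.node 31 (.node 32 (.node 35 (.node 48 (.node 41 .done (.node 53 .done .nil)) .nil) .nil) .nil) .nil) .nil) .nil) .nil) .nil) .nil) .nil) .nil) .nil) .nil) .nil)) t4_363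
def t4_365 : Trie := .node 383 (.node 3 (.node 10 (.node 15 (.node 21 (.node 22 (.node 24 (.node 30 (.node 35 (.node 44 (.node 41 (.node 226 .done .nil) (.node 50 (.node 54 .done .nil) .nil)) .nil) .nil) .nil) .nil) .nil) .nil) .nil) .nil) .nil) (.node 3 (.node 11 (.node 15 (.node 31 (.node 35 (.node 40 (.node 52 .done .nil) .nil) .nil) .nil) .nil) .nil) .nil)
def t4_366 : Trie := .node 0 (.node 11 (.node 15 (.node 22 (.node 31 (.node 35 (.node 323 (.node 332 (.node 341 (.node 13 (.node 24 (.node 33 .done .nil) .nil) .nil) .nil) .nil) (.node 3 (.node 14 (.node 34 (.node 40 (.node 52 (.node 200 .done .nil) .nil) .nil) .nil) .nil) .nil)) .nil) .nil) .nil) .nil) .nil) .nil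
def t4_367 : Trie := .node 11 (.node 12 (.node 15 (.node 24 (.node 31 (.node 32 (.node 35 (.node 40 (.node 323 (.node 332 (.node 0 (.node 13 (.node 33 (.node 44 .done .nil) .nil) .nil) .nil) .nil) (.node 347 (.node 356 (.node 3 (.node 10 (.node 30 (.node 52 .done .nil) .nil) .nil) .nil) .nil) .nil)) .nil) .nil) .nil) .nil) .nil) .nil) .nil) .nil
def t4_368 : Trie := .node 395 (.node 347 (.node 356 t4_365 (.node 320 (.node 323 (.node 332 (.node 341 (.node 11 (.node 12 (.node 13 (.node 15 (.node 20 (.node 31 (.node 32 (.node 33 (.node 35 (.node 48 (.node 41 .done (.node 45 .done .nil)) .nil) .nil) .nil) .nil) .nil) .nil) .nil) .nil) .nil) .nil) .nil) .nil) .nil) .nil)) t4_366) t4_367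
def t4_369 : Trie := .node 0 (.node 5 (.node 21 (.node 12 (.node 32 (.node 13 (.node 33 (.node 44 (.node 54 .done .nil) (.node 46 (.node 52 .done .nil) .nil)) .nil) (.node 23 (.node 40 (.node 44 .done .nil) .nil) .nil)) .nil) (.node 13 (.node 22 (.node 33 (.node 48 (.node 52 .done .nil) .nil) .nil) .nil) .nil)) .nil) .nil) .nil
def t4_370 : Trie := .node 2 (.node 3 (.node 21 (.node 10 (.node 30 (.node 15 (.node 35 (.node 44 (.node 54 .done .nil) (.node 46 (.node 52 .done .nil) .nil)) .nil) (.node 25 (.node 44 (.node 48 .done .nil) .nil) .nil)) .nil) (.node 15 (.node 20 (.node 35 (.node 40 (.node 52 .done .nil) .nil) .nil) .nil) .nil)) .nil) .nil) .nil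
def t4_371 : Trie := .node 11 (.node 31 (.node 323 (.node 341 (.node 395 (.node 0 (.node 2 (.node 13 (.node 15 (.node 33 (.node 35 (.node 144 .done .nil) .nil) .nil) .nil) .nil) .nil) .nil) .nil) .nil) (.node 347 (.node 383 (.node 386 (.node 3 (.node 5 (.node 10 (.node 12 (.node 30 (.node 32 (.node 152 .done .nil) .nil) .nil) .nil) .nil) .nil) .nil) .nil) .nil) .nil)) .nil) .nil
def t4_372 : Trie := .node 356 (.node 383 (.node 395 t4_370 (.node 2 (.node 3 (.node 10 (.node 11 (.node 25 (.node 30 (.node 31 (.node 44 (.node 48 .done .nil) .nil) .nil) .nil) .nil) .nil) .nil) .nil) .nil)) (.node 395 (.node 2 (.node 3 (.node 11 (.node 15 (.node 20 (.node 31 (.node 35 (.node 40 (.node 52 .done .nil) .nil) .nil) .nil) .nil) .nil) .nil) .nil) .nil) .nil)) t4_371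
def t4_373 : Trie := .node 2 (.node 52 (.node 144 (.node 341 (.node 5 (.node 13 (.node 33 (.node 48 (.node 208 .done .nil) .nil) .nil) .nil) .nil) (.node 395 (.node 3 (.node 15 (.node 35 (.node 40 (.node 200 .done .nil) .nil) .nil) .nil) .nil) .nil)) .nil) .nil) (.node 386 (.node 3 (.node 5 (.node 12 (.node 32 (.node 40 (.node 44 (.node 152 (.node 200 .done .nil) .nil) .nil) .nil) .nil) .nil) .nil) .nil) .nil)
def t4_374 : Trie := .node 332 (.node 341 (.node 386 t4_369 (.node 0 (.node 5 (.node 11 (.node 13 (.node 22 (.node 31 (.node 33 (.node 48 (.node 52 .done .nil) .nil) .nil) .nil) .nil) .nil) .nil) .nil) .nil)) (.node 386 (.node 0 (.node 5 (.node 11 (.node 12 (.node 23 (.node 31 (.node 32 (.node 40 (.node 44 .done .nil) .nil) .nil) .nil) .nil) .nil) .nil) .nil) .nil) .nil)) t4_372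
def t4_375 : Trie := .node 24 t4_374 (.node 11 (.node 14 (.node 31 (.node 34 (.node 0 t4_373 (.node 383 (.node 2 (.node 3 (.node 5 (.node 10 (.node 30 (.node 44 (.node 48 (.node 152 (.node 208 .done .nil) .nil) .nil) .nil) .nil) .nil) .nil) .nil) .nil) .nil)) .nil) .nil) .nil) .nil)
def t4_376 : Trie := .node 323 t4_356 (.node 332 t4_355 (.node 341 (.node 383 t4_353 (.node 2 (.node 5 (.node 11 (.node 13 (.node 14 (.node 20 (.node 31 (.node 33 (.node 34 (.node 48 (.node 52 (.node 208 .done .nil) .nil) .nil) .nil) .nil) .nil) .nil) .nil) .nil) .nil) .nil) .nil)) t4_354))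
def t4_377 : Trie := .node 35 (.node 42 (.node 46 (.node 50 (.node 55 .done .nil) (.node 53 (.node 87 (.node 91 .done .nil) .nil) .nil)) (.node 54 (.node 45 (.node 67 (.node 91 .done .nil) .nil) (.node 47 (.node 50 .done .nil) .nil)) .nil)) (.node 50 (.node 91 (.node 45 (.node 54 (.node 79 .done .nil) .nil) (.node 46 (.node 53 (.node 95 .done .nil) .nil) .nil)) .nil) .nil)) .nil
def t4_378 : Trie := .node 15 (.node 35 (.node 40 (.node 50 (.node 74 (.node 45 (.node 54 (.node 67 (.node 79 (.node 86 (.node 91 .done .nil) .nil) .nil) .nil) .nil) (.node 53 (.node 66 (.node 85 (.node 95 .done .nil) .nil) .nil) .nil)) .nil) .nil) .nil) .nil) .nil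
def t4_379 : Trie := .node 13 (.node 15 (.node 33 (.node 35 (.node 42 (.node 48 (.node 74 (.node 45 (.node 67 (.node 77 (.node 94 .done .nil) .nil) .nil) (.node 46 (.node 53 (.node 78 (.node 87 (.node 91 (.node 95 .done .nil) .nil) .nil) .nil) .nil) .nil)) .nil) .nil) .nil) .nil) .nil) .nil) .nil
def t4_380 : Trie := .node 12 (.node 13 (.node 15 (.node 32 (.node 33 (.node 35 (.node 40 (.node 50 (.node 74 (.node 45 (.node 65 (.node 79 (.node 86 .done .nil) .nil) .nil) (.node 46 (.node 53 (.node 66 (.node 87 (.node 91 (.node 95 .done .nil) .nil) .nil) .nil) .nil) .nil)) .nil) .nil) .nil) .nil) .nil) .nil) .nil) .nil) .nil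
def t4_381 : Trie := .node 15 (.node 31 (.node 33 (.node 35 (.node 153 (.node 189 (.node 221 (.node 10 (.node 30 (.node 12 (.node 32 (.node 42 (.node 46 (.node 50 (.node 55 .done .nil) .nil) .nil) .nil) .nil) (.node 22 (.node 40 (.node 49 (.node 53 .done .nil) .nil) .nil) .nil)) .nil) (.node 12 (.node 20 (.node 32 (.node 41 (.node 48 (.node 53 .done .nil) .nil) .nil) .nil) .nil) .nil)) .nil) .nil) .nil) .nil) .nil) .nil) .nil
def t4_382 : Trie := .node 383 (.node 386 (.node 10 (.node 30 (.node 12 (.node 32 (.node 13 (.node 33 (.node 15 t4_377 (.node 42 (.node 48 (.node 74 (.node 45 (.node 54 (.node 67 (.node 79 (.node 91 (.node 94 .done .nil) .nil) .nil) .nil) .nil) (.node 53 (.node 78 (.node 87 (.node 93 .done .nil) .nil) .nil) .nil)) .nil) .nil) .nil)) .nil) t4_378) .nil) t4_379) .nil) t4_380) .nil) (.node 11 (.node 13 t4_381 .nil) .nil)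
def t4_383 : Trie := .node 359 (.node 383 (.node 386 (.node 12 (.node 15 (.node 24 (.node 32 (.node 35 (.node 48 (.node 45 .done (.node 53 .done .nil)) .nil) .nil) .nil) .nil) .nil) .nil) (.node 10 (.node 12 (.node 13 (.node 15 (.node 24 (.node 30 (.node 32 (.node 33 (.node 35 (.node 48 (.node 53 .done .nil) .nil) .nil) .nil) .nil) .nil) .nil) .nil) .nil) .nil) .nil)) .nil) .nil
def t4_384 : Trie := .node 12 (.node 13 (.node 15 (.node 20 (.node 24 (.node 32 (.node 33 (.node 35 (.node 48 (.node 383 (.node 386 (.node 21 (.node 42 (.node 45 (.node 162 .done .nil) .nil) .nil) .nil) .nil) (.node 11 (.node 31 (.node 41 (.node 53 (.node 153 (.node 186 (.node 189 (.node 221 .done .nil) .nil) .nil) .nil) .nil) .nil) .nil) .nil)) .nil) .nil) .nil) .nil) .nil) .nil) .nil) .nil) .nil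
def t4_385 : Trie := .node 329 (.node 359 t4_382 (.node 386 (.node 383 (.node 10 (.node 13 (.node 24 (.node 30 (.node 33 (.node 40 (.node 45 .done (.node 53 .done .nil)) .nil) .nil) .nil) .nil) .nil) .nil) (.node 10 (.node 12 (.node 13 (.node 15 (.node 24 (.node 30 (.node 32 (.node 33 (.node 35 (.node 40 (.node 53 .done .nil) .nil) .nil) .nil) .nil) .nil) .nil) .nil) .nil) .nil) .nil)) .nil)) t4_383
def t4_386 : Trie := .node 0 (.node 11 (.node 12 (.node 13 (.node 15 (.node 24 (.node 31 (.node 32 (.node 33 (.node 35 (.node 41 (.node 48 (.node 53 (.node 153 (.node 189 (.node 221 .done .nil) .nil) .nil) .nil) .nil) .nil) .nil) .nil) .nil) .nil) .nil) .nil) .nil) .nil) .nil) .nil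
def t4_387 : Trie := .node 320 (.node 356 t4_385 (.node 359 t4_384 (.node 329 (.node 383 (.node 386 (.node 10 (.node 12 (.node 13 (.node 21 (.node 24 (.node 25 (.node 30 (.node 32 (.node 33 (.node 40 (.node 50 (.node 53 (.node 190 .done .nil) .nil) .nil) .nil) .nil) .nil) .nil) .nil) .nil) .nil) .nil) .nil) .nil) .nil) .nil) .nil))) (.node 356 (.node 383 (.node 386 (.node 4 .done .nil) .nil) .nil) .nil)
def t4_388 : Trie := .node 10 (.node 11 (.node 13 (.node 15 (.node 24 (.node 30 (.node 31 (.node 33 (.node 35 (.node 40 (.node 49 (.node 53 (.node 153 (.node 189 (.node 221 (.node 320 (.node 347 (.node 22 (.node 226 .done .nil) .nil) .nil) (.node 2 .done .nil)) .nil) .nil) .nil) .nil) .nil) .nil) .nil) .nil) .nil) .nil) .nil) .nil) .nil) .nil) .nil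
def t4_389 : Trie := .node 383 (.node 15 (.node 35 (.node 320 (.node 347 (.node 359 (.node 386 (.node 10 (.node 12 (.node 21 (.node 23 (.node 24 (.node 30 (.node 32 (.node 42 (.node 48 (.node 53 (.node 222 .done .nil) .nil) .nil) .nil) .nil) .nil) .nil) .nil) .nil) .nil) .nil) .nil) .nil) .nil) (.node 2 (.node 4 (.node 224 .done .nil) .nil) .nil)) .nil) .nil) .nil
def t4_390 : Trie := .node 329 (.node 383 (.node 10 (.node 13 (.node 21 (.node 24 (.node 30 (.node 33 (.node 40 (.node 2 (.node 45 .done (.node 53 .done .nil)) (.node 320 (.node 347 (.node 386 (.node 15 (.node 22 (.node 35 (.node 45 (.node 50 (.node 130 .done .nil) .nil) .nil) .nil) .nil) .nil) .nil) .nil) .nil)) .nil) .nil) .nil) .nil) .nil) .nil) .nil) t4_388) t4_389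
def t4_391 : Trie := .node 347 t4_387 (.node 359 (.node 386 (.node 0 (.node 12 (.node 15 (.node 21 (.node 24 (.node 32 (.node 35 (.node 48 (.node 45 .done (.node 53 .done .nil)) .nil) .nil) .nil) .nil) .nil) .nil) .nil) .nil) t4_386) (.node 386 (.node 0 (.node 4 (.node 13 (.node 33 (.node 184 .done .nil) .nil) .nil) .nil) .nil) .nil))
def t4_392 : Trie := .node 320 (.node 332 (.node 347 (.node 356 (.node 359 (.node 383 (.node 386 (.node 10 (.node 12 (.node 13 (.node 15 (.node 24 (.node 30 (.node 32 (.node 33 (.node 35 (.node 45 (.node 48 .done .nil) .nil) .nil) .nil) .nil) .nil) .nil) .nil) .nil) .nil) .nil) .nil) .nil) .nil) .nil) .nil) .nil) .nil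
def t4_393 : Trie := .node 5 (.node 10 (.node 13 (.node 21 (.node 30 (.node 33 (.node 40 (.node 332 (.node 347 (.node 386 (.node 24 (.node 45 .done (.node 53 .done .nil)) .nil) .nil) .nil) (.node 2 (.node 14 (.node 34 (.node 208 (.node 45 .done (.node 53 .done .nil)) .nil) .nil) .nil) .nil)) .nil) .nil) .nil) .nil) .nil) .nil) .nil
def t4_394 : Trie := .node 0 (.node 4 (.node 5 (.node 13 (.node 33 (.node 184 (.node 332 (.node 386 (.node 12 (.node 21 (.node 32 (.node 172 .done .nil) .nil) .nil) .nil) .nil) (.node 2 (.node 11 (.node 31 (.node 44 (.node 48 (.node 52 (.node 144 .done .nil) .nil) .nil) .nil) .nil) .nil) .nil)) .nil) .nil) .nil) .nil) .nil) .nil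
def t4_395 : Trie := .node 395 (.node 332 t4_391 (.node 356 t4_390 (.node 0 (.node 2 (.node 4 (.node 11 (.node 13 (.node 15 (.node 31 (.node 33 (.node 35 (.node 144 (.node 153 (.node 184 (.node 189 (.node 221 (.node 224 .done .nil) .nil) .nil) .nil) .nil) .nil) .nil) .nil) .nil) .nil) .nil) .nil) .nil) .nil) .nil))) t4_392
def t4_396 : Trie := .node 12 (.node 30 (.node 31 (.node 32 (.node 129 (.node 145 (.node 161 (.node 13 (.node 33 (.node 15 (.node 35 (.node 42 (.node 47 (.node 50 (.node 54 .done .nil) .nil) .nil) .nil) .nil) (.node 25 (.node 40 (.node 45 (.node 49 .done .nil) .nil) .nil) .nil)) .nil) (.node 15 (.node 23 (.node 35 (.node 41 (.node 45 (.node 48 .done .nil) .nil) .nil) .nil) .nil) .nil)) .nil) .nil) .nil) .nil) .nil) .nil) .nil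
def t4_397 : Trie := .node 3 (.node 10 (.node 11 (.node 12 (.node 15 (.node 24 (.node 30 (.node 31 (.node 32 (.node 35 (.node 41 (.node 45 (.node 48 (.node 129 (.node 145 (.node 161 .done .nil) .nil) .nil) .nil) .nil) .nil) .nil) .nil) .nil) .nil) .nil) .nil) .nil) .nil) .nil) .nil
def t4_398 : Trie := .node 323 (.node 329 (.node 332 (.node 10 (.node 11 t4_396 .nil) .nil) .nil) (.node 10 (.node 11 (.node 12 (.node 15 (.node 23 (.node 24 (.node 30 (.node 31 (.node 32 (.node 35 (.node 41 (.node 45 (.node 48 (.node 129 (.node 134 (.node 145 (.node 161 .done .nil) .nil) .nil) .nil) .nil) .nil) .nil) .nil) .nil) .nil) .nil) .nil) .nil) .nil) .nil) .nil) .nil)) .nil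
def t4_399 : Trie := .node 395 (.node 10 (.node 30 (.node 320 (.node 323 (.node 329 (.node 332 (.node 12 (.node 13 (.node 15 (.node 24 (.node 32 (.node 33 (.node 35 (.node 40 (.node 45 .done .nil) .nil) .nil) .nil) .nil) .nil) .nil) .nil) .nil) .nil) .nil) .nil) (.node 3 (.node 4 (.node 132 .done .nil) .nil) .nil)) .nil) .nil) .nil
def t4_400 : Trie := .node 332 (.node 10 (.node 11 (.node 12 (.node 13 (.node 24 (.node 30 (.node 31 (.node 32 (.node 33 (.node 40 (.node 45 (.node 49 (.node 129 (.node 145 (.node 161 (.node 320 (.node 323 (.node 25 (.node 174 .done .nil) .nil) .nil) (.node 5 .done .nil)) .nil) .nil) .nil) .nil) .nil) .nil) .nil) .nil) .nil) .nil) .nil) .nil) .nil) .nil) .nil) .nil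
def t4_401 : Trie := .node 329 t4_400 (.node 3 (.node 4 (.node 5 (.node 10 (.node 11 (.node 12 (.node 30 (.node 31 (.node 32 (.node 129 (.node 132 (.node 145 (.node 152 (.node 161 (.node 172 .done .nil) .nil) .nil) .nil) .nil) .nil) .nil) .nil) .nil) .nil) .nil) .nil) .nil) .nil) .nil)
def t4_402 : Trie := .node 359 (.node 0 (.node 3 (.node 12 (.node 14 (.node 15 (.node 21 (.node 32 (.node 34 (.node 35 (.node 48 (.node 200 (.node 45 .done (.node 53 .done .nil)) .nil) .nil) .nil) .nil) .nil) .nil) .nil) .nil) .nil) .nil) .nil) (.node 0 (.node 3 (.node 4 (.node 40 (.node 44 (.node 52 .done .nil) .nil) .nil) .nil) .nil) .nil)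
def t4_403 : Trie := .node 383 (.node 356 (.node 359 (.node 320 t4_398 (.node 395 (.node 3 (.node 12 (.node 15 (.node 21 (.node 24 (.node 32 (.node 35 (.node 48 (.node 45 .done (.node 53 .done .nil)) .nil) .nil) .nil) .nil) .nil) .nil) .nil) .nil) t4_397)) t4_399) t4_401) .nil
def t4_404 : Trie := .node 2 (.node 3 (.node 4 (.node 10 (.node 30 (.node 132 (.node 356 (.node 395 (.node 15 (.node 21 (.node 35 (.node 224 .done .nil) .nil) .nil) .nil) .nil) (.node 5 (.node 11 (.node 31 (.node 44 (.node 48 (.node 52 (.node 152 .done .nil) .nil) .nil) .nil) .nil) .nil) .nil)) .nil) .nil) .nil) .nil) .nil) .nil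
def t4_405 : Trie := .node 383 t4_404 (.node 395 (.node 0 (.node 2 (.node 3 (.node 4 (.node 11 (.node 15 (.node 31 (.node 35 (.node 40 (.node 44 (.node 52 (.node 144 (.node 224 .done .nil) .nil) .nil) .nil) .nil) .nil) .nil) .nil) .nil) .nil) .nil) .nil) .nil) .nil)
def t4_406 : Trie := .node 386 (.node 347 t4_403 (.node 395 t4_402 (.node 0 (.node 3 (.node 4 (.node 5 (.node 11 (.node 12 (.node 31 (.node 32 (.node 40 (.node 44 (.node 52 (.node 152 (.node 172 .done .nil) .nil) .nil) .nil) .nil) .nil) .nil) .nil) .nil) .nil) .nil) .nil) .nil))) t4_405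
def t4_407 : Trie := .node 341 (.node 323 t4_395 (.node 383 (.node 329 t4_393 (.node 4 (.node 5 (.node 332 (.node 347 (.node 386 (.node 12 (.node 32 (.node 172 .done .nil) .nil) .nil) .nil) .nil) (.node 2 (.node 44 (.node 48 (.node 52 .done .nil) .nil) .nil) .nil)) .nil) .nil)) t4_394)) t4_406
def t4_408 : Trie := .node 30 (.node 34 (.node 133 (.node 185 (.node 201 (.node 12 (.node 32 (.node 15 (.node 35 (.node 41 (.node 45 (.node 50 (.node 53 .done .nil) .nil) .nil) (.node 43 (.node 48 .done .nil) .nil)) .nil) (.node 25 (.node 41 (.node 45 (.node 52 .done .nil) .nil) .nil) .nil)) .nil) (.node 15 (.node 22 (.node 35 (.node 41 (.node 44 (.node 53 .done .nil) .nil) .nil) .nil) .nil) .nil)) .nil) .nil) .nil) .nil) .nil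
def t4_409 : Trie := .node 31 (.node 35 (.node 153 (.node 189 (.node 221 (.node 10 (.node 30 (.node 12 (.node 32 (.node 41 (.node 46 (.node 49 (.node 53 .done .nil) .nil) .nil) (.node 44 (.node 55 .done .nil) .nil)) .nil) (.node 22 (.node 41 (.node 48 (.node 53 .done .nil) .nil) .nil) .nil)) .nil) (.node 12 (.node 20 (.node 32 (.node 40 (.node 49 (.node 53 .done .nil) .nil) .nil) .nil) .nil) .nil)) .nil) .nil) .nil) .nil) .nil
def t4_410 : Trie := .node 30 (.node 31 (.node 129 (.node 145 (.node 161 (.node 13 (.node 33 (.node 15 (.node 35 (.node 41 (.node 45 (.node 49 (.node 54 .done .nil) .nil) .nil) (.node 47 (.node 52 .done .nil) .nil)) .nil) (.node 25 (.node 41 (.node 45 (.node 48 .done .nil) .nil) .nil) .nil)) .nil) (.node 15 (.node 23 (.node 35 (.node 40 (.node 45 (.node 49 .done .nil) .nil) .nil) .nil) .nil) .nil)) .nil) .nil) .nil) .nil) .nil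
def t4_411 : Trie := .node 34 (.node 35 (.node 173 (.node 209 (.node 225 (.node 10 (.node 30 (.node 13 (.node 33 (.node 40 (.node 51 .done .nil) (.node 42 (.node 45 (.node 49 (.node 53 .done .nil) .nil) .nil) .nil)) .nil) (.node 23 (.node 45 (.node 49 (.node 52 .done .nil) .nil) .nil) .nil)) .nil) (.node 13 (.node 20 (.node 33 (.node 44 (.node 49 (.node 53 .done .nil) .nil) .nil) .nil) .nil) .nil)) .nil) .nil) .nil) .nil) .nil
def t4_412 : Trie := .node 10 (.node 11 (.node 12 (.node 13 (.node 14 (.node 15 (.node 30 (.node 31 (.node 32 (.node 33 (.node 34 (.node 35 (.node 129 (.node 133 (.node 145 (.node 153 (.node 161 (.node 173 (.node 185 (.node 189 (.node 201 (.node 209 (.node 221 (.node 225 .done .nil) .nil) .nil) .nil) .nil) .nil) .nil) .nil) .nil) .nil) .nil) .nil) .nil) .nil) .nil) .nil) .nil) .nil) .nil) .nil) .nil) .nil) .nil) .nil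
def t4_413 : Trie := .node 10 (.node 13 (.node 30 (.node 33 (.node 41 (.node 48 (.node 73 (.node 89 (.node 386 (.node 12 (.node 32 (.node 45 (.node 52 (.node 66 (.node 92 .done .nil) .nil) .nil) .nil) .nil) .nil) (.node 395 (.node 15 (.node 35 (.node 44 (.node 53 (.node 76 (.node 86 .done .nil) .nil) .nil) .nil) .nil) .nil) .nil)) .nil) .nil) .nil) .nil) .nil) .nil) .nil) .nil
def t4_414 : Trie := .node 383 (.node 386 (.node 395 (.node 10 (.node 12 (.node 15 (.node 30 (.node 32 (.node 35 (.node 40 (.node 45 (.node 49 (.node 52 (.node 73 (.node 78 (.node 84 (.node 89 .done .nil) .nil) .nil) .nil) .nil) .nil) .nil) .nil) .nil) .nil) .nil) .nil) .nil) .nil) .nil) .nil) .nil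
def t4_415 : Trie := .node 341 (.node 383 t4_413 (.node 386 (.node 395 (.node 12 (.node 13 (.node 15 (.node 32 (.node 33 (.node 35 (.node 40 (.node 44 (.node 49 (.node 53 (.node 64 (.node 73 (.node 89 (.node 94 .done .nil) .nil) .nil) .nil) .nil) .nil) .nil) .nil) .nil) .nil) .nil) .nil) .nil) .nil) .nil) .nil)) t4_414
def t4_416 : Trie := .node 350 (.node 341 (.node 13 (.node 33 (.node 383 (.node 10 (.node 14 t4_408 .nil) .nil) (.node 395 (.node 11 (.node 15 t4_409 .nil) .nil) .nil)) .nil) .nil) (.node 386 (.node 12 (.node 32 (.node 383 (.node 10 (.node 11 t4_410 .nil) .nil) (.node 395 (.node 14 (.node 15 t4_411 .nil) .nil) .nil)) .nil) .nil) t4_412)) t4_415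
def t4_417 : Trie := .node 359 (.node 383 (.node 386 (.node 10 (.node 11 (.node 12 (.node 13 (.node 15 (.node 30 (.node 31 (.node 32 (.node 33 (.node 35 (.node 52 (.node 41 .done (.node 49 .done .nil)) .nil) .nil) .nil) .nil) .nil) .nil) .nil) .nil) .nil) .nil) .nil) .nil) .nil) .nil
def t4_418 : Trie := .node 341 (.node 347 (.node 359 (.node 383 (.node 10 (.node 12 (.node 13 (.node 14 (.node 15 (.node 30 (.node 32 (.node 33 (.node 34 (.node 35 (.node 48 (.node 45 .done (.node 53 .done .nil)) .nil) .nil) .nil) .nil) .nil) .nil) .nil) .nil) .nil) .nil) .nil) .nil) .nil) .nil) .nil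
def t4_419 : Trie := .node 329 (.node 347 (.node 359 t4_416 (.node 386 (.node 395 (.node 10 (.node 12 (.node 13 (.node 14 (.node 15 (.node 30 (.node 32 (.node 33 (.node 34 (.node 35 (.node 40 (.node 45 .done (.node 53 .done .nil)) .nil) .nil) .nil) .nil) .nil) .nil) .nil) .nil) .nil) .nil) .nil) .nil) .nil)) t4_417) t4_418
def t4_420 : Trie := .node 0 (.node 12 (.node 13 (.node 15 (.node 32 (.node 33 (.node 35 (.node 49 (.node 53 (.node 341 (.node 11 (.node 24 (.node 31 (.node 40 (.node 153 (.node 189 (.node 221 .done .nil) .nil) .nil) .nil) .nil) .nil) .nil) (.node 386 (.node 14 (.node 21 (.node 34 (.node 44 (.node 173 (.node 209 (.node 225 .done .nil) .nil) .nil) .nil) .nil) .nil) .nil) .nil)) .nil) .nil) .nil) .nil) .nil) .nil) .nil) .nil) .nil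
def t4_421 : Trie := .node 359 (.node 395 t4_420 (.node 0 (.node 11 (.node 12 (.node 13 (.node 14 (.node 15 (.node 31 (.node 32 (.node 33 (.node 34 (.node 35 (.node 40 (.node 44 (.node 49 (.node 53 (.node 153 (.node 173 (.node 189 (.node 209 (.node 221 (.node 225 .done .nil) .nil) .nil) .nil) .nil) .nil) .nil) .nil) .nil) .nil) .nil) .nil) .nil) .nil) .nil) .nil) .nil) .nil) .nil) .nil) .nil)) .nil
def t4_422 : Trie := .node 320 t4_419 (.node 347 (.node 4 (.node 44 (.node 52 (.node 341 (.node 383 (.node 10 (.node 13 (.node 30 (.node 33 .done .nil) .nil) .nil) .nil) .nil) (.node 386 (.node 395 (.node 12 (.node 15 (.node 32 (.node 35 .done .nil) .nil) .nil) .nil) .nil) .nil)) .nil) .nil) .nil) .nil)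
def t4_423 : Trie := .node 350 (.node 383 (.node 5 (.node 10 (.node 12 (.node 13 (.node 14 (.node 21 (.node 30 (.node 32 (.node 33 (.node 34 (.node 41 (.node 45 (.node 52 (.node 133 (.node 185 (.node 201 .done .nil) .nil) .nil) .nil) .nil) .nil) .nil) .nil) .nil) .nil) .nil) .nil) .nil) .nil) .nil) .nil) .nil) .nil
def t4_424 : Trie := .node 350 (.node 5 (.node 10 (.node 11 (.node 12 (.node 13 (.node 30 (.node 31 (.node 32 (.node 33 (.node 41 (.node 45 (.node 48 (.node 129 (.node 145 (.node 161 (.node 383 (.node 386 (.node 24 .done .nil) .nil) (.node 14 (.node 34 (.node 52 (.node 133 (.node 185 (.node 201 .done .nil) .nil) .nil) .nil) .nil) .nil)) .nil) .nil) .nil) .nil) .nil) .nil) .nil) .nil) .nil) .nil) .nil) .nil) .nil) .nil) .nil) .nil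
def t4_425 : Trie := .node 359 (.node 1 (.node 40 (.node 48 (.node 341 (.node 395 (.node 13 (.node 15 (.node 33 (.node 35 .done .nil) .nil) .nil) .nil) .nil) (.node 383 (.node 386 (.node 10 (.node 12 (.node 30 (.node 32 .done .nil) .nil) .nil) .nil) .nil) .nil)) .nil) .nil) .nil) .nil
def t4_426 : Trie := .node 341 (.node 320 (.node 356 (.node 359 (.node 395 (.node 10 (.node 11 (.node 12 (.node 13 (.node 15 (.node 30 (.node 31 (.node 32 (.node 33 (.node 35 (.node 44 (.node 41 .done (.node 49 .done .nil)) .nil) .nil) .nil) .nil) .nil) .nil) .nil) .nil) .nil) .nil) .nil) .nil) .nil) .nil) t4_423) t4_424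
def t4_427 : Trie := .node 341 (.node 12 (.node 13 (.node 32 (.node 33 (.node 347 (.node 383 (.node 4 (.node 5 (.node 10 (.node 21 (.node 30 (.node 44 (.node 52 (.node 172 .done .nil) .nil) .nil) .nil) .nil) .nil) .nil) .nil) .nil) (.node 359 (.node 395 (.node 0 (.node 1 (.node 15 (.node 24 (.node 35 (.node 40 (.node 48 (.node 160 .done .nil) .nil) .nil) .nil) .nil) .nil) .nil) .nil) .nil) .nil)) .nil) .nil) .nil) .nil) .nil
def t4_428 : Trie := .node 329 (.node 347 t4_426 (.node 356 t4_425 (.node 383 (.node 386 (.node 1 (.node 5 (.node 10 (.node 12 (.node 13 (.node 24 (.node 30 (.node 32 (.node 33 (.node 40 (.node 48 (.node 188 .done .nil) .nil) .nil) .nil) .nil) .nil) .nil) .nil) .nil) .nil) .nil) .nil) .nil) .nil))) t4_427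
def t4_429 : Trie := .node 2 (.node 13 (.node 33 (.node 41 (.node 53 (.node 383 (.node 14 (.node 21 (.node 34 (.node 44 (.node 133 (.node 185 (.node 201 .done .nil) .nil) .nil) .nil) .nil) .nil) .nil) (.node 395 (.node 11 (.node 24 (.node 31 (.node 48 (.node 153 (.node 189 (.node 221 .done .nil) .nil) .nil) .nil) .nil) .nil) .nil) .nil)) .nil) .nil) .nil) .nil) .nil
def t4_430 : Trie := .node 3 (.node 12 (.node 32 (.node 45 (.node 49 (.node 383 (.node 11 (.node 24 (.node 31 (.node 40 (.node 129 (.node 145 (.node 161 .done .nil) .nil) .nil) .nil) .nil) .nil) .nil) (.node 395 (.node 14 (.node 21 (.node 34 (.node 52 (.node 173 (.node 209 (.node 225 .done .nil) .nil) .nil) .nil) .nil) .nil) .nil) .nil)) .nil) .nil) .nil) .nil) .nil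
def t4_431 : Trie := .node 347 (.node 359 (.node 386 t4_430 (.node 3 (.node 11 (.node 12 (.node 14 (.node 31 (.node 32 (.node 34 (.node 40 (.node 45 (.node 49 (.node 52 (.node 129 (.node 145 (.node 161 (.node 173 (.node 209 (.node 225 .done .nil) .nil) .nil) .nil) .nil) .nil) .nil) .nil) .nil) .nil) .nil) .nil) .nil) .nil) .nil) .nil) .nil)) .nil) .nil
def t4_432 : Trie := .node 386 (.node 3 (.node 12 (.node 32 (.node 347 (.node 395 (.node 4 (.node 21 (.node 44 (.node 52 (.node 132 .done .nil) .nil) .nil) .nil) .nil) .nil) (.node 359 (.node 383 (.node 1 (.node 24 (.node 40 (.node 48 (.node 220 .done .nil) .nil) .nil) .nil) .nil) .nil) .nil)) .nil) .nil) .nil) .nil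
def t4_433 : Trie := .node 10 (.node 15 (.node 30 (.node 35 (.node 323 (.node 329 (.node 341 t4_429 (.node 2 (.node 11 (.node 13 (.node 14 (.node 31 (.node 33 (.node 34 (.node 41 (.node 44 (.node 48 (.node 53 (.node 133 (.node 153 (.node 185 (.node 189 (.node 201 (.node 221 .done .nil) .nil) .nil) .nil) .nil) .nil) .nil) .nil) .nil) .nil) .nil) .nil) .nil) .nil) .nil) .nil) .nil)) .nil) t4_431) .nil) .nil) .nil) .nil
def t4_434 : Trie := .node 356 (.node 350 t4_433 (.node 10 (.node 15 (.node 30 (.node 35 (.node 341 (.node 2 (.node 13 (.node 33 (.node 323 (.node 383 (.node 4 (.node 21 (.node 44 (.node 52 (.node 224 .done .nil) .nil) .nil) .nil) .nil) .nil) (.node 329 (.node 395 (.node 1 (.node 24 (.node 40 (.node 48 (.node 128 .done .nil) .nil) .nil) .nil) .nil) .nil) .nil)) .nil) .nil) .nil) t4_432) .nil) .nil) .nil) .nil)) .nil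
def t4_435 : Trie := .node 332 (.node 323 (.node 356 t4_422 (.node 350 t4_421 (.node 386 (.node 395 (.node 0 (.node 4 (.node 12 (.node 13 (.node 15 (.node 21 (.node 32 (.node 33 (.node 35 (.node 44 (.node 52 (.node 184 .done .nil) .nil) .nil) .nil) .nil) .nil) .nil) .nil) .nil) .nil) .nil) .nil) .nil) .nil))) t4_428) t4_434
def t4_436 : Trie := .node 377 (.node 350 (.node 329 t4_376 (.node 359 (.node 386 (.node 395 (.node 323 t4_361 (.node 347 (.node 356 (.node 383 (.node 3 (.node 15 t4_359 (.node 10 (.node 12 (.node 24 (.node 25 (.node 30 (.node 32 .done .nil) .nil) .nil) .nil) .nil) .nil)) .nil) .nil) .nil) t4_360)) t4_364) t4_368) t4_375)) t4_407) t4_435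
def trie4 : Trie := .node 368 (.node 350 (.node 377 t4_261 (.node 323 t4_260 (.node 347 (.node 383 (.node 386 (.node 329 t4_245 (.node 356 (.node 359 (.node 395 (.node 3 (.node 10 t4_243 (.node 12 (.node 15 (.node 20 (.node 21 (.node 32 (.node 35 .done .nil) .nil) .nil) .nil) .nil) .nil)) .nil) .nil) .nil) t4_244)) t4_248) t4_252) t4_259))) t4_326) t4_436

def tabL1 : List (ℕ × ℕ) :=
  [(320, 0x1)]

def tabL2 : List (ℕ × ℕ) :=
  [(0, 0x2),
   (320, 0x1),
   (323, 0x3)]

def tabL3 : List (ℕ × ℕ) :=
  [(0, 0x98600),
   (1, 0x11e000),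
   (2, 0x54440),
   (10, 0x165830),
   (11, 0xe05b0),
   (12, 0x1a9980),
   (20, 0x187),
   (21, 0x1807),
   (22, 0x37),
   (30, 0x165830),
   (31, 0xe05b0),
   (32, 0x1a9980),
   (40, 0x190030),
   (41, 0x883),
   (42, 0x4),
   (44, 0xd1800),
   (45, 0x115),
   (46, 0x2),
   (48, 0x150180),
   (49, 0x1026),
   (50, 0x1),
   (128, 0x4000),
   (144, 0x400),
   (160, 0x8000),
   (320, 0x219b8),
   (323, 0xe07ff),
   (329, 0x16787f),
   (332, 0x1abb8f),
   (341, 0x1ffff)]

def tabL4 : List (ℕ × ℕ) :=
  [(0, 0x200f00000004f000c04078000000740fdc11f803f800000000000000000000000000186037800001fbff8fe0000000000000000000000000000001e03f000000001ff8fe0000000000000000000000493e7f801ff800000000000000000000000000000fc00018011ff800000000000000000ff800000000000004f803ffe00000000000000000000000000000000000000000000000000000000000000000000000000000000000000000000000000000000000),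
   (1, 0xa02e00000000000000000000000000000000000000000000000000000000000000000015500c00000158000000c0000000180000000000000000000000000000000000000000000000000000000000000000000000000000000000000000000000000000000000000000000000000000000000000000000000000000000000000000000000000000000000000000000000000000000000000000000000000000000000000000000000000000000000000000000000),
   (2, 0x31c000000000070000ac6980000000b7f00000000007c00006006008fe0000000000001f8000000001933c0000d3f31fe00000000000000000000002dfc0000000001f000018018023f800000000000045cc000000071f07fc000000000000000000000039ff801fffe007ffff800000000000000000000000000000000000000000000000000000000000000000000000000000000000000000000000000000000000000000000000000000000000000000000000),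
   (3, 0xce000000000007f970000000000000ebf028f83ff000000000000000000000000000001fffff1c38fe00000000000000000000000000000000000003afc0b047ffc0000000000000000000000000000061f3e7ffe004fcf803ff83c00fffff0000000000000000000000000000000000000000000000000000000000000000000000000000000000000000000000000000000000000000000000000000000000000000000000000000000000000000000000000000),
   (4, 0x501008c0000007c900f0604400000000000000000000000000000000000000000000000000000000000000000000000000000000000000000000000000000000000000000000000000000000000000000000000000000000000000000000000000000000000000000000000000000000000000000000000000000000000000000000000000000000000000000000000000000000000000000000000000000000000000000000000000000000000000000000000000),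
   (5, 0x19c0000000028c00ff0000000000d80fc000000007fe3f8000000000000000000000067fc0000001e000000080fc00101003ff0000000000000003503f63e0e00fe000000000000000000000000000500398000007e0000300023ff0000000000000003e3c7fe0000000000000000000001ff0000000000000000707fc000000000000003f8000000000000000000000000000000000000000000000000000000000000000000000000000000000000000000000),
   (10, 0xffddf07fbbfbfb0fcf0f9f824ecfff8970206e047804e3ec3ff4fff07fd81fe001ffffe78dc026ff0e04003000fc7cf0ffe2037ff3ffcfff0007fffe15c0cc7f6ffb0000001581fffe3ffff48007ffffb600000000031b00ffdffc3c71fc00df3d0807ffc00078e0fe000000001fa0fc03fffff0007f8000fffffff8000000000000000000001f81fdfde0063f000ffffffe00000000000000000000000003f000ffffffe000000000000000000000000000000000),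
   (11, 0xb81b50c087f868e4f804c2101c000ff0c3f9f00000633c01f80000f00e000000000000a2fc0000000833c0000000000000000000000000000000003c0002040e0001f00000000000000000000000000410f80601804e00603c0020000000000c000000009c0601e010000000018000000000000000000000000000300030000c000000000000060000000000000000000000000000000000000000000000000000000000000000000000000000000000000000000),
   (12, 0xce3dffbfdffdb8beff50903bf973ff4809f31fdd8df82fe3f9ff8e90001ff80fffd201e06ee7fff7fe6c00f0ff2000001de60387fc1ff3ff83f807fd2027ff98b637e0bf8fe7fe3a4000607fc7fbf807ba01f878e3f8000000000007ff1ffe3f03fbfbc0000000000000000000000000000000000000000000000003c0fc07ffdf3d0807ffc06f9e8403fff83ffff000fffe0fc003ffffff80000000000000000000000001fe0003ffffffe0000000000000000000),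
   (13, 0x31fbff7f7dbff80683cfcfe3cffcff1406d700c0063b7c1ffd7f8c0fb1fffd31fefe1e000000e14301e7dcf7009fd38ffff7fcb8ffe03cfffd83f80c501b41b80018ebf07ff5fe303ec7f4ffbfff48781e0000000000000000000000000000000000000036000fff8e03ff8fff007ffdfde000000000000000000000077f0bff10fdfc783fc0087efe3c1fe000000000000000000000000063f000ffffffe3ffff000ffffe1e7ffc001fffe0000000000000000000),
   (14, 0xd4146330f807830000c0000000000f0000810380007c00000000000000000000000001e6037c7c0018000000098f0001b8000000000000000000003fc30fe7c000018cf007e00003c0380000000000041326780000703c0000000300c0000c000000000383c00000018060000600000000000000000000000000000c600000000c0000000006000000000000000000000000000000000000000000000000000000000000000000000000000000000000000000000),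
   (15, 0xffe23fbfefdfdd30fd00fe39f9ff3f26b03fe62bfec0000005607fff8ffd3ffe1e01fff9801fe7cf7007ef7fff3f00f706e7fc0060003f3f7ffd8030aac09c0311e0158fb0ffd3ffc1ff7fe0787807ffaefc000ffe3800c77c2ffc0000000010fdfc783fc0000000001e38fe0067be863c1fe00fff879fff0007fff8000000003f03fbfbc0000000000000000000000000018ffffc003fff83ffff000fffe000000000000000000000000000000000000000000000),
   (20, 0x404000000000001810000028003000204030c124001000f8003e0106000000002005900c00000401f00830c00047c800c000000ce1800000a0031809004800701e03e00010000014180000000c18077e004e0ff002000000e03fe00027420003038000700e0077fff004e0210000000078002100000000307bc001ffffff7ffffff001e02020018000030000001f1fffffffffffc7fffffffffe000030000001fe7ffffffffffe0003fffffffffffffff),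
   (21, 0x54504a0000000130304f139a80000000f3c060fbfdf9cc1fe00170207f004040000000008033fe3c7024c3c0e73ffff0fc0783b89cf80000022a18003fffd1a311c8e0b88e102584a238090a028001803cf0781fe7fb1bf9fc3f8000000300000e340000f6039fe1fe00000011018118020c04408802a82440a18808fffc0fe0230c000400c700071a00007fc00000000001890044044211fc000000000002401101103c000aa05130062020000000000000000000),
   (22, 0x240000000060000800000060c6022420000100000102701c003f000006000011000080000030c000c0ce002007c6003e00000700628000018006349080000400000411c070f8000040280003207001c00e0f803f7fdf8000000003c040400060077e0001df800007ffffbfffffffffff9fffffffffff80703e80000027420000700013a10000600000003000180000c0000007f8ffffffffffc7ffffffffffe0008800000000fffc000ffffffffffff),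
   (23, 0x24000000c0010000000000009000600090483e0000071f0480000400101800000000284000023089f202c70000000440007c000026401c000240c000024140f800001c7c120020040000500000c18001dfb0307bc007c3bf00000fffff7ffffc9fbf00000fc00000007800202001ffffffe7ffffffffffbf880040027000005003813800002801fc7fffffffffffe3fffffffff80000300000000000000300001e000004200000fffffff0003ffffffff),
   (24, 0xa2a8810000000006f8039fbbfe00000ffff468c472382e23840a61488e028280a000a0018fc0183c0e63ffc700270ff700041f879c01c000540002c003cf0183eff7e7307f8009c101fc0201000000003ccd980000001807ffff81cff3fc2223300004180600001800e7f9ff800646020000780c000551808c06022301ffefe0003234001838119800020c1e210110111c09f0000000000062101101180c3c00000000000015460204980880000000000000000000),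
   (25, 0x2020020200000200000001400018d4012001c0780f80004000400181000000002018008800108000000308890000009fe7c000800256400500001808100a30490008003e00000f860400000100677000001b0080d001c00efffe270000050001c3801f7e000701ff000138028000000078000011000000f803edff003c040400007ffffbfffffff8fffffffffe00000000c0006000000030001f8ffffffffffff9ffffffffffeffffffffffc000fffff),
   (30, 0xffddf07fbbfbfb0fcf0f9f824ecfff8970206e047804e3ec3ff4fff07fd81fe001ffffe78dc026ff0e04003000fc7cf0ffe2037ff3ffcfff0007fffe15c0cc7f6ffb0000001581fffe3ffff48007ffffb600000000031b00ffdffc3c71fc00df3d0807ffc00078e0fe000000001fa0fc03fffff0007f8000fffffff8000000000000000000001f81fdfde0063f000ffffffe00000000000000000000000003f000ffffffe000000000000000000000000000000000),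
   (31, 0xb81b50c087f868e4f804c2101c000ff0c3f9f00000633c01f80000f00e000000000000a2fc0000000833c0000000000000000000000000000000003c0002040e0001f00000000000000000000000000410f80601804e00603c0020000000000c000000009c0601e010000000018000000000000000000000000000300030000c000000000000060000000000000000000000000000000000000000000000000000000000000000000000000000000000000000000),
   (32, 0xce3dffbfdffdb8beff50903bf973ff4809f31fdd8df82fe3f9ff8e90001ff80fffd201e06ee7fff7fe6c00f0ff2000001de60387fc1ff3ff83f807fd2027ff98b637e0bf8fe7fe3a4000607fc7fbf807ba01f878e3f8000000000007ff1ffe3f03fbfbc0000000000000000000000000000000000000000000000003c0fc07ffdf3d0807ffc06f9e8403fff83ffff000fffe0fc003ffffff80000000000000000000000001fe0003ffffffe0000000000000000000),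
   (33, 0x31fbff7f7dbff80683cfcfe3cffcff1406d700c0063b7c1ffd7f8c0fb1fffd31fefe1e000000e14301e7dcf7009fd38ffff7fcb8ffe03cfffd83f80c501b41b80018ebf07ff5fe303ec7f4ffbfff48781e0000000000000000000000000000000000000036000fff8e03ff8fff007ffdfde000000000000000000000077f0bff10fdfc783fc0087efe3c1fe000000000000000000000000063f000ffffffe3ffff000ffffe1e7ffc001fffe0000000000000000000),
   (34, 0xd4146330f807830000c0000000000f0000810380007c00000000000000000000000001e6037c7c0018000000098f0001b8000000000000000000003fc30fe7c000018cf007e00003c0380000000000041326780000703c0000000300c0000c000000000383c00000018060000600000000000000000000000000000c600000000c0000000006000000000000000000000000000000000000000000000000000000000000000000000000000000000000000000000),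
   (35, 0xffe23fbfefdfdd30fd00fe39f9ff3f26b03fe62bfec0000005607fff8ffd3ffe1e01fff9801fe7cf7007ef7fff3f00f706e7fc0060003f3f7ffd8030aac09c0311e0158fb0ffd3ffc1ff7fe0787807ffaefc000ffe3800c77c2ffc0000000010fdfc783fc0000000001e38fe0067be863c1fe00fff879fff0007fff8000000003f03fbfbc0000000000000000000000000018ffffc003fff83ffff000fffe000000000000000000000000000000000000000000000),
   (40, 0xaa2e0503c0c404c6820f0f820eb3006289389132010000003800060001cc000000c0061c72311800c11023089f004000600000180300000002007802455981c448c08ac047007fcfc020020101800500280000080200000003d8000001040000000000000000701f00020800001e5e0012000000000080000000000000030a0000000000000017f8020080000000000000000000000000000000000000000247c87c80000008000000000000000000000000000000),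
   (41, 0x1c1d004302ae8004c0000210100000000012240804000c0c033900302000ce7080040800400001400014040003900811f06a101800a155420000400000004000020000300a0801000000000000800008044882328c9611a90004c199000687c57819ce010d98000006003320f000148000480f6219c72c803f81e011b1000137857c598e01b0001480000aecb9b098788c0b6c1fc1fc6306cb9b09871c4000007007000066581fe8e0078003fe76003ff80703c00),
   (42, 0x100000001001000804ccf00000000090c80450c0000298430130008103e190000020043100000302000150080200c2020e0e22300ab801c008200012301211418000000004808081a20908200801014451088210c01b0022029060020564207c3220300308110447001a080cc0927081e620d07700001f8208c006c0520024607e4080680c065511420f030003f49260260000f91420f030003e1b830830003f982380111e007e9c0081f9c007680001f),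
   (43, 0x10000000000000000000000000000000000000400000000010000200002000000000000000000000000000c00000400000080150002000000000000200000000000000800000244022040000000000000000200200004000000100000108000004004000000880000001200248000000003080022000002000800000102008000000010118000044000063000018018018c00004400006300000000000cc00004000600880060010806000090003e0),
   (44, 0x51503ec0640146c000a00000000000c159507110411c8c02460110204607e7e0600060180c5006b00794370c0020830c1d007f03101e3c0040000780ca180c1800301ec04019400001003000000300018c00600002230300c00000380e0000c00ef02400000000008202008000000000000000000004000000000000c0000600000000000000600778120000217c87c800000000000000000000000000000000000000000010000000000000000000000000000000),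
   (45, 0xe01c01193682816de0582889215540000020000040000000000000501500800040002000000c10420000040081800800200000881000000004040000000000000404025214000d9cc810033ac400420009103554000a068015454c000001e2a000000112428352000a8e454342af1e166701381c2a8ec703e1cc0820484601cbcab82ce442d14800000091e000070070001536ac2a1e808b5e07f07fa006cd9b09873121983b1c00fe001e7ce00ffad827a00c204),
   (46, 0x800000000000006823002080008910a04005000821021800000a9024880000800841080008310304040200e400044061c3cf1500807c00000081260301021080b00010444c001020f84600401402211050102422a9028060e0103102c80a421002401445112303010a028903e8381d51110f814325400130806300045510bb12081880cc04c01e8308302146a4903c0c01f04a1c80a8007c11220f0304446664423ec001f80820f300407c81f31060),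
   (47, 0x10000001000000000008000000000080000008000000000000000508091000000000020000000000000000000000002000000028810000000000000000000000000020000000400010000800000000800000000801000100820000000110048000008000000000000000100088040000000280400000180008010001000001004000000120022000000000061800050000140600030050048180044000088180000c0100020200110c00120104000583),
   (48, 0xa1af8030302212307ca09039f10cc091460306000c07b01006500000400014000600007651020000319010007800bf088000006003e00000007a00018aa66203810474300918084101181f9f86000280140d80701c000007400000044000002ff004010000000800800000880000000000000000000200000000000300c00000c032f0240000000000000000000000000000091f21f200000000000000000000000000000002000000000000000000000000000000),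
   (49, 0xe002708c74c800602000c0000800000000000002008094848005a762094e000400f10000800e7a402068042000600800001420090142aa1080001000000000800100000000000001406402000010010002025000000c8b002a2694006a9c40002a000028342c64a68155000c85579c3a92209107d51607f964321006801a4952a00000001863e2bc167301b74e07e30502380001c01c0005b4e07e3001a95b07f07f0cc0ab1cd20f86c840b01df98d01c0ff50009),
   (50, 0x80001000202007339000000408980c04084202c000111000b0e1830098000010802400001108700400020e014106001445c03811834004100802281810012002104086000003080394000400a060140300824151480905218100d028249448111211400a02303020030465d90c382a88e00683cd0901028492a100d03500a410010328843e48a03008f07c006e0c20c314224a03010ff800a4c80a809309548321d03134244da20232ea330084c80),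
   (51, 0x8000000000000000000000000000000000000000000400000800000040040000000041000000200000000000000000000000020000e008000000000400000020000000000000000900c42000000001008000001000800000042000000100b00000000000000800000002001000200400001000018006000010004000000088300001000000840000000140a0140000000006300000000c0061400300500601200000c2000018002400440140c0028122),
   (52, 0x5c1148cc921026c000a0000000000032a6a880e230233011c01ff3f0080040418001800673a0f9008803c803001f2c030207e0440007c3c03c0000430524e244c804000000e00028000700500018001830300008800000c000280004010000000000000030000880001c07000061817a008000000001000000000000074000002fcc040100000000000000000000000000000000000000000217c87c80000000000000000004000000000000000000000000000000),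
   (53, 0x1c007226506c820200a1d336daaa200000004000800018030200800000000000080004000000684000000405000008059000000820000000010200000000912040200060500ce40181053800100e2040008560015921205080071a328d290b8abc7528401b3001554c00001620054000001462b166267c363800078b002c91a0002a00012305c55e3a942159e07f07f0619ecb41f4c01856000070070001b2e07e30c2055499f0d6913020cf038077e61f58a0050),
   (54, 0x800000100000000015c001040400940904446000000001402020c2038210000400043040005240520010400c01c0270a03c3a418182a800000000223101113000011604c0002c386018620080090440480800b0018c489229060504008c7b04488120282180608c062080c148b0c4619c101888787e00082824c5103103028948030200463d8a61c80b00f8001240c083fe0001e83083052304903010f28b0ab040a290ec950207c7c8810e0834a300),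
   (55, 0x100000000000000400100000000000040000000000000200000024006408000000000000000100000000000200000000000000000051400000000000000000001000000002000000200010000000000200000040400000000000000102000400000000200401010000001003400008000080014008080000400200000008044800000101000400030048001a400000030006a000000000a006000000c0140a0002000060000610800300090024008aa),
   (64, 0x400000000000000000000000000000000000000000000000000400000000000000000000000000000000000000000000000000000000000000000000000000000000400000000000000000000000000000000000000000000000000000000000000000000000000000000000000000000000000000000000000000000000000000000000000000000000000000000000000000000000000000000000000000000000000000000000000000000000000000),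
   (65, 0x100000000000000000000040010000000000000000000000000000000000000800000000002000000010000000000000000000000000000100000000000001000000000000000000000000000000000000000002800000000000000000000000005000000000000000000000000000000000000000000000000000000000000018000000000000000000000000000000000001800000000000000000000000000000000000000000),
   (66, 0x1000000000000000002200000000000000000000000000000000000000000000000000000000000000000000000000000204280000000000000000000000000000000000000000000000000000000000000000000000440000000028084000000000000000000000000409400000008000886040021800000000000000000000000000120000000000208444000002008000800000802000200000020844400000000000000000000e0000000000000000),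
   (67, 0x5440000000000000000000000000000000400000000000000000000000000000000000000000000000544000000000000000000000000000000080000000000000000000000000000000000001800000000101500000100000000000000000002a080000083312330040831400480000000000424400000001001000000000a432980004004a01a2c00280148068b00404094329800020000002401205141e0c1150454d2500000),
   (72, 0x1800000000000000030000000000000000000000000000000100084100000201000000000000000000000000000000000000000000000000000000000000000000000000000000000000000000000000000000000000000000000000000000000000000000000000000000000000000000000000000000000000000000000000000000000000000000),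
   (73, 0xf00000000000000000000000000000000000000000100200000404000000000000000000000000000000000000000000000000000000000000000000000000000000000000000000000000000000000000000000000000000000002c10000000000000000000000000045800000000000000000000000000000000000012c00000001608000000000000000000000001201200000000000000000000480480000000000000000000000000000000000000),
   (74, 0x3fc00000000000000000004000100000000000000000000000000000000000000000000000000000000000000000000000000000000000000000000000000000000000000000000000000000004800000040002280000000000000000000000802014000000010211060480240000000000011282000000000001140000000008008000000000618618000000800800000000486286000022181208800000001c700001c00700000),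
   (75, 0x60000006267500000000000000000000000000000000000000000000000000000000000000000000240000000c10050000000000000000000000420120800000018214c8020310181100000000061005000000000802800000001e2360b600e206d8c18c000001e23613618281b3305300000cc0080c026044011a083812a106800c09),
   (76, 0x200000000000000000000000000000000000000000000000000004000000000000000000000000000000000000000000000000000000000000000000000000000000000000001000000000000000000000000000000000000000000000000000000000000000000000000000000000000000000000000000000000000000000000000000000000000000000000000000000000000000000000000000000000000000000000000000000000000000000000),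
   (77, 0x4000000000000000000000000102000000000000000000000000000000000000000000000400001000800000000000000000000000000000000410000000000000000000000000000000000000000000000000000000000000000000000000000000000000000000000000000000000000000000280000000000140000000000006000000000a000000000000000000000000000000000000000000000000000000000000000000),
   (78, 0x800000000000000000088000000000000000000000000000000000000000000000000000000000001000000000000000000214000000000000000000000000000000000000000000000000000000000000000000000000000000040024000000000000000000000000000000000000000000000000000000000000142810400000001404200000000014408800000010211100000040020200000080200020000881810008600000000098000000000000),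
   (79, 0x115000000000000000000000000000000400000000000000000000000000000000000000000000000022810000000000000000000000000000000000000010000000000000000000000000000000000000d8200200000000000000000000002803082000000000000000092008618000000009102900000100080a8000010014e0013200020244caa0200000ac308062100128068b014013201020c3008044485323689821600000),
   (84, 0x800000000000000000000000000000000000000000000200000000000000000000000000000000000000000000000000000000000000000000000000000000000000000800000000000000000000000000000000000000000000000000000000000000000000000000000000000000000000000000000000000000000000000000000000000000000000000000000000000000000000000000000000000000000000000000000000000000000000000000),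
   (85, 0x20000000000000000000000001000000000400000000000000000000000001000000000000000000201000000000000000000000000000000004000000200000000000000000000000000000000000000000000000000000000000000000000000000000000000000000000000000000000002800000000001400000000000000000000000000000000000001800000000000006000000000000000000000000000000000000000),
   (86, 0x20000000000000000011000000000000000000000000000000000000000000000000000000000000000000000000400001000280000000000000000000000000000000000000000000000000000000000000000000000000000000000000000000000000000000000203000000000000000000000000000000000012040a800000000209400000000802000200000080080800000002084440000001441080000441810c08000000000000026000000000),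
   (87, 0x28820000000000000000000010000000000000000000000000000000000000000000000000000000001450000000000000000000000000000040000000000000000000000000000000000000000000000050042440000000000000000000006c004100000000000000040200501450000000091015000002000814800000801480693080100264c201840400a432980100012e000b2000532018a081001200454e461d0c64200000),
   (88, 0x40011020000040400000000000000000000000000000000000006000000600000000000000000000000000000000000000000000000000000000000000000000000000000000000000000000000000000000000000000000000000000000000000000000000000000000000000000000000000000000000000000000000000000000000000000000000000000000000000000000000000000000000000),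
   (89, 0xf0000000000000000000000000000000000000000000000000000000000000000000000000000000000000000000000000000000000000000000000000000000000040080000101000000000000000000000000000000000000000000ac00000000000000000000000008160000000000000000000000000000000002c08000000000005600000000004804800000000000000000000480480000000000000000000000000000000000000000000000000),
   (90, 0x3fc00000000000000000000000000100004000000000000000000000000000000000000050000000102804000000000000000000000020015000000002010220644022000000000000180006800000001402000000000048630600000020020000000004862860000008008000001101910009000004c000072c0070000000),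
   (91, 0x297600000000000000000000000000000000000000000000000000000000001800000000000000030000000000000000000000000000000000000000000000000000000000000000000000000024000000841021000000000000000000000006022080000000a054c8001301184040000000061021000000000810800000001e3304b0000006d0d88da98001e33053000001b2361366024cc0008c406101022610c8416089828240),
   (92, 0x100000000000000000000000000000000000000000100000000000000000000000000000000000000000000000000000000000000000000000000000000000000000000000000010000000000000000000000000000000000000000000000000000000000000000000000000000000000000000000000000000000000000000000000000000000000000000000000000000000000000000000000000000000000000000000000000000000000000000000),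
   (93, 0x8000000000000000000040000000000040000000000000000000000000000000000000000000020400800000000000000000000000000100080000000000000000000000000000000000000000000000002800000000000000000000000000000140000000000000000000000000000000000000000000000000000000000000000000000000014000000000006000000000000000000000000000000000000000000000000000),
   (94, 0x40000000000000000004400000000000000000000000000000000000000000000000000000000000080000000000200000000140000000000000000000000000000000000000000000000000000000000000000000006000000000041280000000000000000000000000d020000000001440604302000000000000000024000000000000000000000400202000000009108200000001441080000020020200000000000000000000000000000005800000),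
   (95, 0x2a200000000000000000000000020000000000000000000000000000000000000000000000000000002a200000000000000000000000000000000000001000000000000000000000000000000018000000001029000002000000000000000000052080000102136330061820402010000000002002000000000212200000000ac30806420004b4002c8100014e000b2002009c308068800000100880418606918581260538300000),
   (128, 0x200000000000000000000000000000000000000000000000000000000000000000000005000000000000000000c0000000000000000000000000000000000000000000000000000000000000000000000000000000000000000000000000000000000000000000000000000000000000000000000000000000000000000000000000000000000000000000000000000000000000000000000000000000000000000000000000000000000000000000000000000000),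
   (129, 0xa0180000878000e4f00000000000000000000000000000000000000000000000000000000000000000000000000000000000000000000000000000000000000000000000000000000000000000000000000000000000000000000000000000000000000000000000000000000000000000000000000000000000000000000000000000000000000000000000000000000000000000000000000000000000000000000000000000000000000000000000000000000),
   (130, 0x2000000000000000000000000000000000001000000000000000000000000000000000808a000000000008000000000000000000002000000000000000000000100000000000000000000000000001000000000000000000000000010000000000000000000020000000000800000000808000000000000000000000000000000060000000000000000000000000000000000000040000010000000000000000000000000000000000000),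
   (131, 0x40000000000008000000000000000000000000000000000000000000000000400000000000000000000000000000000000000004000000000000000000000000000080000000000002000000000000000000000000000000000000000000000000000000000000000000000000010000000000000000000000000000000000000000000000000000000000000000000000000000000000000000),
   (132, 0x40000000000003090000000000000000000000000000000000000000000000000000000000000000000000000000000000000000000000000000000000000000000000000000000000000000000000000000000000000000000000000000000000000000000000000000000000000000000000000000000000000000000000000000000000000000000000000000000000000000000000000000000000000000000000000000000000000000000000000000000000),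
   (133, 0x141400008007800000000000000000000000000000000000000000000000000000000000000000000000000009800001b800000000000000000000000000000000000000000000000000000000000000000000000000000000000000000000000000000000000000000000000000000000000000000000000000000000000000000000000000000000000000000000000000000000000000000000000000000000000000000000000000000000000000000000000),
   (134, 0x800000000000000000000000000000000004040000000000000000000000004000000000020082000000000000100000000000000000000002000000000000000000000000000000000000000000000800000080000000000000400000000000000000000000000000000000004000000060000000000000000000000000000000000060100000100000000000000000000000000000000000000000000000000000000000000000000000000),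
   (135, 0x400000000000000000000000000000000000000000000000040000000000000000000000000000000100000020000000000000000000000000000000000000000000000000004000000000000000000100000000000000000000000000000000000000000000010000000000000000000000000000000000000000000000000000000000000000000000000000000000000000),
   (144, 0x400008040000000003400000000000000000000000000000000000000080000000000833c0000000000000000000000000000000000c000000000001f00000000000000000000000000410c00000000000000000000000000000000000009c000180100000000000000000000000000000000000000000000000000000000000000000000000000000000000000000000000000000000000000000000000000000000000000000000000000000000),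
   (145, 0xa0180000878000e4f00000000000000000000000000000000000000000000000000000000000000000000000000000000000000000000000000000000000000000000000000000000000000000000000000000000000000000000000000000000000000000000000000000000000000000000000000000000000000000000000000000000000000000000000000000000000000000000000000000000000000000000000000000000000000000000000000000000),
   (152, 0x28800000000000000c800000000000000000000000000000000000000022fc00000000000000000000000000000000000000000000300002040e0000000000000000000000000000000400380000004e000030002000000000000000000000000000000000000000000000000000000000000000000000000000000000000000000000000000000000000000000000000000000000000000000000000000000000000000000000000000000000000),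
   (153, 0x18005000807800000004c2101c00000000000000000000000000000000000000000000000000000000000000000000000000000000000000000000000000000000000000000000000000000000000000000000000000000000000000000000000000000000000000000000000000000000000000000000000000000000000000000000000000000000000000000000000000000000000000000000000000000000000000000000000000000000000000000000000),
   (160, 0x200000000000000000000000000000000000000000000000000000000000000000000040040000004800000000000000000000000000000000000000000000000000000000000000000000000000000000000000000000000000000000000000000000000000000000000000000000000000000000000000000000000000000000000000000000000000000000000000000000000000000000000000000000000000000000000000000000000000000000000000),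
   (161, 0xa0180000878000e4f00000000000000000000000000000000000000000000000000000000000000000000000000000000000000000000000000000000000000000000000000000000000000000000000000000000000000000000000000000000000000000000000000000000000000000000000000000000000000000000000000000000000000000000000000000000000000000000000000000000000000000000000000000000000000000000000000000000),
   (162, 0x80000000000000000400000000000000000000000000000000005000000000400400000000000000040000000000000000000100000000000000040000000000000000000000001000000000000000000000000000000000000000000000000000000000000000000000000000000000008000000000000400000000000000180000000000000100000040000000000000000000000000000002000000060000000000000000000000),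
   (163, 0x20000000000040000000000000000000000000000000000000000000000000040000000000000000000000000000000000000040000000000000000000000000000010000000000010000000000000000000000000000000000000000000000000000000000000000000000000000000000800000000000000000000000000000000000000000000000000000000000000000000000000000000000),
   (172, 0x100000000000880050000000000000000000000000000000000000000000000000000000000000000000000000000000000000000000000000000000000000000000000000000000000000000000000000000000000000000000000000000000000000000000000000000000000000000000000000000000000000000000000000000000000000000000000000000000000000000000000000000000000000000000000000000000000000000000000000000000),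
   (173, 0xc0006000f800000000000000000000000000000000000000000000000000000000000000004c7c0000000000000000000000000000000000000000000000000000000000000000000000000000000000000000000000000000000000000000000000000000000000000000000000000000000000000000000000000000000000000000000000000000000000000000000000000000000000000000000000000000000000000000000000000000000000000000000),
   (174, 0x20000000000000000000000400000000000020000000000000000000000001000000000000000000000000000940080000000000000000000001000000000000000000000000000000000000000000000000000000200000000000000000000000000000000000000000000000000000000000000000004000000000000000000000200182000100000000000000000000000000000000000000000000010000000000880000000000000000000),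
   (175, 0x4000000000000000000000000000000000000000000000000000010000000000000000000000040000000000000080000000000000800000000000000000000000010000000000000000000000000000000000000000000000000000000000000000000002000000000000000000000000000000000000000000000000000000000000000000000000000000000000000000000000),
   (184, 0x8000000000000c0404000000000000000000000000000000000000000000000000000000000000000000000000000000000000000000000000000000000000000000000000000000000000000000000000000000000000000000000000000000000000000000000000000000000000000000000000000000000000000000000000000000000000000000000000000000000000000000000000000000000000000000000000000000000000000000000000000),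
   (185, 0x141400008007800000000000000000000000000000000000000000000000000000000000000000000000000009800001b800000000000000000000000000000000000000000000000000000000000000000000000000000000000000000000000000000000000000000000000000000000000000000000000000000000000000000000000000000000000000000000000000000000000000000000000000000000000000000000000000000000000000000000000),
   (186, 0x100000000000000000000080000000000000080000000000000000000000000400000020000041000080000000000000000000000000000000080000000000000000000000000000000000000000000000000000000000000000000000000010000000000000000000000000000000000010000000000040000000000000000000000000000000000000000006010000010000000000000000004000000180000000000000000000000),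
   (187, 0x10000000000000000000000000000000000000000000000002000000000000000000000000000000000000002200000000000000000000000000000000000000000000000000004000000000000000001000000000000000000000000000000000000000000000000000001000000000000000000000000000000000000000000000000000000000000000000000000000000000000),
   (188, 0x80000000000000000000000000000000000000000000000000000000000000000000000000000014000000080000000100000000000000000000000000000000000000000000000000000000000000000000000000000000000000000000000000000000000000000000000000000000000000000000000000000000000000000000000000000000000000000000000000000000000000000000000000000000000000000000000000000000000000000000000),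
   (189, 0x18005000807800000004c2101c00000000000000000000000000000000000000000000000000000000000000000000000000000000000000000000000000000000000000000000000000000000000000000000000000000000000000000000000000000000000000000000000000000000000000000000000000000000000000000000000000000000000000000000000000000000000000000000000000000000000000000000000000000000000000000000000),
   (190, 0x200000000000000000000000020000000000000000000000000000000000000000000020008000000884000000000000000000000000000200000000000000002000000000000000000000000000000000000000000000000000000010000000000000000000000000000000000000000000008000000000000000000020000000000000000000000000000006000000000000200010000000008000000002020000000000000000000),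
   (191, 0x80000004000000000000000000000000000000000000000000000000200000000000000000000000000000000000010000000000000000000000000000000000000000000000000000000000400000000001000000000000000000000000000000000000000001000000000000000000000000000000000000000000000000000000000000000000000000000000000000000000000000),
   (200, 0x3000000000000000600008103800000000000000000000000000000018603700000000000000000000000000000000000000000001a0000000000000000000000000000000000000004132678000000000000000000000000000000000000000000000000000000000000000000000000000000000000000000000000000000000000000000000000000000000000000000000000000000000000000000000000000000000000000000000000000),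
   (201, 0x141400008007800000000000000000000000000000000000000000000000000000000000000000000000000009800001b800000000000000000000000000000000000000000000000000000000000000000000000000000000000000000000000000000000000000000000000000000000000000000000000000000000000000000000000000000000000000000000000000000000000000000000000000000000000000000000000000000000000000000000000),
   (208, 0xc000000000090000000000007c00000000000000000000000000600000000018000000080f00000000000000000000000000250000000000000000000000000000000000000004000000000070000000000000000000000000000383c00000000000000000000000000000000000000000000000000000000000000000000000000000000000000000000000000000000000000000000000000000000000000000000000000000000000000),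
   (209, 0xc0006000f800000000000000000000000000000000000000000000000000000000000000004c7c0000000000000000000000000000000000000000000000000000000000000000000000000000000000000000000000000000000000000000000000000000000000000000000000000000000000000000000000000000000000000000000000000000000000000000000000000000000000000000000000000000000000000000000000000000000000000000000),
   (220, 0x800000000000000000000000000000000000000000000000000000000000000000000011000c0000000000000000000000000000000000000000000000000000000000000000000000000000000000000000000000000000000000000000000000000000000000000000000000000000000000000000000000000000000000000000000000000000000000000000000000000000000000000000000000000000000000000000000000000000000000000000000000),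
   (221, 0x18005000807800000004c2101c00000000000000000000000000000000000000000000000000000000000000000000000000000000000000000000000000000000000000000000000000000000000000000000000000000000000000000000000000000000000000000000000000000000000000000000000000000000000000000000000000000000000000000000000000000000000000000000000000000000000000000000000000000000000000000000000),
   (222, 0x100000000000000000000800000000000000000000000000000000000204000002000200004000000000000000000000000000000000000000000000008080000000000000000000000004000001000000000000000000040000000000000000000000000000000000000002000000018000000000000000000000000000000000000000000000018800040000000000000000000000000000000000000000000000000000000000000000),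
   (223, 0x820000000000000000000000000000000000000000000000000010000000000000000000000000000000000000000002000000000000000000000000000000000000000000000000000000001000000000000080000000000000000000000000000000008000000000000000000000000000000000000000000000000000000000000000000000000000000000000000000000000000),
   (224, 0x10000000000005000000600000000000000000000000000000000000000000000000000000000000000000000000000000000000000000000000000000000000000000000000000000000000000000000000000000000000000000000000000000000000000000000000000000000000000000000000000000000000000000000000000000000000000000000000000000000000000000000000000000000000000000000000000000000000000000000000000000),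
   (225, 0xc0006000f800000000000000000000000000000000000000000000000000000000000000004c7c0000000000000000000000000000000000000000000000000000000000000000000000000000000000000000000000000000000000000000000000000000000000000000000000000000000000000000000000000000000000000000000000000000000000000000000000000000000000000000000000000000000000000000000000000000000000000000000),
   (226, 0x4000000000000002000000000000000000000000080000000000000000000000200000400c000000800000000000000000000000000000000000000000000040000000000000000000000000000002000000000000000000000000000000004000000000002000000000001000000000220000000000000000000000000000000000000000000018000000000000200010000000000000000000000000000000000000000000000000000),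
   (227, 0x1000000000000000000000000000000000000000000000800000000000000000000000000000080000000080000000000000100000000000000000000000000000001000000000000000000000000000000000000000000000000000000000000008000000000000000000000000000000000000000000000000000000000000000000000000000000000000000000000000000),
   (320, 0x303ffffff8028f009603ffffff00000306000c00000079ff9ff001ffffffffffffe0000063c7000400701f2c00e00fe7fc00fffffffffffffffc00000c180030000001e7fe7fc007ffffffffffff820000000000000000007c00000000ffffffffffc000000000000000007fffffffffe0000007fffffffffff80000001fffffffffffc07fffffffffe03ffffffffffe0fffffffffff83ffffffffffe3ffffffffffe01ffffffffffff0000000000000000000),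
   (323, 0x11c00ffffffff8028f00ffffffffff04001707c00ff800007fffffffffffffffffffffe00000e1c70003ffffff1f03ffe3e7fc00efe03ffffffffffc0000000000001fffffffffffffffffffffffffff8e0c00001ff80007fc007c0000000000ffffffffc000001fffffffffffffffffffffe00ffffffffffffffff80003ffffffffffffffc0007fffffffe0000000000001ffffffffffffffffffffffffffffffffffffffffffffffffffffffffffffffffffffff),
   (329, 0x21cff00ffffff806870f0f820fffff00000000000007ffffffffffffffffffffffffffe0000063c70004007000fffffffffffffffffffffffffffffc10004fb8003fe00001ffffffffffffffffffffff9600000000030301fc007c3ff00000ff3c0ffffff007ffe7fe0007fffffffffffffffff007fffffffffffff807fc001f00ffffffffc7ffffffffffe7fffffffffffe0000000000007fffffffffffffffffffffffffffffffffffffffffffffffffffffffff),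
   (332, 0x3ffffffffff8068753807fffffff000fd701c007f83ffff9ff8ff7003fffffffffffe00000e1c3006cc0ffff0000001ffffffffffffffffffffffc003f43b8001fe0ffffe7fe3fdc00ffffffffffff9a00180007f8000000003c0ff000003f03ffffffc6001fe00007f80000007fffffffe0000000000000000007ffffffffffffffffffffffffffffffffffffffffffffffffffffffffffffffffffffffffffffffffffffffffffffffffffffffffffffffffff),
   (341, 0x30f271707007f80000ffffffffffff1407c700c00ffbdc3fe07f800fffffffffffffffe00000000001fffffffffffffffffffffffffffffffffffffc501f01b8003fef70ff81fe003fffffffffffffff80000000000000000000000000000000000000003fffffffffffffffffffffffffffffffffffffffffffffffffffffffffffffffffffffffffffffffffffffffffffffffffffffffffffffffffffffffffffffffffffffffffffffffffffffffffffffffff),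
   (347, 0x4e11f0f3fffff80fff139607ffffff080023ee07fc003ffff9ff9ff001ffffffffffffe00fc01ffffe0400701f200ce01fe003fffffffffffffffffc0000ffffffffe0070107fe7fdc00ffffffffffffb201807fe000000003ffffffffffffffffffffffc0007fe000000000001f81fffffffff007fffffffffffffb01fc001fff3c0ffffff8fffffffffffffffffffffffe7fffffffffff8000000000001fffffffffffffffffffffffffffffffffffffffffffff),
   (350, 0xfc1c7000ffff80000000000000000ffffffffffffffffffffffffffffffffffffffffe0000000000000000000000000000000000000000000000003ffffffffffffffffffffffffffffffffffffffffffffffffffffffffffffffffffffffffffffffffffffffffffffffffffffffffffffffffffffffffffffffffffffffffffffffffffffffffffffffffffffffffffffffffffffffffffffffffffffffffffffffffffffffffffffffffffffffffffffffffff),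
   (356, 0xffc630fffffff901ff00bf847fffff03f020ee07f80001c007ffffffffffffffffffffe1800827fffe0400301f7f00ffe7ebfc0063fffffffffffffc0fc09c071fe00007001fffffffffffffffffffffa6c0001fe0001ffffcfffdc003fc01ffffffffffc0038001fee001fe00ffffffffffe00007fffffffffffff80000000f3f03ffffffc01f81ffffffffffffffffffffffffffffffffffffffffffffffffffffffffe00000000000001fffffffffffffffffff),
   (359, 0x8e26373cfffff8307f009039f1ffff00003ffffffff801c041ff9ff7003fffffffffffe0003ffffffe0cc3ffff2c00e00feffc00fc1ffffffffffffc20009c1f1ff000ffffe7fe7fc007ffffffffffffaa3060fffff800f8003ffc000fffffffffffffffc0000000001ff8000067fe07ffffe00ffffffffffffffff8f8001fffffffffffffc07f9e07fffff9ffffffffffffffffffffffff9fffffffffffe000000000001fffffffffffffffffffffffffffffffff),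
   (368, 0x1fffffffffffffffffffffffffffffffffffffffffffffffffffffffffffffffffffffffffffffffffffffffffffffffffffffffffffffffffffffffffffffffffffffffffffffffffffffffffffffffffffffffffffffffffffffffffffffffffffffffffffffffffffffffffffffffffffffffffffffffffffffffffffffffffffffffffffffffffffffffffffffffffff),
   (377, 0x7ffffffffffffffffffffffffffffffffffffffffffffffffffffffffeaa3f3180ffea03fffff00ffffe0607cffefe7c000fffffffc00000000000000000000000000000000000000007fffffffffffffffffffffffffffffffffffffffffffffffffffffffffffffffffffffffffffffffffffffffffffffffffffffffffffffffffffffffffffffffffffffffffffffffffffffffffffffffffffffffffffffffffffffffffffffffffffffffff),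
   (383, 0x925cc07cb0787b0fff3fb386f63fff89f0006e07fc05c3ffbafffff0ff001fffffffffe79fc8383ffe0000001ffffffffffffffffffffffffffffffe17c0007fffffe000008001ffffffffffffffffff800000000007ffffffffffffffffffffffffffffc03fffe7fee00001fffffffffffffff007fffffffffffff80000000000000000003fffffffffffffffffffffffffffffffffffffffffffffffffffffffffffffffffffffffffffffffffffffffffffffff),
   (386, 0xc60c8a8fd7f800ffff53925ebe3fff480bc01ffffff80ffff8ff8ff0011fe01fffffffe07ffffffffe6cc3ffff240c60001ffffffffffffffffffffd202f3f80ffffe03fffe3fe3fc004007fffffffff8003fffffff8e038000003ffffffffffffffffffc0000000000000000000000000001fffffffffffffffffffffffffffffffffffffffffffffffffffffffffffffffffffffffffffffffffffffffffffffffffffffffffffffffffffffffffffffffffffff),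
   (395, 0x64a23b83e7878571b0007fffffffff26f00fe03ffff8000020007ffffffffffffffffff9803ffffffe1fffffff6703ffe46dfc001ffffffffffffffcabc01c031ff0170ffeebffffc3fc7f807fffffff81fc07fffff807fffcfffdc00003ffffffffffffc1c3800001ffffffffffffffffffe00ffffffffffffffff83800f000ffffffffffc000000000001fffffffffffffffffffffffffffffffffffffffffffffffffffffffffffffffffffffffffffffffffff)]

/-- The data. -/
noncomputable def D4 : Dat where
  K := 4
  P := 1450
  trie := fun k => ifB (Nat.beq k 1) trie1 <| ifB (Nat.beq k 2) trie2 <| ifB (Nat.beq k 3) trie3 trie4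
  num := fun k => ifB (Nat.beq k 1) 1 <| ifB (Nat.beq k 2) 2 <| ifB (Nat.beq k 3) 21 1448
  tab := fun k f => look (ifB (Nat.beq k 1) tabL1 <| ifB (Nat.beq k 2) tabL2 <| ifB (Nat.beq k 3) tabL3 tabL4) f

end Pool.Agent.Lib.MP_8e2345_co.B4
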