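import Pool.Agent.Lib.MP_8e2345_co.B4.Sem

set_option autoImplicit false

namespace Pool.Agent.Lib.MP_8e2345_co.B4

theorem cov_sound {R : ℕ → ℕ} {T : Trie} {todo l : ℕ} (h : (cov R T todo).testBit l = false)
    (ht : todo.testBit l = true) : ∃ z ∈ T.paths, ∀ f ∈ z, (R f).testBit l = true := by
  induction T generalizing todo with
  | nil =>
    have e : cov R Trie.nil todo = todo := rfl
    rw [e, ht] at h
    exact absurd h (by simp)
  | done => exact ⟨[], by simp [Trie.paths], by simp⟩
  | node f y n ihy ihn =>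
    have e : cov R (Trie.node f y n) todo = ifB (Nat.beq todo 0) 0 (ifB (Nat.beq (Nat.land todo (R f)) 0) (cov R n todo)
      (cov R n (Nat.lor (Nat.xor todo (Nat.land todo (R f))) (cov R y (Nat.land todo (R f)))))) := rfl
    rw [e, ifB_eq] at h
    have hn : ∀ {td : ℕ}, (cov R n td).testBit l = false → td.testBit l = true →
        ∃ z ∈ (Trie.node f y n).paths, ∀ f ∈ z, (R f).testBit l = true := fun h1 h2 => by
      obtain ⟨z, hz, h3⟩ := ihn h1 h2
      exact ⟨z, by simp only [Trie.paths, List.mem_append]; exact Or.inr hz, h3⟩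
    split at h
    · rename_i h0
      rw [Nat.beq_eq] at h0
      rw [h0] at ht
      simp at ht
    · rw [ifB_eq] at h
      split at h
      · exact hn h ht
      · by_cases h1 : (Nat.lor (Nat.xor todo (Nat.land todo (R f))) (cov R y (Nat.land todo (R f)))).testBit l = true
        · exact hn h h1
        · rw [testBit_lor, testBit_xor, testBit_land, ht] at h1
          have hf : (R f).testBit l = true := by
            by_contra hne
            simp [hne] at h1
          have hy : (cov R y (Nat.land todo (R f))).testBit l = false := by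
            simpa [hf] using h1
          obtain ⟨z, hz, h3⟩ := ihy hy (by rw [testBit_land, ht, hf]; rfl)
          refine ⟨f :: z, ?_, ?_⟩
          · simp only [Trie.paths, List.mem_append, List.mem_map]
            exact Or.inl ⟨z, hz, rfl⟩
          · intro g hg
            rcases List.mem_cons.1 hg with hg | hg
            · rw [hg]; exact hf
            · exact h3 g hg

private theorem cnt_eq (T : Trie) : T.cnt = T.paths.length := by
  induction T with
  | nil => rfl
  | done => rfl
  | node f y n ihy ihn =>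
    have e : (Trie.node f y n).cnt = y.cnt + n.cnt := rfl
    rw [e, ihy, ihn]
    simp [Trie.paths]

private theorem pk_sound {P : ℕ} {T : Trie} {a m : ℕ} (h : (T.pk P a).testBit m = true) :
    ∃ f r z, T.paths[r]? = some z ∧ f ∈ z ∧ m = f * P + (a + r) := by
  induction T generalizing a with
  | nil =>
    have e : Trie.nil.pk P a = 0 := rfl
    rw [e] at h
    simp at h
  | done =>
    have e : Trie.done.pk P a = 0 := rfl
    rw [e] at h
    simp at h
  | node f y n ihy ihn =>
    have e : (Trie.node f y n).pk P a = Nat.lor ((2 ^ y.cnt - 1) <<< (a + f * P))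
      (Nat.lor (y.pk P a) (n.pk P (a + y.cnt))) := rfl
    have e2 : (Trie.node f y n).paths = (y.paths.map fun l => f :: l) ++ n.paths := rfl
    have hl : (y.paths.map fun l => f :: l).length = y.cnt := by rw [List.length_map, cnt_eq]
    rw [e, testBit_lor, testBit_lor, Bool.or_eq_true, Bool.or_eq_true] at h
    rcases h with h | h | h
    · rw [Nat.testBit_shiftLeft, Bool.and_eq_true, Nat.testBit_two_pow_sub_one, decide_eq_true_eq,
        decide_eq_true_eq] at h
      obtain ⟨h1, h2⟩ := h
      have h3 : m - (a + f * P) < y.paths.length := by rw [← cnt_eq]; exact h2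
      refine ⟨f, m - (a + f * P), f :: y.paths[m - (a + f * P)], ?_, by simp, by omega⟩
      rw [e2, List.getElem?_append_left (by rw [hl]; exact h2), List.getElem?_map, List.getElem?_eq_getElem h3]
      rfl
    · obtain ⟨g, r, z, h1, h2, h3⟩ := ihy h
      refine ⟨g, r, f :: z, ?_, List.mem_cons_of_mem _ h2, h3⟩
      have h4 : r < y.paths.length := (List.getElem?_eq_some_iff.1 h1).1
      rw [e2, List.getElem?_append_left (by rw [hl, cnt_eq]; exact h4), List.getElem?_map, h1]
      rfl
    · obtain ⟨g, r, z, h1, h2, h3⟩ := ihn h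
      refine ⟨g, y.cnt + r, z, ?_, h2, by omega⟩
      rw [e2, List.getElem?_append_right (by rw [hl]; omega), hl]
      rw [show y.cnt + r - y.cnt = r by omega]
      exact h1

private theorem pkL_sound {P : ℕ} {l : List (ℕ × ℕ)} {f r : ℕ} (h : (look l f).testBit r = true) :
    (pkL P l).testBit (f * P + r) = true := by
  induction l with
  | nil =>
    have e : look [] f = 0 := rfl
    rw [e] at h
    simp at h
  | cons p l ih =>
    have e : look (p :: l) f = ifB (Nat.beq p.1 f) p.2 (look l f) := rfl
    have e2 : pkL P (p :: l) = Nat.lor (p.2 <<< (p.1 * P)) (pkL P l) := rfl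
    rw [e, ifB_eq] at h
    rw [e2, testBit_lor, Bool.or_eq_true]
    split at h
    · rename_i h0
      rw [Nat.beq_eq] at h0
      left
      rw [Nat.testBit_shiftLeft, h0, Bool.and_eq_true, decide_eq_true_eq]
      refine ⟨by omega, ?_⟩
      rw [show f * P + r - f * P = r by omega]
      exact h
    · right
      exact ih h

private theorem chkD_parts {D : Dat} {k : ℕ} {l : List (ℕ × ℕ)} (h : chkD D k l = true) :
    (D.trie k).cnt = D.num k ∧ D.num k + 1 ≤ D.P ∧ 1 ≤ D.num k ∧ (D.trie k).pk D.P 0 = pkL D.P l ∧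
      ones D k = orL (List.range (Nat.pow 3 k)) fun p => D.tab k (cCol p) := by
  unfold chkD at h
  simp only [Bool.and_eq_true, Nat.beq_eq, Nat.ble_eq] at h
  obtain ⟨⟨⟨⟨h1, h2⟩, h3⟩, h4⟩, h5⟩ := h
  exact ⟨h1, h2, h3, h4, h5⟩

/-- Every path `z` contains all facts of some type `r`. -/
theorem exists_type {D : Dat} {k : ℕ} {l : List (ℕ × ℕ)} (h : chkD D k l = true) (hl : ∀ f, D.tab k f = look l f)
    {z : List ℕ} (hz : z ∈ (D.trie k).paths) :
    ∃ r, r < D.num k ∧ ∀ f, (D.tab k f).testBit r = true → f ∈ z := by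
  obtain ⟨h1, h2, h3, h4, -⟩ := chkD_parts h
  obtain ⟨r, hr, he⟩ := List.getElem_of_mem hz
  have hrn : r < D.num k := by rw [← h1, cnt_eq]; exact hr
  refine ⟨r, hrn, fun f hf => ?_⟩
  rw [hl] at hf
  have h5 := pkL_sound (P := D.P) hf
  rw [← h4] at h5
  obtain ⟨g, s, y, h6, h7, h8⟩ := pk_sound h5
  have hs : s < D.num k := by
    rw [← h1, cnt_eq]
    exact (List.getElem?_eq_some_iff.1 h6).1
  have hP : 0 < D.P := by omega
  have hfg : f = g ∧ r = s := by
    have e1 : (f * D.P + r) / D.P = f := by
      rw [mul_comm, Nat.mul_add_div hP, Nat.div_eq_of_lt (by omega), add_zero]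
    have e2 : (g * D.P + (0 + s)) / D.P = g := by
      rw [zero_add, mul_comm, Nat.mul_add_div hP, Nat.div_eq_of_lt (by omega), add_zero]
    rw [h8, e2] at e1
    subst e1
    exact ⟨rfl, by omega⟩
  obtain ⟨rfl, rfl⟩ := hfg
  have h9 : y = z := by
    rw [List.getElem?_eq_getElem hr, he] at h6
    exact (Option.some.inj h6).symm
  rw [← h9]
  exact h7

theorem num_of_chkD {D : Dat} {k : ℕ} {l : List (ℕ × ℕ)} (h : chkD D k l = true) :
    1 ≤ D.num k ∧ D.num k + 1 ≤ D.P := by
  obtain ⟨-, h2, h3, -, -⟩ := chkD_parts h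
  exact ⟨h3, h2⟩

/-- Every type has a colouring. -/
theorem exists_col {D : Dat} {k : ℕ} {l : List (ℕ × ℕ)} (h : chkD D k l = true) {r : ℕ} (hr : r < D.num k) :
    ∃ p, (D.tab k (cCol p)).testBit r = true := by
  obtain ⟨-, -, -, -, h5⟩ := chkD_parts h
  have h6 : (ones D k).testBit r = true := by
    show (2 ^ D.num k - 1).testBit r = true
    rw [Nat.testBit_two_pow_sub_one]
    simpa using hr
  rw [h5] at h6
  obtain ⟨p, -, hp⟩ := testBit_orL h6
  exact ⟨p, hp⟩

end Pool.Agent.Lib.MP_8e2345_co.B4
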