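import Mathlib

set_option autoImplicit false

/-!
# Discs with at most four corners, glued from single edges
-/

namespace Pool.Agent.Lib.MP_8e2345_co.B4

/-- `Disc H l`: the graph `H` is drawn in a disc, and `l` (one to four vertices) is the list of its corners in their
cyclic order on the boundary of the disc; `H` is built from single edges as follows. A single edge is a disc with two
corners, the list of corners may be turned, and corners may be forgotten. Two discs `A` and `B` without a common edge,
whose common vertices are all in the list `C`, are glued along `C`: the corners of `A` are `P ++ C`, those of `B` are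
`C.reverse ++ Q`, and the corners of the union are `P`, then (or not) the first vertex of `C`, then `Q`, then (or not)
the last vertex of `C`. -/
inductive Disc {V : Type} : SimpleGraph V → List V → Prop
  | edge (a b : V) : a ≠ b → Disc (SimpleGraph.edge a b) [a, b]
  | turn (H : SimpleGraph V) (a : V) (l : List V) : Disc H (a :: l) → Disc H (l ++ [a])
  | forget (H : SimpleGraph V) (l m : List V) : Disc H l → m.Sublist l → m ≠ [] → Disc H m
  | glue (A B : SimpleGraph V) (P C Q E F : List V) :
      Disc A (P ++ C) → Disc B (C.reverse ++ Q) → Disjoint A B →
      (∀ v ∈ A.support, v ∈ B.support → v ∈ C) →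
      E.Sublist (C.take 1) → F.Sublist (C.reverse.take 1) →
      (P ++ E ++ Q ++ F).Nodup → P ++ E ++ Q ++ F ≠ [] → (P ++ E ++ Q ++ F).length ≤ 4 →
      Disc (A ⊔ B) (P ++ E ++ Q ++ F)

/-- Any two distinct triangles are at distance at least `d`. -/
def TrianglesApart {V : Type} (G : SimpleGraph V) (d : ℕ∞) : Prop :=
  ∀ A B : Finset V, G.IsNClique 3 A → G.IsNClique 3 B → A ≠ B →
    ∀ a ∈ A, ∀ b ∈ B, d ≤ G.edist a b

end Pool.Agent.Lib.MP_8e2345_co.B4
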