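import Pool.Agent.Lib.MP_8e2345_co.B4.Defs
import Pool.Agent.Lib.MP_8e2345_co.NB.Example

set_option autoImplicit false
set_option maxRecDepth 100000

/-!
# The planar graph with 44 vertices is a disc graph of width 4
-/

namespace Pool.Agent.Lib.MP_8e2345_co.B4.Ex

open SimpleGraph Pool.Agent.Havel

/-- Trees of glueings. -/
inductive GT : Type
  | e : ℕ → ℕ → GT
  | g : List ℕ → List ℕ → List ℕ → List ℕ → List ℕ → GT → GT → GT

/-- edges, smaller end first -/
def GT.ed : GT → List (ℕ × ℕ)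
  | .e a b => [(a, b)]
  | .g _ _ _ _ _ A B => A.ed ++ B.ed

/-- corners -/
def GT.co : GT → List ℕ
  | .e a b => [a, b]
  | .g P _ Q E F _ _ => P ++ E ++ Q ++ F

/-- `m` is a rotation of `l` -/
def rotOK (l m : List ℕ) : Bool := (List.range (l.length + 1)).any fun r => decide (l.rotate r = m)

/-- the checks -/
def GT.ok : GT → Bool
  | .e a b => decide (a < b) && decide (b < 44)
  | .g P C Q E F A B => A.ok && (B.ok && (rotOK A.co (P ++ C) && (rotOK B.co (C.reverse ++ Q) &&
      (decide (E = [] ∨ E = C.take 1) && (decide (F = [] ∨ F = C.reverse.take 1) &&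
      (decide (P ++ E ++ Q ++ F).Nodup && (decide (P ++ E ++ Q ++ F ≠ []) &&
      (decide ((P ++ E ++ Q ++ F).length ≤ 4) &&
      (decide (∀ x ∈ P ++ E ++ Q ++ F, x < 44) &&
      (A.ed.all (fun x => B.ed.all (fun y => decide (x ≠ y) &&
        ((decide (x.1 ≠ y.1) || decide (x.1 ∈ C)) && ((decide (x.1 ≠ y.2) || decide (x.1 ∈ C)) &&
        ((decide (x.2 ≠ y.1) || decide (x.2 ∈ C)) &&
          (decide (x.2 ≠ y.2) || decide (x.2 ∈ C)))))))))))))))))

/-- number as a vertex -/
def vx (a : ℕ) : Fin 44 := Fin.ofNat 44 a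

theorem vx_val {a : ℕ} (h : a < 44) : ((vx a : Fin 44) : ℕ) = a := Nat.mod_eq_of_lt h

theorem vx_inj {a b : ℕ} (ha : a < 44) (hb : b < 44) (h : vx a = vx b) : a = b := by
  have := congrArg Fin.val h
  rwa [vx_val ha, vx_val hb] at this

/-- the graph -/
def GT.G : GT → SimpleGraph (Fin 44)
  | .e a b => SimpleGraph.edge (vx a) (vx b)
  | .g _ _ _ _ _ A B => A.G ⊔ B.G

theorem disc_rotate {V : Type} {H : SimpleGraph V} {l : List V} (h : Disc H l) (r : ℕ) :
    Disc H (l.rotate r) := by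
  induction r with
  | zero => simpa using h
  | succ r ih =>
    rw [← List.rotate_rotate]
    cases h1 : l.rotate r with
    | nil => rw [h1] at ih; simpa using ih
    | cons a m =>
      rw [h1] at ih
      simpa using Disc.turn H a m ih

theorem adj_iff : ∀ t : GT, t.ok = true → ∀ u v : Fin 44, t.G.Adj u v ↔
    (((u : ℕ), (v : ℕ)) ∈ t.ed ∨ ((v : ℕ), (u : ℕ)) ∈ t.ed) := by
  intro t
  induction t with
  | e a b =>
    intro h u v
    simp only [GT.ok, Bool.and_eq_true, decide_eq_true_eq] at h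
    have ha : a < 44 := h.1.trans h.2
    simp only [GT.G, GT.ed, SimpleGraph.edge_adj, List.mem_singleton, Prod.mk.injEq, Fin.ext_iff,
      vx_val ha, vx_val h.2]
    omega
  | g P C Q E F A B ihA ihB =>
    intro h u v
    simp only [GT.ok, Bool.and_eq_true] at h
    simp only [GT.G, GT.ed, SimpleGraph.sup_adj, ihA h.1 u v, ihB h.2.1 u v, List.mem_append]
    tauto

theorem ed_lt : ∀ t : GT, t.ok = true → ∀ x ∈ t.ed, x.1 < x.2 ∧ x.2 < 44 := by
  intro t
  induction t with
  | e a b =>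
    intro h x hx
    simp only [GT.ok, Bool.and_eq_true, decide_eq_true_eq] at h
    simp only [GT.ed, List.mem_singleton] at hx
    subst hx
    exact h
  | g P C Q E F A B ihA ihB =>
    intro h x hx
    simp only [GT.ok, Bool.and_eq_true] at h
    simp only [GT.ed, List.mem_append] at hx
    rcases hx with hx | hx
    · exact ihA h.1 x hx
    · exact ihB h.2.1 x hx

theorem disc_of_ok : ∀ t : GT, t.ok = true → Disc t.G (t.co.map vx) := by
  intro t
  induction t with
  | e a b =>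
    intro h
    simp only [GT.ok, Bool.and_eq_true, decide_eq_true_eq] at h
    have ha : a < 44 := h.1.trans h.2
    exact Disc.edge (vx a) (vx b) (fun h1 => absurd (vx_inj ha h.2 h1) h.1.ne)
  | g P C Q E F A B ihA ihB =>
    intro h
    have hAdj := adj_iff A
    have hBdj := adj_iff B
    simp only [GT.ok, Bool.and_eq_true, decide_eq_true_eq, List.all_eq_true, rotOK,
      List.any_eq_true, Bool.or_eq_true] at h
    obtain ⟨hA, hB, ⟨r, _, hr⟩, ⟨s, _, hs⟩, hE, hF, hnd, hne, hlen, hlt, hall⟩ := h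
    have lA := ed_lt A hA
    have lB := ed_lt B hB
    have dA := disc_rotate (ihA hA) r
    have dB := disc_rotate (ihB hB) s
    rw [← List.map_rotate, hr, List.map_append] at dA
    rw [← List.map_rotate, hs, List.map_append, List.map_reverse] at dB
    have key : (GT.g P C Q E F A B).co.map vx = P.map vx ++ E.map vx ++ Q.map vx ++ F.map vx := by
      simp only [GT.co, List.map_append]
    have key2 : P.map vx ++ E.map vx ++ Q.map vx ++ F.map vx = (P ++ E ++ Q ++ F).map vx := by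
      simp only [List.map_append]
    rw [key]
    refine Disc.glue A.G B.G (P.map vx) (C.map vx) (Q.map vx) (E.map vx) (F.map vx) dA dB ?_ ?_ ?_ ?_
      ?_ ?_ ?_
    · rw [disjoint_left]
      intro u v h1 h2
      rw [hAdj hA] at h1
      rw [hBdj hB] at h2
      rcases h1 with h1 | h1 <;> rcases h2 with h2 | h2
      · exact (hall _ h1 _ h2).1 rfl
      · have := lA _ h1; have := lB _ h2; simp only at *; omega
      · have := lA _ h1; have := lB _ h2; simp only at *; omega
      · exact (hall _ h1 _ h2).1 rfl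
    · rintro v ⟨u, hu'⟩ ⟨w, hw'⟩
      have hu : A.G.Adj v u := hu'
      have hw : B.G.Adj v w := hw'
      rw [hAdj hA] at hu
      rw [hBdj hB] at hw
      have mem : (v : ℕ) ∈ C := by
        rcases hu with h1 | h1 <;> rcases hw with h2 | h2
        · rcases (hall _ h1 _ h2).2.1 with h3 | h3
          · exact absurd rfl h3
          · exact h3
        · rcases (hall _ h1 _ h2).2.2.1 with h3 | h3
          · exact absurd rfl h3
          · exact h3
        · rcases (hall _ h1 _ h2).2.2.2.1 with h3 | h3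
          · exact absurd rfl h3
          · exact h3
        · rcases (hall _ h1 _ h2).2.2.2.2 with h3 | h3
          · exact absurd rfl h3
          · exact h3
      refine List.mem_map.2 ⟨v, mem, ?_⟩
      exact Fin.ext (vx_val v.2)
    · rcases hE with rfl | rfl
      · simp
      · rw [← List.map_take]
    · rcases hF with rfl | rfl
      · simp
      · rw [← List.map_reverse, ← List.map_take]
    · rw [key2]
      refine (List.nodup_map_iff_inj_on hnd).2 ?_
      intro x hx y hy hxy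
      exact vx_inj (hlt x hx) (hlt y hy) hxy
    · rw [key2]
      simpa using hne
    · rw [key2, List.length_map]
      exact hlen

/-- the tree -/
def tree : GT := (.g [] [21,22,0] [] [21] [] (.g [21,22] [43] [0] [] [] (.g [22] [43] [21] [43] [] (.g [43] [23,22] [] [] [22] (.g [43,23] [27,22] [] [] [22] (.g [22,43] [24,28] [23,27] [] [] (.g [28,22] [43,24] [] [43] [24] (.g [22,43] [28] [24] [] [28] (.g [43,28] [30,22] [] [] [22] (.g [30,22,43] [29] [28] [] [] (.g [22,43] [29,30] [] [29] [30] (.g [30,22,43] [31] [29] [] [] (.g [30,22] [43,31] [] [43] [31] (.g [22,43,31] [33] [30] [] [] (.g [22,43] [31,34] [33] [31] [] (.g [34,22,43] [36] [31] [] [] (.g [22,43,36] [35] [34] [] [] (.g [43,36] [35,22] [] [35] [22] (.g [43,36,35] [41] [22] [] [] (.g [41,43] [36] [35] [36] [] (.g [41,43] [37] [36] [] [] (.g [41,43] [38,37] [] [] [37] (.g [37,41] [43,38] [] [43] [38] (.g [43,38] [37,41] [] [37] [41] (.g [41,43,38] [40] [37] [] [] (.g [40,41,43] [39] [38] [] []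 (.g [43,39] [40,41] [] [40] [41] (.g [41,43] [39] [40] [39] [] (.g [41,43] [42] [39] [] [] (.g [43] [42] [41] [42] [] (.e 42 43) (.e 41 42)) (.e 39 42)) (.e 39 40)) (.e 40 41)) (.e 38 39)) (.e 37 40)) (.e 37 41)) (.e 38 43)) (.e 37 38)) (.e 36 37)) (.e 35 36)) (.e 22 41)) (.e 22 35)) (.e 34 35)) (.e 31 36)) (.g [33,34] [32] [31] [] [] (.g [33] [34,32] [] [34] [32] (.g [34] [33] [32] [] [33] (.e 33 34) (.e 32 33)) (.e 32 34)) (.e 31 32))) (.e 30 33)) (.e 31 43)) (.e 29 31)) (.e 29 30)) (.e 28 29)) (.e 22 30)) (.e 24 28)) (.e 24 43)) (.g [27,28] [24,23] [] [24] [23] (.g [27,28,24] [26] [23] [] [] (.g [26,27,28] [25] [24] [] [] (.g [26,27] [28,25] [] [28] [25] (.g [27,28] [26] [25] [] [26] (.g [28] [27] [26] [] [27] (.e 27 28) (.e 26 27)) (.e 25 26)) (.e 25 28)) (.e 24 25)) (.e 23 26)) (.e 23 24))) (.e 22 27)) (.e 22 23)) (.e 21 43)) (.e 0 43)) (.g [22,21] [15,0] [] [] [0] (.g [15,0] [22,21] [] [22] [21] (.g [21,15] [0] [22] [0] [] (.g [21,15] [13,0] [] [] [0]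 (.g [13,0] [21,17] [15] [21] [] (.g [13,0,21] [14] [17] [] [] (.g [0,21] [14,13] [] [14] [13] (.g [13,0,21] [9] [14] [] [] (.g [13,0] [21,9] [] [21] [9] (.g [9,13,0] [4] [21] [] [] (.g [0,4,9] [12] [13] [] [] (.g [0,4] [9,11] [12] [9] [] (.g [11,0,4] [7] [9] [] [] (.g [0,4,7] [8] [11] [] [] (.g [4,7] [8,0] [] [8] [0] (.g [0,4] [7] [8] [7] [] (.g [4,7] [1,0] [] [] [0] (.g [4,7,1] [2] [0] [] [] (.g [7,1] [2,4] [] [2] [4] (.g [4,7,1] [3] [2] [] [] (.g [4,7] [1,3] [] [1] [3] (.g [3,4,7] [6] [1] [] [] (.g [4,7,6] [5] [3] [] [] (.g [7,6] [5,4] [] [5] [4] (.g [5,4] [6] [7] [] [6] (.g [5] [6] [4] [] [6] (.e 5 6) (.e 4 6)) (.e 6 7)) (.e 4 5)) (.e 3 5)) (.e 1 6)) (.e 1 3)) (.e 2 3)) (.e 2 4)) (.e 0 2)) (.e 0 1)) (.e 7 8)) (.e 0 8)) (.e 8 11)) (.e 7 9)) (.g [12,11] [10] [9] [] [] (.g [12] [11,10] [] [11] [10] (.g [11] [12] [10] [] [12] (.e 11 12) (.e 10 12)) (.e 10 11)) (.e 9 10))) (.e 12 13)) (.e 4 21)) (.e 9 21)) (.e 9 14)) (.e 13 14)) (.e 14 17)) (.g [17,21] [20,15]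 [] [] [15] (.g [15,17] [21,20] [] [21] [20] (.g [21,20] [15,17] [] [15] [17] (.g [17,21,20] [16] [15] [] [] (.g [21,20] [16,17] [] [16] [17] (.g [17,21,20] [19] [16] [] [] (.g [21,20,19] [18] [17] [] [] (.g [18,21] [19] [20] [] [19] (.g [21] [18] [19] [] [18] (.e 18 21) (.e 18 19)) (.e 19 20)) (.e 17 18)) (.e 16 19)) (.e 16 17)) (.e 15 16)) (.e 15 17)) (.e 20 21)) (.e 15 20))) (.e 0 13)) (.e 0 22)) (.e 21 22)) (.e 0 15)))

theorem tree_ok : tree.ok = true := by decide +kernel

/-- the edges of the tree are the edges of the graph -/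
def chk : Bool := (tree.ed.all fun x => decide (x.2 ∈ Pool.Agent.HavelNB.G44.out x.1)) &&
  ((List.range 44).all fun u => (Pool.Agent.HavelNB.G44.out u).all fun v =>
    decide ((u, v) ∈ tree.ed))

theorem chk_true : chk = true := by decide +kernel

theorem graph_eq : tree.G = Pool.Agent.HavelNB.G44.G := by
  ext u v
  rw [adj_iff tree tree_ok, Pool.Agent.HavelNB.G44.G, GG_adj]
  have h := chk_true
  simp only [chk, Bool.and_eq_true, List.all_eq_true, decide_eq_true_eq, List.mem_range] at h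
  obtain ⟨h1, h2⟩ := h
  constructor
  · rintro (h3 | h3)
    · have := ed_lt tree tree_ok _ h3
      exact ⟨by rw [Ne, Fin.ext_iff]; simp only at this; omega, Or.inl (h1 _ h3)⟩
    · have := ed_lt tree tree_ok _ h3
      exact ⟨by rw [Ne, Fin.ext_iff]; simp only at this; omega, Or.inr (h1 _ h3)⟩
  · rintro ⟨_, h3 | h3⟩
    · exact Or.inl (h2 u u.2 v h3)
    · exact Or.inr (h2 v v.2 u h3)

theorem example_44 : ∃ (G : SimpleGraph (Fin 44)) (l : List (Fin 44)), Disc G l ∧
    TrianglesApart G 3 ∧ ¬ G.Colorable 3 :=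
  ⟨Pool.Agent.HavelNB.G44.G, tree.co.map vx, graph_eq ▸ disc_of_ok tree tree_ok,
    Pool.Agent.HavelNB.G44.far, Pool.Agent.HavelNB.G44.not_col⟩

end Pool.Agent.Lib.MP_8e2345_co.B4.Ex
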