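import Pool.Agent.Lib.MP_8e2345_co.B4.Main
import Pool.Agent.Lib.MP_8e2345_co.B4.C8

set_option autoImplicit false

/-!
# Discs with at most four corners and distant triangles
-/

namespace Pool.Agent.Lib.MP_8e2345_co.B4

theorem num4_1 : D4.num 1 = 1 := rfl
theorem num4_2 : D4.num 2 = 2 := rfl
theorem num4_3 : D4.num 3 = 21 := rfl
theorem num4_4 : D4.num 4 = 1448 := rfl

theorem good4 : Good D4 where
  K := rfl
  data := by
    intro k h1 h2
    interval_cases k
    · exact ⟨tabL1, chkD_1, fun _ => rfl⟩
    · exact ⟨tabL2, chkD_2, fun _ => rfl⟩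
    · exact ⟨tabL3, chkD_3, fun _ => rfl⟩
    · exact ⟨tabL4, chkD_4, fun _ => rfl⟩
  edge := chkE
  turn := by
    intro k h1 h2
    interval_cases k
    · exact chkK_1
    · exact chkK_2
    · exact chkK_3
    · exact chkK_4
  glue := by
    intro ka h1 h2 r hr
    have hP : D4.P = 1450 := rfl
    interval_cases ka
    · rw [num4_1] at hr
      exact ⟨0, 1, r, by omega, by omega, by rw [hP]; norm_num, chk_1_0⟩
    · rw [num4_2] at hr
      exact ⟨0, 2, r, by omega, by omega, by rw [hP]; norm_num, chk_2_0⟩
    · rw [num4_3] at hr
      exact ⟨0, 21, r, by omega, by omega, by rw [hP]; norm_num, chk_3_0⟩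
    · rw [num4_4] at hr
      have key : ∀ a, chk D4 4 a 181 = true → a ≤ r → r < a + 181 →
          ∃ a n i, r = a + i ∧ i < n ∧ n + 1 ≤ D4.P ∧ chk D4 4 a n = true := by
        intro a hc h3 h4
        exact ⟨a, 181, r - a, by omega, by omega, by rw [hP]; norm_num, hc⟩
      rcases lt_or_ge r 181 with h | h
      · exact key 0 chk_4_0 (by omega) (by omega)
      rcases lt_or_ge r 362 with h | h
      · exact key 181 chk_4_181 (by omega) (by omega)
      rcases lt_or_ge r 543 with h | h
      · exact key 362 chk_4_362 (by omega) (by omega)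
      rcases lt_or_ge r 724 with h | h
      · exact key 543 chk_4_543 (by omega) (by omega)
      rcases lt_or_ge r 905 with h | h
      · exact key 724 chk_4_724 (by omega) (by omega)
      rcases lt_or_ge r 1086 with h | h
      · exact key 905 chk_4_905 (by omega) (by omega)
      rcases lt_or_ge r 1267 with h | h
      · exact key 1086 chk_4_1086 (by omega) (by omega)
      · exact key 1267 chk_4_1267 (by omega) (by omega)

/-- A graph glued from single edges as a disc with at most four corners, with triangles at distance at least four, is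
3-colourable. -/
theorem colorable_of_disc4 {V : Type} {G : SimpleGraph V} {l : List V} (h : Disc G l) (ha : TrianglesApart G 4) :
    G.Colorable 3 := colorable_of_disc good4 h ha

end Pool.Agent.Lib.MP_8e2345_co.B4
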