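import Pool.Agent.Lib.MP_8e2345_co.B4.Sem

set_option autoImplicit false

/-!
# Glueing two discs: distances and triangles
-/

namespace Pool.Agent.Lib.MP_8e2345_co.B4

open scoped Classical

variable {V : Type} {D : Dat} {ka a n kb j : ℕ} {G A B : SimpleGraph V} {w : ℕ → V} {l : ℕ}

/-! ## Triangles -/

theorem side_le (X : Bool) : side A B X ≤ A ⊔ B := by
  cases X
  · exact le_sup_right
  · exact le_sup_left

theorem Sit.side_leG (h : Sit D ka a n kb j G A B w l) (X : Bool) : side A B X ≤ G := by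
  cases X
  · exact h.hB
  · exact h.hA

/-- Distinct triangles are far from each other. -/
theorem far (h : TrianglesApart G 4) {T S : Finset V} (hT : G.IsNClique 3 T) (hS : G.IsNClique 3 S) (hn : T ≠ S)
    {x y : V} {a b c : ℕ} (hx : Near G x T a) (hy : Near G y S b) (hd : G.edist x y ≤ (c : ℕ∞))
    (hs : a + b + c ≤ 3) : False := by
  obtain ⟨p, hp, hp1⟩ := hx
  obtain ⟨q, hq, hq1⟩ := hy
  have h1 : (4 : ℕ∞) ≤ G.edist p q := h T S hT hS hn p hp q hq
  have h2 : G.edist p q ≤ ((a + (c + b) : ℕ) : ℕ∞) := by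
    calc G.edist p q ≤ G.edist p x + G.edist x q := SimpleGraph.edist_triangle
      _ ≤ G.edist p x + (G.edist x y + G.edist y q) := by gcongr; exact SimpleGraph.edist_triangle
      _ ≤ (a : ℕ∞) + ((c : ℕ∞) + (b : ℕ∞)) := by
        rw [SimpleGraph.edist_comm (u := p)]
        exact add_le_add hp1 (add_le_add hd hq1)
      _ = ((a + (c + b) : ℕ) : ℕ∞) := by push_cast; rfl
  have h3 : (4 : ℕ∞) ≤ ((a + (c + b) : ℕ) : ℕ∞) := h1.trans h2
  have h4 : 4 ≤ a + (c + b) := by exact_mod_cast h3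
  omega

theorem clique_mono {H K : SimpleGraph V} (h : H ≤ K) {T : Finset V} (hT : H.IsNClique 3 T) : K.IsNClique 3 T :=
  hT.mono h

theorem pathT_mono {H K : SimpleGraph V} (h : H ≤ K) {x y : V} {T : Finset V} (hT : PathT H x y T) :
    PathT K x y T := by
  obtain ⟨v, h1, h2, h3⟩ := hT
  exact ⟨v, h h1, h h2, h3⟩

theorem two_mono {H K : SimpleGraph V} (h : H ≤ K) {x y : V} {t : ℕ} (hT : Two G H x y t) : Two G K x y t := by
  obtain ⟨T, S, h1, h2, h3, h4⟩ := hT
  exact ⟨T, S, h1, clique_mono h h2, clique_mono h h3, h4⟩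

theorem g_two_symm {H : SimpleGraph V} {x y : V} {t : ℕ} (hT : Two G H x y t) : Two G H y x t := by
  obtain ⟨T, S, h1, h2, h3, a, b, h4, h5, h6⟩ := hT
  exact ⟨S, T, h1.symm, h3, h2, b, a, by omega, h6, h5⟩

theorem g_two_right {H : SimpleGraph V} {x y z : V} {t b : ℕ} (hd : G.edist y z ≤ (b : ℕ∞)) (hT : Two G H x y t) :
    Two G H x z (t + b) := by
  obtain ⟨T, S, h1, h2, h3, p, q, h4, h5, h6⟩ := hT
  exact ⟨T, S, h1, h2, h3, p, q + b, by omega, h5, near_trans hd h6⟩

theorem g_two_left {H : SimpleGraph V} {x y z : V} {t b : ℕ} (hd : G.edist x z ≤ (b : ℕ∞)) (hT : Two G H x y t) :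
    Two G H z y (t + b) := g_two_symm (g_two_right hd (g_two_symm hT))

/-- A new triangle with the edge `x y` in one disc and the other edges in the other one. -/
def Cre (A B : SimpleGraph V) (x y : V) (T : Finset V) : Prop :=
  (A.Adj x y ∧ PathT B x y T) ∨ (B.Adj x y ∧ PathT A x y T)

theorem cre_swap {x y : V} {T : Finset V} (h : Cre A B x y T) : Cre B A x y T := h.symm

theorem cre_clique {x y : V} {T : Finset V} (h : Cre A B x y T) : (A ⊔ B).IsNClique 3 T := by
  rcases h with ⟨h, v, h1, h2, rfl⟩ | ⟨h, v, h1, h2, rfl⟩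
  · rw [SimpleGraph.is3Clique_triple_iff]
    exact ⟨Or.inr h1, Or.inl h, Or.inr h2⟩
  · rw [SimpleGraph.is3Clique_triple_iff]
    exact ⟨Or.inl h1, Or.inr h, Or.inl h2⟩

theorem cre_notA (dis : ∀ u v, A.Adj u v → B.Adj u v → False) {x y : V} {T : Finset V} (h : Cre A B x y T) :
    ¬A.IsNClique 3 T := by
  intro hT
  rcases h with ⟨h, v, h1, h2, rfl⟩ | ⟨h, v, h1, h2, rfl⟩
  · rw [SimpleGraph.is3Clique_triple_iff] at hT
    exact dis _ _ hT.1 h1
  · rw [SimpleGraph.is3Clique_triple_iff] at hT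
    exact dis _ _ hT.2.1 h

theorem cre_notB (dis : ∀ u v, A.Adj u v → B.Adj u v → False) {x y : V} {T : Finset V} (h : Cre A B x y T) :
    ¬B.IsNClique 3 T :=
  cre_notA (fun u v h1 h2 => dis u v h2 h1) (cre_swap h)

/-- The pair of a new triangle is unique. -/
theorem cre_pair (dis : ∀ u v, A.Adj u v → B.Adj u v → False) {x y x' y' : V} {T : Finset V}
    (h : Cre A B x y T) (h' : Cre A B x' y' T) : (x = x' ∧ y = y') ∨ (x = y' ∧ y = x') := by
  have key : ∀ (A B : SimpleGraph V), (∀ u v, A.Adj u v → B.Adj u v → False) → ∀ x y x' y' T,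
      (A.Adj x y ∧ PathT B x y T) → Cre A B x' y' T → (x = x' ∧ y = y') ∨ (x = y' ∧ y = x') := by
    intro A B dis x y x' y' T h h'
    obtain ⟨h, v, h1, h2, rfl⟩ := h
    have hxy := h.ne
    have hxv := h1.ne
    have hvy := h2.ne
    -- the only edge of `A` in the triangle is `x y`
    have only : ∀ p q, A.Adj p q → p ∈ ({x, v, y} : Finset V) → q ∈ ({x, v, y} : Finset V) →
        (p = x ∧ q = y) ∨ (p = y ∧ q = x) := by
      intro p q hpq hp hq
      have hne := hpq.ne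
      simp only [Finset.mem_insert, Finset.mem_singleton] at hp hq
      rcases hp with rfl | rfl | rfl <;> rcases hq with rfl | rfl | rfl
      · exact absurd rfl hne
      · exact (dis _ _ hpq h1).elim
      · exact Or.inl ⟨rfl, rfl⟩
      · exact (dis _ _ hpq h1.symm).elim
      · exact absurd rfl hne
      · exact (dis _ _ hpq h2).elim
      · exact Or.inr ⟨rfl, rfl⟩
      · exact (dis _ _ hpq h2.symm).elim
      · exact absurd rfl hne
    rcases h' with ⟨h', v', h1', h2', e⟩ | ⟨h', v', h1', h2', e⟩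
    · have := only x' y' h' (by rw [e]; simp) (by rw [e]; simp)
      tauto
    · exfalso
      have e1 := only x' v' h1' (by rw [e]; simp) (by rw [e]; simp)
      have e2 := only v' y' h2' (by rw [e]; simp) (by rw [e]; simp)
      have n1 := h'.ne
      rcases e1 with ⟨e1, e1'⟩ | ⟨e1, e1'⟩ <;> rcases e2 with ⟨e2, e2'⟩ | ⟨e2, e2'⟩ <;> subst_vars <;> simp_all
  rcases h with h | h
  · exact key A B dis x y x' y' T h h'
  · exact key B A (fun u v h1 h2 => dis u v h2 h1) x y x' y' T h (cre_swap h')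

/-! ## Distances -/

theorem isX_iff {X : Bool} {u : ℕ} : isX ka j X u = true ↔ (X = true ∧ u < ka) ∨ (X = false ∧ ka - j ≤ u) := by
  unfold isX
  cases X
  · simp [Nat.ble_eq]
  · simp only [ifB_true, Nat.ble_eq, true_and, Bool.true_eq_false, false_and, or_false]
    exact Iff.rfl

theorem isX_sh {X : Bool} {u : ℕ} (h : u ∈ shL ka j) : isX ka j X u = true := by
  have := mem_shL h
  rw [isX_iff]
  cases X
  · right; exact ⟨rfl, this.2⟩
  · left; exact ⟨rfl, this.1⟩

theorem Sit.lt_of_sh (h : Sit D ka a n kb j G A B w l) {u : ℕ} (hu : u ∈ shL ka j) : u < ka + kb - j := by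
  have h1 := mem_shL hu
  have h2 := h.jka
  have h3 := h.jkb
  omega

theorem dd_sound (h : Sit D ka a n kb j G A B w l) {t u v : ℕ} (ht : t ≤ 3) (hu : u < ka + kb - j)
    (hv : v < ka + kb - j) (hb : (dd D ka a n kb j t u v).testBit l = true) :
    G.edist (w u) (w v) ≤ (t : ℕ∞) := by
  unfold dd at hb
  rw [testBit_lor, Bool.or_eq_true] at hb
  rcases hb with hb | hb
  · obtain ⟨h1, h2⟩ := testBit_ifB0 hb
    rw [andB_eq, Bool.and_eq_true] at h1
    exact h.dst true t u v ht h1.1 h1.2 hu hv h2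
  · obtain ⟨h1, h2⟩ := testBit_ifB0 hb
    rw [andB_eq, Bool.and_eq_true] at h1
    exact h.dst false t u v ht h1.1 h1.2 hu hv h2

theorem dd_adj (h : Sit D ka a n kb j G A B w l) {u v : ℕ} (hu : u < ka + kb - j)
    (hv : v < ka + kb - j) (hn : u ≠ v) (hb : (dd D ka a n kb j 1 u v).testBit l = true) :
    (A ⊔ B).Adj (w u) (w v) := by
  unfold dd at hb
  rw [testBit_lor, Bool.or_eq_true] at hb
  rcases hb with hb | hb
  · obtain ⟨h1, h2⟩ := testBit_ifB0 hb
    rw [andB_eq, Bool.and_eq_true] at h1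
    exact Or.inl (h.adj true u v h1.1 h1.2 hu hv hn h2)
  · obtain ⟨h1, h2⟩ := testBit_ifB0 hb
    rw [andB_eq, Bool.and_eq_true] at h1
    exact Or.inr (h.adj false u v h1.1 h1.2 hu hv hn h2)

theorem so_sound {k : ℕ → ℕ → ℕ} {P : ℕ → ℕ → Prop} (hs : ∀ x y, P x y → P y x) {i x : ℕ}
    (h1 : (k i x).testBit l = true → P i x) (h2 : (k x i).testBit l = true → P x i)
    (h : (so i x k).testBit l = true) : P i x := by
  unfold so at h
  rcases testBit_ifB h with ⟨_, h⟩ | ⟨_, h⟩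
  · exact h1 h
  · exact hs _ _ (h2 h)

theorem edist_symm_le {t : ℕ} {x y : V} (h : G.edist x y ≤ (t : ℕ∞)) : G.edist y x ≤ (t : ℕ∞) := by
  rwa [SimpleGraph.edist_comm]

theorem edist_add {x y z : V} {s t : ℕ} (h1 : G.edist x y ≤ (s : ℕ∞)) (h2 : G.edist y z ≤ (t : ℕ∞)) :
    G.edist x z ≤ ((s + t : ℕ) : ℕ∞) := by
  refine SimpleGraph.edist_triangle.trans ((add_le_add h1 h2).trans ?_)
  push_cast
  rfl

theorem v1_sound (h : Sit D ka a n kb j G A B w l) {u v : ℕ} (hu : u < ka + kb - j) (hv : v < ka + kb - j)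
    (hb : (so u v (v1 D ka a n kb j)).testBit l = true) : G.edist (w u) (w v) ≤ ((1 : ℕ) : ℕ∞) := by
  refine so_sound (P := fun u v => G.edist (w u) (w v) ≤ ((1 : ℕ) : ℕ∞)) (fun x y => edist_symm_le) ?_ ?_ hb
  · exact dd_sound h (by norm_num) hu hv
  · exact dd_sound h (by norm_num) hv hu

theorem v1_adj (h : Sit D ka a n kb j G A B w l) {u v : ℕ} (hu : u < ka + kb - j) (hv : v < ka + kb - j)
    (hn : u ≠ v) (hb : (so u v (v1 D ka a n kb j)).testBit l = true) : (A ⊔ B).Adj (w u) (w v) := by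
  refine so_sound (P := fun u v => (A ⊔ B).Adj (w u) (w v)) (fun x y h => h.symm) ?_ ?_ hb
  · exact dd_adj h hu hv hn
  · exact dd_adj h hv hu hn.symm

theorem v2_sound' (h : Sit D ka a n kb j G A B w l) {u v : ℕ} (hu : u < ka + kb - j) (hv : v < ka + kb - j)
    (hb : (v2 D ka a n kb j u v).testBit l = true) : G.edist (w u) (w v) ≤ ((2 : ℕ) : ℕ∞) := by
  unfold v2 at hb
  rw [testBit_lor, Bool.or_eq_true] at hb
  rcases hb with hb | hb
  · exact dd_sound h (by norm_num) hu hv hb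
  · obtain ⟨q, hq, hb⟩ := testBit_orL hb
    have hb := (testBit_ifB1 (testBit_ifB1 hb).2).2
    rw [testBit_land, Bool.and_eq_true] at hb
    have hqm := h.lt_of_sh hq
    exact edist_add (v1_sound h hu hqm hb.1) (v1_sound h hqm hv hb.2)

theorem v2_sound (h : Sit D ka a n kb j G A B w l) {u v : ℕ} (hu : u < ka + kb - j) (hv : v < ka + kb - j)
    (hb : (so u v (v2 D ka a n kb j)).testBit l = true) : G.edist (w u) (w v) ≤ ((2 : ℕ) : ℕ∞) := by
  refine so_sound (P := fun u v => G.edist (w u) (w v) ≤ ((2 : ℕ) : ℕ∞)) (fun x y => edist_symm_le) ?_ ?_ hb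
  · exact v2_sound' h hu hv
  · exact v2_sound' h hv hu

theorem v3_sound' (h : Sit D ka a n kb j G A B w l) {u v : ℕ} (hu : u < ka + kb - j) (hv : v < ka + kb - j)
    (hb : (v3 D ka a n kb j u v).testBit l = true) : G.edist (w u) (w v) ≤ ((3 : ℕ) : ℕ∞) := by
  unfold v3 at hb
  rw [testBit_lor, Bool.or_eq_true] at hb
  rcases hb with hb | hb
  · exact dd_sound h (by norm_num) hu hv hb
  · obtain ⟨q, hq, hb⟩ := testBit_orL hb
    have hb := (testBit_ifB1 (testBit_ifB1 hb).2).2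
    rw [testBit_lor, Bool.or_eq_true, testBit_land, testBit_land, Bool.and_eq_true, Bool.and_eq_true] at hb
    have hqm := h.lt_of_sh hq
    rcases hb with hb | hb
    · exact edist_add (v1_sound h hu hqm hb.1) (v2_sound h hqm hv hb.2)
    · exact edist_add (v2_sound h hu hqm hb.1) (v1_sound h hqm hv hb.2)

theorem v3_sound (h : Sit D ka a n kb j G A B w l) {u v : ℕ} (hu : u < ka + kb - j) (hv : v < ka + kb - j)
    (hb : (so u v (v3 D ka a n kb j)).testBit l = true) : G.edist (w u) (w v) ≤ ((3 : ℕ) : ℕ∞) := by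
  refine so_sound (P := fun u v => G.edist (w u) (w v) ≤ ((3 : ℕ) : ℕ∞)) (fun x y => edist_symm_le) ?_ ?_ hb
  · exact v3_sound' h hu hv
  · exact v3_sound' h hv hu

theorem V_sound (h : Sit D ka a n kb j G A B w l) {t u v : ℕ} (hu : u < ka + kb - j) (hv : v < ka + kb - j)
    (hb : (B4.V D ka a n kb j t u v).testBit l = true) : G.edist (w u) (w v) ≤ (t : ℕ∞) := by
  unfold B4.V at hb
  rcases testBit_ifB hb with ⟨e, _⟩ | ⟨_, hb⟩
  · rw [Nat.eq_of_beq_eq_true e, SimpleGraph.edist_self]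
    exact zero_le
  rcases testBit_ifB hb with ⟨e, hb⟩ | ⟨_, hb⟩
  · rw [Nat.eq_of_beq_eq_true e]
    exact v1_sound h hu hv hb
  rcases testBit_ifB hb with ⟨e, hb⟩ | ⟨_, hb⟩
  · rw [Nat.eq_of_beq_eq_true e]
    exact v2_sound h hu hv hb
  obtain ⟨e, hb⟩ := testBit_ifB0 hb
  rw [Nat.eq_of_beq_eq_true e]
  exact v3_sound h hu hv hb

theorem V_adj (h : Sit D ka a n kb j G A B w l) {u v : ℕ} (hu : u < ka + kb - j) (hv : v < ka + kb - j)
    (hn : u ≠ v) (hb : (B4.V D ka a n kb j 1 u v).testBit l = true) : (A ⊔ B).Adj (w u) (w v) := by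
  unfold B4.V at hb
  rcases testBit_ifB hb with ⟨e, _⟩ | ⟨_, hb⟩
  · exact absurd (Nat.eq_of_beq_eq_true e) hn
  rcases testBit_ifB hb with ⟨_, hb⟩ | ⟨e, _⟩
  · exact v1_adj h hu hv hn hb
  · simp at e

/-! ## Extension to all corners of the union -/

theorem up_sound (h : Sit D ka a n kb j G A B w l) {X : Bool} {e : ℕ → ℕ → ℕ} {Q : ℕ → V → Prop}
    (hQ : ∀ (a b : ℕ) (x y : V), G.edist x y ≤ (b : ℕ∞) → Q a x → Q (a + b) y)
    (he : ∀ s q, s ≤ 3 → isX ka j X q = true → q < ka + kb - j → (e s q).testBit l = true → Q s (w q))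
    {t u : ℕ} (ht : t ≤ 3) (hu : u < ka + kb - j) (hb : (up D ka a n kb j X e t u).testBit l = true) :
    Q t (w u) := by
  unfold up at hb
  rw [testBit_lor, Bool.or_eq_true] at hb
  rcases hb with hb | hb
  · obtain ⟨h1, h2⟩ := testBit_ifB0 hb
    exact he t u ht h1 hu h2
  · obtain ⟨q, hq, hb⟩ := testBit_orL hb
    obtain ⟨s, hs, hb⟩ := testBit_orL (testBit_ifB1 hb).2
    obtain ⟨h1, h2⟩ := testBit_lz hb
    have hs := mem_idx hs
    rw [force_simp] at h2
    have hqm := h.lt_of_sh hq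
    have h3 := he s q (by omega) (isX_sh hq) hqm h1
    have h4 := hQ s (Nat.sub t s) _ _ (V_sound h hqm hu h2) h3
    have e1 : s + Nat.sub t s = t := by
      show s + (t - s) = t
      omega
    rwa [e1] at h4

theorem fT_sound (h : Sit D ka a n kb j G A B w l) {X : Bool} {t u : ℕ} (ht : t ≤ 3) (hu : u < ka + kb - j)
    (hb : (fT D ka a n kb j X t u).testBit l = true) :
    ∃ T, (side A B X).IsNClique 3 T ∧ Near G (w u) T t := by
  refine up_sound h (Q := fun t x => ∃ T, (side A B X).IsNClique 3 T ∧ Near G x T t) ?_ ?_ ht hu hb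
  · rintro a b x y hd ⟨T, h1, h2⟩
    exact ⟨T, h1, near_trans hd h2⟩
  · intro s q hs hq hqm hb
    exact h.tri X s q hs hq hqm hb

theorem pth_trans {H : SimpleGraph V} {x y z z' : V} {t b : ℕ} (hd : G.edist z z' ≤ (b : ℕ∞))
    (hp : Pth G H x y z t) : Pth G H x y z' (t + b) := by
  intro h1 h2
  obtain ⟨T, h3, h4⟩ := hp h1 h2
  exact ⟨T, h3, near_trans hd h4⟩

theorem fP_sound (h : Sit D ka a n kb j G A B w l) {X : Bool} {i x t u : ℕ} (ht : t ≤ 3)
    (hiX : isX ka j X i = true) (hxX : isX ka j X x = true) (hi : i < ka + kb - j) (hx : x < ka + kb - j)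
    (hn : i ≠ x) (hu : u < ka + kb - j) (hb : (fP D ka a n kb j X i x t u).testBit l = true) :
    Pth G (side A B X) (w i) (w x) (w u) t := by
  refine up_sound h (Q := fun t z => Pth G (side A B X) (w i) (w x) z t) ?_ ?_ ht hu hb
  · intro a b x y hd hp
    exact pth_trans hd hp
  · intro s q hs hq hqm hb
    exact h.pth X s i x q hs hiX hxX hq hi hx hqm hn hb

theorem fE_sound (h : Sit D ka a n kb j G A B w l) {X : Bool} {p t u : ℕ} (ht : t ≤ 3)
    (hpX : isX ka j X p = true) (hp : p < ka + kb - j)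
    (hu : u < ka + kb - j) (hb : (fE D ka a n kb j X p t u).testBit l = true) :
    Two G (side A B X) (w p) (w u) t := by
  refine up_sound h (Q := fun t z => Two G (side A B X) (w p) z t) ?_ ?_ ht hu hb
  · intro a b x y hd hp
    exact g_two_right hd hp
  · intro s q hs hq hqm hb
    exact h.two X s p q hs hpX hq hp hqm hb

theorem fM_sound (h : Sit D ka a n kb j G A B w l) {X : Bool} {t u v : ℕ} (ht : t ≤ 3)
    (hu : u < ka + kb - j) (hv : v < ka + kb - j) (hb : (fM D ka a n kb j X t u v).testBit l = true) :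
    Two G (side A B X) (w u) (w v) t := by
  refine up_sound h (Q := fun t z => Two G (side A B X) z (w v) t) ?_ ?_ ht hu hb
  · intro a b x y hd hp
    exact g_two_left hd hp
  · intro s q hs hq hqm hb
    exact fE_sound h hs hq hqm hv hb

theorem fC_sound (h : Sit D ka a n kb j G A B w l) {i x t u : ℕ} (ht : t ≤ 3) (hi : i ∈ shL ka j)
    (hx : x ∈ shL ka j) (hn : i ≠ x) (hu : u < ka + kb - j)
    (hb : (fC D ka a n kb j i x t u).testBit l = true) : ∃ T, Cre A B (w i) (w x) T ∧ Near G (w u) T t := by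
  unfold fC at hb
  rw [testBit_lor, Bool.or_eq_true] at hb
  rcases hb with hb | hb
  · obtain ⟨h1, h2⟩ := testBit_lz hb
    have h3 : A.Adj (w i) (w x) := h.adj true i x (isX_sh hi) (isX_sh hx) (h.lt_of_sh hi) (h.lt_of_sh hx) hn h1
    obtain ⟨T, h4, h5⟩ := fP_sound h ht (isX_sh hi) (isX_sh hx) (h.lt_of_sh hi) (h.lt_of_sh hx) hn hu h2 (h.hA h3)
      (fun h6 => h.dis _ _ h3 h6)
    exact ⟨T, Or.inl ⟨h3, h4⟩, h5⟩
  · obtain ⟨h1, h2⟩ := testBit_lz hb
    have h3 : B.Adj (w i) (w x) := h.adj false i x (isX_sh hi) (isX_sh hx) (h.lt_of_sh hi) (h.lt_of_sh hx) hn h1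
    obtain ⟨T, h4, h5⟩ := fP_sound h ht (isX_sh hi) (isX_sh hx) (h.lt_of_sh hi) (h.lt_of_sh hx) hn hu h2 (h.hB h3)
      (fun h6 => h.dis _ _ h6 h3)
    exact ⟨T, Or.inr ⟨h3, h4⟩, h5⟩

theorem mem_prL {p : ℕ × ℕ} (h : p ∈ prL ka j) : p.1 ∈ shL ka j ∧ p.2 ∈ shL ka j ∧ p.1 < p.2 := by
  unfold prL at h
  rw [List.mem_flatMap] at h
  obtain ⟨i, hi, h⟩ := h
  rw [List.mem_filterMap] at h
  obtain ⟨x, hx, h⟩ := h
  rw [ifB_eq] at h
  split at h
  · simp at h
  · rename_i hle
    have hlt : i < x := by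
      by_contra hc
      exact hle (Nat.ble_eq ▸ (Nat.not_lt.1 hc))
    simp only [Option.some.injEq] at h
    subst h
    exact ⟨hi, hx, hlt⟩

theorem fCs_sound (h : Sit D ka a n kb j G A B w l) {t u : ℕ} (ht : t ≤ 3) (hu : u < ka + kb - j)
    (hb : (fCs D ka a n kb j t u).testBit l = true) : ∃ x y T, Cre A B x y T ∧ Near G (w u) T t := by
  obtain ⟨p, hp, hb⟩ := testBit_orP hb
  obtain ⟨h1, h2, h3⟩ := mem_prL hp
  obtain ⟨T, h4, h5⟩ := fC_sound h ht h1 h2 h3.ne hu hb
  exact ⟨_, _, T, h4, h5⟩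

/-! ## Contradictions -/

theorem Sit.far (h : Sit D ka a n kb j G A B w l) {T S : Finset V} (hT : G.IsNClique 3 T) (hS : G.IsNClique 3 S)
    (hn : T ≠ S) {x : V} {a b : ℕ} (hx : Near G x T a) (hy : Near G x S b) (hs : a + b ≤ 3) : False :=
  B4.far h.apart hT hS hn hx hy (c := 0) (by rw [SimpleGraph.edist_self]; exact zero_le) (by omega)

theorem neAB (dis : ∀ u v, A.Adj u v → B.Adj u v → False) {T S : Finset V} (hT : A.IsNClique 3 T)
    (hS : B.IsNClique 3 S) : T ≠ S := by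
  rintro rfl
  rw [SimpleGraph.is3Clique_iff] at hT
  obtain ⟨x, y, z, h1, h2, h3, rfl⟩ := hT
  rw [SimpleGraph.is3Clique_triple_iff] at hS
  exact dis _ _ h1 hS.1

theorem Sit.supG (h : Sit D ka a n kb j G A B w l) : A ⊔ B ≤ G := sup_le h.hA h.hB

theorem cre_ne_side (dis : ∀ u v, A.Adj u v → B.Adj u v → False) {X : Bool} {x y : V} {T S : Finset V}
    (hT : (side A B X).IsNClique 3 T) (hS : Cre A B x y S) : T ≠ S := by
  rintro rfl
  cases X
  · exact cre_notB dis hS hT
  · exact cre_notA dis hS hT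

theorem cf1_sound (h : Sit D ka a n kb j G A B w l) {i x : ℕ} (hi : i ∈ shL ka j) (hx : x ∈ shL ka j) (hn : i ≠ x) :
    (cf1 D ka a n kb j i x).testBit l = true → False := by
  intro hb
  unfold cf1 at hb
  rw [testBit_lor, Bool.or_eq_true] at hb
  have him := h.lt_of_sh hi
  have hxm := h.lt_of_sh hx
  rcases hb with hb | hb
  · rw [testBit_land, Bool.and_eq_true] at hb
    exact h.dis _ _ (h.adj true i x (isX_sh hi) (isX_sh hx) him hxm hn hb.1)
      (h.adj false i x (isX_sh hi) (isX_sh hx) him hxm hn hb.2)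
  · obtain ⟨t, ht, hb⟩ := testBit_orL hb
    have ht : t ≤ 2 := by
      simp only [List.mem_cons, List.not_mem_nil, or_false] at ht
      omega
    rw [force_simp] at hb
    obtain ⟨h1, h2⟩ := testBit_lz hb
    rw [testBit_lor, Bool.or_eq_true] at h1
    have h3 := V_sound h him hxm h2
    have h4 : ∃ X, Two G (side A B X) (w i) (w x) t := by
      rcases h1 with h1 | h1
      · exact ⟨true, h.two true t i x (by omega) (isX_sh hi) (isX_sh hx) him hxm h1⟩
      · exact ⟨false, h.two false t i x (by omega) (isX_sh hi) (isX_sh hx) him hxm h1⟩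
    obtain ⟨X, T, S, h5, h6, h7, p, q, h8, h9, h10⟩ := h4
    refine B4.far h.apart (clique_mono (h.side_leG X) h6) (clique_mono (h.side_leG X) h7) h5 h9 h10 h3 ?_
    have e : Nat.sub 3 t = 3 - t := rfl
    rw [e]
    omega

theorem cf2_sound (h : Sit D ka a n kb j G A B w l) {t s u : ℕ} (hts : t + s = 3) (hu : u < ka + kb - j) :
    (cf2 D ka a n kb j t s u).testBit l = true → False := by
  intro hb
  unfold cf2 at hb
  rw [testBit_lor, Bool.or_eq_true] at hb
  rcases hb with hb | hb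
  · obtain ⟨h1, h2⟩ := testBit_lz hb
    obtain ⟨T, h3, h4⟩ := fT_sound h (by omega) hu h1
    obtain ⟨S, h5, h6⟩ := fT_sound h (by omega) hu h2
    exact h.far (clique_mono (h.side_leG true) h3) (clique_mono (h.side_leG false) h5) (neAB h.dis h3 h5) h4 h6
      (by omega)
  · obtain ⟨h1, h2⟩ := testBit_lz hb
    obtain ⟨x, y, S, h3, h4⟩ := fCs_sound h (by omega) hu h1
    rw [testBit_lor, Bool.or_eq_true] at h2
    have h5 : ∃ X T, (side A B X).IsNClique 3 T ∧ Near G (w u) T t := by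
      rcases h2 with h2 | h2
      · exact ⟨true, fT_sound h (by omega) hu h2⟩
      · exact ⟨false, fT_sound h (by omega) hu h2⟩
    obtain ⟨X, T, h6, h7⟩ := h5
    exact h.far (clique_mono (h.side_leG X) h6) (clique_mono h.supG (cre_clique h3)) (cre_ne_side h.dis h6 h3) h7 h4
      (by omega)

theorem cc_sound (h : Sit D ka a n kb j G A B w l) {s : List (ℕ × ℕ)} (hs : s.Nodup)
    (hm : ∀ p ∈ s, p ∈ prL ka j) : (cc D ka a n kb j s).testBit l = true → False := by
  induction s with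
  | nil =>
    intro hb
    simp [cc] at hb
  | cons p s ih =>
    intro hb
    have e : cc D ka a n kb j (p :: s) = Nat.lor (cc D ka a n kb j s) (orP s fun i x => orL (shL ka j) fun u =>
        orL [0, 1, 2, 3] fun t => lz (fC D ka a n kb j p.1 p.2 t u)
          (force (Nat.sub 3 t) fun s => fC D ka a n kb j i x s u)) := rfl
    rw [e, testBit_lor, Bool.or_eq_true] at hb
    rw [List.nodup_cons] at hs
    rcases hb with hb | hb
    · exact ih hs.2 (fun q hq => hm q (List.mem_cons_of_mem _ hq)) hb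
    · obtain ⟨q, hq, hb⟩ := testBit_orP hb
      obtain ⟨u, hu, hb⟩ := testBit_orL hb
      obtain ⟨t, ht, hb⟩ := testBit_orL hb
      have ht : t ≤ 3 := by
        simp only [List.mem_cons, List.not_mem_nil, or_false] at ht
        omega
      obtain ⟨h1, h2⟩ := testBit_lz hb
      rw [force_simp] at h2
      obtain ⟨p1, p2, p3⟩ := mem_prL (hm p (by simp))
      obtain ⟨q1, q2, q3⟩ := mem_prL (hm q (List.mem_cons_of_mem _ hq))
      have e3 : Nat.sub 3 t = 3 - t := rfl
      obtain ⟨T, h3, h4⟩ := fC_sound h ht p1 p2 p3.ne (h.lt_of_sh hu) h1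
      obtain ⟨S, h5, h6⟩ := fC_sound h (by rw [e3]; omega) q1 q2 q3.ne (h.lt_of_sh hu) h2
      refine h.far (clique_mono h.supG (cre_clique h3)) (clique_mono h.supG (cre_clique h5)) ?_ h4 h6
        (by rw [e3]; omega)
      rintro rfl
      have hpq : p ≠ q := fun e => hs.1 (e ▸ hq)
      rcases cre_pair h.dis h3 h5 with ⟨e1, e2⟩ | ⟨e1, e2⟩
      · have e1 := h.inj _ _ (h.lt_of_sh p1) (h.lt_of_sh q1) e1
        have e2 := h.inj _ _ (h.lt_of_sh p2) (h.lt_of_sh q2) e2
        exact hpq (Prod.ext e1 e2)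
      · have e1 := h.inj _ _ (h.lt_of_sh p1) (h.lt_of_sh q2) e1
        have e2 := h.inj _ _ (h.lt_of_sh p2) (h.lt_of_sh q1) e2
        omega

theorem prL_nodup (hk : ka ≤ 5) (hj : j ≤ ka) : (prL ka j).Nodup := by
  interval_cases ka <;> interval_cases j <;> decide

theorem conf_sound (h : Sit D ka a n kb j G A B w l) : (conf D ka a n kb j).testBit l = false := by
  rw [← Bool.not_eq_true]
  intro hb
  unfold conf at hb
  rw [testBit_lor, Bool.or_eq_true, testBit_lor, Bool.or_eq_true] at hb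
  rcases hb with hb | hb | hb
  · obtain ⟨p, hp, hb⟩ := testBit_orP hb
    obtain ⟨h1, h2, h3⟩ := mem_prL hp
    exact cf1_sound h h1 h2 h3.ne hb
  · obtain ⟨u, hu, hb⟩ := testBit_orL hb
    obtain ⟨t, ht, hb⟩ := testBit_orL hb
    have hu : u < ka + kb - j := mem_idx hu
    have ht : t ≤ 3 := by
      simp only [List.mem_cons, List.not_mem_nil, or_false] at ht
      omega
    rw [force_simp] at hb
    have e3 : Nat.sub 3 t = 3 - t := rfl
    exact cf2_sound h (by rw [e3]; omega) hu hb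
  · exact cc_sound h (prL_nodup h.ka5 h.jka) (fun p hp => hp) hb

/-! ## The facts about the union -/

def okF : Fact → Bool
  | .adj i x => decide (i < x)
  | .d2 i x => decide (i < x)
  | .d3 i x => decide (i < x)
  | .chy i x => decide (i < x)
  | .tri _ t => decide (t ≤ 3)
  | .two _ _ t => decide (t ≤ 3)
  | .pth i x _ t => decide (i < x) && decide (t ≤ 3)
  | _ => true

theorem okF_all : decL.all okF = true := by decide +kernel

theorem okF_dec (f : ℕ) : okF (dec f) = true := by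
  unfold dec
  rcases lt_or_ge f decL.length with h | h
  · rw [List.getD_eq_getElem _ _ h]
    exact List.all_eq_true.1 okF_all _ (List.getElem_mem h)
  · rw [List.getD_eq_default _ _ h]
    rfl

theorem dec_ok (f : ℕ) : (∀ i x, dec f = .adj i x → i < x) ∧ (∀ i x, dec f = .d2 i x → i < x) ∧
    (∀ i x, dec f = .d3 i x → i < x) ∧ (∀ i x, dec f = .chy i x → i < x) ∧ (∀ i t, dec f = .tri i t → t ≤ 3) ∧
    (∀ i x t, dec f = .two i x t → t ≤ 3) ∧ (∀ i x r t, dec f = .pth i x r t → i < x ∧ t ≤ 3) := by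
  have h := okF_dec f
  refine ⟨?_, ?_, ?_, ?_, ?_, ?_, ?_⟩ <;> intros <;> simp_all [okF]

theorem rt1_sound {rt : List ℕ} {i : ℕ} {k : ℕ → ℕ} (h : (rt1 rt i k).testBit l = true) :
    i < rt.length ∧ (k (rt.getD i 0)).testBit l = true := by
  unfold rt1 at h
  obtain ⟨h1, h2⟩ := testBit_ifB0 h
  rw [force_simp] at h2
  exact ⟨Nat.le_of_ble_eq_true h1, h2⟩

theorem getD_lt {rt : List ℕ} {m : ℕ} (hrt1 : ∀ u ∈ rt, u < m) {i : ℕ} (hi : i < rt.length) : rt.getD i 0 < m := by
  rw [List.getD_eq_getElem _ _ hi]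
  exact hrt1 _ (List.getElem_mem hi)

theorem g_getD_ne {rt : List ℕ} (hrt : rt.Nodup) {i x : ℕ} (hi : i < rt.length) (hx : x < rt.length) (hn : i ≠ x) :
    rt.getD i 0 ≠ rt.getD x 0 := by
  rw [List.getD_eq_getElem _ _ hi, List.getD_eq_getElem _ _ hx]
  intro e
  exact hn ((List.Nodup.getElem_inj_iff hrt).1 e)

theorem rChy1_sound (h : Sit D ka a n kb j G A B w l) {i x : ℕ} {X : Bool} (hi : i < ka + kb - j)
    (hx : x < ka + kb - j) (hn : i ≠ x) (hb : (rChy1 D ka a n kb j i x X).testBit l = true)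
    (hG : G.Adj (w i) (w x)) (hH : ¬(A ⊔ B).Adj (w i) (w x)) : ∃ T, PathT (A ⊔ B) (w i) (w x) T := by
  unfold rChy1 at hb
  obtain ⟨h1, h2⟩ := testBit_ifB0 hb
  rw [andB_eq, Bool.and_eq_true] at h1
  obtain ⟨T, h3, _⟩ := h.pth X 0 i x i (by norm_num) h1.1 h1.2 h1.1 hi hx hi hn h2 hG
    (fun h4 => hH (side_le X h4))
  exact ⟨T, pathT_mono (side_le X) h3⟩

theorem rPth1_sound (h : Sit D ka a n kb j G A B w l) {i x t u : ℕ} {X : Bool} (ht : t ≤ 3) (hi : i < ka + kb - j)
    (hx : x < ka + kb - j) (hn : i ≠ x) (hu : u < ka + kb - j)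
    (hb : (rPth1 D ka a n kb j i x t u X).testBit l = true)
    (hG : G.Adj (w i) (w x)) (hH : ¬(A ⊔ B).Adj (w i) (w x)) :
    ∃ T, PathT (A ⊔ B) (w i) (w x) T ∧ Near G (w u) T t := by
  unfold rPth1 at hb
  obtain ⟨h1, h2⟩ := testBit_ifB0 hb
  rw [andB_eq, Bool.and_eq_true] at h1
  obtain ⟨T, h3, h5⟩ := fP_sound h ht h1.1 h1.2 hi hx hn hu h2 hG (fun h4 => hH (side_le X h4))
  exact ⟨T, pathT_mono (side_le X) h3, h5⟩

theorem rChy_sound (h : Sit D ka a n kb j G A B w l) {i x : ℕ} (hi : i < ka + kb - j)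
    (hx : x < ka + kb - j) (hn : i ≠ x) (hb : (rChy D ka a n kb j i x).testBit l = true)
    (hG : G.Adj (w i) (w x)) (hH : ¬(A ⊔ B).Adj (w i) (w x)) : ∃ T, PathT (A ⊔ B) (w i) (w x) T := by
  unfold rChy at hb
  simp only [testBit_lor, Bool.or_eq_true] at hb
  rcases hb with hb | hb | hb | hb
  · exact (hH (V_adj h hi hx hn hb)).elim
  · exact rChy1_sound h hi hx hn hb hG hH
  · exact rChy1_sound h hi hx hn hb hG hH
  · obtain ⟨c, hc, hb⟩ := testBit_orL hb
    obtain ⟨e1, hb⟩ := testBit_ifB1 hb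
    obtain ⟨e2, hb⟩ := testBit_ifB1 hb
    obtain ⟨h1, h2⟩ := testBit_lz hb
    have hcm := h.lt_of_sh hc
    have n1 : i ≠ c := by rintro rfl; simp at e1
    have n2 : c ≠ x := by rintro rfl; simp at e2
    exact ⟨_, w c, V_adj h hi hcm n1 h1, V_adj h hcm hx n2 h2, rfl⟩

theorem near_self {x : V} {T : Finset V} {t : ℕ} {y : V} (hy : y ∈ T) (hd : G.edist y x ≤ (t : ℕ∞)) :
    Near G x T t := ⟨y, hy, by rwa [SimpleGraph.edist_comm]⟩

theorem rPth_sound (h : Sit D ka a n kb j G A B w l) {i x t u : ℕ} (ht : t ≤ 3) (hi : i < ka + kb - j)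
    (hx : x < ka + kb - j) (hn : i ≠ x) (hu : u < ka + kb - j)
    (hb : (rPth D ka a n kb j i x t u).testBit l = true) : Pth G (A ⊔ B) (w i) (w x) (w u) t := by
  intro hG hH
  unfold rPth at hb
  simp only [testBit_lor, Bool.or_eq_true] at hb
  rcases hb with hb | hb | hb | hb
  · exact (hH (V_adj h hi hx hn hb)).elim
  · exact rPth1_sound h ht hi hx hn hu hb hG hH
  · exact rPth1_sound h ht hi hx hn hu hb hG hH
  · obtain ⟨c, hc, hb⟩ := testBit_orL hb
    obtain ⟨e1, hb⟩ := testBit_ifB1 hb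
    obtain ⟨e2, hb⟩ := testBit_ifB1 hb
    obtain ⟨h1, hb⟩ := testBit_lz hb
    obtain ⟨h2, h3⟩ := testBit_lz hb
    have hcm := h.lt_of_sh hc
    have n1 : i ≠ c := by rintro rfl; simp at e1
    have n2 : c ≠ x := by rintro rfl; simp at e2
    refine ⟨{w i, w c, w x}, ⟨w c, V_adj h hi hcm n1 h1, V_adj h hcm hx n2 h2, rfl⟩, ?_⟩
    simp only [testBit_lor, Bool.or_eq_true] at h3
    rcases h3 with h3 | h3 | h3
    · exact near_self (y := w i) (by simp) (V_sound h hi hu h3)
    · exact near_self (y := w x) (by simp) (V_sound h hx hu h3)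
    · exact near_self (y := w c) (by simp) (V_sound h hcm hu h3)

/-- Two sources of triangles. -/
theorem two_of (h : Sit D ka a n kb j G A B w l) {X : Bool} {u v s t : ℕ} (hs : s ≤ 3) (ht : t ≤ 3)
    (hu : u < ka + kb - j) (hv : v < ka + kb - j) (h1 : (fT D ka a n kb j X s u).testBit l = true)
    (h2 : (fT D ka a n kb j (!X) t v).testBit l = true ∨ (fCs D ka a n kb j t v).testBit l = true) :
    Two G (A ⊔ B) (w u) (w v) (s + t) := by
  obtain ⟨T, h3, h4⟩ := fT_sound h hs hu h1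
  rcases h2 with h2 | h2
  · obtain ⟨S, h5, h6⟩ := fT_sound h ht hv h2
    refine ⟨T, S, ?_, clique_mono (side_le X) h3, clique_mono (side_le (!X)) h5, s, t, le_rfl, h4, h6⟩
    cases X
    · exact (neAB h.dis h5 h3).symm
    · exact neAB h.dis h3 h5
  · obtain ⟨x, y, S, h5, h6⟩ := fCs_sound h ht hv h2
    exact ⟨T, S, cre_ne_side h.dis h3 h5, clique_mono (side_le X) h3, cre_clique h5, s, t, le_rfl, h4, h6⟩

theorem rTwo1_sound (h : Sit D ka a n kb j G A B w l) {x y s t : ℕ} (hs : s ≤ 3) (ht : t ≤ 3)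
    (hx : x < ka + kb - j) (hy : y < ka + kb - j) (hb : (rTwo1 D ka a n kb j x y t s).testBit l = true) :
    Two G (A ⊔ B) (w x) (w y) (t + s) := by
  unfold rTwo1 at hb
  simp only [testBit_lor, Bool.or_eq_true] at hb
  rcases hb with hb | hb | hb
  · obtain ⟨h1, h2⟩ := testBit_lz hb
    rw [testBit_lor, Bool.or_eq_true] at h2
    exact two_of h ht hs hx hy h1 h2
  · obtain ⟨h1, h2⟩ := testBit_lz hb
    rw [testBit_lor, Bool.or_eq_true] at h2
    exact two_of h ht hs hx hy h1 h2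
  · obtain ⟨h1, h2⟩ := testBit_lz hb
    rw [testBit_lor, Bool.or_eq_true] at h2
    rw [add_comm]
    rcases h2 with h2 | h2
    · exact g_two_symm (two_of h hs ht hy hx h2 (Or.inr h1))
    · exact g_two_symm (two_of h hs ht hy hx h2 (Or.inr h1))

theorem rTwo_sound (h : Sit D ka a n kb j G A B w l) {x y t : ℕ} (ht : t ≤ 3)
    (hx : x < ka + kb - j) (hy : y < ka + kb - j) (hb : (rTwo D ka a n kb j x y t).testBit l = true) :
    Two G (A ⊔ B) (w x) (w y) t := by
  unfold rTwo at hb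
  simp only [testBit_lor, Bool.or_eq_true] at hb
  rcases hb with hb | hb | hb
  · obtain ⟨m, hm, hb⟩ := testBit_orL hb
    rw [force_simp] at hb
    have hm : m < t + 1 := mem_idx hm
    have e : Nat.sub t m = t - m := rfl
    have h1 := rTwo1_sound h (by rw [e]; omega) (by omega) hx hy hb
    rwa [e, show m + (t - m) = t by omega] at h1
  · exact two_mono (side_le true) (fM_sound h ht hx hy hb)
  · exact two_mono (side_le false) (fM_sound h ht hx hy hb)

/-- The facts about the union, except for the colours. -/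
theorem RF_sound (h : Sit D ka a n kb j G A B w l) {rt : List ℕ} (hrt : rt.Nodup) (hrt1 : ∀ u ∈ rt, u < ka + kb - j)
    {f : ℕ} (hf : ∀ p, dec f ≠ .col p) (hb : (RF D ka a n kb j rt (dec f)).testBit l = true) :
    Holds G (A ⊔ B) rt.length (fun t => w (rt.getD t 0)) (dec f) := by
  have hok := okF_dec f
  generalize dec f = F at hok hf hb
  cases F with
  | adj i x =>
    obtain ⟨hi, hb⟩ := rt1_sound hb
    obtain ⟨hx, hb⟩ := rt1_sound hb
    have hn : i ≠ x := by simp [okF] at hok; omega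
    exact V_adj h (getD_lt hrt1 hi) (getD_lt hrt1 hx) (g_getD_ne hrt hi hx hn) hb
  | d2 i x =>
    obtain ⟨hi, hb⟩ := rt1_sound hb
    obtain ⟨hx, hb⟩ := rt1_sound hb
    exact V_sound h (getD_lt hrt1 hi) (getD_lt hrt1 hx) hb
  | d3 i x =>
    obtain ⟨hi, hb⟩ := rt1_sound hb
    obtain ⟨hx, hb⟩ := rt1_sound hb
    exact V_sound h (getD_lt hrt1 hi) (getD_lt hrt1 hx) hb
  | chy i x =>
    obtain ⟨hi, hb⟩ := rt1_sound hb
    obtain ⟨hx, hb⟩ := rt1_sound hb
    have hn : i ≠ x := by simp [okF] at hok; omega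
    exact rChy_sound h (getD_lt hrt1 hi) (getD_lt hrt1 hx) (g_getD_ne hrt hi hx hn) hb
  | tri i t =>
    obtain ⟨hi, hb⟩ := rt1_sound hb
    have ht : t ≤ 3 := by simpa [okF] using hok
    simp only [testBit_lor, Bool.or_eq_true] at hb
    rcases hb with hb | hb | hb
    · obtain ⟨T, h1, h2⟩ := fT_sound h ht (getD_lt hrt1 hi) hb
      exact ⟨T, clique_mono (side_le true) h1, h2⟩
    · obtain ⟨T, h1, h2⟩ := fT_sound h ht (getD_lt hrt1 hi) hb
      exact ⟨T, clique_mono (side_le false) h1, h2⟩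
    · obtain ⟨x, y, T, h1, h2⟩ := fCs_sound h ht (getD_lt hrt1 hi) hb
      exact ⟨T, cre_clique h1, h2⟩
  | two i x t =>
    obtain ⟨hi, hb⟩ := rt1_sound hb
    obtain ⟨hx, hb⟩ := rt1_sound hb
    have ht : t ≤ 3 := by simpa [okF] using hok
    exact rTwo_sound h ht (getD_lt hrt1 hi) (getD_lt hrt1 hx) hb
  | pth i x r t =>
    obtain ⟨hi, hb⟩ := rt1_sound hb
    obtain ⟨hx, hb⟩ := rt1_sound hb
    obtain ⟨hr, hb⟩ := rt1_sound hb
    simp only [okF, Bool.and_eq_true, decide_eq_true_eq] at hok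
    exact rPth_sound h hok.2 (getD_lt hrt1 hi) (getD_lt hrt1 hx) (g_getD_ne hrt hi hx (by omega)) (getD_lt hrt1 hr) hb
  | col p => exact absurd rfl (hf p)
  | non => simp [RF] at hb

end Pool.Agent.Lib.MP_8e2345_co.B4
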