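import Pool.Agent.Lib.MP_8e2345_co.B4.Static
import Pool.Agent.Lib.MP_8e2345_co.B4.Data
import Pool.Agent.Lib.MP_8e2345_co.B4.Col
import Pool.Agent.Lib.MP_8e2345_co.B4.Glue

set_option autoImplicit false

namespace Pool.Agent.Lib.MP_8e2345_co.B4

open scoped Classical

variable {V : Type}

/-- The checks which are evaluated by the kernel. -/
structure Good (D : Dat) : Prop where
  K : D.K = 4
  data : ∀ k, 1 ≤ k → k ≤ 4 → ∃ l, chkD D k l = true ∧ ∀ f, D.tab k f = look l f
  edge : Nat.beq (cov (fun c => RE (dec c)) (D.trie 2) 1) 0 = true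
  turn : ∀ k, 1 ≤ k → k ≤ 4 → chkK D k = true
  glue : ∀ ka, 1 ≤ ka → ka ≤ 4 → ∀ r < D.num ka, ∃ a n i, r = a + i ∧ i < n ∧ n + 1 ≤ D.P ∧ chk D ka a n = true

/-! ## Facts whose corners are in the range -/

/-- The corners of the fact are `< k`. -/
def InR (k : ℕ) : Fact → Prop
  | .adj i j => i < k ∧ j < k
  | .d2 i j => i < k ∧ j < k
  | .d3 i j => i < k ∧ j < k
  | .chy i j => i < k ∧ j < k
  | .tri i _ => i < k
  | .two i j _ => i < k ∧ j < k
  | .pth i j r _ => i < k ∧ j < k ∧ r < k
  | .col _ => True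
  | .non => True

theorem holds_congr {G H : SimpleGraph V} {k : ℕ} {c c' : ℕ → V} {F : Fact} (h : ∀ i, i < k → c i = c' i)
    (hr : InR k F) (hF : Holds G H k c F) : Holds G H k c' F := by
  cases F with
  | adj i j => simp only [Holds, InR] at *; rwa [← h i hr.1, ← h j hr.2]
  | d2 i j => simp only [Holds, InR] at *; rwa [← h i hr.1, ← h j hr.2]
  | d3 i j => simp only [Holds, InR] at *; rwa [← h i hr.1, ← h j hr.2]
  | chy i j => simp only [Holds, InR] at *; rwa [← h i hr.1, ← h j hr.2]
  | tri i t => simp only [Holds, InR] at *; rwa [← h i hr]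
  | two i j t => simp only [Holds, InR] at *; rwa [← h i hr.1, ← h j hr.2]
  | pth i j r t => simp only [Holds, InR] at *; rwa [← h i hr.1, ← h j hr.2.1, ← h r hr.2.2]
  | col p =>
    simp only [Holds, ColQ] at *
    obtain ⟨g, h1, h2, h3⟩ := hF
    exact ⟨g, h1, h2, fun i hi => by rw [← h i hi]; exact h3 i hi⟩
  | non => exact hF

theorem rt1_bit {rt : List ℕ} {i l : ℕ} {k : ℕ → ℕ} (h : (rt1 rt i k).testBit l = true) :
    i < rt.length ∧ (k (rt.getD i 0)).testBit l = true := by
  unfold rt1 at h
  obtain ⟨h1, h2⟩ := testBit_ifB0 h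
  exact ⟨Nat.le_of_ble_eq_true h1, by simpa using h2⟩

theorem RR_inR {D : Dat} {k r : ℕ} {rt : List ℕ} {F : Fact} (h : (RR D k rt F).testBit r = true) :
    InR rt.length F := by
  cases F with
  | adj i j => exact ⟨(rt1_bit h).1, (rt1_bit (rt1_bit h).2).1⟩
  | d2 i j => exact ⟨(rt1_bit h).1, (rt1_bit (rt1_bit h).2).1⟩
  | d3 i j => exact ⟨(rt1_bit h).1, (rt1_bit (rt1_bit h).2).1⟩
  | chy i j => exact ⟨(rt1_bit h).1, (rt1_bit (rt1_bit h).2).1⟩
  | tri i t => exact (rt1_bit h).1
  | two i j t => exact ⟨(rt1_bit h).1, (rt1_bit (rt1_bit h).2).1⟩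
  | pth i j r t => exact ⟨(rt1_bit h).1, (rt1_bit (rt1_bit h).2).1, (rt1_bit (rt1_bit (rt1_bit h).2).2).1⟩
  | col p => trivial
  | non => trivial

theorem RF_inR {D : Dat} {ka a n kb j l : ℕ} {rt : List ℕ} {F : Fact}
    (h : (RF D ka a n kb j rt F).testBit l = true) : InR rt.length F := by
  cases F with
  | adj i j => exact ⟨(rt1_bit h).1, (rt1_bit (rt1_bit h).2).1⟩
  | d2 i j => exact ⟨(rt1_bit h).1, (rt1_bit (rt1_bit h).2).1⟩
  | d3 i j => exact ⟨(rt1_bit h).1, (rt1_bit (rt1_bit h).2).1⟩
  | chy i j => exact ⟨(rt1_bit h).1, (rt1_bit (rt1_bit h).2).1⟩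
  | tri i t => exact (rt1_bit h).1
  | two i j t => exact ⟨(rt1_bit h).1, (rt1_bit (rt1_bit h).2).1⟩
  | pth i j r t => exact ⟨(rt1_bit h).1, (rt1_bit (rt1_bit h).2).1, (rt1_bit (rt1_bit (rt1_bit h).2).2).1⟩
  | col p => trivial
  | non => trivial

/-! ## The codes of the colour patterns -/

set_option maxRecDepth 20000 in
theorem decL_drop : decL.drop 320 = (List.range 243).map Fact.col := by
  rfl

theorem dec_col (q : ℕ) : dec (cCol q) = .col q ∨ dec (cCol q) = .non := by
  have e : dec (cCol q) = (decL.drop 320).getD q Fact.non := by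
    unfold dec cCol
    rw [List.getD_eq_getElem?_getD, List.getD_eq_getElem?_getD, List.getElem?_drop]
    rfl
  rw [e, decL_drop]
  by_cases hq : q < 243
  · left
    rw [List.getD_eq_getElem?_getD, List.getElem?_map, List.getElem?_range hq]
    rfl
  · right
    rw [List.getD_eq_default]
    simpa using hq

theorem typ_col {D : Dat} {G H : SimpleGraph V} {k r : ℕ} {c : ℕ → V} (h : Typ D G H k c r) (q : ℕ)
    (hq : (D.tab k (cCol q)).testBit r = true) : ColQ H k c (dig q) := by
  have h1 := h (cCol q) hq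
  rcases dec_col q with e | e
  · rw [e] at h1; exact h1
  · rw [e] at h1; exact h1.elim

/-! ## Change of the corners -/

theorem pth_chy {G H : SimpleGraph V} {x y z : V} {t : ℕ} (h : Pth G H x y z t) :
    G.Adj x y → ¬H.Adj x y → ∃ T, PathT H x y T := fun h1 h2 => by
  obtain ⟨T, hT, _⟩ := h h1 h2
  exact ⟨T, hT⟩

theorem getD_ne {rt : List ℕ} (h : rt.Nodup) {i x : ℕ} (hi : i < rt.length) (hx : x < rt.length) (hn : i ≠ x) :
    rt.getD i 0 ≠ rt.getD x 0 := by
  rw [List.getD_eq_getElem _ _ hi, List.getD_eq_getElem _ _ hx]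
  intro e
  exact hn ((List.Nodup.getElem_inj_iff h).1 e)

theorem getD_mem {rt : List ℕ} {i : ℕ} (hi : i < rt.length) : rt.getD i 0 ∈ rt := by
  rw [List.getD_eq_getElem _ _ hi]; exact List.getElem_mem hi

theorem RR_sound {D : Dat} {G H : SimpleGraph V} {k r : ℕ} {c : ℕ → V} {rt : List ℕ} (hH : H ≤ G)
    (h : Typ D G H k c r) (hk : k ≤ 5) (hrt : rt.Nodup) (hrt1 : ∀ u ∈ rt, u < k) {f : ℕ}
    (hb : (RR D k rt (dec f)).testBit r = true) : Holds G H rt.length (fun t => c (rt.getD t 0)) (dec f) := by
  have hR := RR_inR hb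
  obtain ⟨o1, o2, o3, o4, o5, o6, o7⟩ := dec_ok f
  generalize dec f = F at *
  cases F with
  | adj i x =>
    have hn := (o1 i x rfl).ne
    have hb2 := (rt1_bit (rt1_bit hb).2).2
    exact sadj_sound h hk (hrt1 _ (getD_mem hR.1)) (hrt1 _ (getD_mem hR.2)) (getD_ne hrt hR.1 hR.2 hn) hb2
  | d2 i x =>
    exact sD_sound hH h hk (by norm_num) (hrt1 _ (getD_mem hR.1)) (hrt1 _ (getD_mem hR.2))
      (rt1_bit (rt1_bit hb).2).2
  | d3 i x =>
    exact sD_sound hH h hk (by norm_num) (hrt1 _ (getD_mem hR.1)) (hrt1 _ (getD_mem hR.2))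
      (rt1_bit (rt1_bit hb).2).2
  | chy i x =>
    have hn := (o4 i x rfl).ne
    have hb2 := (rt1_bit (rt1_bit hb).2).2
    rw [testBit_lor, Bool.or_eq_true] at hb2
    rcases hb2 with hb2 | hb2
    · exact fun _ h2 => absurd (sadj_sound h hk (hrt1 _ (getD_mem hR.1)) (hrt1 _ (getD_mem hR.2))
        (getD_ne hrt hR.1 hR.2 hn) hb2) h2
    · exact pth_chy (sN_sound hH h hk (by norm_num) (hrt1 _ (getD_mem hR.1)) (hrt1 _ (getD_mem hR.2))
        (getD_ne hrt hR.1 hR.2 hn) (hrt1 _ (getD_mem hR.1)) hb2)
  | tri i t =>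
    exact sT_sound hH h hk (o5 i t rfl) (hrt1 _ (getD_mem hR)) (rt1_bit hb).2
  | two i x t =>
    exact sM_sound hH h hk (o6 i x t rfl) (hrt1 _ (getD_mem hR.1)) (hrt1 _ (getD_mem hR.2))
      (rt1_bit (rt1_bit hb).2).2
  | pth i x u t =>
    have hn := (o7 i x u t rfl).1.ne
    have hb2 := (rt1_bit (rt1_bit (rt1_bit hb).2).2).2
    rw [testBit_lor, Bool.or_eq_true] at hb2
    rcases hb2 with hb2 | hb2
    · exact fun _ h2 => absurd (sadj_sound h hk (hrt1 _ (getD_mem hR.1)) (hrt1 _ (getD_mem hR.2.1))
        (getD_ne hrt hR.1 hR.2.1 hn) hb2) h2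
    · exact sN_sound hH h hk (o7 i x u t rfl).2 (hrt1 _ (getD_mem hR.1)) (hrt1 _ (getD_mem hR.2.1))
        (getD_ne hrt hR.1 hR.2.1 hn) (hrt1 _ (getD_mem hR.2.2)) hb2
  | col p =>
    exact rrCol_sound hk hrt hrt1 (fun q hq => typ_col h q hq) hb
  | non => simp [RR] at hb

theorem testBit_ones {D : Dat} {k r : ℕ} (hr : r < D.num k) : (ones D k).testBit r = true := by
  have e : ones D k = 2 ^ (D.num k) - 1 := rfl
  rw [e, Nat.testBit_two_pow_sub_one]
  simpa using hr

theorem beq_zero {x l : ℕ} (h : Nat.beq x 0 = true) : x.testBit l = false := by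
  rw [Nat.eq_of_beq_eq_true h]; simp

/-- The disc `H` with the corners `c 0`, ..., `c (k - 1)` has the type `r`, and all facts of `r` are facts about the
corners `< k`. -/
def Typ2 (D : Dat) (G H : SimpleGraph V) (k : ℕ) (c : ℕ → V) (r : ℕ) : Prop :=
  Typ D G H k c r ∧ ∀ f, (D.tab k f).testBit r = true → InR k (dec f)

theorem typ2_congr {D : Dat} {G H : SimpleGraph V} {k r : ℕ} {c c' : ℕ → V} (h : Typ2 D G H k c r)
    (hc : ∀ i, i < k → c i = c' i) : Typ2 D G H k c' r :=
  ⟨fun f hf => holds_congr hc (h.2 f hf) (h.1 f hf), h.2⟩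

/-- The type after a change of the corners. -/
theorem typ_change {D : Dat} (hD : Good D) {G H : SimpleGraph V} {k r : ℕ} {c c' : ℕ → V} {rt : List ℕ} (hH : H ≤ G)
    (h : Typ D G H k c r) (hk : k ≤ 4) (hr : r < D.num k) (hrt : rt.Nodup) (hrt1 : ∀ u ∈ rt, u < k)
    (hl1 : 1 ≤ rt.length) (hl4 : rt.length ≤ 4) (hc : chkR D k rt = true)
    (hcc : ∀ t, t < rt.length → c (rt.getD t 0) = c' t) :
    ∃ r' < D.num rt.length, Typ2 D G H rt.length c' r' := by
  obtain ⟨z, hz, hz1⟩ := cov_sound (beq_zero (l := r) hc) (testBit_ones hr)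
  obtain ⟨l, hl, hl'⟩ := hD.data rt.length hl1 hl4
  obtain ⟨r', hr', hf⟩ := exists_type hl hl' hz
  refine ⟨r', hr', fun f hf1 => ?_, fun f hf1 => RR_inR (hz1 f (hf f hf1))⟩
  have hb := hz1 f (hf f hf1)
  exact holds_congr hcc (RR_inR hb) (RR_sound hH h (by omega) hrt hrt1 hb)

/-! ## Single edges -/

theorem m_dig_lt (p i : ℕ) : dig p i < 3 := by
  unfold dig
  exact Nat.mod_lt _ (by norm_num)

theorem RE_inR {F : Fact} (h : (RE F).testBit 0 = true) : InR 2 F := by
  cases F with
  | adj i x =>
    obtain ⟨h1, _⟩ := testBit_ifB0 h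
    rw [andB_eq, Bool.and_eq_true] at h1
    have e1 := Nat.eq_of_beq_eq_true h1.1
    have e2 := Nat.eq_of_beq_eq_true h1.2
    subst e1; subst e2
    exact ⟨by norm_num, by norm_num⟩
  | col p => trivial
  | non => trivial
  | _ => simp [RE] at h

theorem RE_sound {G : SimpleGraph V} {a b : V} (hab : a ≠ b) (x0 : V) {F : Fact}
    (h : (RE F).testBit 0 = true) : Holds G (SimpleGraph.edge a b) 2 (fun i => [a, b].getD i x0) F := by
  cases F with
  | adj i x =>
    obtain ⟨h1, _⟩ := testBit_ifB0 h
    rw [andB_eq, Bool.and_eq_true] at h1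
    have e1 := Nat.eq_of_beq_eq_true h1.1
    have e2 := Nat.eq_of_beq_eq_true h1.2
    subst e1; subst e2
    simp [Holds, SimpleGraph.edge_adj, hab]
  | col p =>
    obtain ⟨h1, _⟩ := testBit_ifB1 h
    have hd : dig p 0 ≠ dig p 1 := fun e => by rw [e, Nat.beq_refl] at h1; simp at h1
    refine ⟨fun v => if v = a then dig p 0 else dig p 1, fun v => ?_, fun u v huv => ?_, fun i hi => ?_⟩
    · dsimp only; split_ifs <;> exact m_dig_lt _ _
    · rw [SimpleGraph.edge_adj] at huv
      rcases huv.1 with ⟨rfl, rfl⟩ | ⟨rfl, rfl⟩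
      · simpa [hab.symm] using hd
      · simpa [hab.symm] using hd.symm
    · interval_cases i
      · simp
      · simp [hab.symm]
  | _ => simp [RE] at h

theorem typ_edge {D : Dat} (hD : Good D) {G : SimpleGraph V} {a b : V} (hab : a ≠ b) (x0 : V) :
    ∃ r < D.num 2, Typ2 D G (SimpleGraph.edge a b) 2 (fun i => [a, b].getD i x0) r := by
  obtain ⟨z, hz, hz1⟩ := cov_sound (l := 0) (beq_zero hD.edge) (by simp)
  obtain ⟨l, hl, hl'⟩ := hD.data 2 (by norm_num) (by norm_num)
  obtain ⟨r, hr, hf⟩ := exists_type hl hl' hz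
  exact ⟨r, hr, fun f hf1 => RE_sound hab x0 (hz1 f (hf f hf1)), fun f hf1 => RE_inR (hz1 f (hf f hf1))⟩

/-! ## Turns and sublists -/

theorem typ_turn {D : Dat} (hD : Good D) {G H : SimpleGraph V} {a : V} {l : List V} (hH : H ≤ G) (x0 : V)
    (h4 : (a :: l).length ≤ 4) {r : ℕ} (hr : r < D.num (a :: l).length)
    (h : Typ2 D G H (a :: l).length (fun i => (a :: l).getD i x0) r) :
    ∃ r' < D.num (l ++ [a]).length, Typ2 D G H (l ++ [a]).length (fun i => (l ++ [a]).getD i x0) r' := by
  have hl : (a :: l).length = l.length + 1 := rfl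
  have e : (idx (a :: l).length).drop 1 ++ [0] = (List.range l.length).map Nat.succ ++ [0] := by
    rw [idx_eq (by omega), hl, List.range_succ_eq_map]
    rfl
  have hc := hD.turn (a :: l).length (by simp) h4
  unfold chkK at hc
  rw [Bool.and_eq_true, e] at hc
  have hlen : ((List.range l.length).map Nat.succ ++ [0]).length = (l ++ [a]).length := by simp
  have := typ_change (rt := (List.range l.length).map Nat.succ ++ [0]) (c' := fun i => (l ++ [a]).getD i x0)
    hD hH h.1 h4 hr ?_ ?_ ?_ ?_ hc.2 ?_
  · rwa [hlen] at this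
  · rw [List.nodup_append]
    refine ⟨(List.nodup_range).map Nat.succ_injective, List.nodup_singleton 0, ?_⟩
    intro x hx y hy e
    simp at hx hy
    omega
  · intro u hu
    rw [List.mem_append] at hu
    rcases hu with hu | hu
    · simp at hu
      obtain ⟨y, hy, rfl⟩ := hu
      simp; omega
    · simp at hu
      subst hu
      simp
  · simp
  · simpa using h4
  · intro t ht
    rw [hlen] at ht
    simp only [List.length_append, List.length_singleton] at ht
    by_cases h' : t < l.length
    · have e1 : ((List.range l.length).map Nat.succ ++ [0]).getD t 0 = t + 1 := by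
        rw [List.getD_eq_getElem?_getD, List.getElem?_append_left (by simpa using h')]
        simp [h']
      simp only [e1, List.getD_cons_succ]
      rw [List.getD_eq_getElem?_getD, List.getD_eq_getElem?_getD, List.getElem?_append_left h']
    · have ht' : t = l.length := by omega
      subst ht'
      have e1 : ((List.range l.length).map Nat.succ ++ [0]).getD l.length 0 = 0 := by
        rw [List.getD_eq_getElem?_getD, List.getElem?_append_right (by simp)]
        simp
      simp only [e1, List.getD_cons_zero]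
      rw [List.getD_eq_getElem?_getD, List.getElem?_append_right (by simp)]
      simp

theorem map_getD {l : List V} (x0 : V) : l = (List.range l.length).map fun i => l.getD i x0 := by
  apply List.ext_getElem
  · simp
  · intro n h1 h2
    simp [List.getElem?_eq_getElem h1]

theorem typ_forget {D : Dat} (hD : Good D) {G H : SimpleGraph V} {l m : List V} (hH : H ≤ G) (x0 : V)
    (hs : m.Sublist l) (hm : m ≠ []) (h1 : 1 ≤ l.length) (h4 : l.length ≤ 4) {r : ℕ} (hr : r < D.num l.length)
    (h : Typ2 D G H l.length (fun i => l.getD i x0) r) :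
    ∃ r' < D.num m.length, Typ2 D G H m.length (fun i => m.getD i x0) r' := by
  have hs' : m.Sublist ((List.range l.length).map fun i => l.getD i x0) := by
    rw [← map_getD]; exact hs
  obtain ⟨rt, hrt, rfl⟩ := List.sublist_map_iff.1 hs'
  have hne : rt ≠ [] := fun e => hm (by rw [e]; rfl)
  have hc := hD.turn l.length h1 h4
  unfold chkK at hc
  rw [Bool.and_eq_true, List.all_eq_true] at hc
  have hc1 := hc.1 rt (by rw [List.mem_sublists, idx_eq (by omega)]; exact hrt)
  rw [Bool.or_eq_true, List.isEmpty_iff] at hc1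
  have hc2 := hc1.resolve_left hne
  have := typ_change (rt := rt) (c' := fun i => (rt.map fun i => l.getD i x0).getD i x0) hD hH h.1 h4 hr
    (hrt.nodup List.nodup_range) (fun u hu => by simpa using hrt.subset hu)
    (List.length_pos_iff.2 hne) (by have := hrt.length_le; simp at this; omega) hc2 ?_
  · rwa [List.length_map]
  · intro t ht
    rw [List.getD_eq_getElem (rt.map _) _ (by simpa using ht), List.getElem_map, List.getD_eq_getElem rt _ ht]

/-! ## Glueing -/

/-- The corners of the union as a list of numbers. -/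
theorem exists_ends {C E F : List V} (hE : E.Sublist (C.take 1)) (hF : F.Sublist (C.reverse.take 1)) :
    (E = [] ∨ ∃ c C', C = c :: C' ∧ E = [c]) ∧ (F = [] ∨ ∃ c C', C = C' ++ [c] ∧ F = [c]) := by
  constructor
  · cases C with
    | nil => left; simpa using hE
    | cons c C' =>
      rw [List.take_succ_cons, List.take_zero] at hE
      rcases List.sublist_singleton.1 hE with h | h
      · exact Or.inl h
      · exact Or.inr ⟨c, C', rfl, h⟩
  · rcases List.eq_nil_or_concat C with h | ⟨C', c, h⟩
    · left; subst h; simpa using hF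
    · subst h
      rw [List.concat_eq_append, List.reverse_append, List.reverse_singleton, List.singleton_append,
        List.take_succ_cons, List.take_zero] at hF
      rcases List.sublist_singleton.1 hF with h | h
      · exact Or.inl h
      · exact Or.inr ⟨c, C', by simp, h⟩

theorem typ_glue {D : Dat} (hD : Good D) {G A B : SimpleGraph V} {P C Q E F : List V} (x0 : V)
    (hA : A ≤ G) (hB : B ≤ G) (ha : TrianglesApart G 4) (hdis : Disjoint A B)
    (hsh : ∀ v ∈ A.support, v ∈ B.support → v ∈ C)
    (hE : E.Sublist (C.take 1)) (hF : F.Sublist (C.reverse.take 1))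
    (hnd : (P ++ E ++ Q ++ F).Nodup) (hne : P ++ E ++ Q ++ F ≠ []) (h4 : (P ++ E ++ Q ++ F).length ≤ 4)
    (ndA : (P ++ C).Nodup) (lA1 : 1 ≤ (P ++ C).length) (lA4 : (P ++ C).length ≤ 4)
    (sA : ∀ v ∈ P ++ C, v ∈ A.support) {ra : ℕ} (hra : ra < D.num (P ++ C).length)
    (tA : Typ2 D G A (P ++ C).length (fun i => (P ++ C).getD i x0) ra)
    (ndB : (C.reverse ++ Q).Nodup) (lB1 : 1 ≤ (C.reverse ++ Q).length) (lB4 : (C.reverse ++ Q).length ≤ 4)
    (sB : ∀ v ∈ C.reverse ++ Q, v ∈ B.support) {rb : ℕ} (hrb : rb < D.num (C.reverse ++ Q).length)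
    (tB : Typ2 D G B (C.reverse ++ Q).length (fun i => (C.reverse ++ Q).getD i x0) rb) :
    ∃ r < D.num (P ++ E ++ Q ++ F).length,
      Typ2 D G (A ⊔ B) (P ++ E ++ Q ++ F).length (fun i => (P ++ E ++ Q ++ F).getD i x0) r := by
  set ka := (P ++ C).length with hka
  set kb := (C.reverse ++ Q).length with hkb
  set j := C.length with hj
  have ka' : ka = P.length + j := by rw [hka, List.length_append]
  have kb' : kb = j + Q.length := by rw [hkb, List.length_append, List.length_reverse]
  set w : ℕ → V := fun u => (P ++ C ++ Q).getD u x0 with hw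
  have wP : ∀ u, u < P.length → w u = P.getD u x0 := by
    intro u hu
    simp only [hw]
    rw [List.getD_eq_getElem?_getD, List.append_assoc, List.getElem?_append_left hu, List.getD_eq_getElem?_getD]
  have wC : ∀ u, u < j → w (P.length + u) = C.getD u x0 := by
    intro u hu
    simp only [hw]
    rw [List.getD_eq_getElem?_getD, List.append_assoc, List.getElem?_append_right (by omega),
      Nat.add_sub_cancel_left, List.getElem?_append_left hu, List.getD_eq_getElem?_getD]
  have wQ : ∀ u, w (ka + u) = Q.getD u x0 := by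
    intro u
    simp only [hw]
    rw [List.getD_eq_getElem?_getD, List.getElem?_append_right (by omega), ← hka,
      Nat.add_sub_cancel_left, List.getD_eq_getElem?_getD]
  have wA : ∀ i, i < ka → (P ++ C).getD i x0 = w i := by
    intro i hi
    simp only [hw]
    rw [List.getD_eq_getElem?_getD, List.getD_eq_getElem?_getD, List.getElem?_append_left hi]
  have wB : ∀ t, t < kb → (C.reverse ++ Q).getD t x0 = w (bi ka j t) := by
    intro t ht
    have e : bi ka j t = if j ≤ t then ka + t - j else ka - 1 - t := by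
      unfold bi
      rw [ifB_eq]
      simp only [Nat.ble_eq]
      rfl
    rw [e]
    split_ifs with h
    · have e2 : ka + t - j = ka + (t - j) := by omega
      rw [e2, wQ, List.getD_eq_getElem?_getD, List.getElem?_append_right (by simpa using h),
        List.length_reverse, List.getD_eq_getElem?_getD]
    · rw [not_le] at h
      have e2 : ka - 1 - t = P.length + (j - 1 - t) := by omega
      rw [e2, wC _ (by omega), List.getD_eq_getElem?_getD,
        List.getElem?_append_left (by simpa using h), List.getElem?_reverse (by omega), List.getD_eq_getElem?_getD]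
  have ndW : (P ++ C ++ Q).Nodup := by
    rw [List.nodup_append]
    refine ⟨ndA, (List.nodup_append.1 ndB).2.1, ?_⟩
    intro v hv u hu e
    subst e
    have hvA := sA v hv
    have hvB := sB v (List.mem_append_right _ hu)
    have hvC := hsh v hvA hvB
    exact (List.nodup_append.1 ndB).2.2 v (List.mem_reverse.2 hvC) v hu rfl
  have lenW : (P ++ C ++ Q).length = ka + kb - j := by
    rw [List.length_append, ← hka]; omega
  have inj : ∀ u v, u < ka + kb - j → v < ka + kb - j → w u = w v → u = v := by
    intro u v hu hv e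
    simp only [hw] at e
    rw [← lenW] at hu hv
    rw [List.getD_eq_getElem _ _ hu, List.getD_eq_getElem _ _ hv] at e
    exact (List.Nodup.getElem_inj_iff ndW).1 e
  obtain ⟨cE, cF⟩ := exists_ends hE hF
  -- the two ends
  obtain ⟨e, eE, eC⟩ : ∃ e : Bool, (bif e then [ka - j] else []).map w = E ∧ (e = true → 1 ≤ j) := by
    rcases cE with h | ⟨c, C', h1, h2⟩
    · exact ⟨false, by simp [h], by simp⟩
    · refine ⟨true, ?_, fun _ => by rw [hj, h1]; simp⟩
      have h3 : w (ka - j) = c := by
        have : ka - j = P.length + 0 := by omega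
        rw [this, wC 0 (by rw [hj, h1]; simp), h1]
        rfl
      simp [h3, h2]
  obtain ⟨f, fE, fC⟩ : ∃ f : Bool, (bif f then [ka - 1] else []).map w = F ∧ (f = true → 1 ≤ j) := by
    rcases cF with h | ⟨c, C', h1, h2⟩
    · exact ⟨false, by simp [h], by simp⟩
    · have hj1 : j = C'.length + 1 := by rw [hj, h1]; simp
      refine ⟨true, ?_, fun _ => by omega⟩
      have h3 : w (ka - 1) = c := by
        have : ka - 1 = P.length + C'.length := by omega
        rw [this, wC _ (by omega), h1, List.getD_eq_getElem?_getD, List.getElem?_append_right (le_refl _)]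
        simp
      simp [h3, h2]
  set rt := rtOf ka kb j e f with hrt
  have rt_eq : rt = List.range P.length ++ ((bif e then [ka - j] else []) ++
      ((List.range Q.length).map (fun t => ka + t) ++ (bif f then [ka - 1] else []))) := by
    rw [hrt]
    unfold rtOf
    have e1 : Nat.sub ka j = P.length := by change ka - j = _; omega
    have e2 : Nat.sub kb j = Q.length := by change kb - j = _; omega
    have e3 : ka - j = P.length := by omega
    rw [e1, e2, idx_eq (by omega), idx_eq (by omega), e3]
    rfl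
  have rt_map : rt.map w = P ++ E ++ Q ++ F := by
    rw [rt_eq, List.map_append, List.map_append, List.map_append, eE, fE, List.map_map]
    have e1 : (List.range P.length).map w = P := by
      conv_rhs => rw [map_getD (l := P) x0]
      apply List.map_congr_left
      intro u hu
      exact wP u (by simpa using hu)
    have e2 : (List.range Q.length).map (w ∘ fun t => ka + t) = Q := by
      conv_rhs => rw [map_getD (l := Q) x0]
      apply List.map_congr_left
      intro u _
      exact wQ u
    rw [e1, e2, List.append_assoc, List.append_assoc]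
  have rt_nd : rt.Nodup := List.Nodup.of_map w (by rw [rt_map]; exact hnd)
  have rt_len : rt.length = (P ++ E ++ Q ++ F).length := by rw [← rt_map, List.length_map]
  have rt1' : ∀ u ∈ rt, u < ka + kb - j := by
    intro u hu
    rw [rt_eq, List.mem_append, List.mem_append, List.mem_append] at hu
    rcases hu with hu | hu | hu | hu
    · have := List.mem_range.1 hu
      omega
    · cases e with
      | false => simp at hu
      | true =>
        have := eC rfl
        simp at hu
        omega
    · simp at hu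
      omega
    · cases f with
      | false => simp at hu
      | true =>
        have := fC rfl
        simp at hu
        omega
  have rt2' : ∀ u < ka + kb - j, u ∉ rt → ka - j ≤ u ∧ u < ka := by
    intro u hu hn
    rw [rt_eq, List.mem_append, List.mem_append, List.mem_append] at hn
    obtain ⟨n1, n2⟩ := not_or.1 hn
    obtain ⟨_, n3⟩ := not_or.1 n2
    obtain ⟨n3, _⟩ := not_or.1 n3
    rw [List.mem_range] at n1
    refine ⟨by omega, ?_⟩
    by_contra h
    rw [not_lt] at h
    apply n3
    rw [List.mem_map]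
    exact ⟨u - ka, by rw [List.mem_range]; omega, by omega⟩
  have lnz : 1 ≤ (P ++ E ++ Q ++ F).length := List.length_pos_iff.2 hne
  -- the check
  obtain ⟨a, n, i, hai, hin, hnP, hchk⟩ := hD.glue ka lA1 lA4 ra hra
  obtain ⟨lk, hlk, _⟩ := hD.data kb lB1 lB4
  have hnum := num_of_chkD hlk
  unfold chk at hchk
  rw [allB_iff] at hchk
  have c1 := hchk kb (by interval_cases kb <;> simp)
  rw [Bool.or_eq_true, allB_iff] at c1
  have c2 := (c1.resolve_left (by
    intro h
    have := Nat.le_of_ble_eq_true h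
    have := hD.K
    change D.K + 1 ≤ kb at *
    omega)) j (by
      have : j ≤ 4 := by omega
      interval_cases j <;> simp)
  rw [Bool.or_eq_true, Bool.or_eq_true, Bool.or_eq_true] at c2
  have hK := hD.K
  have c3 : chk1 D ka a n kb j = true := by
    rcases c2 with ((h | h) | h) | h
    · have h' : ka + 1 ≤ j := Nat.le_of_ble_eq_true h
      omega
    · have h' : kb + 1 ≤ j := Nat.le_of_ble_eq_true h
      omega
    · have h' : D.K + 1 ≤ ka + kb - j - j := Nat.le_of_ble_eq_true h
      simp only [List.length_append] at h4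
      omega
    · exact h
  unfold chk1 at c3
  rw [force_simp, allB_iff] at c3
  have c4 := c3 e (by cases e <;> simp)
  rw [allB_iff] at c4
  have c5 := c4 f (by cases f <;> simp)
  unfold chk2 at c5
  rw [force_simp, ← hrt, rt_len] at c5
  simp only [Bool.or_eq_true, Bool.and_eq_true] at c5
  set l := i * D.P + rb with hl
  have hrbP : rb < D.P := by omega
  have tA' : Typ2 D G A ka w (a + i) := by
    rw [← hai]; exact typ2_congr tA wA
  have tB' : Typ2 D G B kb (fun t => w (bi ka j t)) rb := typ2_congr tB wB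
  have dis : ∀ u v, A.Adj u v → B.Adj u v → False := fun u v h1 h2 => by
    have := (disjoint_iff_inf_le.1 hdis) (show (A ⊓ B).Adj u v from ⟨h1, h2⟩)
    simp at this
  have sit := sit_of_typ (w := w) hA hB dis ha inj (by omega) (by omega) (show j ≤ ka by omega)
    (show j ≤ kb by omega) hin hnP hrb (by omega) tA'.1 tB'.1
  have hconf := conf_sound sit
  have c6 : Nat.beq (cov (fun c => RF D ka a n kb j rt (dec c)) (D.trie (P ++ E ++ Q ++ F).length)
      (Nat.xor (spB D n (ones D kb)) (Nat.land (spB D n (ones D kb)) (conf D ka a n kb j)))) 0 = true := by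
    rcases c5 with (⟨h1, h2⟩ | ⟨h1, h2⟩) | h
    · exfalso
      have hj0 : j = 0 := Nat.eq_of_beq_eq_true h1
      rcases h2 with h2 | h2
      · have := eC h2; omega
      · have := fC h2; omega
    · exfalso
      have hj1 : j = 1 := Nat.eq_of_beq_eq_true h1
      obtain ⟨he, hf⟩ := h2
      subst he; subst hf
      have : ka - j = ka - 1 := by rw [hj1]
      rw [rt_eq, this] at rt_nd
      simp [List.nodup_append] at rt_nd
    · rcases h with (h | h) | h
      · have := Nat.eq_of_beq_eq_true h
        omega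
      · have h' : D.K + 1 ≤ (P ++ E ++ Q ++ F).length := Nat.le_of_ble_eq_true h
        omega
      · exact h
  have htodo : (Nat.xor (spB D n (ones D kb)) (Nat.land (spB D n (ones D kb)) (conf D ka a n kb j))).testBit l
      = true := by
    rw [testBit_xor, testBit_land, hconf, hl, testBit_spB hin hrbP, testBit_ones hrb]
    rfl
  obtain ⟨z, hz, hz1⟩ := cov_sound (beq_zero (l := l) c6) htodo
  obtain ⟨lr, hlr, hlr'⟩ := hD.data _ lnz h4
  obtain ⟨r, hr, hf⟩ := exists_type hlr hlr' hz
  have cong : ∀ t, t < rt.length → w (rt.getD t 0) = (P ++ E ++ Q ++ F).getD t x0 := by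
    intro t ht
    rw [← rt_map, List.getD_eq_getElem rt _ ht, List.getD_eq_getElem (rt.map w) _ (by simpa using ht),
      List.getElem_map]
  refine ⟨r, hr, fun fc hfc => ?_, fun fc hfc => ?_⟩
  · have hb := hz1 fc (hf fc hfc)
    have hR := RF_inR hb
    rw [← rt_len]
    refine holds_congr cong hR ?_
    by_cases hcol : ∃ p, dec fc = .col p
    · obtain ⟨p, hp⟩ := hcol
      rw [hp]
      rw [hp] at hb
      refine rCol_sound inj (by omega) (by omega) (show j ≤ ka by omega) (show j ≤ kb by omega) hin hnP hrb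
        (by omega) ?_ ?_ ?_ rt_nd rt1' rt2' (fun q hq => typ_col tA'.1 q hq) (fun q hq => typ_col tB'.1 q hq) hb
      · intro u hu
        rw [← wA u hu, List.getD_eq_getElem _ _ hu]
        exact sA _ (List.getElem_mem _)
      · intro t ht
        rw [← wB t ht, List.getD_eq_getElem _ _ ht]
        exact sB _ (List.getElem_mem _)
      · intro v hv1 hv2
        obtain ⟨m, hm, hm'⟩ := List.getElem_of_mem (hsh v hv1 hv2)
        refine ⟨P.length + m, by omega, by omega, ?_⟩
        rw [wC m hm, List.getD_eq_getElem _ _ hm, hm']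
    · exact RF_sound sit rt_nd rt1' (not_exists.1 hcol) hb
  · rw [← rt_len]
    exact RF_inR (hz1 fc (hf fc hfc))

/-! ## Every disc has a type -/

theorem typ_aux {D : Dat} (hD : Good D) {G H : SimpleGraph V} {l : List V} (h : Disc H l) (hG : H ≤ G)
    (ha : TrianglesApart G 4) (x0 : V) :
    l.Nodup ∧ 1 ≤ l.length ∧ l.length ≤ 4 ∧ (∀ v ∈ l, v ∈ H.support) ∧
      ∃ r < D.num l.length, Typ2 D G H l.length (fun i => l.getD i x0) r := by
  induction h with
  | edge a b hab =>
    refine ⟨by simpa using hab, by simp, by simp, ?_, typ_edge hD hab x0⟩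
    intro v hv
    simp only [List.mem_cons, List.not_mem_nil, or_false] at hv
    rcases hv with rfl | rfl
    · exact ⟨b, by simp [SimpleGraph.edge_adj, hab]⟩
    · exact ⟨a, by simp [SimpleGraph.edge_adj, hab.symm]⟩
  | turn H a l _ ih =>
    obtain ⟨hn, h1, h4, hs, r, hr, ht⟩ := ih hG
    refine ⟨?_, by simp, by simpa using h4, ?_, typ_turn hD hG x0 h4 hr ht⟩
    · exact (List.perm_append_singleton a l).nodup_iff.2 hn
    · intro v hv
      exact hs v ((List.perm_append_singleton a l).mem_iff.1 hv)
  | forget H l m _ hsub hne ih =>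
    obtain ⟨hn, h1, h4, hs, r, hr, ht⟩ := ih hG
    exact ⟨hsub.nodup hn, List.length_pos_iff.2 hne, hsub.length_le.trans h4, fun v hv => hs v (hsub.subset hv),
      typ_forget hD hG x0 hsub hne h1 h4 hr ht⟩
  | glue A B P C Q E F _ _ hdis hsh hE hF hnd hne h4 ihA ihB =>
    have hA : A ≤ G := le_sup_left.trans hG
    have hB : B ≤ G := le_sup_right.trans hG
    obtain ⟨ndA, lA1, lA4, sA, ra, hra, tA⟩ := ihA hA
    obtain ⟨ndB, lB1, lB4, sB, rb, hrb, tB⟩ := ihB hB
    refine ⟨hnd, List.length_pos_iff.2 hne, h4, ?_, typ_glue hD x0 hA hB ha hdis hsh hE hF hnd hne h4 ndA lA1 lA4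
      sA hra tA ndB lB1 lB4 sB hrb tB⟩
    intro v hv
    have sub1 : A.support ⊆ (A ⊔ B).support := SimpleGraph.support_mono le_sup_left
    have sub2 : B.support ⊆ (A ⊔ B).support := SimpleGraph.support_mono le_sup_right
    simp only [List.mem_append] at hv
    rcases hv with ((hv | hv) | hv) | hv
    · exact sub1 (sA v (by simp [hv]))
    · exact sub1 (sA v (by simp [List.mem_of_mem_take (hE.subset hv)]))
    · exact sub2 (sB v (by simp [hv]))
    · have := List.mem_of_mem_take (hF.subset hv)
      exact sub2 (sB v (by simp [List.mem_reverse.1 this]))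

/-- Every disc has a type. -/
theorem typ_of_disc {D : Dat} (hD : Good D) {G H : SimpleGraph V} {l : List V} (h : Disc H l) (hG : H ≤ G)
    (ha : TrianglesApart G 4) (x0 : V) :
    l.Nodup ∧ 1 ≤ l.length ∧ l.length ≤ 4 ∧ (∀ v ∈ l, v ∈ H.support) ∧
      ∃ r < D.num l.length, Typ D G H l.length (fun i => l.getD i x0) r := by
  obtain ⟨h1, h2, h3, h4, r, hr, h5⟩ := typ_aux hD h hG ha x0
  exact ⟨h1, h2, h3, h4, r, hr, h5.1⟩

theorem colorable_of_disc {D : Dat} (hD : Good D) {G : SimpleGraph V} {l : List V} (h : Disc G l)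
    (ha : TrianglesApart G 4) : G.Colorable 3 := by
  by_cases hV : Nonempty V
  · obtain ⟨x0⟩ := hV
    obtain ⟨_, h2, h3, _, r, hr, h5⟩ := typ_aux hD h le_rfl ha x0
    obtain ⟨l', hl', _⟩ := hD.data _ h2 h3
    obtain ⟨p, hp⟩ := exists_col hl' hr
    obtain ⟨g, g1, g2, _⟩ := typ_col h5.1 p hp
    exact ⟨SimpleGraph.Coloring.mk (fun v => (⟨g v, g1 v⟩ : Fin 3)) fun {u v} huv e =>
      g2 u v huv (by simpa using congrArg Fin.val e)⟩
  · have : IsEmpty V := not_nonempty_iff.1 hV
    exact ⟨SimpleGraph.Coloring.mk (fun v => (isEmptyElim v : Fin 3)) fun {u} => isEmptyElim u⟩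

end Pool.Agent.Lib.MP_8e2345_co.B4
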