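import Mathlib
import Pool.Agent.Lib.MP_8e2345_co.B4.Defs
import Pool.Agent.Lib.MP_8e2345_co.B4.Chk

set_option autoImplicit false

/-!
# The meaning of the facts about a disc
-/

namespace Pool.Agent.Lib.MP_8e2345_co.B4

open scoped Classical

variable {V : Type}

/-- Some vertex of `T` is at distance at most `t` from `x`. -/
def Near (G : SimpleGraph V) (x : V) (T : Finset V) (t : ℕ) : Prop := ∃ y ∈ T, G.edist x y ≤ (t : ℕ∞)

/-- `T` is the vertex set of a path of `H` of length two from `x` to `y`. -/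
def PathT (H : SimpleGraph V) (x y : V) (T : Finset V) : Prop := ∃ v, H.Adj x v ∧ H.Adj v y ∧ T = {x, v, y}

/-- Two distinct triangles of `H` near `x` and `y`. -/
def Two (G H : SimpleGraph V) (x y : V) (t : ℕ) : Prop :=
  ∃ T S : Finset V, T ≠ S ∧ H.IsNClique 3 T ∧ H.IsNClique 3 S ∧ ∃ a b, a + b ≤ t ∧ Near G x T a ∧ Near G y S b

/-- If `x y` is an edge of `G` but not of `H`, then `H` has a path of length two from `x` to `y` near `z`. -/
def Pth (G H : SimpleGraph V) (x y z : V) (t : ℕ) : Prop :=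
  G.Adj x y → ¬H.Adj x y → ∃ T, PathT H x y T ∧ Near G z T t

/-- `H` has a colouring with the colours `q i` of the corners `c i`, `i < k`. -/
def ColQ (H : SimpleGraph V) (k : ℕ) (c : ℕ → V) (q : ℕ → ℕ) : Prop :=
  ∃ g : V → ℕ, (∀ v, g v < 3) ∧ (∀ u v, H.Adj u v → g u ≠ g v) ∧ ∀ i, i < k → g (c i) = q i

/-- The meaning of the facts about the disc `H` in the graph `G`, with the corners `c 0`, ..., `c (k - 1)`. -/
def Holds (G H : SimpleGraph V) (k : ℕ) (c : ℕ → V) : Fact → Prop
  | .adj i j => H.Adj (c i) (c j)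
  | .d2 i j => G.edist (c i) (c j) ≤ ((2 : ℕ) : ℕ∞)
  | .d3 i j => G.edist (c i) (c j) ≤ ((3 : ℕ) : ℕ∞)
  | .chy i j => G.Adj (c i) (c j) → ¬H.Adj (c i) (c j) → ∃ T, PathT H (c i) (c j) T
  | .tri i t => ∃ T, H.IsNClique 3 T ∧ Near G (c i) T t
  | .two i j t => Two G H (c i) (c j) t
  | .pth i j r t => Pth G H (c i) (c j) (c r) t
  | .col p => ColQ H k c (dig p)
  | .non => False

/-- The disc `H` with the corners `c 0`, ..., `c (k - 1)` has the type `r`. -/
def Typ (D : Dat) (G H : SimpleGraph V) (k : ℕ) (c : ℕ → V) (r : ℕ) : Prop :=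
  ∀ f, (D.tab k f).testBit r = true → Holds G H k c (dec f)

/-- The side `X`. -/
def side (A B : SimpleGraph V) (X : Bool) : SimpleGraph V := ifB X A B

/-- The situation of a glueing in the lane `l`, for distances and triangles. -/
structure Sit (D : Dat) (ka a n kb j : ℕ) (G A B : SimpleGraph V) (w : ℕ → V) (l : ℕ) : Prop where
  hA : A ≤ G
  hB : B ≤ G
  dis : ∀ u v, A.Adj u v → B.Adj u v → False
  apart : TrianglesApart G 4
  inj : ∀ u v, u < ka + kb - j → v < ka + kb - j → w u = w v → u = v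
  ka5 : ka ≤ 5
  kb5 : kb ≤ 5
  jka : j ≤ ka
  jkb : j ≤ kb
  adj : ∀ X u v, isX ka j X u = true → isX ka j X v = true → u < ka + kb - j → v < ka + kb - j → u ≠ v →
    (oD D ka a n kb j X 1 u v).testBit l = true → (side A B X).Adj (w u) (w v)
  dst : ∀ X t u v, t ≤ 3 → isX ka j X u = true → isX ka j X v = true → u < ka + kb - j → v < ka + kb - j →
    (oD D ka a n kb j X t u v).testBit l = true → G.edist (w u) (w v) ≤ (t : ℕ∞)
  tri : ∀ X t u, t ≤ 3 → isX ka j X u = true → u < ka + kb - j →
    (oT D ka a n kb j X t u).testBit l = true → ∃ T, (side A B X).IsNClique 3 T ∧ Near G (w u) T t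
  two : ∀ X t u v, t ≤ 3 → isX ka j X u = true → isX ka j X v = true → u < ka + kb - j → v < ka + kb - j →
    (oM D ka a n kb j X t u v).testBit l = true → Two G (side A B X) (w u) (w v) t
  pth : ∀ X t i x u, t ≤ 3 → isX ka j X i = true → isX ka j X x = true → isX ka j X u = true →
    i < ka + kb - j → x < ka + kb - j → u < ka + kb - j → i ≠ x →
    (oN D ka a n kb j X t i x u).testBit l = true → Pth G (side A B X) (w i) (w x) (w u) t

/-! ## Simple rules -/

@[simp] theorem ifB_true {α : Type} (x y : α) : ifB true x y = x := rfl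
@[simp] theorem ifB_false {α : Type} (x y : α) : ifB false x y = y := rfl
@[simp] theorem andB_eq (x y : Bool) : andB x y = (x && y) := by cases x <;> rfl
@[simp] theorem force_simp {α : Type} (n : ℕ) (k : ℕ → α) : force n k = k n := rfl

theorem ifB_eq {α : Type} (b : Bool) (x y : α) : ifB b x y = if b = true then x else y := by cases b <;> rfl

theorem testBit_lor (x y l : ℕ) : (Nat.lor x y).testBit l = (x.testBit l || y.testBit l) := Nat.testBit_or x y l
theorem testBit_land (x y l : ℕ) : (Nat.land x y).testBit l = (x.testBit l && y.testBit l) := Nat.testBit_and x y l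
theorem testBit_xor (x y l : ℕ) : (Nat.xor x y).testBit l = (x.testBit l != y.testBit l) := Nat.testBit_xor x y l

theorem testBit_ifB {b : Bool} {x y l : ℕ} (h : (ifB b x y).testBit l = true) :
    (b = true ∧ x.testBit l = true) ∨ (b = false ∧ y.testBit l = true) := by cases b <;> simp_all

/-- A bit of `ifB b x 0`. -/
theorem testBit_ifB0 {b : Bool} {x l : ℕ} (h : (ifB b x 0).testBit l = true) : b = true ∧ x.testBit l = true := by
  cases b <;> simp_all

/-- A bit of `ifB b 0 x`. -/
theorem testBit_ifB1 {b : Bool} {x l : ℕ} (h : (ifB b 0 x).testBit l = true) : b = false ∧ x.testBit l = true := by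
  cases b <;> simp_all

theorem testBit_lz {x k l : ℕ} (h : (lz x k).testBit l = true) : x.testBit l = true ∧ k.testBit l = true := by
  unfold lz at h
  obtain ⟨_, h⟩ := testBit_ifB1 h
  rw [testBit_land] at h
  simpa using h

theorem testBit_orL {s : List ℕ} {f : ℕ → ℕ} {l : ℕ} (h : (orL s f).testBit l = true) :
    ∃ p ∈ s, (f p).testBit l = true := by
  induction s with
  | nil => simp [orL] at h
  | cons p s ih =>
    have e : orL (p :: s) f = Nat.lor (f p) (orL s f) := rfl
    rw [e, testBit_lor] at h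
    rcases Bool.or_eq_true _ _ ▸ h with h | h
    · exact ⟨p, by simp, h⟩
    · obtain ⟨q, hq, h⟩ := ih h
      exact ⟨q, by simp [hq], h⟩

theorem testBit_orP {s : List (ℕ × ℕ)} {f : ℕ → ℕ → ℕ} {l : ℕ} (h : (orP s f).testBit l = true) :
    ∃ p ∈ s, (f p.1 p.2).testBit l = true := by
  induction s with
  | nil => simp [orP] at h
  | cons p s ih =>
    have e : orP (p :: s) f = Nat.lor (f p.1 p.2) (orP s f) := rfl
    rw [e, testBit_lor] at h
    rcases Bool.or_eq_true _ _ ▸ h with h | h
    · exact ⟨p, by simp, h⟩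
    · obtain ⟨q, hq, h⟩ := ih h
      exact ⟨q, by simp [hq], h⟩

theorem allB_iff {α : Type} {s : List α} {f : α → Bool} : allB s f = true ↔ ∀ p ∈ s, f p = true := by
  induction s with
  | nil => simp [allB]
  | cons p s ih =>
    have e : allB (p :: s) f = andB (f p) (allB s f) := rfl
    rw [e]
    simp [ih]

theorem mem_idx {n p : ℕ} (h : p ∈ idx n) : p < n := by
  unfold idx at h
  simp only [ifB_eq, Nat.beq_eq] at h
  repeat' split at h
  all_goals first | (subst_vars; simp at h; omega) | simp at h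

theorem idx_eq {n : ℕ} (h : n ≤ 9) : idx n = List.range n := by
  interval_cases n <;> rfl

theorem mem_shL {ka j u : ℕ} (h : u ∈ shL ka j) : u < ka ∧ ka - j ≤ u := by
  unfold shL at h
  rw [List.mem_filter] at h
  exact ⟨mem_idx h.1, Nat.le_of_ble_eq_true h.2⟩

theorem near_mono {G : SimpleGraph V} {x : V} {T : Finset V} {s t : ℕ} (h : s ≤ t) (hn : Near G x T s) :
    Near G x T t := by
  obtain ⟨y, hy, h1⟩ := hn
  exact ⟨y, hy, h1.trans (by exact_mod_cast h)⟩

theorem near_trans {G : SimpleGraph V} {x y : V} {T : Finset V} {a b : ℕ} (h : G.edist x y ≤ (b : ℕ∞))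
    (hn : Near G x T a) : Near G y T (a + b) := by
  obtain ⟨z, hz, h1⟩ := hn
  refine ⟨z, hz, ?_⟩
  calc G.edist y z ≤ G.edist y x + G.edist x z := SimpleGraph.edist_triangle
    _ ≤ (b : ℕ∞) + (a : ℕ∞) := by
      rw [SimpleGraph.edist_comm]; exact add_le_add h h1
    _ = ((a + b : ℕ) : ℕ∞) := by push_cast; ring

end Pool.Agent.Lib.MP_8e2345_co.B4
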