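import Pool.Agent.Lib.MP_8e2345_co.B4.Sem
import Pool.Agent.Lib.MP_8e2345_co.B4.Spread

set_option autoImplicit false

/-!
# The meaning of the facts of one disc
-/

namespace Pool.Agent.Lib.MP_8e2345_co.B4

open scoped Classical

variable {V : Type} {D : Dat} {G H A B : SimpleGraph V} {k r : ℕ} {c w : ℕ → V}

/-! ## The codes of the facts -/

theorem dec_adj {i x : ℕ} (hi : i < 5) (hx : x < 5) (hn : i ≠ x) : dec (cAdj i x) = .adj (min i x) (max i x) := by
  interval_cases i <;> interval_cases x <;> first | rfl | exact absurd rfl hn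

theorem dec_d2 {i x : ℕ} (hi : i < 5) (hx : x < 5) (hn : i ≠ x) : dec (cD2 i x) = .d2 (min i x) (max i x) := by
  interval_cases i <;> interval_cases x <;> first | rfl | exact absurd rfl hn

theorem dec_d3 {i x : ℕ} (hi : i < 5) (hx : x < 5) (hn : i ≠ x) : dec (cD3 i x) = .d3 (min i x) (max i x) := by
  interval_cases i <;> interval_cases x <;> first | rfl | exact absurd rfl hn

theorem dec_chy {i x : ℕ} (hi : i < 5) (hx : x < 5) (hn : i ≠ x) : dec (cChy i x) = .chy (min i x) (max i x) := by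
  interval_cases i <;> interval_cases x <;> first | rfl | exact absurd rfl hn

theorem dec_tri {i t : ℕ} (hi : i < 5) (ht : t ≤ 3) : dec (cTri i t) = .tri i t := by
  interval_cases i <;> interval_cases t <;> rfl

theorem dec_two {i x t : ℕ} (hi : i < 5) (hx : x < 5) (ht : t ≤ 3) :
    dec (cTwo i x t) = .two (min i x) (max i x) t := by
  interval_cases i <;> interval_cases x <;> interval_cases t <;> rfl

theorem dec_pth {i x u t : ℕ} (hi : i < 5) (hx : x < 5) (hn : i ≠ x) (hu : u < 5) (ht : t ≤ 3) :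
    dec (cPth i x u t) = .pth (min i x) (max i x) u t := by
  interval_cases i <;> interval_cases x <;>
    first | exact absurd rfl hn | (interval_cases u <;> interval_cases t <;> rfl)

/-! ## Symmetries -/

theorem pathT_symm {x y : V} {T : Finset V} (h : PathT H x y T) : PathT H y x T := by
  obtain ⟨v, h1, h2, rfl⟩ := h
  refine ⟨v, h2.symm, h1.symm, ?_⟩
  ext z
  simp only [Finset.mem_insert, Finset.mem_singleton]
  tauto

theorem two_symm {x y : V} {t : ℕ} (h : Two G H x y t) : Two G H y x t := by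
  obtain ⟨T, S, hn, hT, hS, a, b, hab, h1, h2⟩ := h
  exact ⟨S, T, hn.symm, hS, hT, b, a, by omega, h2, h1⟩

theorem pth_symm {x y z : V} {t : ℕ} (h : Pth G H x y z t) : Pth G H y x z t := by
  intro h1 h2
  obtain ⟨T, hT, h3⟩ := h h1.symm fun h => h2 h.symm
  exact ⟨T, pathT_symm hT, h3⟩

theorem two_right {x y z : V} {s b t : ℕ} (h : Two G H x y s) (hz : G.edist y z ≤ (b : ℕ∞)) (ht : s + b ≤ t) :
    Two G H x z t := by
  obtain ⟨T, S, hn, hT, hS, a, e, hab, h1, h2⟩ := h
  exact ⟨T, S, hn, hT, hS, a, e + b, by omega, h1, near_trans hz h2⟩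

theorem two_left {x y z : V} {s b t : ℕ} (h : Two G H x y s) (hz : G.edist x z ≤ (b : ℕ∞)) (ht : s + b ≤ t) :
    Two G H z y t :=
  two_symm (two_right (two_symm h) hz ht)

/-! ## The facts of one type -/

theorem sadj_sound (h : Typ D G H k c r) (hk : k ≤ 5) {i x : ℕ} (hi : i < k) (hx : x < k) (hn : i ≠ x)
    (hb : (D.tab k (cAdj i x)).testBit r = true) : H.Adj (c i) (c x) := by
  have h1 := h _ hb
  rw [dec_adj (by omega) (by omega) hn] at h1
  rcases Nat.lt_or_ge i x with hl | hl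
  · rwa [min_eq_left hl.le, max_eq_right hl.le] at h1
  · rw [min_eq_right hl, max_eq_left hl] at h1
    exact SimpleGraph.Adj.symm h1

theorem sd2_sound (h : Typ D G H k c r) (hk : k ≤ 5) {i x : ℕ} (hi : i < k) (hx : x < k) (hn : i ≠ x)
    (hb : (D.tab k (cD2 i x)).testBit r = true) : G.edist (c i) (c x) ≤ ((2 : ℕ) : ℕ∞) := by
  have h1 := h _ hb
  rw [dec_d2 (by omega) (by omega) hn] at h1
  rcases Nat.lt_or_ge i x with hl | hl
  · rwa [min_eq_left hl.le, max_eq_right hl.le] at h1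
  · rw [min_eq_right hl, max_eq_left hl] at h1
    rw [SimpleGraph.edist_comm]
    exact h1

theorem sd3_sound (h : Typ D G H k c r) (hk : k ≤ 5) {i x : ℕ} (hi : i < k) (hx : x < k) (hn : i ≠ x)
    (hb : (D.tab k (cD3 i x)).testBit r = true) : G.edist (c i) (c x) ≤ ((3 : ℕ) : ℕ∞) := by
  have h1 := h _ hb
  rw [dec_d3 (by omega) (by omega) hn] at h1
  rcases Nat.lt_or_ge i x with hl | hl
  · rwa [min_eq_left hl.le, max_eq_right hl.le] at h1
  · rw [min_eq_right hl, max_eq_left hl] at h1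
    rw [SimpleGraph.edist_comm]
    exact h1

theorem schy_sound (h : Typ D G H k c r) (hk : k ≤ 5) {i x : ℕ} (hi : i < k) (hx : x < k) (hn : i ≠ x)
    (hb : (D.tab k (cChy i x)).testBit r = true) :
    G.Adj (c i) (c x) → ¬H.Adj (c i) (c x) → ∃ T, PathT H (c i) (c x) T := by
  have h1 := h _ hb
  rw [dec_chy (by omega) (by omega) hn] at h1
  rcases Nat.lt_or_ge i x with hl | hl
  · rwa [min_eq_left hl.le, max_eq_right hl.le] at h1
  · rw [min_eq_right hl, max_eq_left hl] at h1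
    intro h2 h3
    obtain ⟨T, hT⟩ := h1 h2.symm fun h => h3 h.symm
    exact ⟨T, pathT_symm hT⟩

theorem stri_sound (h : Typ D G H k c r) (hk : k ≤ 5) {u t : ℕ} (hu : u < k) (ht : t ≤ 3)
    (hb : (D.tab k (cTri u t)).testBit r = true) : ∃ T, H.IsNClique 3 T ∧ Near G (c u) T t := by
  have h1 := h _ hb
  rwa [dec_tri (by omega) ht] at h1

theorem stwo_sound (h : Typ D G H k c r) (hk : k ≤ 5) {i x t : ℕ} (hi : i < k) (hx : x < k) (ht : t ≤ 3)
    (hb : (D.tab k (cTwo i x t)).testBit r = true) : Two G H (c i) (c x) t := by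
  have h1 := h _ hb
  rw [dec_two (by omega) (by omega) ht] at h1
  rcases Nat.lt_or_ge i x with hl | hl
  · rwa [min_eq_left hl.le, max_eq_right hl.le] at h1
  · rw [min_eq_right hl, max_eq_left hl] at h1
    exact two_symm h1

theorem spth_sound (h : Typ D G H k c r) (hk : k ≤ 5) {i x u t : ℕ} (hi : i < k) (hx : x < k) (hn : i ≠ x)
    (hu : u < k) (ht : t ≤ 3) (hb : (D.tab k (cPth i x u t)).testBit r = true) : Pth G H (c i) (c x) (c u) t := by
  have h1 := h _ hb
  rw [dec_pth (by omega) (by omega) hn (by omega) ht] at h1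
  rcases Nat.lt_or_ge i x with hl | hl
  · rwa [min_eq_left hl.le, max_eq_right hl.le] at h1
  · rw [min_eq_right hl, max_eq_left hl] at h1
    exact pth_symm h1

/-- The cases of `sD`. -/
theorem sD_cases {t i x : ℕ} (hb : (sD D k t i x).testBit r = true) :
    i = x ∨ (i ≠ x ∧ 1 ≤ t ∧ (D.tab k (cAdj i x)).testBit r = true) ∨
      (i ≠ x ∧ 2 ≤ t ∧ (D.tab k (cD2 i x)).testBit r = true) ∨
      (i ≠ x ∧ 3 ≤ t ∧ (D.tab k (cD3 i x)).testBit r = true) := by
  unfold sD at hb
  rcases testBit_ifB hb with ⟨h1, _⟩ | ⟨h1, hb⟩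
  · exact Or.inl (Nat.eq_of_beq_eq_true h1)
  · have hn : i ≠ x := Nat.ne_of_beq_eq_false h1
    obtain ⟨h2, hb⟩ := testBit_ifB1 hb
    have ht : t ≠ 0 := Nat.ne_of_beq_eq_false h2
    rw [testBit_lor, testBit_lor] at hb
    rcases Bool.or_eq_true _ _ ▸ hb with hb | hb
    · exact Or.inr (Or.inl ⟨hn, by omega, hb⟩)
    · rcases Bool.or_eq_true _ _ ▸ hb with hb | hb
      · obtain ⟨h3, hb⟩ := testBit_ifB0 hb
        exact Or.inr (Or.inr (Or.inl ⟨hn, Nat.le_of_ble_eq_true h3, hb⟩))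
      · obtain ⟨h3, hb⟩ := testBit_ifB0 hb
        exact Or.inr (Or.inr (Or.inr ⟨hn, Nat.le_of_ble_eq_true h3, hb⟩))

theorem sD_adj (h : Typ D G H k c r) (hk : k ≤ 5) {i x : ℕ} (hi : i < k) (hx : x < k) (hn : i ≠ x)
    (hb : (sD D k 1 i x).testBit r = true) : H.Adj (c i) (c x) := by
  rcases sD_cases hb with h1 | ⟨_, _, hb⟩ | ⟨_, h2, _⟩ | ⟨_, h2, _⟩
  · exact absurd h1 hn
  · exact sadj_sound h hk hi hx hn hb
  · omega
  · omega

theorem sD_sound (hH : H ≤ G) (h : Typ D G H k c r) (hk : k ≤ 5) {t i x : ℕ} (ht : t ≤ 3) (hi : i < k) (hx : x < k)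
    (hb : (sD D k t i x).testBit r = true) : G.edist (c i) (c x) ≤ (t : ℕ∞) := by
  have _ := ht
  rcases sD_cases hb with h1 | ⟨hn, h2, hb⟩ | ⟨hn, h2, hb⟩ | ⟨hn, h2, hb⟩
  · subst h1
    rw [SimpleGraph.edist_self]
    exact zero_le
  · have h3 : G.Adj (c i) (c x) := hH (sadj_sound h hk hi hx hn hb)
    rw [SimpleGraph.edist_eq_one_iff_adj.2 h3]
    exact_mod_cast h2
  · exact (sd2_sound h hk hi hx hn hb).trans (by exact_mod_cast h2)
  · exact (sd3_sound h hk hi hx hn hb).trans (by exact_mod_cast h2)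

theorem sX_cases {e : ℕ → ℕ → ℕ} {t u : ℕ} (hb : (sX D k e t u).testBit r = true) :
    ∃ p s, p < k ∧ s ≤ t ∧ (e s p).testBit r = true ∧ (sD D k (t - s) p u).testBit r = true := by
  unfold sX at hb
  obtain ⟨p, hp, hb⟩ := testBit_orL hb
  obtain ⟨s, hs, hb⟩ := testBit_orL hb
  obtain ⟨h1, h2⟩ := testBit_lz hb
  exact ⟨p, s, mem_idx hp, Nat.lt_succ_iff.1 (mem_idx hs), h1, h2⟩

theorem sT_sound (hH : H ≤ G) (h : Typ D G H k c r) (hk : k ≤ 5) {t u : ℕ} (ht : t ≤ 3) (hu : u < k)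
    (hb : (sT D k t u).testBit r = true) : ∃ T, H.IsNClique 3 T ∧ Near G (c u) T t := by
  obtain ⟨p, s, hp, hs, h1, h2⟩ := sX_cases hb
  obtain ⟨T, hT, h3⟩ := stri_sound h hk hp (by omega) h1
  refine ⟨T, hT, ?_⟩
  have h4 := near_trans (sD_sound hH h hk (by omega) hp hu h2) h3
  rwa [Nat.add_sub_cancel' hs] at h4

theorem sM1_sound (hH : H ≤ G) (h : Typ D G H k c r) (hk : k ≤ 5) {t i x : ℕ} (ht : t ≤ 3) (hi : i < k) (hx : x < k)
    (hb : (sM1 D k t i x).testBit r = true) : Two G H (c i) (c x) t := by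
  obtain ⟨p, s, hp, hs, h1, h2⟩ := sX_cases hb
  exact two_right (stwo_sound h hk hi hp (by omega) h1) (sD_sound hH h hk (by omega) hp hx h2) (by omega)

theorem sM_sound (hH : H ≤ G) (h : Typ D G H k c r) (hk : k ≤ 5) {t i x : ℕ} (ht : t ≤ 3) (hi : i < k) (hx : x < k)
    (hb : (sM D k t i x).testBit r = true) : Two G H (c i) (c x) t := by
  obtain ⟨p, s, hp, hs, h1, h2⟩ := sX_cases hb
  exact two_left (sM1_sound hH h hk (by omega) hp hx h1) (sD_sound hH h hk (by omega) hp hi h2) (by omega)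

theorem sN_sound (hH : H ≤ G) (h : Typ D G H k c r) (hk : k ≤ 5) {t i x u : ℕ} (ht : t ≤ 3) (hi : i < k) (hx : x < k)
    (hn : i ≠ x) (hu : u < k) (hb : (sN D k t i x u).testBit r = true) : Pth G H (c i) (c x) (c u) t := by
  obtain ⟨p, s, hp, hs, h1, h2⟩ := sX_cases hb
  have h3 : Pth G H (c i) (c x) (c p) s := by
    rcases testBit_ifB h1 with ⟨e1, h1⟩ | ⟨_, h1⟩
    · obtain ⟨e2, h1⟩ := testBit_ifB0 h1
      have e1 := Nat.eq_of_beq_eq_true e1
      have e2 := Nat.eq_of_beq_eq_true e2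
      subst e1 e2
      intro h4 h5
      obtain ⟨T, hT⟩ := schy_sound h hk hi hx hn h1 h4 h5
      refine ⟨T, hT, c p, ?_, by rw [SimpleGraph.edist_self]; exact zero_le⟩
      obtain ⟨v, _, _, rfl⟩ := hT
      simp
    · rcases testBit_ifB h1 with ⟨e1, h1⟩ | ⟨_, h1⟩
      · obtain ⟨e2, h1⟩ := testBit_ifB0 h1
        have e1 := Nat.eq_of_beq_eq_true e1
        have e2 := Nat.eq_of_beq_eq_true e2
        subst e1 e2
        intro h4 h5
        obtain ⟨T, hT⟩ := schy_sound h hk hi hx hn h1 h4 h5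
        refine ⟨T, hT, c p, ?_, by rw [SimpleGraph.edist_self]; exact zero_le⟩
        obtain ⟨v, _, _, rfl⟩ := hT
        simp
      · exact spth_sound h hk hi hx hn hp (by omega) h1
  intro h4 h5
  obtain ⟨T, hT, h6⟩ := h3 h4 h5
  refine ⟨T, hT, ?_⟩
  have h7 := near_trans (sD_sound hH h hk (by omega) hp hu h2) h6
  rwa [Nat.add_sub_cancel' hs] at h7

/-! ## The corners of the union -/

theorem ib_eq (ka j u : ℕ) : ib ka j u = if ka ≤ u then j + u - ka else ka - 1 - u := by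
  unfold ib
  rw [ifB_eq]
  simp only [Nat.ble_eq]
  rfl

theorem bi_eq (ka j t : ℕ) : bi ka j t = if j ≤ t then ka + t - j else ka - 1 - t := by
  unfold bi
  rw [ifB_eq]
  simp only [Nat.ble_eq]
  rfl

theorem ib_lt {ka kb j u : ℕ} (jkb : j ≤ kb) (h1 : ka - j ≤ u) (h2 : u < ka + kb - j) : ib ka j u < kb := by
  rw [ib_eq]
  split <;> omega

theorem bi_ib {ka j u : ℕ} (jka : j ≤ ka) (h1 : ka - j ≤ u) : bi ka j (ib ka j u) = u := by
  rw [bi_eq, ib_eq]
  split <;> split <;> omega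

theorem isX_true {ka j u : ℕ} (h : isX ka j true u = true) : u < ka := by
  unfold isX at h
  exact Nat.le_of_ble_eq_true h

theorem isX_false {ka j u : ℕ} (h : isX ka j false u = true) : ka - j ≤ u := by
  unfold isX at h
  exact Nat.le_of_ble_eq_true h

/-- The situation of a glueing. -/
theorem sit_of_typ {ka a n kb j i b : ℕ} (hA : A ≤ G) (hB : B ≤ G) (dis : ∀ u v, A.Adj u v → B.Adj u v → False)
    (apart : TrianglesApart G 4) (inj : ∀ u v, u < ka + kb - j → v < ka + kb - j → w u = w v → u = v)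
    (ka5 : ka ≤ 5) (kb5 : kb ≤ 5) (jka : j ≤ ka) (jkb : j ≤ kb) (hi : i < n) (hn : n + 1 ≤ D.P) (hb : b < D.num kb)
    (hk : D.num kb ≤ D.P) (tA : Typ D G A ka w (a + i)) (tB : Typ D G B kb (fun t => w (bi ka j t)) b) :
    Sit D ka a n kb j G A B w (i * D.P + b) := by
  have hbP : b < D.P := by omega
  have spA' : ∀ {T : ℕ}, (spA D a n kb T).testBit (i * D.P + b) = true → T.testBit (a + i) = true :=
    fun h => testBit_spA hi hn hbP hk h
  have spB' : ∀ {T : ℕ}, (spB D n T).testBit (i * D.P + b) = true → T.testBit b = true := fun h => by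
    rwa [testBit_spB hi hbP] at h
  have hib : ∀ {u : ℕ}, ka - j ≤ u → u < ka + kb - j → ib ka j u < kb := fun h1 h2 => ib_lt jkb h1 h2
  have hbi : ∀ {u : ℕ}, ka - j ≤ u → bi ka j (ib ka j u) = u := fun h1 => bi_ib jka h1
  have hne : ∀ {u v : ℕ}, ka - j ≤ u → u < ka + kb - j → ka - j ≤ v → v < ka + kb - j → u ≠ v →
      ib ka j u ≠ ib ka j v := by
    intro u v h1 h2 h3 h4 h5 h6
    apply h5
    rw [← hbi h1, h6, hbi h3]
  refine ⟨hA, hB, dis, apart, inj, ka5, kb5, jka, jkb, ?_, ?_, ?_, ?_, ?_⟩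
  · intro X u v hu hv hu2 hv2 huv h
    cases X
    · have h1 := sD_adj tB kb5 (hib (isX_false hu) hu2) (hib (isX_false hv) hv2)
        (hne (isX_false hu) hu2 (isX_false hv) hv2 huv) (spB' h)
      simp only [hbi (isX_false hu), hbi (isX_false hv)] at h1
      exact h1
    · exact sD_adj tA ka5 (isX_true hu) (isX_true hv) huv (spA' h)
  · intro X t u v ht hu hv hu2 hv2 h
    cases X
    · have h1 := sD_sound hB tB kb5 ht (hib (isX_false hu) hu2) (hib (isX_false hv) hv2) (spB' h)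
      simp only [hbi (isX_false hu), hbi (isX_false hv)] at h1
      exact h1
    · exact sD_sound hA tA ka5 ht (isX_true hu) (isX_true hv) (spA' h)
  · intro X t u ht hu hu2 h
    cases X
    · have h1 := sT_sound hB tB kb5 ht (hib (isX_false hu) hu2) (spB' h)
      simp only [hbi (isX_false hu)] at h1
      exact h1
    · exact sT_sound hA tA ka5 ht (isX_true hu) (spA' h)
  · intro X t u v ht hu hv hu2 hv2 h
    cases X
    · have h1 := sM_sound hB tB kb5 ht (hib (isX_false hu) hu2) (hib (isX_false hv) hv2) (spB' h)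
      simp only [hbi (isX_false hu), hbi (isX_false hv)] at h1
      exact h1
    · exact sM_sound hA tA ka5 ht (isX_true hu) (isX_true hv) (spA' h)
  · intro X t i' x u ht hi' hx hu hi2 hx2 hu2 hne' h
    cases X
    · have h1 := sN_sound hB tB kb5 ht (hib (isX_false hi') hi2) (hib (isX_false hx) hx2)
        (hne (isX_false hi') hi2 (isX_false hx) hx2 hne') (hib (isX_false hu) hu2) (spB' h)
      simp only [hbi (isX_false hi'), hbi (isX_false hx), hbi (isX_false hu)] at h1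
      exact h1
    · exact sN_sound hA tA ka5 ht (isX_true hi') (isX_true hx) hne' (isX_true hu) (spA' h)

end Pool.Agent.Lib.MP_8e2345_co.B4
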